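import Pool.Agent.Run7.h253.Iso
import Pool.Agent.Helper180.FreeMetric

/-!
# Piece `base`: the free group is a stage

`d x y = FreeGroup.norm (x⁻¹ * y)` is the path metric of a tree (Cayley graph): it satisfies the four
point condition with `δ = 0`.  `ell`: every `g ≠ 1` is loxodromic (cyclic reduction).
`ov`: `comm_small` with `δ = 0` gives `[z,w] m = m`, so `[z,w] = 1`.
`cnt`: `close_of_pos` with `δ = 0`: `f i m` is determined by `d p (f i m) ∈ [d p m - 2*10^6, d p m + 2*10^6]`.
The tree metric is taken from `Pool.Agent.Helper180.FreeMetric` (starting tree).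
-/

set_option autoImplicit false

namespace Run7.h253

open Pool.Agent.Helper180

/-- the tree metric of a free group -/
def fgh (X : Type) [DecidableEq X] : GH (FreeGroup X) 0 where
  d x y := (x⁻¹ * y).norm
  self x := by rw [inv_mul_cancel, FreeGroup.norm_one]
  eq_of x y h := inv_mul_eq_one.1 (FreeGroup.norm_eq_zero.1 h)
  symm x y := by
    rw [← FreeGroup.norm_inv_eq]
    congr 1
    group
  tri x y z := by
    have e : x⁻¹ * z = (x⁻¹ * y) * (y⁻¹ * z) := by group
    rw [e]
    exact FreeGroup.norm_mul_le _ _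
  geo x y t ht := by
    obtain ⟨z, h1, h2⟩ := FreeMetric.exists_initial (x⁻¹ * y) t ht
    refine ⟨x * z, ?_, ?_⟩
    · rw [inv_mul_cancel_left, h1]
    · have e : (x * z)⁻¹ * y = z⁻¹ * (x⁻¹ * y) := by group
      rw [e, h2]
      omega
  hyp x y z w := by
    have e : ∀ a b : FreeGroup X, (x⁻¹ * a)⁻¹ * (x⁻¹ * b) = a⁻¹ * b := by
      intro a b; group
    have h := FreeMetric.gp_hyp (x⁻¹ * y) (x⁻¹ * z) (x⁻¹ * w)
    unfold FreeMetric.gp at h
    rw [e, e, e] at h
    omega

theorem fgh_inv (X : Type) [DecidableEq X] (g x y : FreeGroup X) :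
    (fgh X).d (g * x) (g * y) = (fgh X).d x y := by
  show ((g * x)⁻¹ * (g * y)).norm = (x⁻¹ * y).norm
  congr 1
  group

theorem free_lox {X : Type} [DecidableEq X] {g : FreeGroup X} (hg : g ≠ 1) : Lox (fgh X).d g := by
  refine ⟨1, 1, fun k => ?_⟩
  show k ≤ 1 * ((1⁻¹ * (g ^ k * 1)).norm + 1)
  rw [inv_one, one_mul, one_mul, mul_one]
  rcases Nat.eq_zero_or_pos k with h0 | h0
  · omega
  have h1 : (g ^ k).norm = (FreeGroup.toWord (g ^ k)).length := rfl
  rw [h1, FreeGroup.toWord_pow, FreeGroup.reduceCyclically.reduce_flatten_replicate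
    FreeGroup.isReduced_toWord, if_neg (by omega)]
  have hcore : 1 ≤ (FreeGroup.reduceCyclically g.toWord).length := by
    by_contra hc
    have h2 : FreeGroup.reduceCyclically g.toWord = [] := List.length_eq_zero_iff.1 (by omega)
    have h3 := FreeGroup.reduceCyclically.conj_conjugator_reduceCyclically g.toWord
    rw [h2, List.append_nil] at h3
    apply hg
    rw [← FreeGroup.mk_toWord (x := g), ← h3, ← FreeGroup.mul_mk, ← FreeGroup.inv_mk, mul_inv_cancel]
  have h4 : k * 1 ≤ k * (FreeGroup.reduceCyclically g.toWord).length := Nat.mul_le_mul_left k hcore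
  simp only [List.length_append, List.length_flatten, List.map_replicate, List.sum_replicate,
    smul_eq_mul]
  omega

theorem base_stage (X : Type) (U : Subgroup (FreeGroup X)) (n : ℕ) :
    Nonempty (Stage (FreeGroup X) U n) := by
  classical
  have hinv : ∀ (g x y : FreeGroup X), (fgh X).d (g • x) (g • y) = (fgh X).d x y := fgh_inv X
  refine ⟨{
    d := (fgh X).d
    self := (fgh X).self
    eq_of := (fgh X).eq_of
    symm := (fgh X).symm
    tri := (fgh X).tri
    geo := (fgh X).geo
    hyp := fun x y z w => by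
      have := (fgh X).hyp x y z w
      omega
    inv := fgh_inv X
    ell := fun g _ => by
      by_cases hg : g = 1
      · right
        rw [hg, one_pow]
      · left
        exact free_lox hg
    ov := ?_
    cnt := ?_ }⟩
  · intro z _ w _ _ _ p q hpq h1 h2 h3 h4
    obtain ⟨m, hm, hm'⟩ := (fgh X).geo p q (10 ^ 10) (by omega)
    have c := comm_small (fgh X) hinv z w (p := p) (q := q) (m := m) (R := 2 * 10 ^ 6) h1 h2 h3 h4
      (by omega) (by omega) (by omega)
    have e := (fgh X).eq_of _ _ (show (fgh X).d m ((z * w * z⁻¹ * w⁻¹) • m) = 0 by omega)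
    have e2 : z * w * z⁻¹ * w⁻¹ = 1 := mul_eq_right.1 e.symm
    refine ⟨1, le_rfl, ?_⟩
    rw [pow_one]
    rw [mul_inv_eq_one, mul_inv_eq_iff_eq_mul] at e2
    exact e2
  · intro p q hpq f hf
    obtain ⟨m, hm, hm'⟩ := (fgh X).geo p q (10 ^ 8) (by omega)
    have hval : ∀ i, i ≤ 10 ^ 32 → (fgh X).d p (f i * m) < 10 ^ 9 := by
      intro i hi
      have e1 := (fgh X).tri p (f i * p) (f i * m)
      have e2 := fgh_inv X (f i) p m
      have e3 := (hf i hi).2.1
      omega
    have hmaps : ∀ i ∈ Finset.range (10 ^ 32 + 1),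
        (fun i => (fgh X).d p (f i * m)) i ∈ Finset.range (10 ^ 9) := by
      intro i hi
      rw [Finset.mem_range] at hi ⊢
      exact hval i (by omega)
    obtain ⟨i, hi, j, hj, hij, hv⟩ := Finset.exists_ne_map_eq_of_card_lt_of_maps_to
      (by rw [Finset.card_range, Finset.card_range]; norm_num) hmaps
    rw [Finset.mem_range] at hi hj
    have main : ∀ i j, i ≤ 10 ^ 32 → j ≤ 10 ^ 32 →
        (fgh X).d p (f i * m) = (fgh X).d p (f j * m) → f i = f j := by
      intro i j hi hj hv
      have n1 := shift_near (fgh X) hinv (f i) (p := p) (q := q) (m := m) (R := 2 * 10 ^ 6)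
        (hf i hi).2.1 (hf i hi).2.2 (by omega) (by omega) (by omega)
      have n2 := shift_near (fgh X) hinv (f j) (p := p) (q := q) (m := m) (R := 2 * 10 ^ 6)
        (hf j hj).2.1 (hf j hj).2.2 (by omega) (by omega) (by omega)
      have c := close_of_pos (fgh X) (k := 0) n1 n2 (le_of_eq hv) (le_of_eq hv.symm)
      rw [max_self] at c
      have e := (fgh X).eq_of _ _ (show (fgh X).d (f i • m) (f j • m) = 0 by omega)
      exact mul_right_cancel e
    rcases Nat.lt_or_gt_of_ne hij with h | h
    · exact ⟨i, j, h, by omega, main i j (by omega) (by omega) hv⟩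
    · exact ⟨j, i, h, by omega, main j i (by omega) (by omega) hv.symm⟩

end Run7.h253
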