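import Pool.Agent.Run7.h253.LemQ

/-!
# Piece `big`: elements moving both ends of a segment with a big tube in the middle

`x, y` with `Rdc 9 x y`, `σ` a `d'`-geodesic from `x` to `y` (also a geodesic mod `N` by `PL`), `f ∈ U` with
`q x (f x) ≤ R`, `q y (f y) ≤ R`; `ℓ` with `D ℓ x y ≥ 10^21`, step index `i` (`σ i, σ (i+1) ∈ Y ℓ`).

`big_move`: choose lifts `y₁ = h₁ f y` with `D(x,y₁), D(y,y₁) ≤ 13/16` and then `x₁ = h₂ f x` with
`D(x,x₁), D(y₁,x₁) ≤ 15/16` (`addPt` twice).  Put `F = h₂ f`, so `F x = x₁`, `F y = h y₁`, `h ∈ N`.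
`F σ` is a `d'`-geodesic from `x₁` to `h y₁` with an `F ℓ`-step of index `i`, `D (F ℓ) x₁ (h y₁) ≥ 10^21`.

Bending lemma: `x₁, y₁` with `Rdc 15`, `τ` a `d'`-geodesic from `x₁` to `h y₁` of length
`d' x₁ y₁` (`= q`), `h ∈ N`; then there is a `d'`-geodesic `τ'` from `x₁` to `y₁` such that for every
`t < length` there are `g_t ∈ N` and `ρ_t` with `τ' t = g_t τ t`, `τ' (t+1) = g_t ρ_t τ (t+1)` and either `ρ_t = 1` or
`ρ_t ∈ rot ℓ_t ∖ 1` with `τ t, τ (t+1) ∈ Y ℓ_t`.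
Induction on `Rd x₁ h` as in `PL`: bend at the `Y ℓ`-step by `r⁻¹`; uniqueness of the tube of the
bent step (`D ≥ len/16 - …` there) makes successive `ρ`'s at one index multiply.
So for `ℓ₂ = g_i F ℓ` the geodesic `τ'` has an `ℓ₂`-step at index `i` and
`D ℓ₂ x₁ y₁ ≥ 6*10^20` (if `ρ_i = 1` the step is unchanged; else `ℓ_i = F ℓ` by `ovl` and
`d (τ i) (ρ τ (i+1)) ≥ len - 15/16 len - …`).
Finally `D ℓ₂ x x₁, D ℓ₂ y y₁ ≤ 10^20` because the tube is at `q`-distance `> R` from `x` and `y` (`Q1`), so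
`D ℓ₂ x y ≥ 4*10^20` and `σ` has an `ℓ₂`-step `j`; `|j - i| ≤ R + 5` by measuring `q` from `x`
(`q x (σ t) = t`, all points of `Y ℓ₂` are within 1).

`big_case`: `2 R + 12` elements `f i`: two have the same `ℓ₂` (an index `j` determines `ℓ₂` by `ovl`), so
`g = (h' f_j)⁻¹ (h f_i) ∈ U` fixes `ℓ`, `g ∈ grp ℓ` (`stab`), `q x (g x) ≤ 2R`, and `lemQ` gives `g ∈ N`.
-/

set_option autoImplicit false

namespace Run7.h253

variable {G : Type*} [Group G] {U : Subgroup G} {n : ℕ} {L : Type*} [MulAction G L]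
  {S : BSys G U n L}

/-- a path with the right length between far points is geodesic -/
theorem geod_of_le {X : Type*} {δ : ℕ} (H : GH X δ) {τ : ℕ → X} {m : ℕ} {x z : X} (h0 : τ 0 = x)
    (hm : τ m = z) (hle : ∀ s t, s ≤ t → t ≤ m → H.d (τ s) (τ t) ≤ t - s) (hd : m ≤ H.d x z) :
    IsGeod H.d τ m x z := by
  refine ⟨h0, hm, fun s t hst ht => le_antisymm (hle s t hst ht) ?_⟩
  have h1 := hle 0 s (by omega) (by omega)
  have h2 := hle t m ht le_rfl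
  have h3 := H.tri (τ 0) (τ s) (τ m)
  have h4 := H.tri (τ s) (τ t) (τ m)
  rw [h0, hm] at h3
  rw [h0] at h1
  rw [hm] at h2 h4
  omega

theorem geod_sub {X : Type*} {δ : ℕ} (H : GH X δ) {τ : ℕ → X} {m : ℕ} {x z : X}
    (h : IsGeod H.d τ m x z) {i j : ℕ} (hij : i ≤ j) (hj : j ≤ m) :
    IsGeod H.d (fun t => τ (i + t)) (j - i) (τ i) (τ j) := by
  refine ⟨by simp, by simp [Nat.add_sub_cancel' hij], fun s t hst ht => ?_⟩
  simp only
  rw [h.2.2 (i + s) (i + t) (by omega) (by omega)]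
  omega

/-- outside of the step in `Y ℓ` the projections of a `d'`-geodesic to `ℓ` do not move -/
theorem D_side (c : Cone S) {τ : ℕ → G} {x z : G} {m : ℕ} (hτ : IsGeod c.g.d τ m x z) {i : ℕ}
    (hi : i < m) {ℓ : L} (h1 : τ i ∈ S.Y ℓ) (h2 : τ (i + 1) ∈ S.Y ℓ) :
    S.D ℓ x (τ i) < 10 ^ 20 ∧ S.D ℓ (τ (i + 1)) z < 10 ^ 20 := by
  have e0 := hτ.1
  have em := hτ.2.1
  constructor
  · by_contra hcon
    push Not at hcon
    have hg := geod_sub c.g hτ (i := 0) (j := i) (by omega) hi.le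
    have hlen := hτ.2.2 0 i (by omega) hi.le
    rw [e0] at hg hlen
    rw [← hlen] at hg
    obtain ⟨j, hj, hj1, hj2⟩ := c.Q1 ℓ _ _ _ hg hcon
    simp only [Nat.zero_add] at hj1 hj2
    have e1 := c.of_Y ℓ _ _ hj1 h2
    rw [hτ.2.2 j (i + 1) (by omega) (by omega)] at e1
    omega
  · by_contra hcon
    push Not at hcon
    have hg := geod_sub c.g hτ (i := i + 1) (j := m) (by omega) le_rfl
    have hlen := hτ.2.2 (i + 1) m (by omega) le_rfl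
    rw [em] at hg hlen
    rw [← hlen] at hg
    obtain ⟨j, hj, hj1, hj2⟩ := c.Q1 ℓ _ _ _ hg hcon
    have e1 := c.of_Y ℓ _ _ h1 hj2
    rw [hτ.2.2 i (i + 1 + (j + 1)) (by omega) (by omega)] at e1
    omega

/-- the length of the step in `Y ℓ` -/
theorem step_len (c : Cone S) {τ : ℕ → G} {x z : G} {m : ℕ} (hτ : IsGeod c.g.d τ m x z) {i : ℕ}
    (hi : i < m) {ℓ : L} (h1 : τ i ∈ S.Y ℓ) (h2 : τ (i + 1) ∈ S.Y ℓ) :
    S.D ℓ x z ≤ S.d (τ i) (τ (i + 1)) + 2 * 10 ^ 20 ∧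
      S.d (τ i) (τ (i + 1)) ≤ S.D ℓ x z + 2 * 10 ^ 20 := by
  obtain ⟨a, b⟩ := D_side c hτ hi h1 h2
  have e1 := D_on S ℓ h1 h2
  have e2 := D_tri S ℓ x (τ i) z
  have e3 := D_tri S ℓ (τ i) (τ (i + 1)) z
  have e4 := D_tri S ℓ (τ i) x (τ (i + 1))
  have e5 := D_tri S ℓ x z (τ (i + 1))
  have e6 := D_comm S ℓ (τ i) x
  have e7 := D_comm S ℓ z (τ (i + 1))
  omega

/-- two tubes containing two far points are equal -/
theorem tube_eq (S : BSys G U n L) {ℓ ℓ' : L} {a b : G} (h1 : a ∈ S.Y ℓ) (h2 : b ∈ S.Y ℓ)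
    (h3 : a ∈ S.Y ℓ') (h4 : b ∈ S.Y ℓ') (h : 10 ^ 17 ≤ S.d a b) : ℓ = ℓ' := by
  by_contra hne
  have := S.ovl ℓ ℓ' hne a b a a b b h1 h3 h2 h4 (by rw [S.self]; omega) (by rw [S.self]; omega)
    (by rw [S.self]; omega) (by rw [S.self]; omega)
  omega

/-- relation of the `t`-th step of a path and of its bending -/
def Bent (S : BSys G U n L) (τ τ' : ℕ → G) (t : ℕ) : Prop :=
  ∃ g ∈ S.N, ∃ ρ : G, τ' t = g * τ t ∧ τ' (t + 1) = g * (ρ * τ (t + 1)) ∧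
    (ρ = 1 ∨ ∃ ℓ, ρ ∈ S.rot ℓ ∧ ρ ≠ 1 ∧ τ t ∈ S.Y ℓ ∧ τ (t + 1) ∈ S.Y ℓ ∧
      10 ^ 20 ≤ S.d (τ t) (τ (t + 1)))

theorem bend (c : Cone S) {x y : G} (hxy : S.Rdc 15 x y) {h : G} (hrd : S.Rd x h) :
    ∀ τ : ℕ → G, IsGeod c.g.d τ (c.g.d x y) x (h * y) →
      ∃ τ' : ℕ → G, IsGeod c.g.d τ' (c.g.d x y) x y ∧ ∀ t, t < c.g.d x y → Bent S τ τ' t := by
  induction hrd with
  | one =>
    intro τ hτ
    rw [one_mul] at hτ
    exact ⟨τ, hτ, fun t _ => ⟨1, S.N.one_mem, 1, by simp, by simp, Or.inl rfl⟩⟩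
  | @step ℓ r h' hr hr1 hred hlen ih =>
    intro τ hτ
    set m := c.g.d x y with hm
    have hN := N_normal S
    have h1 : S.D ℓ (r * h' * x) (r * h' * y) = S.D ((r * h')⁻¹ • ℓ) x y := D_inv S _ _ _ _
    have h2 := hxy ((r * h')⁻¹ • ℓ)
    rw [← h1, len_inv] at h2
    have h3 := D_tri S ℓ x (r * h' * y) (r * h' * x)
    rw [D_comm S ℓ (r * h' * y) (r * h' * x)] at h3
    have h4 := S.len_big ℓ
    have h5 : 10 ^ 22 ≤ S.D ℓ x (r * h' * y) := by omega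
    have hdist : c.g.d x (r * h' * y) = m := by
      have := hτ.2.2 0 m (by omega) le_rfl
      rw [hτ.1, hτ.2.1] at this
      simpa using this
    obtain ⟨i, hi, hi1, hi2⟩ := c.Q1 ℓ _ _ τ (by rw [hdist]; exact hτ) (by omega)
    rw [hdist] at hi
    have hr' : r⁻¹ ∈ S.rot ℓ := (S.rot ℓ).inv_mem hr
    have h6 : r⁻¹ * τ (i + 1) ∈ S.Y ℓ := rot_Y S hr' hi2
    have h7 := c.of_Y ℓ _ _ hi1 h6
    have hstep := step_len c hτ hi hi1 hi2
    have hlow : m ≤ c.g.d x (h' * y) := PL_aux c hxy hred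
    let τ₁ : ℕ → G := fun t => if t ≤ i then τ t else r⁻¹ * τ t
    have t1 : ∀ t, t ≤ i → τ₁ t = τ t := fun t ht => by simp only [τ₁, if_pos ht]
    have t2 : ∀ t, i < t → τ₁ t = r⁻¹ * τ t := fun t ht => by
      simp only [τ₁, if_neg (Nat.not_le.2 ht)]
    have hg1 : IsGeod c.g.d τ₁ m x (h' * y) := by
      refine geod_of_le c.g (by rw [t1 0 (by omega), hτ.1])
        (by rw [t2 m hi, hτ.2.1]; group) ?_ hlow
      intro s t hst ht
      rcases Nat.lt_or_ge i t with hit | hit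
      · rcases Nat.lt_or_ge i s with his | his
        · rw [t2 s his, t2 t hit, c.inv, hτ.2.2 s t hst ht]
        · rw [t1 s his, t2 t hit]
          have e1 := hτ.2.2 s i his hi.le
          have e2 := hτ.2.2 (i + 1) t hit ht
          have e3 := c.g.tri (τ s) (τ i) (r⁻¹ * τ t)
          have e4 := c.g.tri (τ i) (r⁻¹ * τ (i + 1)) (r⁻¹ * τ t)
          have e5 := c.inv r⁻¹ (τ (i + 1)) (τ t)
          omega
      · rw [t1 s (by omega), t1 t hit, hτ.2.2 s t hst ht]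
    obtain ⟨τ', hτ', hb⟩ := ih τ₁ hg1
    refine ⟨τ', hτ', fun t ht => ?_⟩
    obtain ⟨g, hg, ρ, e1, e2, e3⟩ := hb t ht
    rcases Nat.lt_trichotomy t i with hti | hti | hti
    · rw [t1 t (by omega), t1 (t + 1) (by omega)] at *
      exact ⟨g, hg, ρ, e1, e2, e3⟩
    · subst hti
      rw [t1 t le_rfl, t2 (t + 1) (by omega)] at *
      refine ⟨g, hg, ρ * r⁻¹, e1, by rw [e2]; group, ?_⟩
      rcases e3 with e3 | ⟨ℓ₁, f1, f2, f3, f4, f5⟩
      · right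
        refine ⟨ℓ, by rw [e3, one_mul]; exact hr', by rw [e3, one_mul]; simpa using hr1, hi1, hi2, by omega⟩
      · have hℓ : ℓ₁ = ℓ := tube_eq S f3 f4 hi1 h6 (by omega)
        subst hℓ
        by_cases h8 : ρ * r⁻¹ = 1
        · exact Or.inl h8
        · exact Or.inr ⟨ℓ₁, (S.rot ℓ₁).mul_mem f1 hr', h8, hi1, hi2, by omega⟩
    · rw [t2 t hti, t2 (t + 1) (by omega)] at *
      refine ⟨g * r⁻¹, S.N.mul_mem hg (rot_N S hr'), r * ρ * r⁻¹, by rw [e1]; group,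
        by rw [e2]; group, ?_⟩
      rcases e3 with e3 | ⟨ℓ₁, f1, f2, f3, f4, f5⟩
      · left; rw [e3]; group
      · right
        refine ⟨r • ℓ₁, S.rot_smul r ℓ₁ ρ f1, ?_, ?_, ?_, ?_⟩
        · intro h8
          apply f2
          have : ρ = r⁻¹ * (r * ρ * r⁻¹) * r := by group
          rw [this, h8]; group
        · have := S.Y_smul r ℓ₁ _ f3
          rwa [mul_inv_cancel_left] at this
        · have := S.Y_smul r ℓ₁ _ f4
          rwa [mul_inv_cancel_left] at this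
        · rwa [S.inv] at f5

/-- positions along a geodesic of a reduced pair, measured by `q` -/
theorem q_pos (c : Cone S) {x y : G} (hxy : S.Rdc 15 x y) {σ : ℕ → G}
    (hσ : IsGeod c.g.d σ (c.g.d x y) x y) {i : ℕ} (hi : i ≤ c.g.d x y) : c.q x (σ i) = i ∧
      c.q (σ i) y = c.g.d x y - i := by
  have h1 := q_eq c hxy
  have h2 := q_le c x (σ i)
  have h3 := q_le c (σ i) y
  have h4 := hσ.2.2 0 i (by omega) hi
  have h5 := hσ.2.2 i _ hi le_rfl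
  rw [hσ.1] at h4
  rw [hσ.2.1] at h5
  have h6 := q_tri c x (σ i) y
  omega

theorem q_tube (c : Cone S) {ℓ : L} {a b : G} (ha : a ∈ S.Y ℓ) (hb : b ∈ S.Y ℓ) : c.q a b ≤ 1 :=
  (q_le c a b).trans (c.of_Y ℓ a b ha hb)

/-- a short `q`-segment from `x` which is `q`-far from a tube has small projection -/
theorem D_short (c : Cone S) {x x₁ : G} (h : S.Rdc 15 x x₁) {R : ℕ} (hR : c.q x x₁ ≤ R) {ℓ : L}
    {v : G} (hv : v ∈ S.Y ℓ) (hfar : R + 2 ≤ c.q x v) : S.D ℓ x x₁ < 10 ^ 20 := by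
  by_contra hcon
  push Not at hcon
  obtain ⟨σ, hσ⟩ := exists_geod c.g x x₁
  obtain ⟨i, hi, hi1, hi2⟩ := c.Q1 ℓ _ _ σ hσ hcon
  have h1 := q_eq c h
  have h2 := (q_pos c h hσ hi.le).1
  have h3 := q_tube c hi1 hv
  have h4 := q_tri c x (σ i) v
  omega

theorem big_move (c : Cone S) {x y : G} (hxy : S.Rdc 9 x y) {σ : ℕ → G}
    (hσ : IsGeod c.g.d σ (c.g.d x y) x y) {f : G} {R : ℕ} (hfx : c.q x (f * x) ≤ R)
    (hfy : c.q y (f * y) ≤ R) {ℓ : L} {i : ℕ} (hi : σ i ∈ S.Y ℓ) (hi' : σ (i + 1) ∈ S.Y ℓ)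
    (h1 : 2 * R + 40 ≤ i) (h2 : i + 2 * R + 40 ≤ c.g.d x y) (hD : 10 ^ 21 ≤ S.D ℓ x y) :
    ∃ (h : G) (j : ℕ), h ∈ S.N ∧ 4 * 10 ^ 20 ≤ S.D ((h * f) • ℓ) x y ∧
      σ j ∈ S.Y ((h * f) • ℓ) ∧ σ (j + 1) ∈ S.Y ((h * f) • ℓ) ∧ j < c.g.d x y ∧
      j ≤ i + R + 5 ∧ i ≤ j + R + 5 := by
  have hxy15 : S.Rdc 15 x y := rdc_mono (by omega) hxy
  obtain ⟨h₁, hh₁, h₂, hh₂, a1, a2, a3, a4⟩ := lift_ends c le_rfl hxy f
  set y₁ := h₁ * (f * y) with hy₁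
  set x₁ := h₂ * (f * x) with hx₁
  have qx : c.q x x₁ = c.q x (f * x) := by simpa using q_N c x (f * x) S.N.one_mem hh₂
  have qy : c.q y y₁ = c.q y (f * y) := by simpa using q_N c y (f * y) S.N.one_mem hh₁
  have qxy : c.q x₁ y₁ = c.q x y := by
    rw [hx₁, hy₁, q_N c (f * x) (f * y) hh₂ hh₁, q_inv]
  have a4' : S.Rdc 15 x₁ y₁ := rdc_symm a4
  have dxy : c.g.d x₁ y₁ = c.g.d x y := by
    rw [← q_eq c a4', ← q_eq c hxy15, qxy]
  have hh : h₂ * h₁⁻¹ ∈ S.N := S.N.mul_mem hh₂ (S.N.inv_mem hh₁)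
  -- the translated geodesic
  have hτ : IsGeod c.g.d (fun t => h₂ * f * σ t) (c.g.d x₁ y₁) x₁ (h₂ * h₁⁻¹ * y₁) := by
    rw [dxy]
    refine ⟨by simp only; rw [hσ.1, hx₁, mul_assoc], by simp only; rw [hσ.2.1, hy₁]; group, ?_⟩
    intro s t hst ht
    simp only
    rw [c.inv, hσ.2.2 s t hst ht]
  obtain ⟨τ', hτ', hb⟩ := bend c a4' (rd_all S hh x₁) _ hτ
  have him : i < c.g.d x₁ y₁ := by omega
  obtain ⟨g, hg, ρ, e1, e2, e3⟩ := hb i him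
  simp only at e1 e2 e3
  have hlen := S.len_big ℓ
  have hst := step_len c hσ (by omega : i < c.g.d x y) hi hi'
  have hF : (g * h₂ * f) • ℓ = g • ((h₂ * f) • ℓ) := by rw [← mul_smul, mul_assoc]
  have Yi : h₂ * f * σ i ∈ S.Y ((h₂ * f) • ℓ) := S.Y_smul _ _ _ hi
  have Yi' : h₂ * f * σ (i + 1) ∈ S.Y ((h₂ * f) • ℓ) := S.Y_smul _ _ _ hi'
  have b1 : τ' i ∈ S.Y ((g * h₂ * f) • ℓ) := by
    rw [hF, e1]; exact S.Y_smul _ _ _ Yi
  have b2 : τ' (i + 1) ∈ S.Y ((g * h₂ * f) • ℓ) ∧ 8 * 10 ^ 20 ≤ S.d (τ' i) (τ' (i + 1)) := by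
    rcases e3 with e3 | ⟨ℓ₁, f1, f2, f3, f4, f5⟩
    · subst e3
      rw [one_mul] at e2
      refine ⟨by rw [hF, e2]; exact S.Y_smul _ _ _ Yi', ?_⟩
      rw [e1, e2, S.inv, S.inv]
      omega
    · have hℓ : ℓ₁ = (h₂ * f) • ℓ := tube_eq S f3 f4 Yi Yi' (by omega)
      subst hℓ
      have Yρ := rot_Y S f1 Yi'
      refine ⟨by rw [hF, e2]; exact S.Y_smul _ _ _ Yρ, ?_⟩
      rw [e1, e2, S.inv]
      have g1 := S.rot_low _ ρ f1 f2 _ Yi'
      rw [S.len_smul] at g1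
      have g2 := S.tri (h₂ * f * σ (i + 1)) (h₂ * f * σ i) (ρ * (h₂ * f * σ (i + 1)))
      have g3 := S.inv (h₂ * f) (σ (i + 1)) (σ i)
      have g4 := S.symm (σ (i + 1)) (σ i)
      have g5 := hxy ℓ
      omega
  have b3 := step_len c hτ' him b1 b2.1
  -- `q`-distance to the tube
  have p1 := q_pos c a4' hτ' him.le
  have hx2 : R + 2 ≤ c.q x (τ' i) := by
    have := q_tri c x₁ x (τ' i)
    have := q_symm c x₁ x
    omega
  have hy2 : R + 2 ≤ c.q y (τ' i) := by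
    have := q_tri c (τ' i) y y₁
    have := q_symm c (τ' i) y
    omega
  have c1 := D_short c a3 (by omega : c.q x x₁ ≤ R) b1 hx2
  have c2 := D_short c (rdc_mono (by omega) a2 : S.Rdc 15 y y₁) (by omega : c.q y y₁ ≤ R) b1 hy2
  have d1 := D_tri S ((g * h₂ * f) • ℓ) x₁ x y₁
  have d2 := D_tri S ((g * h₂ * f) • ℓ) x y y₁
  have d3 := D_comm S ((g * h₂ * f) • ℓ) x₁ x
  have hD2 : 4 * 10 ^ 20 ≤ S.D ((g * h₂ * f) • ℓ) x y := by omega
  obtain ⟨j, hj, hj1, hj2⟩ := c.Q1 _ _ _ σ hσ (by omega : 10 ^ 20 ≤ S.D ((g * h₂ * f) • ℓ) x y)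
  refine ⟨g * h₂, j, S.N.mul_mem hg hh₂, hD2, hj1, hj2, hj, ?_, ?_⟩
  · have r1 := (q_pos c hxy15 hσ hj.le).1
    have r2 := q_tube c b1 hj1
    have r3 := q_tri c x x₁ (σ j)
    have r4 := q_tri c x₁ (τ' i) (σ j)
    omega
  · have r1 := (q_pos c hxy15 hσ hj.le).1
    have r2 := q_tube c b1 hj1
    have r3 := q_tri c x₁ x (τ' i)
    have r4 := q_tri c x (σ j) (τ' i)
    have r5 := q_symm c (σ j) (τ' i)
    have r6 := q_symm c x₁ x
    omega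

theorem big_case (c : Cone S) {x y : G} (hxy : S.Rdc 9 x y) {σ : ℕ → G}
    (hσ : IsGeod c.g.d σ (c.g.d x y) x y) {R : ℕ} {ℓ : L} {i : ℕ} (hi : σ i ∈ S.Y ℓ)
    (hi' : σ (i + 1) ∈ S.Y ℓ)
    (h1 : 2 * R + 40 ≤ i) (h2 : i + 2 * R + 40 ≤ c.g.d x y) (hD : 10 ^ 21 ≤ S.D ℓ x y)
    (f : ℕ → G) (hf : ∀ k, k ≤ 2 * R + 12 → f k ∈ U ∧ c.q x (f k * x) ≤ R ∧ c.q y (f k * y) ≤ R) :
    ∃ k l, k < l ∧ l ≤ 2 * R + 12 ∧ (f k)⁻¹ * f l ∈ S.N := by
  have hN := N_normal S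
  have hxy15 : S.Rdc 15 x y := rdc_mono (by omega) hxy
  have hmv : ∀ k : ℕ, ∃ (h : G) (j : ℕ), k ≤ 2 * R + 12 → (h ∈ S.N ∧
      4 * 10 ^ 20 ≤ S.D ((h * f k) • ℓ) x y ∧
      σ j ∈ S.Y ((h * f k) • ℓ) ∧ σ (j + 1) ∈ S.Y ((h * f k) • ℓ) ∧ j < c.g.d x y ∧
      j ≤ i + R + 5 ∧ i ≤ j + R + 5) := by
    intro k
    by_cases hk : k ≤ 2 * R + 12
    · obtain ⟨h, j, hh⟩ := big_move c hxy hσ (hf k hk).2.1 (hf k hk).2.2 hi hi' h1 h2 hD
      exact ⟨h, j, fun _ => hh⟩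
    · exact ⟨1, 0, fun h => absurd h hk⟩
  choose h j hhj using hmv
  have hmaps : ∀ k ∈ Finset.range (2 * R + 13), j k ∈ Finset.Icc (i - (R + 5)) (i + R + 5) := by
    intro k hk
    rw [Finset.mem_range] at hk
    rw [Finset.mem_Icc]
    have := hhj k (by omega)
    omega
  obtain ⟨k, hk, l, hl, hkl, hv⟩ := Finset.exists_ne_map_eq_of_card_lt_of_maps_to
    (by rw [Finset.card_range, Nat.card_Icc]; omega) hmaps
  rw [Finset.mem_range] at hk hl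
  have main : ∀ k l, k ≤ 2 * R + 12 → l ≤ 2 * R + 12 → j k = j l → (f k)⁻¹ * f l ∈ S.N := by
    intro k l hk hl hv
    obtain ⟨a1, a2, a3, a4, a5, a6, a7⟩ := hhj k hk
    obtain ⟨b1, b2, b3, b4, b5, b6, b7⟩ := hhj l hl
    rw [← hv] at b3 b4
    have e1 := step_len c hσ a5 a3 a4
    have e2 : (h k * f k) • ℓ = (h l * f l) • ℓ := tube_eq S a3 a4 b3 b4 (by omega)
    have e3 : ((h k * f k)⁻¹ * (h l * f l)) • ℓ = ℓ := by
      rw [mul_smul, inv_smul_eq_iff, e2]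
    have hU : (h k * f k)⁻¹ * (h l * f l) ∈ U :=
      U.mul_mem (U.inv_mem (U.mul_mem (N_le S a1) (hf k hk).1))
        (U.mul_mem (N_le S b1) (hf l hl).1)
    have e4 := S.stab ℓ _ hU e3
    have e5 : c.q x ((h k * f k)⁻¹ * (h l * f l) * x) ≤ 2 * R := by
      rw [← q_inv c (h k * f k), show h k * f k * ((h k * f k)⁻¹ * (h l * f l) * x) =
        h l * (f l * x) by group, mul_assoc, q_N c _ _ a1 b1]
      have t1 := q_tri c (f k * x) x (f l * x)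
      have t2 := q_symm c (f k * x) x
      have t3 := (hf k hk).2.1
      have t4 := (hf l hl).2.1
      omega
    have e6 := lemQ c e4 (R := 2 * R) (p := x) (by
      intro y' hy'
      have p1 := (q_pos c hxy15 hσ (by omega : i ≤ c.g.d x y)).1
      have p2 := q_tube c hy' hi
      have p3 := q_tri c x y' (σ i)
      omega) e5
    have e7 := rot_N S e6
    have e8 : (f k)⁻¹ * f l = ((f k)⁻¹ * ((h k)⁻¹ * h l) * ((f k)⁻¹)⁻¹)⁻¹ *
        ((h k * f k)⁻¹ * (h l * f l)) := by group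
    rw [e8]
    exact S.N.mul_mem (S.N.inv_mem (hN.conj_mem _ (S.N.mul_mem (S.N.inv_mem a1) b1) _)) e7
  rcases Nat.lt_or_gt_of_ne hkl with h' | h'
  · exact ⟨k, l, h', by omega, main k l (by omega) (by omega) hv⟩
  · exact ⟨l, k, h', by omega, main l k (by omega) (by omega) hv.symm⟩

end Run7.h253
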