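import Pool.Agent.Run7.h253.Defs

/-!
# Piece `wind`: the windmill for coarse projection systems

The part up to `all_red` is adapted from `Pool/Agent/TH64/Wind.lean` (starting tree, by helper64): the
rotation length `T` now depends on the line, and instead of the `claim` field one proves `Red`.

* `all_red`: in a stage of the windmill keep `∀ n ∈ H, Red S x0 n`; for `H'` use the chain `El`:
  `El s o n → Red S x0 n` by induction, the step is `far`.
* `free_basis`: let `H_i` be the stages, `R_i` a transversal of the `H_i`-orbits on the active lines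
  `AA_i`, `R = ⋃ R_i`.
  - `Stab_{H_i} Y = 1` for `Y ∈ AA_i`: if `h ∈ H_i`, `h • Y = Y`, `h ≠ 1` then (`stab`) some power
    `h^k ∈ rot Y`, `h^k ≠ 1`, moves `x0` by `≥ T Y` on `Y`, but `diam W ≤ 6 th` on `Y`.
  - injectivity: every `w ∈ FreeGroup R_{≤ i}` has a syllable decomposition lifting an `El` chain
    (`r = h y^k h⁻¹`, `h ∈ FreeGroup R_{<i}`, `y ∈ R_i`), and `far` shows that the image of a
    chain with at least one turn is not `1`.
  - every line is in `N • R`: if `rot Z ≤ H_{i+1}` but no `H_{i+1}`-translate of `Z` is in `AA_i`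
    or has `rot ≤ H_i` then the proof of `Ch.small`/`W'_diam` applies to `Z`: `diam_Z W' ≤ 6 th`,
    contradicting `rot_big` (`x0, r x0 ∈ W'`).
  - elements of `R` in different orbits: abelianize, or use the construction.
-/

set_option autoImplicit false

namespace Run7.h253

open Relation

/-- a coarse projection system -/
structure Sys (G V L : Type*) [Group G] [MulAction G V] [MulAction G L] where
  adj : V → V → Prop
  on : L → V → Prop
  d : L → V → V → ℕ
  rot : L → Subgroup G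
  th : ℕ
  T : L → ℕ
  adj_smul : ∀ (g : G) u v, adj u v → adj (g • u) (g • v)
  conn : ∀ u v, ReflTransGen adj u v
  on_smul : ∀ (g : G) Y v, on Y v → on (g • Y) (g • v)
  d_self : ∀ Y u, d Y u u = 0
  d_comm : ∀ Y u v, d Y u v = d Y v u
  d_tri : ∀ Y u v w, d Y u w ≤ d Y u v + d Y v w
  d_smul : ∀ (g : G) Y u v, d (g • Y) (g • u) (g • v) = d Y u v
  d_adj : ∀ Y u v, adj u v → d Y u v ≤ th
  line_ne : ∀ Y, ∃ v, on Y v
  hT : ∀ Y, 40 * th + 1 ≤ T Y
  T_smul : ∀ (g : G) Y, T (g • Y) = T Y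
  beh : ∀ Y Z v, Y ≠ Z → (∀ w, on Z w → d Y v w ≤ th) ∨ (∀ w, on Y w → d Z v w ≤ th)
  rot_conj : ∀ (g : G) Y r, r ∈ rot Y → g * r * g⁻¹ ∈ rot (g • Y)
  rot_fix : ∀ Y r, r ∈ rot Y → r • Y = Y
  rot_big : ∀ Y r v, r ∈ rot Y → r ≠ 1 → T Y ≤ d Y v (r • v)

/-- reducible elements, seen from `x0` -/
inductive Sys.Red {G V L : Type*} [Group G] [MulAction G V] [MulAction G L] (S : Sys G V L)
    (x0 : V) : G → Prop
  | one : Sys.Red S x0 1
  | step {Y : L} {r n : G} : r ∈ S.rot Y → r ≠ 1 → Sys.Red S x0 n →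
      S.T Y ≤ S.d Y x0 (r • (n • x0)) + 12 * S.th → Sys.Red S x0 (r * n)

def Sys.N {G V L : Type*} [Group G] [MulAction G V] [MulAction G L] (S : Sys G V L) : Subgroup G :=
  Subgroup.closure {r | ∃ Y, r ∈ S.rot Y}

namespace Wd

variable {G V L : Type*} [Group G] [MulAction G V] [MulAction G L] (S : Sys G V L) (x0 : V)

/-- a stage of the windmill -/
structure State where
  H : Subgroup G
  W : Set V
  x0_mem : x0 ∈ W
  inv : ∀ h ∈ H, ∀ w ∈ W, h • w ∈ W
  diam : ∀ Y, S.rot Y ≤ H ∨ ∀ u ∈ W, ∀ v ∈ W, S.d Y u v ≤ 6 * S.th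
  claim : ∀ n ∈ H, S.Red x0 n

variable {S} {x0}

theorem rot_le_conj (g : G) (Y : L) (H : Subgroup G) (hg : g ∈ H) (h : S.rot Y ≤ H) :
    S.rot (g • Y) ≤ H := by
  intro r hr
  have h1 := S.rot_conj g⁻¹ _ r hr
  rw [inv_smul_smul, inv_inv] at h1
  have h2 := h h1
  have : r = g * (g⁻¹ * r * g) * g⁻¹ := by group
  rw [this]
  exact H.mul_mem (H.mul_mem hg h2) (H.inv_mem hg)

theorem rot_le_conj_iff (g : G) (Y : L) (H : Subgroup G) (hg : g ∈ H) :
    S.rot (g • Y) ≤ H ↔ S.rot Y ≤ H := by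
  constructor
  · intro h
    have := rot_le_conj (S := S) g⁻¹ (g • Y) H (H.inv_mem hg) h
    rwa [inv_smul_smul] at this
  · exact rot_le_conj g Y H hg

theorem d_inv (g : G) (Y : L) (u v : V) : S.d Y (g • u) (g • v) = S.d (g⁻¹ • Y) u v := by
  rw [← S.d_smul g (g⁻¹ • Y) u v, smul_inv_smul]

theorem d_rot {Y : L} {r : G} (hr : r ∈ S.rot Y) (u v : V) : S.d Y (r • u) (r • v) = S.d Y u v := by
  have := S.d_smul r Y u v
  rwa [S.rot_fix Y r hr] at this

section step

variable (s : State S x0)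

def W1 : Set V := {v | v ∈ s.W ∨ ∃ w ∈ s.W, S.adj w v}

def AA : Set L := {Y | ¬ S.rot Y ≤ s.H ∧ ∃ u ∈ W1 s, ∃ v ∈ W1 s, 2 * S.th < S.d Y u v}

def H' : Subgroup G := Subgroup.closure {r | r ∈ s.H ∨ ∃ Y ∈ AA s, r ∈ S.rot Y}

def W' : Set V := {v | ∃ h ∈ H' s, ∃ e ∈ W1 s, v = h • e}

theorem H_le : s.H ≤ H' s := fun _ hr => Subgroup.subset_closure (Or.inl hr)

theorem rot_le_H' (Y : L) (hY : Y ∈ AA s) : S.rot Y ≤ H' s :=
  fun _ hr => Subgroup.subset_closure (Or.inr ⟨Y, hY, hr⟩)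

theorem W1_inv {h : G} (hh : h ∈ s.H) {v : V} (hv : v ∈ W1 s) : h • v ∈ W1 s := by
  rcases hv with hv | ⟨w, hw, hwv⟩
  · exact Or.inl (s.inv h hh v hv)
  · exact Or.inr ⟨h • w, s.inv h hh w hw, S.adj_smul h _ _ hwv⟩

theorem AA_inv {h : G} (hh : h ∈ s.H) {Y : L} (hY : Y ∈ AA s) : h • Y ∈ AA s := by
  obtain ⟨h1, u, hu, v, hv, hd⟩ := hY
  exact ⟨fun hle => h1 ((rot_le_conj_iff h Y s.H hh).1 hle), h • u, W1_inv s hh hu, h • v,
    W1_inv s hh hv, by rwa [S.d_smul]⟩

theorem diam_W1 {Y : L} (hY : ¬ S.rot Y ≤ s.H) {u v : V} (hu : u ∈ W1 s) (hv : v ∈ W1 s) :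
    S.d Y u v ≤ 8 * S.th := by
  have hd := (s.diam Y).resolve_left hY
  have near : ∀ u ∈ W1 s, ∃ w ∈ s.W, S.d Y u w ≤ S.th := by
    intro u hu
    rcases hu with hu | ⟨w, hw, hwu⟩
    · exact ⟨u, hu, by rw [S.d_self]; omega⟩
    · exact ⟨w, hw, by rw [S.d_comm]; exact S.d_adj Y _ _ hwu⟩
  obtain ⟨u', hu', h1⟩ := near u hu
  obtain ⟨v', hv', h2⟩ := near v hv
  have h3 := hd u' hu' v' hv'
  have h4 := S.d_tri Y u u' v
  have h5 := S.d_tri Y u' v' v
  rw [S.d_comm Y v' v] at h5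
  omega

/-- an active line is seen from any other line near a point of `W1` -/
theorem AA_near {Y Z : L} (hY : Y ∈ AA s) (hZ : Z ≠ Y) :
    ∃ u ∈ W1 s, ∀ w, S.on Y w → S.d Z u w ≤ S.th := by
  obtain ⟨_, u, hu, v, hv, hd⟩ := hY
  rcases S.beh Y Z u hZ.symm with h1 | h1
  · rcases S.beh Y Z v hZ.symm with h2 | h2
    · exfalso
      obtain ⟨w, hw⟩ := S.line_ne Z
      have h3 := h1 w hw
      have h4 := h2 w hw
      have h5 := S.d_tri Y u w v
      rw [S.d_comm Y w v] at h5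
      omega
    · exact ⟨v, hv, h2⟩
  · exact ⟨u, hu, h1⟩

/-- points of `W1` and of the active lines different from `Y` -/
def EY (Y : L) : Set V := {v | v ∈ W1 s ∨ ∃ Y' ∈ AA s, Y' ≠ Y ∧ S.on Y' v}

theorem EY_near (Z : L) {v : V} (hv : v ∈ EY s Z) : ∃ u ∈ W1 s, S.d Z v u ≤ S.th := by
  rcases hv with hv | ⟨Y, hY, hne, hon⟩
  · exact ⟨v, hv, by rw [S.d_self]; omega⟩
  · obtain ⟨u, hu, h⟩ := AA_near s hY hne.symm
    exact ⟨u, hu, by rw [S.d_comm]; exact h v hon⟩

theorem diam_EY {Y : L} (hY : ¬ S.rot Y ≤ s.H) {u v : V} (hu : u ∈ EY s Y) (hv : v ∈ EY s Y) :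
    S.d Y u v ≤ 10 * S.th := by
  obtain ⟨u', hu', h1⟩ := EY_near s Y hu
  obtain ⟨v', hv', h2⟩ := EY_near s Y hv
  have h3 := diam_W1 s hY hu' hv'
  have h4 := S.d_tri Y u u' v
  have h5 := S.d_tri Y u' v' v
  rw [S.d_comm Y v' v] at h5
  omega

/-- lines outside the next stage -/
def Out (Z : L) : Prop := ∀ g ∈ H' s, g • Z ∉ AA s ∧ ¬ S.rot (g • Z) ≤ s.H

theorem out_of {Z : L} (h : ¬ S.rot Z ≤ H' s) : Out s Z := by
  refine fun g hg => ⟨fun hA => h ((rot_le_conj_iff g Z _ hg).1 (rot_le_H' s _ hA)), fun hA =>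
    h ((rot_le_conj_iff g Z _ hg).1 (hA.trans (H_le s)))⟩

theorem Out.smul {Z : L} (h : Out s Z) {g : G} (hg : g ∈ H' s) : Out s (g • Z) := by
  intro k hk
  rw [← mul_smul]
  exact h _ ((H' s).mul_mem hk hg)

theorem Out.not_AA {Z : L} (h : Out s Z) : Z ∉ AA s := by
  have := (h 1 (H' s).one_mem).1
  rwa [one_smul] at this

theorem Out.not_le {Z : L} (h : Out s Z) : ¬ S.rot Z ≤ s.H := by
  have := (h 1 (H' s).one_mem).2
  rwa [one_smul] at this

theorem diam_W1_out {Z : L} (hZ : Out s Z) {u v : V}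
    (hu : u ∈ W1 s) (hv : v ∈ W1 s) : S.d Z u v ≤ 2 * S.th := by
  by_contra hcon
  push Not at hcon
  exact hZ.not_AA s ⟨hZ.not_le s, u, hu, v, hv, hcon⟩

theorem diam_EY_out {Z : L} (hZ : Out s Z) {u v : V} (hu : u ∈ EY s Z)
    (hv : v ∈ EY s Z) : S.d Z u v ≤ 4 * S.th := by
  obtain ⟨u', hu', h1⟩ := EY_near s Z hu
  obtain ⟨v', hv', h2⟩ := EY_near s Z hv
  have h3 := diam_W1_out s hZ hu' hv'
  have h4 := S.d_tri Z u u' v
  have h5 := S.d_tri Z u' v' v
  rw [S.d_comm Z v' v] at h5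
  omega

/-- chains of points -/
inductive Ch : Option L → V → Prop
  | base {v : V} : v ∈ W1 s → Ch none v
  | turn {Y : L} {o : Option L} {r : G} {v : V} : Y ∈ AA s → r ∈ S.rot Y → r ≠ 1 → Ch o v →
      o ≠ some Y → Ch (some Y) (r • v)

/-- chains of group elements -/
inductive El : Option L → G → Prop
  | base {h : G} : h ∈ s.H → El none h
  | turn {Y : L} {o : Option L} {r : G} {n : G} : Y ∈ AA s → r ∈ S.rot Y → r ≠ 1 → El o n →
      o ≠ some Y → El (some Y) (r * n)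

variable {s}

theorem El.H_mul {h : G} (hh : h ∈ s.H) {o : Option L} {n : G} (hc : El s o n) :
    El s (o.map (h • ·)) (h * n) := by
  induction hc with
  | base hv => exact El.base (s.H.mul_mem hh hv)
  | @turn Y o r n hY hr hr1 _ hne ih =>
    have e : h * (r * n) = (h * r * h⁻¹) * (h * n) := by group
    rw [e]
    refine El.turn (AA_inv s hh hY) (S.rot_conj h Y r hr) ?_ ih ?_
    · intro h1
      apply hr1
      have : r = h⁻¹ * (h * r * h⁻¹) * h := by group
      rw [this, h1]; group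
    · intro h1
      apply hne
      rcases o with _ | Y'
      · simp at h1
      · simp only [Option.map_some, Option.some.injEq] at h1
        rw [smul_left_cancel h h1]

theorem El.rot_mul {Y : L} (hY : Y ∈ AA s) {r : G} (hr : r ∈ S.rot Y) {o : Option L} {n : G}
    (hc : El s o n) : ∃ o', El s o' (r * n) := by
  by_cases hr1 : r = 1
  · subst hr1
    exact ⟨o, by rwa [one_mul]⟩
  by_cases ho : o = some Y
  · subst ho
    cases hc with
    | @turn _ o' r' n' _ hr' hr1' hc' hne =>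
      rw [← mul_assoc]
      by_cases h1 : r * r' = 1
      · rw [h1, one_mul]
        exact ⟨o', hc'⟩
      · exact ⟨some Y, El.turn hY ((S.rot Y).mul_mem hr hr') h1 hc' hne⟩
  · exact ⟨some Y, El.turn hY hr hr1 hc ho⟩

theorem H'_ind {P : G → Prop} (h1 : P 1) (hH : ∀ h ∈ s.H, ∀ x, P x → P (h * x))
    (hr : ∀ Y ∈ AA s, ∀ r ∈ S.rot Y, ∀ x, P x → P (r * x)) {n : G} (hn : n ∈ H' s) : P n := by
  induction hn using Subgroup.closure_induction_left with
  | one => exact h1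
  | mul_left x hx y hy ih =>
    rcases hx with hx | ⟨Y, hY, hx⟩
    · exact hH x hx y ih
    · exact hr Y hY x hx y ih
  | inv_mul_cancel x hx y hy ih =>
    rcases hx with hx | ⟨Y, hY, hx⟩
    · exact hH _ (s.H.inv_mem hx) y ih
    · exact hr Y hY _ ((S.rot Y).inv_mem hx) y ih

theorem H'_el {n : G} (hn : n ∈ H' s) : ∃ o, El s o n := by
  refine H'_ind (s := s) (P := fun n => ∃ o, El s o n) ?_ ?_ ?_ hn
  · exact ⟨none, El.base s.H.one_mem⟩
  · rintro h hh x ⟨o, ho⟩
    exact ⟨_, ho.H_mul hh⟩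
  · rintro Y hY r hr x ⟨o, ho⟩
    exact ho.rot_mul hY hr

theorem El.ch {o : Option L} {n : G} (h : El s o n) {v : V} (hv : v ∈ W1 s) : Ch s o (n • v) := by
  induction h with
  | base hh => exact Ch.base (W1_inv s hh hv)
  | turn hY hr hr1 _ hne ih =>
    rw [mul_smul]
    exact Ch.turn hY hr hr1 ih hne

/-- the far end of a chain projects to an active line near `EY` -/
theorem Ch.proj {o : Option L} {v : V} (h : Ch s o v) :
    ∀ Y' ∈ AA s, some Y' ≠ o → ∃ w ∈ EY s Y', S.d Y' v w ≤ S.th := by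
  induction h with
  | @base v hv => exact fun Y' _ _ => ⟨v, Or.inl hv, by rw [S.d_self]; omega⟩
  | @turn Y o r v hY hr hr1 _ hne ih =>
    intro Y' hY' hne'
    obtain ⟨w, hw, hvw⟩ := ih Y hY (Ne.symm hne)
    have hYY : Y ≠ Y' := fun h => hne' (by rw [h])
    have h1 := d_rot hr v w
    have h2 := S.rot_big Y r w hr hr1
    rcases S.beh Y Y' (r • v) hYY with hw' | hw'
    · exfalso
      obtain ⟨w', hon⟩ := S.line_ne Y'
      have hw'E : w' ∈ EY s Y := Or.inr ⟨Y', hY', hYY.symm, hon⟩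
      have h3 := diam_EY s hY.1 hw hw'E
      have h4 := S.d_tri Y w w' (r • w)
      have h5 := S.d_tri Y w' (r • v) (r • w)
      have h7 := hw' w' hon
      rw [S.d_comm Y w' (r • v)] at h5
      have h6 := S.hT Y
      omega
    · obtain ⟨w', hon⟩ := S.line_ne Y
      exact ⟨w', Or.inr ⟨Y, hY, hYY, hon⟩, hw' w' hon⟩

/-- a point `u` near `EY Y` and a chain starting with `Y` are far apart on `Y` -/
theorem far {Y : L} (hY : Y ∈ AA s) {u : V} (hu : ∃ w ∈ EY s Y, S.d Y u w ≤ S.th) {o : Option L}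
    {v : V} (hc : Ch s o v) (ho : o ≠ some Y) {r : G} (hr : r ∈ S.rot Y) (hr1 : r ≠ 1) :
    S.T Y ≤ S.d Y u (r • v) + 12 * S.th := by
  obtain ⟨w, hw, hvw⟩ := hc.proj Y hY (Ne.symm ho)
  obtain ⟨w', hw', huw⟩ := hu
  have h1 := d_rot hr v w
  have h2 := S.rot_big Y r w hr hr1
  have h3 := diam_EY s hY.1 hw hw'
  have h4 := S.d_tri Y w w' (r • w)
  have h5 := S.d_tri Y w' u (r • w)
  have h6 := S.d_tri Y u (r • v) (r • w)
  rw [S.d_comm Y w' u] at h5
  omega

theorem El.red {o : Option L} {n : G} (h : El s o n) : S.Red x0 n := by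
  induction h with
  | base hh => exact s.claim _ hh
  | @turn Y o r n hY hr hr1 hel hne ih =>
    exact Sys.Red.step hr hr1 ih (far hY ⟨x0, Or.inl (Or.inl s.x0_mem), by rw [S.d_self]; omega⟩
      (hel.ch (Or.inl s.x0_mem)) hne hr hr1)

theorem claim' {n : G} (hn : n ∈ H' s) : S.Red x0 n := by
  obtain ⟨o, hel⟩ := H'_el hn
  exact hel.red

theorem El.ne_one {Y : L} {n : G} (h : El s (some Y) n) : n ≠ 1 := by
  cases h with
  | @turn Y o r n hY hr hr1 hel hne =>
    intro h1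
    have f := far hY (u := x0) ⟨x0, Or.inl (Or.inl s.x0_mem), by rw [S.d_self]; omega⟩
      (hel.ch (Or.inl s.x0_mem)) hne hr hr1
    rw [← mul_smul, h1, one_smul, S.d_self] at f
    have := S.hT Y
    omega

/-- chains have small projections to lines outside `H'` -/
theorem Ch.small {o : Option L} {v : V} (h : Ch s o v) :
    ∀ u, (∀ Y, o = some Y → ∃ w ∈ EY s Y, S.d Y u w ≤ S.th) →
    ∀ Z, Out s Z → (∃ w ∈ EY s Z, S.d Z u w ≤ S.th) →
    S.d Z u v ≤ 6 * S.th := by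
  induction h with
  | @base v hv =>
    intro u _ Z hZ hQ
    obtain ⟨w, hw, huw⟩ := hQ
    have h1 := diam_EY_out s hZ hw (Or.inl hv)
    have h2 := S.d_tri Z u w v
    omega
  | @turn Y o r v hY hr hr1 hc hne ih =>
    intro u hP Z hZ hQ
    have hP' := hP Y rfl
    have hfar := far hY hP' hc hne hr hr1
    have hrH : r ∈ H' s := rot_le_H' s Y hY hr
    have hYZ : Y ≠ Z := fun h => hZ.not_AA s (h ▸ hY)
    obtain ⟨y0, hy0⟩ := S.line_ne Y
    obtain ⟨z0, hz0⟩ := S.line_ne Z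
    rcases S.beh Y Z u hYZ with hd1 | hd1
    · rcases S.beh Y Z (r • v) hYZ with hd2 | hd2
      · exfalso
        have h1 := hd1 z0 hz0
        have h2 := hd2 z0 hz0
        have h3 := S.d_tri Y u z0 (r • v)
        rw [S.d_comm Y z0 (r • v)] at h3
        have h4 := S.hT Y
        omega
      · obtain ⟨w, hw, huw⟩ := hQ
        have h1 := diam_EY_out s hZ hw (Or.inr ⟨Y, hY, hYZ, hy0⟩)
        have h2 := S.d_tri Z u w (r • v)
        have h3 := S.d_tri Z w y0 (r • v)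
        have h4 := hd2 y0 hy0
        rw [S.d_comm Z y0 (r • v)] at h3
        omega
    · -- move to the next line of the chain
      have hr' : r⁻¹ ∈ S.rot Y := (S.rot Y).inv_mem hr
      have hY' : r⁻¹ • Y = Y := S.rot_fix Y r⁻¹ hr'
      have hrZ : Out s (r⁻¹ • Z) := hZ.smul s ((H' s).inv_mem hrH)
      have key : S.d Z u (r • v) = S.d (r⁻¹ • Z) (r⁻¹ • u) v := by
        rw [← S.d_smul r⁻¹ Z u (r • v), inv_smul_smul]
      rw [key]
      apply ih
      · -- condition on the next line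
        intro Y2 ho
        have hne2 : Y ≠ Y2 := by
          intro h
          apply hne
          rw [ho, h]
        have hY2 : Y2 ∈ AA s := by
          subst ho
          cases hc with
          | turn h _ _ _ _ => exact h
        obtain ⟨y2, hy2⟩ := S.line_ne Y2
        rcases S.beh Y Y2 (r⁻¹ • u) hne2 with h1 | h1
        · exfalso
          have h2 := h1 y2 hy2
          obtain ⟨w, hw, huw⟩ := hP'
          have h3 := diam_EY s hY.1 hw (Or.inr ⟨Y2, hY2, hne2.symm, hy2⟩)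
          have h4 := S.rot_big Y r⁻¹ u hr' (by
            intro h; apply hr1; rw [← inv_inv r, h, inv_one])
          have h5 := S.d_tri Y u w (r⁻¹ • u)
          have h6 := S.d_tri Y w y2 (r⁻¹ • u)
          rw [S.d_comm Y y2 (r⁻¹ • u)] at h6
          have h7 := S.hT Y
          omega
        · exact ⟨y0, Or.inr ⟨Y, hY, hne2, hy0⟩, h1 y0 hy0⟩
      · exact hrZ
      · have hYZ' : Y ≠ r⁻¹ • Z := by
          intro h
          apply hYZ
          rw [← hY'] at h
          exact smul_left_cancel r⁻¹ h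
        refine ⟨r⁻¹ • y0, ?_, ?_⟩
        · have h8 := S.on_smul r⁻¹ Y y0 hy0
          rw [hY'] at h8
          exact Or.inr ⟨Y, hY, hYZ', h8⟩
        · rw [S.d_smul]
          exact hd1 y0 hy0

theorem W'_diam {Z : L} (hZ : Out s Z) {u v : V} (hu : u ∈ W' s) (hv : v ∈ W' s) :
    S.d Z u v ≤ 6 * S.th := by
  obtain ⟨g, hg, e, he, rfl⟩ := hu
  obtain ⟨h, hh, f, hf, rfl⟩ := hv
  have hgh : g⁻¹ * h ∈ H' s := (H' s).mul_mem ((H' s).inv_mem hg) hh
  obtain ⟨o, hel⟩ := H'_el hgh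
  have hch := hel.ch hf
  have key : S.d Z (g • e) (h • f) = S.d (g⁻¹ • Z) e ((g⁻¹ * h) • f) := by
    rw [← S.d_smul g⁻¹ Z (g • e) (h • f), inv_smul_smul, mul_smul]
  rw [key]
  refine hch.small e ?_ _ (hZ.smul s ((H' s).inv_mem hg)) ?_
  · intro Y _
    exact ⟨e, Or.inl he, by rw [S.d_self]; omega⟩
  · exact ⟨e, Or.inl he, by rw [S.d_self]; omega⟩

theorem W1_sub {v : V} (hv : v ∈ W1 s) : v ∈ W' s :=
  ⟨1, (H' s).one_mem, v, hv, by rw [one_smul]⟩

variable (s) in
def next : State S x0 where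
  H := H' s
  W := W' s
  x0_mem := W1_sub (Or.inl s.x0_mem)
  inv := by
    rintro h hh _ ⟨g, hg, e, he, rfl⟩
    exact ⟨h * g, (H' s).mul_mem hh hg, e, he, by rw [mul_smul]⟩
  diam := by
    intro Y
    by_cases h : S.rot Y ≤ H' s
    · exact Or.inl h
    · exact Or.inr fun u hu v hv => W'_diam (out_of s h) hu hv
  claim := fun n hn => claim' hn

end step

variable (S x0) in
def start : State S x0 where
  H := ⊥
  W := {x0}
  x0_mem := rfl
  inv := by
    intro h hh w hw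
    rw [Subgroup.mem_bot] at hh
    rw [hh, one_smul]
    exact hw
  diam := by
    intro Y
    right
    intro u hu v hv
    rw [Set.mem_singleton_iff] at hu hv
    rw [hu, hv, S.d_self]
    omega
  claim := by
    intro n hn
    rw [Subgroup.mem_bot.1 hn]
    exact Sys.Red.one

variable (S x0) in
def stage : ℕ → State S x0
  | 0 => start S x0
  | n + 1 => next (stage n)

theorem stage_H_succ (n : ℕ) : (stage S x0 n).H ≤ (stage S x0 (n + 1)).H := H_le _

theorem stage_H_mono {m n : ℕ} (h : m ≤ n) : (stage S x0 m).H ≤ (stage S x0 n).H := by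
  induction h with
  | refl => exact le_rfl
  | step _ ih => exact ih.trans (stage_H_succ _)

theorem stage_W_succ (n : ℕ) : (stage S x0 n).W ⊆ (stage S x0 (n + 1)).W :=
  fun _ hv => W1_sub (Or.inl hv)

theorem stage_W_mono {m n : ℕ} (h : m ≤ n) : (stage S x0 m).W ⊆ (stage S x0 n).W := by
  induction h with
  | refl => exact le_rfl
  | step _ ih => exact ih.trans (stage_W_succ _)

theorem stage_ball (v : V) : ∃ n, v ∈ (stage S x0 n).W := by
  have h := S.conn x0 v
  induction h with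
  | refl => exact ⟨0, rfl⟩
  | @tail b c _ hbc ih =>
    obtain ⟨n, hn⟩ := ih
    exact ⟨n + 1, W1_sub (Or.inr ⟨b, hn, hbc⟩)⟩

theorem stage_rot (Y : L) : ∃ n, S.rot Y ≤ (stage S x0 n).H := by
  by_cases hbot : ∃ r ∈ S.rot Y, r ≠ 1
  · obtain ⟨r, hr, hr1⟩ := hbot
    obtain ⟨m, hm⟩ := stage_ball (S := S) (x0 := x0) x0
    obtain ⟨n, hn⟩ := stage_ball (S := S) (x0 := x0) (r • x0)
    refine ⟨max m n, ?_⟩
    rcases (stage S x0 (max m n)).diam Y with h | h
    · exact h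
    · exfalso
      have h1 := h x0 (stage_W_mono (le_max_left m n) hm) (r • x0)
        (stage_W_mono (le_max_right m n) hn)
      have h2 := S.rot_big Y r x0 hr hr1
      have h3 := S.hT Y
      omega
  · push Not at hbot
    refine ⟨0, fun r hr => ?_⟩
    rw [hbot r hr]
    exact Subgroup.one_mem _

theorem N_stage {n : G} (hn : n ∈ S.N) : ∃ i, n ∈ (stage S x0 i).H := by
  unfold Sys.N at hn
  induction hn using Subgroup.closure_induction with
  | mem x hx =>
    obtain ⟨Y, hY⟩ := hx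
    obtain ⟨i, hi⟩ := stage_rot (S := S) (x0 := x0) Y
    exact ⟨i, hi hY⟩
  | one => exact ⟨0, Subgroup.one_mem _⟩
  | mul x y _ _ ihx ihy =>
    obtain ⟨i, hi⟩ := ihx
    obtain ⟨j, hj⟩ := ihy
    exact ⟨max i j, Subgroup.mul_mem _ (stage_H_mono (le_max_left i j) hi)
      (stage_H_mono (le_max_right i j) hj)⟩
  | inv x _ ih =>
    obtain ⟨i, hi⟩ := ih
    exact ⟨i, Subgroup.inv_mem _ hi⟩

section free

open Classical

theorem stage_le_N (i : ℕ) : (stage S x0 i).H ≤ S.N := by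
  induction i with
  | zero => exact bot_le
  | succ i ih =>
    show H' (stage S x0 i) ≤ S.N
    unfold H'
    rw [Subgroup.closure_le]
    rintro r (hr | ⟨Y, _, hr⟩)
    · exact ih hr
    · exact Subgroup.subset_closure ⟨Y, hr⟩

variable (S x0) in
/-- a transversal of the active lines of stage `i` -/
noncomputable def RR (i : ℕ) : Set L :=
  {Y | Y ∈ AA (stage S x0 i) ∧
    Quotient.out (Quotient.mk (MulAction.orbitRel (stage S x0 i).H L) Y) = Y}

theorem RR_cover (i : ℕ) {Y : L} (hY : Y ∈ AA (stage S x0 i)) :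
    ∃ ρ ∈ RR S x0 i, ∃ h ∈ (stage S x0 i).H, Y = h • ρ := by
  set q := Quotient.mk (MulAction.orbitRel (stage S x0 i).H L) Y with hq
  have h1 : Quotient.mk (MulAction.orbitRel (stage S x0 i).H L) (Quotient.out q) = q :=
    Quotient.out_eq q
  have h2 : (MulAction.orbitRel (stage S x0 i).H L) Y (Quotient.out q) := by
    apply Quotient.exact
    rw [h1]
  rw [MulAction.orbitRel_apply] at h2
  obtain ⟨⟨h, hh⟩, hhY⟩ := h2
  have e : h • Quotient.out q = Y := hhY
  refine ⟨Quotient.out q, ⟨?_, ?_⟩, h, hh, e.symm⟩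
  · have : Quotient.out q = h⁻¹ • Y := by rw [← e, inv_smul_smul]
    rw [this]
    exact AA_inv _ ((stage S x0 i).H.inv_mem hh) hY
  · rw [h1]

theorem RR_inj (i : ℕ) {ρ ρ' : L} (h1 : ρ ∈ RR S x0 i) (h2 : ρ' ∈ RR S x0 i) {h : G}
    (hh : h ∈ (stage S x0 i).H) (e : h • ρ = ρ') : ρ = ρ' := by
  have : (Quotient.mk (MulAction.orbitRel (stage S x0 i).H L) ρ') =
      (Quotient.mk (MulAction.orbitRel (stage S x0 i).H L) ρ) := by
    apply Quotient.sound
    show (MulAction.orbitRel (stage S x0 i).H L) ρ' ρ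
    rw [MulAction.orbitRel_apply]
    exact ⟨⟨h, hh⟩, e⟩
  rw [← h1.2, ← h2.2, this]

theorem RR_AA {i : ℕ} {ρ : L} (h1 : ρ ∈ RR S x0 i) : ρ ∈ AA (stage S x0 i) := h1.1

variable (S x0) in
def RA : Set L := {Y | ∃ i, Y ∈ RR S x0 i}

variable {gen : L → G} (hgen : ∀ Y, S.rot Y = Subgroup.zpowers (gen Y))
  (hinf : ∀ Y (k : ℤ), gen Y ^ k = 1 → k = 0)
  (stab : ∀ Y, ∀ h ∈ S.N, h • Y = Y → h ≠ 1 → ∃ k : ℕ, h ^ k ∈ S.rot Y ∧ h ^ k ≠ 1)

include stab in
theorem stab_one {i : ℕ} {Y : L} (hY : Y ∈ AA (stage S x0 i)) {h : G}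
    (hh : h ∈ (stage S x0 i).H) (hfix : h • Y = Y) : h = 1 := by
  by_contra h1
  obtain ⟨k, hk, hk1⟩ := stab Y h (stage_le_N i hh) hfix h1
  have b := S.rot_big Y _ x0 hk hk1
  have hd := ((stage S x0 i).diam Y).resolve_left hY.1
  have hkH : h ^ k ∈ (stage S x0 i).H := Subgroup.pow_mem _ hh k
  have := hd x0 (stage S x0 i).x0_mem (h ^ k • x0)
    ((stage S x0 i).inv _ hkH _ (stage S x0 i).x0_mem)
  have t := S.hT Y
  omega

variable (S x0) in
/-- subgroup of the free group generated by the letters of stages `< i` -/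
def FG (i : ℕ) : Subgroup (FreeGroup (RA S x0)) :=
  Subgroup.closure {w | ∃ ρ : RA S x0, (∃ j, j < i ∧ ρ.1 ∈ RR S x0 j) ∧ w = FreeGroup.of ρ}

theorem FG_mono {i j : ℕ} (h : i ≤ j) : FG S x0 i ≤ FG S x0 j := by
  apply Subgroup.closure_mono
  rintro w ⟨ρ, ⟨k, hk, hρ⟩, hw⟩
  exact ⟨ρ, ⟨k, by omega, hρ⟩, hw⟩

variable (S x0 gen) in
noncomputable def φ : FreeGroup (RA S x0) →* G := FreeGroup.lift (fun ρ : RA S x0 => gen ρ.1)

theorem φ_of (ρ : RA S x0) : φ S x0 gen (FreeGroup.of ρ) = gen ρ.1 := by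
  simp [φ]

include hgen in
theorem gen_mem (Y : L) : gen Y ∈ S.rot Y := by
  rw [hgen]; exact Subgroup.mem_zpowers _

include hgen in
theorem φ_FG (i : ℕ) : (FG S x0 i).map (φ S x0 gen) = (stage S x0 i).H := by
  induction i with
  | zero =>
    have : FG S x0 0 = ⊥ := by
      unfold FG
      have : {w | ∃ ρ : RA S x0, (∃ j, j < 0 ∧ ρ.1 ∈ RR S x0 j) ∧ w = FreeGroup.of ρ} = ∅ := by
        ext w
        simp
      rw [this, Subgroup.closure_empty]
    rw [this, Subgroup.map_bot]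
    rfl
  | succ i ih =>
    apply le_antisymm
    · rw [Subgroup.map_le_iff_le_comap]
      unfold FG
      rw [Subgroup.closure_le]
      rintro w ⟨ρ, ⟨j, hj, hρ⟩, rfl⟩
      show φ S x0 gen (FreeGroup.of ρ) ∈ (stage S x0 (i + 1)).H
      rw [φ_of]
      have h1 : gen ρ.1 ∈ H' (stage S x0 j) := rot_le_H' _ _ (RR_AA hρ) (gen_mem hgen _)
      exact stage_H_mono (show j + 1 ≤ i + 1 by omega) h1
    · show H' (stage S x0 i) ≤ _
      unfold H'
      rw [Subgroup.closure_le]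
      rintro r (hr | ⟨Y, hY, hr⟩)
      · rw [← ih] at hr
        exact Subgroup.map_mono (FG_mono (Nat.le_succ i)) hr
      · obtain ⟨ρ, hρ, h, hh, e⟩ := RR_cover i hY
        rw [← ih] at hh
        obtain ⟨u, hu, hu'⟩ := hh
        have h1 := S.rot_conj h⁻¹ _ r hr
        rw [e, inv_smul_smul, inv_inv, hgen] at h1
        obtain ⟨k, hk⟩ := h1
        refine ⟨u * FreeGroup.of ⟨ρ, i, hρ⟩ ^ k * u⁻¹, ?_, ?_⟩
        · have hu2 := FG_mono (Nat.le_succ i) hu
          have hm : FreeGroup.of (⟨ρ, i, hρ⟩ : RA S x0) ∈ FG S x0 (i + 1) :=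
            Subgroup.subset_closure ⟨_, ⟨i, Nat.lt_succ_self i, hρ⟩, rfl⟩
          exact mul_mem (mul_mem hu2 (Subgroup.zpow_mem _ hm k)) (inv_mem hu2)
        · have hk' : gen ρ ^ k = h⁻¹ * r * h := hk
          rw [map_mul, map_mul, map_inv, map_zpow, hu', φ_of, hk']
          group

/-- lifted chains -/
inductive ElF (S : Sys G V L) (x0 : V) (gen : L → G) (i : ℕ) : Option L → FreeGroup (RA S x0) → Prop
  | base {w : FreeGroup (RA S x0)} : w ∈ FG S x0 i → ElF S x0 gen i none w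
  | turn {o : Option L} {u : FreeGroup (RA S x0)} {ρ : RA S x0} {k : ℤ} {w : FreeGroup (RA S x0)} :
      u ∈ FG S x0 i → ρ.1 ∈ RR S x0 i → k ≠ 0 → ElF S x0 gen i o w →
      o ≠ some (φ S x0 gen u • ρ.1) →
      ElF S x0 gen i (some (φ S x0 gen u • ρ.1)) (u * FreeGroup.of ρ ^ k * u⁻¹ * w)

include hgen hinf in
theorem ElF.el {i : ℕ} {o : Option L} {w : FreeGroup (RA S x0)} (h : ElF S x0 gen i o w) :
    El (stage S x0 i) o (φ S x0 gen w) := by
  induction h with
  | @base w hw =>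
    refine El.base ?_
    rw [← φ_FG hgen]
    exact ⟨w, hw, rfl⟩
  | @turn o u ρ k w hu hρ hk hw hne ih =>
    have hh : φ S x0 gen u ∈ (stage S x0 i).H := by
      rw [← φ_FG hgen]
      exact ⟨u, hu, rfl⟩
    rw [map_mul]
    refine El.turn (AA_inv _ hh (RR_AA hρ)) ?_ ?_ ih hne
    · rw [map_mul, map_mul, map_inv, map_zpow, φ_of]
      exact S.rot_conj _ _ _ (Subgroup.zpow_mem _ (gen_mem hgen _) k)
    · intro h1
      rw [map_mul, map_mul, map_inv, map_zpow, φ_of] at h1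
      apply hk
      apply hinf ρ.1
      rw [mul_inv_eq_one] at h1
      exact mul_eq_left.1 h1

theorem ElF.H_mul {i : ℕ} {o : Option L} {w v : FreeGroup (RA S x0)} (hv : v ∈ FG S x0 i)
    (h : ElF S x0 gen i o w) : ElF S x0 gen i (o.map (φ S x0 gen v • ·)) (v * w) := by
  induction h with
  | @base w hw => exact ElF.base (mul_mem hv hw)
  | @turn o u ρ k w hu hρ hk hw hne ih =>
    have e : v * (u * FreeGroup.of ρ ^ k * u⁻¹ * w) =
        (v * u) * FreeGroup.of ρ ^ k * (v * u)⁻¹ * (v * w) := by group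
    have e2 : (some (φ S x0 gen u • ρ.1)).map (φ S x0 gen v • ·) =
        some (φ S x0 gen (v * u) • ρ.1) := by
      rw [Option.map_some, map_mul, mul_smul]
    rw [e, e2]
    refine ElF.turn (mul_mem hv hu) hρ hk ih ?_
    intro h1
    apply hne
    rcases o with _ | Y'
    · simp at h1
    · rw [map_mul, mul_smul] at h1
      simp only [Option.map_some, Option.some.injEq] at h1
      rw [smul_left_cancel _ h1]

include hgen hinf stab in
theorem FG_inj (i : ℕ) : ∀ w ∈ FG S x0 i, φ S x0 gen w = 1 → w = 1 := by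
  induction i with
  | zero =>
    intro w hw _
    have : FG S x0 0 = ⊥ := by
      unfold FG
      have : {w | ∃ ρ : RA S x0, (∃ j, j < 0 ∧ ρ.1 ∈ RR S x0 j) ∧ w = FreeGroup.of ρ} = ∅ := by
        ext w
        simp
      rw [this, Subgroup.closure_empty]
    rw [this] at hw
    exact Subgroup.mem_bot.1 hw
  | succ i ih =>
    have rot_mul : ∀ (ρ : RA S x0) (_ : ρ.1 ∈ RR S x0 i) (k : ℤ) (o : Option L)
        (w : FreeGroup (RA S x0)), ElF S x0 gen i o w →
        ∃ o', ElF S x0 gen i o' (FreeGroup.of ρ ^ k * w) := by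
      intro ρ hρ k o w hw
      by_cases hk : k = 0
      · subst hk
        exact ⟨o, by rwa [zpow_zero, one_mul]⟩
      by_cases ho : o = some ρ.1
      · cases hw with
        | base _ => simp at ho
        | @turn o' u ρ' k' w' hu hρ' hk' hw' hne =>
          have ho' : φ S x0 gen u • ρ'.1 = ρ.1 := by simpa using ho
          have hh : φ S x0 gen u ∈ (stage S x0 i).H := by
            rw [← φ_FG hgen]
            exact ⟨u, hu, rfl⟩
          have e1 : ρ'.1 = ρ.1 := RR_inj i hρ' hρ hh ho'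
          have e2 : ρ' = ρ := Subtype.ext e1
          subst e2
          have e3 := stab_one stab (RR_AA hρ) hh ho'
          have e4 := ih u hu e3
          subst e4
          have e5 : FreeGroup.of ρ' ^ k * (1 * FreeGroup.of ρ' ^ k' * 1⁻¹ * w') =
              FreeGroup.of ρ' ^ (k + k') * w' := by
            rw [zpow_add]; group
          rw [e5]
          by_cases hkk : k + k' = 0
          · rw [hkk, zpow_zero, one_mul]
            exact ⟨o', hw'⟩
          · have e6 : FreeGroup.of ρ' ^ (k + k') * w' =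
                1 * FreeGroup.of ρ' ^ (k + k') * 1⁻¹ * w' := by group
            rw [e6]
            exact ⟨_, ElF.turn (one_mem _) hρ hkk hw' hne⟩
      · have e6 : FreeGroup.of ρ ^ k * w = 1 * FreeGroup.of ρ ^ k * 1⁻¹ * w := by group
        rw [e6]
        refine ⟨_, ElF.turn (one_mem _) hρ hk hw ?_⟩
        rw [map_one, one_smul]
        exact ho
    have key : ∀ w ∈ FG S x0 (i + 1), ∃ o, ElF S x0 gen i o w := by
      intro w hw
      unfold FG at hw
      induction hw using Subgroup.closure_induction_left with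
      | one => exact ⟨none, ElF.base (one_mem _)⟩
      | mul_left x hx y hy ih2 =>
        obtain ⟨ρ, ⟨j, hj, hρ⟩, rfl⟩ := hx
        obtain ⟨o, ho⟩ := ih2
        rcases Nat.lt_or_ge j i with hji | hji
        · exact ⟨_, ho.H_mul (Subgroup.subset_closure ⟨ρ, ⟨j, hji, hρ⟩, rfl⟩)⟩
        · have : j = i := by omega
          subst this
          have := rot_mul ρ hρ 1 o y ho
          rwa [zpow_one] at this
      | inv_mul_cancel x hx y hy ih2 =>
        obtain ⟨ρ, ⟨j, hj, hρ⟩, rfl⟩ := hx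
        obtain ⟨o, ho⟩ := ih2
        rcases Nat.lt_or_ge j i with hji | hji
        · exact ⟨_, ho.H_mul (inv_mem (Subgroup.subset_closure ⟨ρ, ⟨j, hji, hρ⟩, rfl⟩))⟩
        · have : j = i := by omega
          subst this
          have := rot_mul ρ hρ (-1) o y ho
          rwa [zpow_neg, zpow_one] at this
    intro w hw h1
    obtain ⟨o, ho⟩ := key w hw
    cases ho with
    | base hw' => exact ih w hw' h1
    | turn hu hρ hk hw' hne =>
      exact absurd h1 (ElF.el hgen hinf (ElF.turn hu hρ hk hw' hne)).ne_one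

theorem FG_all (w : FreeGroup (RA S x0)) : ∃ i, w ∈ FG S x0 i := by
  induction w using FreeGroup.induction_on with
  | C1 => exact ⟨0, one_mem _⟩
  | of ρ =>
    obtain ⟨i, hi⟩ := ρ.2
    exact ⟨i + 1, Subgroup.subset_closure ⟨ρ, ⟨i, Nat.lt_succ_self i, hi⟩, rfl⟩⟩
  | inv_of ρ ih =>
    obtain ⟨i, hi⟩ := ih
    exact ⟨i, inv_mem hi⟩
  | mul x y ihx ihy =>
    obtain ⟨i, hi⟩ := ihx
    obtain ⟨j, hj⟩ := ihy
    exact ⟨max i j, mul_mem (FG_mono (le_max_left i j) hi) (FG_mono (le_max_right i j) hj)⟩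

include hgen hinf in
theorem cover (i : ℕ) : ∀ Y, S.rot Y ≤ (stage S x0 i).H → ∃ ρ ∈ RA S x0, ∃ h ∈ S.N, Y = h • ρ := by
  induction i with
  | zero =>
    intro Y hY
    exfalso
    have h1 : gen Y ∈ (⊥ : Subgroup G) := hY (gen_mem hgen Y)
    have h2 := hinf Y 1 (by rw [zpow_one]; exact Subgroup.mem_bot.1 h1)
    omega
  | succ i ih =>
    intro Y hY
    by_cases hO : Out (stage S x0 i) Y
    · exfalso
      have h1 : gen Y ∈ H' (stage S x0 i) := hY (gen_mem hgen Y)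
      have hx : x0 ∈ W' (stage S x0 i) := W1_sub (Or.inl (stage S x0 i).x0_mem)
      have hx2 : gen Y • x0 ∈ W' (stage S x0 i) := (next (stage S x0 i)).inv _ h1 _ hx
      have d := W'_diam hO hx hx2
      have b := S.rot_big Y (gen Y) x0 (gen_mem hgen Y) (fun h => by
        have := hinf Y 1 (by rw [zpow_one, h])
        omega)
      have t := S.hT Y
      omega
    · unfold Out at hO
      push Not at hO
      obtain ⟨g, hg, hgY⟩ := hO
      have hgN : g ∈ S.N := stage_le_N (i + 1) hg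
      by_cases hA : g • Y ∈ AA (stage S x0 i)
      · obtain ⟨ρ, hρ, h, hh, e⟩ := RR_cover i hA
        refine ⟨ρ, ⟨i, hρ⟩, g⁻¹ * h, mul_mem (inv_mem hgN) (stage_le_N i hh), ?_⟩
        rw [mul_smul, ← e, inv_smul_smul]
      · obtain ⟨ρ, hρ, h, hh, e⟩ := ih (g • Y) (hgY hA)
        refine ⟨ρ, hρ, g⁻¹ * h, mul_mem (inv_mem hgN) hh, ?_⟩
        rw [mul_smul, ← e, inv_smul_smul]

end free

end Wd

theorem all_red {G V L : Type*} [Group G] [MulAction G V] [MulAction G L] (S : Sys G V L)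
    (x0 : V) {h : G} (hh : h ∈ S.N) : S.Red x0 h := by
  obtain ⟨i, hi⟩ := Wd.N_stage (x0 := x0) hh
  exact (Wd.stage S x0 i).claim _ hi

theorem free_basis {G V L : Type*} [Group G] [MulAction G V] [MulAction G L] (S : Sys G V L)
    (x0 : V) (gen : L → G) (hgen : ∀ Y, S.rot Y = Subgroup.zpowers (gen Y))
    (hinf : ∀ Y (k : ℤ), gen Y ^ k = 1 → k = 0)
    (stab : ∀ Y, ∀ h ∈ S.N, h • Y = Y → h ≠ 1 → ∃ k : ℕ, h ^ k ∈ S.rot Y ∧ h ^ k ≠ 1) :
    ∃ R : Set L, (∀ Y, ∃ ρ ∈ R, ∃ h ∈ S.N, Y = h • ρ) ∧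
      (∀ ρ ∈ R, ∀ ρ' ∈ R, ∀ h ∈ S.N, h • ρ = ρ' → ρ = ρ') ∧
      Function.Injective (FreeGroup.lift (fun ρ : R => gen ρ.1)) ∧
      (FreeGroup.lift (fun ρ : R => gen ρ.1)).range = S.N := by
  classical
  have inj : Function.Injective (Wd.φ S x0 gen) := by
    rw [injective_iff_map_eq_one]
    intro w hw
    obtain ⟨i, hi⟩ := Wd.FG_all w
    exact Wd.FG_inj hgen hinf stab i w hi hw
  have ran : (Wd.φ S x0 gen).range = S.N := by
    apply le_antisymm
    · rintro _ ⟨w, rfl⟩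
      obtain ⟨i, hi⟩ := Wd.FG_all w
      have : Wd.φ S x0 gen w ∈ (Wd.stage S x0 i).H := by
        rw [← Wd.φ_FG hgen]
        exact ⟨w, hi, rfl⟩
      exact Wd.stage_le_N i this
    · intro x hx
      obtain ⟨i, hi⟩ := Wd.N_stage (x0 := x0) hx
      rw [← Wd.φ_FG hgen] at hi
      obtain ⟨w, _, hw⟩ := hi
      exact ⟨w, hw⟩
  refine ⟨Wd.RA S x0, ?_, ?_, inj, ran⟩
  · intro Y
    obtain ⟨i, hi⟩ := Wd.stage_rot (S := S) (x0 := x0) Y
    exact Wd.cover hgen hinf i Y hi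
  · intro ρ hρ ρ' hρ' h hh e
    rw [← ran] at hh
    obtain ⟨w, hw⟩ := hh
    have h1 := S.rot_conj h ρ (gen ρ) (Wd.gen_mem hgen ρ)
    rw [e, hgen] at h1
    obtain ⟨k, hk⟩ := h1
    have hk' : gen ρ' ^ k = h * gen ρ * h⁻¹ := hk
    have e1 : Wd.φ S x0 gen (w * FreeGroup.of ⟨ρ, hρ⟩ * w⁻¹) =
        Wd.φ S x0 gen (FreeGroup.of ⟨ρ', hρ'⟩ ^ k) := by
      rw [map_mul, map_mul, map_inv, map_zpow, Wd.φ_of, Wd.φ_of, hw, hk']
    have e2 := inj e1
    by_contra hne
    let χ : FreeGroup (Wd.RA S x0) →* Multiplicative ℤ :=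
      FreeGroup.lift (fun σ => if σ = ⟨ρ, hρ⟩ then Multiplicative.ofAdd 1 else 1)
    have e3 : χ (w * FreeGroup.of ⟨ρ, hρ⟩ * w⁻¹) = χ (FreeGroup.of ⟨ρ', hρ'⟩ ^ k) := by rw [e2]
    have c1 : χ (FreeGroup.of ⟨ρ, hρ⟩) = Multiplicative.ofAdd 1 := by simp [χ]
    have c2 : χ (FreeGroup.of ⟨ρ', hρ'⟩) = 1 := by
      have : ¬ ρ' = ρ := fun h => hne h.symm
      simp [χ, this]
    rw [map_mul, map_mul, map_inv, map_zpow, c1, c2, one_zpow, mul_comm, inv_mul_cancel_left] at e3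
    have : (1 : ℤ) = 0 := e3
    omega

end Run7.h253
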