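import Pool.Agent.Run7.h253.Iso
import Pool.Agent.Run7.h253.Wind

/-!
# Piece `proj`: nearest point projections to the tubes of a killing system, and the windmill

`δ = 200`, `κ = 800`.
* (PR1) `y ∈ prj Y x`, `y' ∈ Y` ⇒ `d x y' ≥ d x y + d y y' - 2200`: with `g = (x|y')_y` take `m ∈ [y,y']`,
  `d y m = g`, 4pt on `(x,y,m,y')` gives `d x m ≤ d x y - g + δ`, and `m` is `800`-near `Y`.
* (PR2) `y ∈ prj Y x`, `y' ∈ prj Y x'`, `d y y' > 2400` ⇒ `d x x' ≥ d x y + d y y' + d y' x' - 4600`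
  (4pt on `(x,y,y',x')`).
-/

set_option autoImplicit false

namespace Run7.h253

section
variable {G : Type*} [Group G] {U : Subgroup G} {n : ℕ} {L : Type*} [MulAction G L]
  (S : BSys G U n L)

theorem prj_nonempty (ℓ : L) (x : G) : (prj S.d (S.Y ℓ) x).Nonempty := by
  classical
  obtain ⟨y0, hy0⟩ := S.Y_ne ℓ
  have hex : ∃ k, ∃ y ∈ S.Y ℓ, S.d x y = k := ⟨_, y0, hy0, rfl⟩
  obtain ⟨y, hy, hy'⟩ := Nat.find_spec hex
  refine ⟨y, hy, fun y' hy2 => ?_⟩
  rw [hy']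
  exact Nat.find_min' hex ⟨y', hy2, rfl⟩

theorem D_self (ℓ : L) (x : G) : S.D ℓ x x = 0 := by
  unfold BSys.D pd
  exact if_pos rfl

theorem D_ne (ℓ : L) {x y : G} (h : x ≠ y) : S.D ℓ x y =
    sInf {k | ∀ a ∈ prj S.d (S.Y ℓ) x, ∀ b ∈ prj S.d (S.Y ℓ) y, S.d a b ≤ k} := by
  unfold BSys.D pd
  exact if_neg h

theorem D_prj' (ℓ : L) {x y a b : G} (hxy : x ≠ y) (ha : a ∈ prj S.d (S.Y ℓ) x)
    (hb : b ∈ prj S.d (S.Y ℓ) y) : S.d a b ≤ S.D ℓ x y := by
  rw [D_ne S ℓ hxy]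
  have hne : {k | ∀ a ∈ prj S.d (S.Y ℓ) x, ∀ b ∈ prj S.d (S.Y ℓ) y, S.d a b ≤ k}.Nonempty := by
    refine ⟨S.d x a + S.d x y + S.d y b, fun a' ha' b' hb' => ?_⟩
    have h1 := ha'.2 a ha.1
    have h2 := hb'.2 b hb.1
    have t1 := S.tri a' x b'
    have t2 := S.tri x y b'
    have s1 := S.symm a' x
    omega
  exact Nat.sInf_mem hne a ha b hb

theorem D_le_of (ℓ : L) {x y : G} {k : ℕ}
    (h : ∀ a ∈ prj S.d (S.Y ℓ) x, ∀ b ∈ prj S.d (S.Y ℓ) y, S.d a b ≤ k) : S.D ℓ x y ≤ k := by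
  by_cases hxy : x = y
  · subst hxy
    rw [D_self]
    omega
  · rw [D_ne S ℓ hxy]
    exact Nat.sInf_le h

theorem D_comm (ℓ : L) (x y : G) : S.D ℓ x y = S.D ℓ y x := by
  by_cases hxy : x = y
  · subst hxy
    rfl
  · apply le_antisymm
    · apply D_le_of
      intro a ha b hb
      rw [S.symm]
      exact D_prj' S ℓ (Ne.symm hxy) hb ha
    · apply D_le_of
      intro a ha b hb
      rw [S.symm]
      exact D_prj' S ℓ hxy hb ha

theorem D_tri (ℓ : L) (x y z : G) : S.D ℓ x z ≤ S.D ℓ x y + S.D ℓ y z := by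
  by_cases hxy : x = y
  · subst hxy
    omega
  by_cases hyz : y = z
  · subst hyz
    omega
  apply D_le_of
  intro a ha c hc
  obtain ⟨b, hb⟩ := prj_nonempty S ℓ y
  have h1 := D_prj' S ℓ hxy ha hb
  have h2 := D_prj' S ℓ hyz hb hc
  have t := S.tri a b c
  omega

theorem Y_smul_iff (g : G) (ℓ : L) (p : G) : g * p ∈ S.Y (g • ℓ) ↔ p ∈ S.Y ℓ := by
  constructor
  · intro h
    have := S.Y_smul g⁻¹ _ _ h
    rwa [inv_smul_smul, inv_mul_cancel_left] at this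
  · exact S.Y_smul g ℓ p

theorem prj_smul (g : G) (ℓ : L) (x y : G) :
    g * y ∈ prj S.d (S.Y (g • ℓ)) (g * x) ↔ y ∈ prj S.d (S.Y ℓ) x := by
  unfold prj
  simp only [Set.mem_ofPred_eq, Y_smul_iff]
  refine and_congr_right fun _ => ?_
  constructor
  · intro h y' hy'
    have := h (g * y') ((Y_smul_iff S g ℓ y').2 hy')
    rwa [S.inv, S.inv] at this
  · intro h y' hy'
    have e : y' = g * (g⁻¹ * y') := by group
    rw [e] at hy' ⊢
    rw [S.inv, S.inv]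
    exact h _ ((Y_smul_iff S g ℓ _).1 hy')

theorem D_smul_le (g : G) (ℓ : L) (x y : G) : S.D (g • ℓ) (g * x) (g * y) ≤ S.D ℓ x y := by
  by_cases hxy : x = y
  · subst hxy
    rw [D_self]
    omega
  · apply D_le_of
    intro a ha b hb
    have e : a = g * (g⁻¹ * a) := by group
    have e' : b = g * (g⁻¹ * b) := by group
    rw [e] at ha ⊢
    rw [e'] at hb ⊢
    rw [S.inv]
    exact D_prj' S ℓ hxy ((prj_smul S g ℓ _ _).1 ha) ((prj_smul S g ℓ _ _).1 hb)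

theorem D_smul (g : G) (ℓ : L) (x y : G) : S.D (g • ℓ) (g * x) (g * y) = S.D ℓ x y := by
  apply le_antisymm (D_smul_le S g ℓ x y)
  have := D_smul_le S g⁻¹ (g • ℓ) (g * x) (g * y)
  rwa [inv_smul_smul, inv_mul_cancel_left, inv_mul_cancel_left] at this

/-- (PR1) -/
theorem PR1 (ℓ : L) {x y y' : G} (hy : y ∈ prj S.d (S.Y ℓ) x) (hy' : y' ∈ S.Y ℓ) :
    S.d x y + S.d y y' ≤ S.d x y' + 2200 := by
  by_contra hcon
  have t0 := S.tri x y' y
  have s0 := S.symm y' y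
  obtain ⟨m, hm, hm'⟩ := S.geo y y' 1001 (by omega)
  have h4 := S.hyp x y m y'
  obtain ⟨y2, hy2, hy2'⟩ := S.qc ℓ y y' m hy.1 hy' (by omega)
  have h5 := hy.2 y2 hy2
  have t := S.tri x m y2
  have s1 := S.symm m y'
  have s2 := S.symm y m
  omega

/-- (PR2) -/
theorem PR2 (ℓ : L) {x y a b : G} (ha : a ∈ prj S.d (S.Y ℓ) x) (hb : b ∈ prj S.d (S.Y ℓ) y)
    (h : 2400 < S.d a b) : S.d x a + S.d a b + S.d b y ≤ S.d x y + 4600 := by
  have h1 := PR1 S ℓ ha hb.1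
  have h2 := PR1 S ℓ hb ha.1
  have h3 := S.hyp x a b y
  have s1 := S.symm a y
  have s2 := S.symm b y
  have s3 := S.symm b a
  omega

theorem D_far (ℓ : L) {x y a b : G} (ha : a ∈ prj S.d (S.Y ℓ) x) (hb : b ∈ prj S.d (S.Y ℓ) y)
    (h : 2400 < S.d a b) : S.d x a + S.d a b + S.d b y ≤ S.d x y + 4600 :=
  PR2 S ℓ ha hb h

theorem D_le (ℓ : L) (x y : G) : S.D ℓ x y ≤ S.d x y + 5000 := by
  apply D_le_of
  intro a ha b hb
  by_contra hcon
  have := PR2 S ℓ ha hb (by omega)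
  omega

theorem prj_close (ℓ : L) {x a a' : G} (ha : a ∈ prj S.d (S.Y ℓ) x) (ha' : a' ∈ prj S.d (S.Y ℓ) x) :
    S.d a a' ≤ 2200 := by
  have h1 := PR1 S ℓ ha ha'.1
  have h2 := ha'.2 a ha.1
  omega

/-- `D` against the distance of nearest points -/
theorem D_prj (ℓ : L) {x y a b : G} (ha : a ∈ prj S.d (S.Y ℓ) x) (hb : b ∈ prj S.d (S.Y ℓ) y) :
    S.D ℓ x y ≤ S.d a b + 5000 ∧ S.d a b ≤ S.D ℓ x y + 5000 := by
  constructor
  · apply D_le_of
    intro a' ha' b' hb'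
    have h1 := prj_close S ℓ ha' ha
    have h2 := prj_close S ℓ hb hb'
    have t1 := S.tri a' a b'
    have t2 := S.tri a b b'
    omega
  · by_cases hxy : x = y
    · subst hxy
      have := prj_close S ℓ ha hb
      omega
    · have := D_prj' S ℓ hxy ha hb
      omega

theorem prj_on (ℓ : L) {a b : G} (ha : a ∈ S.Y ℓ) (hb : b ∈ prj S.d (S.Y ℓ) a) : b = a := by
  have := hb.2 a ha
  rw [S.self] at this
  exact (S.eq_of _ _ (by omega)).symm

theorem on_prj (ℓ : L) {a : G} (ha : a ∈ S.Y ℓ) : a ∈ prj S.d (S.Y ℓ) a :=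
  ⟨ha, fun y' _ => by rw [S.self]; omega⟩

theorem D_on (ℓ : L) {a b : G} (ha : a ∈ S.Y ℓ) (hb : b ∈ S.Y ℓ) : S.D ℓ a b = S.d a b := by
  by_cases hab : a = b
  · subst hab
    rw [D_self, S.self]
  · apply le_antisymm
    · apply D_le_of
      intro a' ha' b' hb'
      rw [prj_on S ℓ ha ha', prj_on S ℓ hb hb']
    · exact D_prj' S ℓ hab (on_prj S ℓ ha) (on_prj S ℓ hb)

theorem D_far' (ℓ : L) {x y a b : G} (ha : a ∈ prj S.d (S.Y ℓ) x) (hb : b ∈ prj S.d (S.Y ℓ) y)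
    (h : 10000 < S.D ℓ x y) : S.d x a + S.d a b + S.d b y ≤ S.d x y + 4600 := by
  have := (D_prj S ℓ ha hb).1
  exact PR2 S ℓ ha hb (by omega)

theorem mono1 (ℓ : L) {x v y : G} (h : S.d x v + S.d v y ≤ S.d x y + 200) :
    S.D ℓ x v ≤ S.D ℓ x y + 10 ^ 5 := by
  by_contra hcon
  have t := D_tri S ℓ x y v
  have c := D_comm S ℓ y v
  obtain ⟨ax, hax⟩ := prj_nonempty S ℓ x
  obtain ⟨av, hav⟩ := prj_nonempty S ℓ v
  obtain ⟨ay, hay⟩ := prj_nonempty S ℓ y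
  have f1 := D_far' S ℓ hax hav (by omega)
  have f2 := D_far' S ℓ hav hay (by omega)
  have p1 := D_prj S ℓ hax hav
  have p2 := D_prj S ℓ hav hay
  have p3 := D_prj S ℓ hax hay
  have t1 := S.tri x ax y
  have t2 := S.tri ax ay y
  omega

/-- if `m ∈ [x,y]` then `D` is almost monotone -/
theorem D_mono (ℓ : L) {x y u v : G} (h1 : S.d x u + S.d u y = S.d x y)
    (h2 : S.d x v + S.d v y = S.d x y) : S.D ℓ u v ≤ S.D ℓ x y + 10 ^ 6 := by
  have key : ∀ u v : G, S.d x u + S.d u y = S.d x y → S.d x v + S.d v y = S.d x y →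
      S.d x u ≤ S.d x v → S.D ℓ u v ≤ S.D ℓ x y + 10 ^ 6 := by
    intro u v h1 h2 h3
    have c := close_of_pos S.toGH (p := x) (q := y) (a := u) (b := v) (e := 0) (e' := 0)
      (k := S.d x v - S.d x u) (by omega) (by omega) (by omega) (by omega)
    rw [Nat.max_zero] at c
    have m1 := mono1 S ℓ (x := v) (v := u) (y := x) (by
      have s1 := S.symm v u
      have s2 := S.symm u x
      have s3 := S.symm v x
      omega)
    have m2 := mono1 S ℓ (x := x) (v := v) (y := y) (by omega)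
    have c1 := D_comm S ℓ u v
    have c2 := D_comm S ℓ v x
    omega
  rcases le_total (S.d x u) (S.d x v) with h | h
  · exact key u v h1 h2 h
  · rw [D_comm]
    exact key v u h2 h1 h

/-- another tube projects to a small set -/
theorem D_cone (ℓ ℓ' : L) (hne : ℓ ≠ ℓ') {a b : G} (ha : a ∈ S.Y ℓ') (hb : b ∈ S.Y ℓ') :
    S.D ℓ a b ≤ 5 * 10 ^ 16 := by
  by_contra hcon
  obtain ⟨a1, ha1⟩ := prj_nonempty S ℓ a
  obtain ⟨b1, hb1⟩ := prj_nonempty S ℓ b
  have f := D_far' S ℓ ha1 hb1 (by omega)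
  have p := D_prj S ℓ ha1 hb1
  have t1 := S.tri a1 b1 b
  have t2 := S.tri a a1 b1
  have s1 := S.symm b1 b
  have s2 := S.symm a1 a
  obtain ⟨m, hm, hm'⟩ := S.geo a b (S.d a a1) (by omega)
  have c := close_of_pos S.toGH (p := a) (q := b) (a := a1) (b := m) (e := 4600) (e' := 0) (k := 0)
    (by omega) (by omega) (by omega) (by omega)
  rw [Nat.max_zero] at c
  obtain ⟨a', ha', hma⟩ := S.qc ℓ' a b m ha hb (by omega)
  have t3 := S.tri a1 m a'
  have t5 := S.tri a a1 b1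
  have s3 := S.symm a b
  have s4 := S.symm a b1
  obtain ⟨m2, hm2, hm2'⟩ := S.geo b a (S.d b b1) (by omega)
  have c2 := close_of_pos S.toGH (p := b) (q := a) (a := b1) (b := m2) (e := 4600) (e' := 0) (k := 0)
    (by omega) (by omega) (by omega) (by omega)
  rw [Nat.max_zero] at c2
  obtain ⟨b', hb', hmb⟩ := S.qc ℓ' b a m2 hb ha (by omega)
  have t6 := S.tri b1 m2 b'
  have o := S.ovl ℓ ℓ' hne a1 b1 a1 a' b1 b' ha1.1 ha' hb1.1 hb' (by rw [S.self]; omega) (by omega)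
    (by rw [S.self]; omega) (by omega)
  omega

/-- Behrstock's inequality -/
theorem D_beh (ℓ ℓ' : L) (hne : ℓ ≠ ℓ') (v : G) :
    (∀ w ∈ S.Y ℓ', S.D ℓ v w ≤ 10 ^ 17) ∨ (∀ w ∈ S.Y ℓ, S.D ℓ' v w ≤ 10 ^ 17) := by
  by_contra hcon
  rw [not_or] at hcon
  obtain ⟨h1, h2⟩ := hcon
  push Not at h1 h2
  obtain ⟨w, hw, hw'⟩ := h1
  obtain ⟨u, hu, hu'⟩ := h2
  obtain ⟨a, ha⟩ := prj_nonempty S ℓ v
  obtain ⟨v', hv'⟩ := prj_nonempty S ℓ' v
  obtain ⟨c, hc⟩ := prj_nonempty S ℓ v'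
  obtain ⟨a', ha'⟩ := prj_nonempty S ℓ' a
  have d1 := D_cone S ℓ ℓ' hne hv'.1 hw
  have d2 := D_cone S ℓ' ℓ hne.symm ha.1 hu
  have t1 := D_tri S ℓ v v' w
  have t2 := D_tri S ℓ' v a u
  have f1 := D_far' S ℓ ha hc (by omega)
  have f2 := D_far' S ℓ' hv' ha' (by omega)
  have p1 := (D_prj S ℓ ha hc).1
  omega

theorem rot_fix (ℓ : L) {r : G} (hr : r ∈ S.rot ℓ) : r • ℓ = ℓ := S.grp_fix ℓ r (S.rot_le ℓ hr)

/-- rotations move every point a lot on their line -/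
theorem D_rot (ℓ : L) {r : G} (hr : r ∈ S.rot ℓ) (h1 : r ≠ 1) (v : G) : S.len ℓ ≤ S.D ℓ v (r * v) := by
  obtain ⟨a, ha⟩ := prj_nonempty S ℓ v
  have hra : r * a ∈ prj S.d (S.Y ℓ) (r * v) := by
    have := (prj_smul S r ℓ v a).2 ha
    rwa [rot_fix S ℓ hr] at this
  have hne : v ≠ r * v := by
    intro h
    apply h1
    have : 1 * v = r * v := by rwa [one_mul]
    exact (mul_right_cancel this).symm
  have h2 := D_prj' S ℓ hne ha hra
  have h3 := S.rot_low ℓ r hr h1 a ha.1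
  omega

theorem N_le : S.N ≤ U := by
  unfold BSys.N
  rw [Subgroup.closure_le]
  rintro r ⟨ℓ, hr⟩
  exact S.grp_le ℓ (S.rot_le ℓ hr)

theorem N_normal : S.N.Normal := by
  constructor
  intro h hh g
  unfold BSys.N at hh ⊢
  induction hh using Subgroup.closure_induction with
  | mem x hx =>
    obtain ⟨ℓ, hℓ⟩ := hx
    exact Subgroup.subset_closure ⟨g • ℓ, S.rot_smul g ℓ x hℓ⟩
  | one =>
    rw [mul_one, mul_inv_cancel]
    exact one_mem _
  | mul x y _ _ ihx ihy =>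
    have : g * (x * y) * g⁻¹ = (g * x * g⁻¹) * (g * y * g⁻¹) := by group
    rw [this]
    exact mul_mem ihx ihy
  | inv x _ ih =>
    have : g * x⁻¹ * g⁻¹ = (g * x * g⁻¹)⁻¹ := by group
    rw [this]
    exact inv_mem ih

/-- the projection system of a killing system -/
noncomputable def sys : Sys G G L where
  adj u v := S.d u v ≤ 1
  on ℓ v := v ∈ S.Y ℓ
  d ℓ u v := S.D ℓ u v
  rot := S.rot
  th := 10 ^ 17
  T := S.len
  adj_smul g u v h := by
    show S.d (g * u) (g * v) ≤ 1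
    rwa [S.inv]
  conn u v := by
    have key : ∀ k : ℕ, ∀ u : G, S.d u v = k → Relation.ReflTransGen (fun u v => S.d u v ≤ 1) u v := by
      intro k
      induction k with
      | zero =>
        intro u h
        rw [S.eq_of _ _ h]
      | succ k ih =>
        intro u h
        obtain ⟨m, hm, hm'⟩ := S.geo u v 1 (by omega)
        exact Relation.ReflTransGen.head (show S.d u m ≤ 1 by omega) (ih m (by omega))
    exact key _ u rfl
  on_smul g ℓ v h := S.Y_smul g ℓ v h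
  d_self ℓ u := D_self S ℓ u
  d_comm ℓ u v := D_comm S ℓ u v
  d_tri ℓ u v w := D_tri S ℓ u v w
  d_smul g ℓ u v := D_smul S g ℓ u v
  d_adj ℓ u v h := by
    have := D_le S ℓ u v
    omega
  line_ne ℓ := S.Y_ne ℓ
  hT ℓ := by
    have := S.len_big ℓ
    omega
  T_smul g ℓ := S.len_smul g ℓ
  beh ℓ ℓ' v hne := D_beh S ℓ ℓ' hne v
  rot_conj g ℓ r hr := S.rot_smul g ℓ r hr
  rot_fix ℓ r hr := rot_fix S ℓ hr
  rot_big ℓ r v hr h1 := D_rot S ℓ hr h1 v

theorem sys_N : (sys S).N = S.N := rfl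

/-- windmill: every element of `N` can be reduced -/
theorem rd_all {h : G} (hh : h ∈ S.N) (x : G) : S.Rd x h := by
  have key : (sys S).Red x h := all_red (sys S) x hh
  clear hh
  induction key with
  | one => exact BSys.Rd.one
  | @step ℓ r n hr h1 _ hlen ih =>
    refine BSys.Rd.step (ℓ := ℓ) hr h1 ih ?_
    have hlen' : S.len ℓ ≤ S.D ℓ x (r * (n * x)) + 12 * 10 ^ 17 := hlen
    rw [← mul_assoc] at hlen'
    omega

/-- `N ∩ grp ℓ = rot ℓ` : look at `Rd x h`, `x ∈ Y ℓ`. -/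
theorem N_inter (ℓ : L) {h : G} (hh : h ∈ S.N) (hg : h ∈ S.grp ℓ) : h ∈ S.rot ℓ := by
  obtain ⟨x, hx⟩ := S.Y_ne ℓ
  have key := rd_all S hh x
  clear hh
  induction key with
  | one => exact one_mem _
  | @step ℓ' r h hr h1 _ hlen ih =>
    by_cases hne : ℓ' = ℓ
    · subst hne
      have hr' := S.rot_le _ hr
      have hh' : h ∈ S.grp ℓ' := by
        have : h = r⁻¹ * (r * h) := by group
        rw [this]
        exact mul_mem (inv_mem hr') hg
      exact mul_mem hr (ih hh')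
    · exfalso
      have hx' : r * h * x ∈ S.Y ℓ := by
        have := S.Y_smul (r * h) ℓ x hx
        rwa [S.grp_fix ℓ _ hg] at this
      have c := D_cone S ℓ' ℓ hne hx hx'
      have b := S.len_big ℓ'
      omega

end

end Run7.h253
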