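import Pool.Agent.Run7.h253.Guess
import Pool.Agent.Run7.h253.Proj

/-!
# Piece `cone`: the coned-off metric

`d'` = path metric of the graph: `x ~ y` iff `d x y ≤ 10^18 =: r` or `x, y ∈ Y ℓ` for some `ℓ`.
`guess` is applied with `I x y m :⟺ d x m + d m y = d x y` (`one`: `qc`; `slim`: `slim_tri`).

Q1.  Let `σ` be a `d'`-geodesic from `x` to `y` without a step inside `Y ℓ`.  Put `K = 12`.
If a subpath `σ a … σ b` stays at `d'`-distance `> K` from `Y ℓ` then `D ℓ (σ a) (σ b) ≤ 10000`: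
otherwise (`D_far'`) a point of `[σ a, σ b]` is `4600+800`-near `Y ℓ`, and it is `10`-near (`d'`) to the
subpath.  If `i ≤ j` are the first and last index with `d' (σ _) (Y ℓ) ≤ K` then `j - i ≤ 2K+1`, and
each step changes `D ℓ` by at most `r + 5000` (short step, `D_le`) or `5*10^16` (step in another tube,
`D_cone`).  Total `≤ 20000 + 27 (r + 5000) < 10^20`.

Q3.  A `d'`-geodesic has at most one step in a given `Y ℓ` (`of_Y`), so for a step `σ i, σ (i+1)` in `Y ℓ`:
`d (σ i) (σ (i+1)) = D ℓ (σ i) (σ (i+1)) ≤ D ℓ x y + 2*10^20` (Q1 for the two other parts).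
-/

set_option autoImplicit false

namespace Run7.h253

variable {G : Type*} [Group G] {U : Subgroup G} {n : ℕ} {L : Type*} [MulAction G L]

namespace Cn

/-- adjacency -/
def Adj (S : BSys G U n L) (x y : G) : Prop := S.d x y ≤ 10 ^ 18 ∨ ∃ ℓ, x ∈ S.Y ℓ ∧ y ∈ S.Y ℓ

/-- chains of length `k` -/
def Chn (S : BSys G U n L) (x y : G) (k : ℕ) : Prop :=
  ∃ c : ℕ → G, c 0 = x ∧ c k = y ∧ ∀ i, i < k → Adj S (c i) (c (i + 1))

/-- path metric -/
noncomputable def dd (S : BSys G U n L) (x y : G) : ℕ := sInf {k | Chn S x y k}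

variable {S : BSys G U n L}

theorem adj_symm {x y : G} (h : Adj S x y) : Adj S y x := by
  rcases h with h | ⟨ℓ, h1, h2⟩
  · left
    rwa [S.symm]
  · exact Or.inr ⟨ℓ, h2, h1⟩

theorem adj_inv (a : G) {x y : G} (h : Adj S x y) : Adj S (a * x) (a * y) := by
  rcases h with h | ⟨ℓ, h1, h2⟩
  · left
    rwa [S.inv]
  · exact Or.inr ⟨a • ℓ, S.Y_smul _ _ _ h1, S.Y_smul _ _ _ h2⟩

theorem chn_cons {x y z : G} {k : ℕ} (h : Adj S x y) (h' : Chn S y z k) : Chn S x z (k + 1) := by
  obtain ⟨c, hc0, hck, hc⟩ := h'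
  refine ⟨fun i => if i = 0 then x else c (i - 1), by simp, ?_, ?_⟩
  · show (if k + 1 = 0 then x else c (k + 1 - 1)) = z
    rw [if_neg (by omega), Nat.add_sub_cancel, hck]
  · intro i hi
    show Adj S (if i = 0 then x else c (i - 1)) (if i + 1 = 0 then x else c (i + 1 - 1))
    rw [if_neg (by omega : ¬ i + 1 = 0), Nat.add_sub_cancel]
    by_cases h0 : i = 0
    · rw [if_pos h0, h0, hc0]
      exact h
    · rw [if_neg h0]
      have := hc (i - 1) (by omega)
      rwa [Nat.sub_add_cancel (by omega)] at this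

theorem chn_one {x y : G} (h : Adj S x y) : Chn S x y 1 :=
  chn_cons h ⟨fun _ => y, rfl, rfl, fun i hi => absurd hi (by omega)⟩

theorem chn_zero (x : G) : Chn S x x 0 := ⟨fun _ => x, rfl, rfl, fun i hi => absurd hi (by omega)⟩

theorem chn_trans {x y z : G} {k l : ℕ} (h : Chn S x y k) (h' : Chn S y z l) : Chn S x z (k + l) := by
  induction k generalizing x with
  | zero =>
    obtain ⟨c, hc0, hck, _⟩ := h
    have : x = y := by rw [← hc0, hck]
    rw [this, Nat.zero_add]
    exact h'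
  | succ k ih =>
    obtain ⟨c, hc0, hck, hc⟩ := h
    have h1 : Chn S (c 1) y k :=
      ⟨fun i => c (i + 1), rfl, hck, fun i hi => hc (i + 1) (by omega)⟩
    have h2 : Adj S x (c 1) := by
      have := hc 0 (by omega)
      rwa [hc0] at this
    have := chn_cons h2 (ih h1)
    have e : k + 1 + l = k + l + 1 := by omega
    rwa [e]

theorem chn_symm {x y : G} {k : ℕ} (h : Chn S x y k) : Chn S y x k := by
  obtain ⟨c, hc0, hck, hc⟩ := h
  refine ⟨fun i => c (k - i), ?_, ?_, ?_⟩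
  · show c (k - 0) = y
    rw [Nat.sub_zero, hck]
  · show c (k - k) = x
    rw [Nat.sub_self, hc0]
  · intro i hi
    show Adj S (c (k - i)) (c (k - (i + 1)))
    have := adj_symm (hc (k - (i + 1)) (by omega))
    have e : k - (i + 1) + 1 = k - i := by omega
    rwa [e] at this

theorem chn_inv (a : G) {x y : G} {k : ℕ} (h : Chn S x y k) : Chn S (a * x) (a * y) k := by
  obtain ⟨c, hc0, hck, hc⟩ := h
  exact ⟨fun i => a * c i, by simp [hc0], by simp [hck], fun i hi => adj_inv a (hc i hi)⟩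

theorem chn_dist (k : ℕ) : ∀ x y : G, S.d x y ≤ k * 10 ^ 18 → ∃ l, l ≤ k ∧ Chn S x y l := by
  induction k with
  | zero =>
    intro x y h
    have : x = y := S.eq_of _ _ (by omega)
    subst this
    exact ⟨0, le_rfl, chn_zero x⟩
  | succ k ih =>
    intro x y h
    rcases le_total (S.d x y) (10 ^ 18) with h1 | h1
    · exact ⟨1, by omega, chn_one (Or.inl h1)⟩
    · obtain ⟨m, hm, hm'⟩ := S.geo x y (10 ^ 18) h1
      obtain ⟨l, hl, hl'⟩ := ih m y (by
        rw [Nat.succ_mul] at h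
        omega)
      exact ⟨l + 1, by omega, chn_cons (Or.inl (by omega)) hl'⟩

theorem chn_ex (x y : G) : ∃ k, Chn S x y k := by
  obtain ⟨l, _, hl⟩ := chn_dist (S := S) (S.d x y) x y (Nat.le_mul_of_pos_right _ (by norm_num))
  exact ⟨l, hl⟩

theorem dd_mem (x y : G) : Chn S x y (dd S x y) := Nat.sInf_mem (s := {k | Chn S x y k}) (chn_ex x y)

theorem dd_le {x y : G} {k : ℕ} (h : Chn S x y k) : dd S x y ≤ k := Nat.sInf_le h

theorem dd_self (x : G) : dd S x x = 0 := by
  have := dd_le (chn_zero (S := S) x)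
  omega

theorem dd_eq {x y : G} (h : dd S x y = 0) : x = y := by
  have := dd_mem (S := S) x y
  rw [h] at this
  obtain ⟨c, hc0, hck, _⟩ := this
  rw [← hc0, hck]

theorem dd_symm (x y : G) : dd S x y = dd S y x :=
  le_antisymm (dd_le (chn_symm (dd_mem y x))) (dd_le (chn_symm (dd_mem x y)))

theorem dd_tri (x y z : G) : dd S x z ≤ dd S x y + dd S y z := dd_le (chn_trans (dd_mem x y) (dd_mem y z))

theorem dd_inv (a x y : G) : dd S (a * x) (a * y) = dd S x y := by
  apply le_antisymm (dd_le (chn_inv a (dd_mem x y)))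
  have := dd_le (chn_inv a⁻¹ (dd_mem (S := S) (a * x) (a * y)))
  rwa [inv_mul_cancel_left, inv_mul_cancel_left] at this

theorem dd_geo (x y : G) (t : ℕ) (ht : t ≤ dd S x y) : ∃ m, dd S x m = t ∧ t + dd S m y = dd S x y := by
  obtain ⟨c, hc0, hck, hc⟩ := dd_mem (S := S) x y
  have h1 : dd S x (c t) ≤ t := dd_le ⟨c, hc0, rfl, fun i hi => hc i (by omega)⟩
  have h2 : dd S (c t) y ≤ dd S x y - t := by
    refine dd_le ⟨fun i => c (t + i), rfl, ?_, fun i hi => hc (t + i) (by omega)⟩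
    show c (t + (dd S x y - t)) = y
    rw [Nat.add_sub_cancel' ht, hck]
  have h3 := dd_tri (S := S) x (c t) y
  exact ⟨c t, by omega, by omega⟩

theorem dd_adj {x y : G} (h : Adj S x y) : dd S x y ≤ 1 := dd_le (chn_one h)

theorem dd_one {x y : G} (h : dd S x y ≤ 1) : Adj S x y := by
  rcases Nat.lt_or_ge (dd S x y) 1 with h1 | h1
  · have : x = y := dd_eq (S := S) (by omega)
    subst this
    left
    rw [S.self]
    omega
  · have e : dd S x y = 1 := by omega
    have := dd_mem (S := S) x y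
    rw [e] at this
    obtain ⟨c, hc0, hck, hc⟩ := this
    have := hc 0 (by omega)
    rwa [hc0, Nat.zero_add, hck] at this

theorem dd_div (x y : G) : 10 ^ 18 * dd S x y ≤ S.d x y + 10 ^ 18 := by
  obtain ⟨l, hl, hl'⟩ := chn_dist (S := S) ((S.d x y + (10 ^ 18 - 1)) / 10 ^ 18) x y (by
    have := Nat.lt_div_mul_add (a := S.d x y + (10 ^ 18 - 1)) (b := 10 ^ 18) (by norm_num)
    omega)
  have h1 := dd_le hl'
  have h2 := Nat.div_mul_le_self (S.d x y + (10 ^ 18 - 1)) (10 ^ 18)
  omega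

theorem dd_guess (S : BSys G U n L) :
    (∀ x y m σ, IsGeod (dd S) σ (dd S x y) x y → S.d x m + S.d m y = S.d x y →
      ∃ t, t ≤ dd S x y ∧ dd S m (σ t) ≤ 10) ∧
    (∀ x y u, dd S x u + dd S u y = dd S x y → ∃ m, S.d x m + S.d m y = S.d x y ∧ dd S u m ≤ 20) ∧
    (∀ x y z w, dd S x z + dd S y w ≤ dd S x y + dd S z w + 200 ∨
      dd S x z + dd S y w ≤ dd S x w + dd S y z + 200) := by
  refine guess (dd S) dd_self (fun _ _ h => dd_eq h) dd_symm dd_tri dd_geo
    (fun x y m => S.d x m + S.d m y = S.d x y) ?_ ?_ ?_ ?_ ?_ ?_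
  · intro x y
    have := S.self x
    omega
  · intro x y
    have := S.self y
    omega
  · intro x y m h
    have s1 := S.symm y m
    have s2 := S.symm m x
    have s3 := S.symm x y
    omega
  · intro x y m h hm
    rcases dd_one h with h | ⟨ℓ, h1, h2⟩
    · have := dd_adj (S := S) (x := x) (y := m) (Or.inl (by omega))
      omega
    · obtain ⟨y', hy', hmy⟩ := S.qc ℓ x y m h1 h2 hm
      have a1 := dd_adj (S := S) (x := x) (y := y') (Or.inr ⟨ℓ, h1, hy'⟩)
      have a2 := dd_adj (S := S) (x := m) (y := y') (Or.inl (by omega))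
      have t := dd_tri (S := S) x y' m
      have s1 := dd_symm (S := S) y' m
      omega
  · intro x y z m hm
    obtain ⟨m', h1, h2⟩ := slim_tri S.toGH (z := z) hm
    exact ⟨m', h1, dd_adj (Or.inl (by omega))⟩
  · intro x y
    obtain ⟨σ, h0, h1, h2⟩ := exists_geod S.toGH x y
    refine ⟨S.d x y, σ, h0, h1, ?_, ?_⟩
    · intro i hi
      have e1 := h2 0 i (Nat.zero_le _) hi
      have e2 := h2 i _ hi le_rfl
      rw [h0] at e1
      rw [h1] at e2
      omega
    · intro i hi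
      have e1 := h2 i (i + 1) (by omega) hi
      exact dd_adj (Or.inl (by omega))

theorem step_D {ℓ : L} {u v : G} (h : Adj S u v) (hno : ¬ (u ∈ S.Y ℓ ∧ v ∈ S.Y ℓ)) :
    S.D ℓ u v ≤ 10 ^ 18 + 5000 := by
  rcases h with h | ⟨ℓ', h1, h2⟩
  · have := D_le S ℓ u v
    omega
  · have hne : ℓ ≠ ℓ' := by
      rintro rfl
      exact hno ⟨h1, h2⟩
    have := D_cone S ℓ ℓ' hne h1 h2
    omega

theorem Q1 (ℓ : L) (x y : G) (σ : ℕ → G) (hσ : IsGeod (dd S) σ (dd S x y) x y)
    (hD : 10 ^ 20 ≤ S.D ℓ x y) : ∃ i, i < dd S x y ∧ σ i ∈ S.Y ℓ ∧ σ (i + 1) ∈ S.Y ℓ := by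
  classical
  by_contra hcon
  push Not at hcon
  have hno : ∀ i, i < dd S x y → ¬ (σ i ∈ S.Y ℓ ∧ σ (i + 1) ∈ S.Y ℓ) := fun i hi h =>
    hcon i hi h.1 h.2
  have hadj : ∀ i, i < dd S x y → Adj S (σ i) (σ (i + 1)) := by
    intro i hi
    apply dd_one
    have := hσ.2.2 i (i + 1) (by omega) (by omega)
    omega
  have steps : ∀ k a, a + k ≤ dd S x y → S.D ℓ (σ a) (σ (a + k)) ≤ k * (10 ^ 18 + 5000) := by
    intro k
    induction k with
    | zero =>
      intro a _
      rw [add_zero, D_self]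
      omega
    | succ k ih =>
      intro a ha
      have h1 := ih a (by omega)
      have h2 := step_D (hadj (a + k) (by omega)) (hno (a + k) (by omega))
      have t := D_tri S ℓ (σ a) (σ (a + k)) (σ (a + k + 1))
      have e : a + (k + 1) = a + k + 1 := by omega
      rw [e]
      omega
  have claim1 : ∀ a b, a ≤ b → b ≤ dd S x y →
      (∀ s, a ≤ s → s ≤ b → ∀ y' ∈ S.Y ℓ, 12 < dd S (σ s) y') → S.D ℓ (σ a) (σ b) ≤ 10000 := by
    intro a b hab hb hfar
    by_contra hc
    obtain ⟨a1, ha1⟩ := prj_nonempty S ℓ (σ a)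
    obtain ⟨b1, hb1⟩ := prj_nonempty S ℓ (σ b)
    have f := D_far' S ℓ ha1 hb1 (by omega)
    have p := D_prj S ℓ ha1 hb1
    have t1 := S.tri a1 b1 (σ b)
    obtain ⟨m, hm, hm'⟩ := S.geo (σ a) (σ b) (S.d (σ a) a1) (by omega)
    have c := close_of_pos S.toGH (p := σ a) (q := σ b) (a := a1) (b := m) (e := 4600) (e' := 0)
      (k := 0) (by omega) (by omega) (by omega) (by omega)
    rw [Nat.max_zero] at c
    have g1 := gsub hσ hab hb
    have e1 : dd S (σ a) (σ b) = b - a := hσ.2.2 a b hab hb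
    rw [← e1] at g1
    obtain ⟨t, ht, ht'⟩ := (dd_guess S).1 (σ a) (σ b) m _ g1 (by omega)
    have ht2 : dd S m (σ (a + t)) ≤ 10 := ht'
    have h3 := hfar (a + t) (by omega) (by omega) a1 ha1.1
    have h4 := dd_adj (S := S) (x := m) (y := a1) (Or.inl (by rw [S.symm]; omega))
    have t3 := dd_tri (S := S) (σ (a + t)) m a1
    have s3 := dd_symm (S := S) (σ (a + t)) m
    omega
  by_cases hnear : ∃ i, i ≤ dd S x y ∧ ∃ y' ∈ S.Y ℓ, dd S (σ i) y' ≤ 12
  · -- first near index
    have hfs := Nat.find_spec hnear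
    have hmin := fun m => Nat.find_min hnear (m := m)
    generalize Nat.find hnear = i at hfs hmin
    obtain ⟨hi, yi, hyi, hyi'⟩ := hfs
    -- last near index, by reflection
    have hnear2 : ∃ k, k ≤ dd S x y ∧ ∃ y' ∈ S.Y ℓ, dd S (σ (dd S x y - k)) y' ≤ 12 := by
      refine ⟨dd S x y - i, by omega, yi, hyi, ?_⟩
      rwa [Nat.sub_sub_self hi]
    have hfs2 := Nat.find_spec hnear2
    have hmin2 := fun m => Nat.find_min hnear2 (m := m)
    generalize Nat.find hnear2 = k at hfs2 hmin2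
    obtain ⟨hk, yk, hyk, hyk'⟩ := hfs2
    obtain ⟨j, hj, hjk⟩ : ∃ j, j ≤ dd S x y ∧ dd S x y - k = j := ⟨dd S x y - k, by omega, rfl⟩
    rw [hjk] at hyk'
    have hij : i ≤ j := by
      by_contra hlt
      apply hmin j (by omega)
      exact ⟨hj, yk, hyk, hyk'⟩
    have hji : j - i ≤ 25 := by
      have e := hσ.2.2 i j hij hj
      have t1 := dd_tri (S := S) (σ i) yi (σ j)
      have t2 := dd_tri (S := S) yi yk (σ j)
      have a := dd_adj (S := S) (x := yi) (y := yk) (Or.inr ⟨ℓ, hyi, hyk⟩)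
      have s1 := dd_symm (S := S) yk (σ j)
      omega
    have hmid := steps (j - i) i (by omega)
    rw [Nat.add_sub_cancel' hij] at hmid
    have hmid' : (j - i) * (10 ^ 18 + 5000) ≤ 25 * (10 ^ 18 + 5000) := Nat.mul_le_mul_right _ hji
    have hleft : S.D ℓ x (σ i) ≤ 10 ^ 18 + 15000 := by
      rcases Nat.eq_zero_or_pos i with h0 | h0
      · rw [h0, hσ.1, D_self]
        omega
      · have c1 := claim1 0 (i - 1) (by omega) (by omega) (by
          intro s _ hs y' hy'
          by_contra hc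
          exact hmin s (by omega) ⟨by omega, y', hy', by omega⟩)
        have c2 := steps 1 (i - 1) (by omega)
        rw [Nat.sub_add_cancel h0] at c2
        have t := D_tri S ℓ (σ 0) (σ (i - 1)) (σ i)
        rw [hσ.1] at t c1
        omega
    have hright : S.D ℓ (σ j) y ≤ 10 ^ 18 + 15000 := by
      rcases Nat.eq_or_lt_of_le hj with h0 | h0
      · rw [h0, hσ.2.1, D_self]
        omega
      · have c1 := claim1 (j + 1) (dd S x y) (by omega) (by omega) (by
          intro s hs hs' y' hy'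
          by_contra hc
          refine hmin2 (dd S x y - s) (by omega) ⟨by omega, y', hy', ?_⟩
          rw [Nat.sub_sub_self hs']
          omega)
        have c2 := steps 1 j (by omega)
        have t := D_tri S ℓ (σ j) (σ (j + 1)) (σ (dd S x y))
        rw [hσ.2.1] at t c1
        omega
    have t1 := D_tri S ℓ x (σ i) y
    have t2 := D_tri S ℓ (σ i) (σ j) y
    omega
  · push Not at hnear
    have := claim1 0 (dd S x y) (Nat.zero_le _) le_rfl (fun s _ hs y' hy' => hnear s hs y' hy')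
    rw [hσ.1, hσ.2.1] at this
    omega

theorem Q3 (x y : G) (B : ℕ) (hB : ∀ ℓ, S.D ℓ x y ≤ B) : S.d x y ≤ (B + 10 ^ 21) * dd S x y := by
  obtain ⟨σ, hσ⟩ := geod_of dd_self (fun _ _ h => dd_eq h) dd_symm dd_tri dd_geo (d' := dd S) x y
  have hstep : ∀ i, i < dd S x y → S.d (σ i) (σ (i + 1)) ≤ B + 10 ^ 21 := by
    intro i hi
    have hadj : Adj S (σ i) (σ (i + 1)) := by
      apply dd_one
      have := hσ.2.2 i (i + 1) (by omega) (by omega)
      omega
    rcases hadj with h | ⟨ℓ, h1, h2⟩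
    · omega
    · have e := D_on S ℓ h1 h2
      have t1 := D_tri S ℓ (σ i) x (σ (i + 1))
      have t2 := D_tri S ℓ x y (σ (i + 1))
      have c1 := D_comm S ℓ (σ i) x
      have c2 := D_comm S ℓ y (σ (i + 1))
      have b := hB ℓ
      have l1 : S.D ℓ x (σ i) < 10 ^ 20 := by
        by_contra hc
        have g1 := gsub hσ (Nat.zero_le i) (show i ≤ dd S x y by omega)
        rw [hσ.1] at g1
        have e1 := hσ.2.2 0 i (Nat.zero_le _) (by omega)
        rw [hσ.1] at e1
        rw [← e1] at g1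
        obtain ⟨j, hj, hj1, hj2⟩ := Q1 ℓ x (σ i) _ g1 (by omega)
        have hj1' : σ (0 + j) ∈ S.Y ℓ := hj1
        have a := dd_adj (S := S) (x := σ (0 + j)) (y := σ (i + 1)) (Or.inr ⟨ℓ, hj1', h2⟩)
        have e2 := hσ.2.2 (0 + j) (i + 1) (by omega) (by omega)
        omega
      have l2 : S.D ℓ (σ (i + 1)) y < 10 ^ 20 := by
        by_contra hc
        have g1 := gsub hσ (show i + 1 ≤ dd S x y by omega) le_rfl
        rw [hσ.2.1] at g1
        have e1 := hσ.2.2 (i + 1) (dd S x y) (by omega) le_rfl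
        rw [hσ.2.1] at e1
        rw [← e1] at g1
        obtain ⟨j, hj, hj1, hj2⟩ := Q1 ℓ (σ (i + 1)) y _ g1 (by omega)
        have hj2' : σ (i + 1 + (j + 1)) ∈ S.Y ℓ := hj2
        have a := dd_adj (S := S) (x := σ i) (y := σ (i + 1 + (j + 1))) (Or.inr ⟨ℓ, h1, hj2'⟩)
        have e2 := hσ.2.2 i (i + 1 + (j + 1)) (by omega) (by omega)
        omega
      omega
  have key : ∀ k, k ≤ dd S x y → S.d x (σ k) ≤ (B + 10 ^ 21) * k := by
    intro k
    induction k with
    | zero =>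
      intro _
      rw [hσ.1, S.self]
      omega
    | succ k ih =>
      intro hk
      have h1 := ih (by omega)
      have h2 := hstep k (by omega)
      have t := S.tri x (σ k) (σ (k + 1))
      rw [mul_add, mul_one]
      omega
  have := key _ le_rfl
  rwa [hσ.2.1] at this

end Cn

theorem exists_cone (S : BSys G U n L) : Nonempty (Cone S) := by
  refine ⟨⟨⟨Cn.dd S, Cn.dd_self, fun _ _ h => Cn.dd_eq h, Cn.dd_symm, Cn.dd_tri, Cn.dd_geo,
    (Cn.dd_guess S).2.2⟩, Cn.dd_inv, ?_, ?_, ?_, Cn.dd_div, (Cn.dd_guess S).1,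
    (Cn.dd_guess S).2.1, Cn.Q1, Cn.Q3⟩⟩
  · intro x y h
    exact Cn.dd_adj (Or.inl h)
  · intro ℓ x y h1 h2
    exact Cn.dd_adj (Or.inr ⟨ℓ, h1, h2⟩)
  · intro x y h
    exact Cn.dd_one h

end Run7.h253
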