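import Pool.Agent.Run7.h253.Iso

/-!
# Piece `cyc`: elementary subgroups at a stage

`S : Stage G U n`, `n` prime, `n ≥ 10^170` (only `n > 10^32` odd prime is used here).
-/

set_option autoImplicit false

namespace Run7.h253

variable {G : Type*} [Group G] {U : Subgroup G} {n : ℕ}

theorem lox_iff {d : G → G → ℕ} (g : G) : Lox d g ↔ LoxX (X := G) d g := Iff.rfl

/-- `E z` : elements of `U` commuting with a power of `z` -/
def EE (U : Subgroup G) (z : G) : Subgroup G where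
  carrier := {g | g ∈ U ∧ ∃ k : ℕ, 1 ≤ k ∧ g * z ^ k = z ^ k * g}
  one_mem' := ⟨U.one_mem, 1, le_rfl, by simp⟩
  mul_mem' := by
    rintro a b ⟨ha, k, hk, hak⟩ ⟨hb, l, hl, hbl⟩
    refine ⟨U.mul_mem ha hb, k * l, Nat.mul_pos hk hl, ?_⟩
    have h1 : Commute a (z ^ (k * l)) := by
      rw [pow_mul]; exact (show Commute a (z ^ k) from hak).pow_right l
    have h2 : Commute b (z ^ (k * l)) := by
      rw [mul_comm k l, pow_mul]; exact (show Commute b (z ^ l) from hbl).pow_right k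
    exact (h1.mul_left h2)
  inv_mem' := by
    rintro a ⟨ha, k, hk, hak⟩
    exact ⟨U.inv_mem ha, k, hk, (show Commute a (z ^ k) from hak).inv_left⟩

theorem linv (S : Stage G U n) (g x y : G) : S.d (g • x) (g • y) = S.d x y := S.inv g x y

/-- powers of a loxodromic element go far -/
theorem lox_far (S : Stage G U n) {z : G} (hl : Lox S.d z) (p : G) (D : ℕ) :
    ∃ K : ℕ, D ≤ S.d p (z ^ K * p) := by
  obtain ⟨C, hC⟩ := lox_at S.toGH (linv S) z hl p
  refine ⟨C * (D + 1) + 1, ?_⟩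
  have h := hC (C * (D + 1) + 1)
  by_contra hc
  have h2 : S.d p (z ^ (C * (D + 1) + 1) • p) + 1 ≤ D + 1 := by
    have : S.d p (z ^ (C * (D + 1) + 1) • p) < D := Nat.lt_of_not_le hc
    omega
  have h3 := Nat.mul_le_mul_left C h2
  omega

theorem not_lox_one (S : Stage G U n) {z : G} (hl : Lox S.d z) {k : ℕ} (hk : 1 ≤ k) : z ^ k ≠ 1 :=
  fun h => not_lox_of_pow S.toGH (linv S) z hk h hl

theorem zpow_ne (S : Stage G U n) {z : G} (hl : Lox S.d z) {k : ℤ} (h : z ^ k = 1) : k = 0 := by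
  by_contra hk
  have h1 : z ^ k.natAbs = 1 := by
    rcases Int.natAbs_eq k with e | e
    · rw [e, zpow_natCast] at h
      exact h
    · rw [e, zpow_neg, inv_eq_one, zpow_natCast] at h
      exact h
  exact not_lox_one S hl (k := k.natAbs) (by omega) h1

/-- displacement at a translate by a commuting element -/
theorem disp_comm (S : Stage G U n) {g w : G} (h : g * w = w * g) (p : G) :
    S.d (w * p) (g * (w * p)) = S.d p (g * p) := by
  have : g * (w * p) = w * (g * p) := by rw [← mul_assoc, h, mul_assoc]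
  rw [this, S.inv]

/-- (Inj) translation length is bounded below.  Take `q = z^K p`, `K` huge; `z^j`, `0 ≤ j ≤ 10^32`,
moves `p` and `q` by at most `B = 10^32 * d p (z p)`, so in the middle of `[p,q]` it acts as a shift
by `t_j` (`shift_near`, `shift_const`).  If all `d m (z^j m) ≤ 2*10^6` at two middle points at distance
`≥ 10^15` then `cnt` gives `z^i = z^j`, contradiction.  So some `z^j` has displacement `> 16*200` in
the middle, hence (`lox_of_shift`, `lox_grow`) `d m (z^(j k) m) ≥ k` for all `k`; hence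
`j * d p (z^N p) ≥ N`. -/
theorem inj_low (S : Stage G U n) {z : G} (hz : z ∈ U) (hl : Lox S.d z) (p : G) (N : ℕ) :
    N ≤ 10 ^ 32 * S.d p (z ^ N * p) := by
  obtain ⟨m, j, hj, hm⟩ : ∃ (m : G) (j : ℕ), j ≤ 10 ^ 32 ∧
      S.d m (z ^ j • m) + 200 + 1 ≤ S.d m ((z ^ j) ^ 2 • m) := by
    by_contra hcon
    push Not at hcon
    obtain ⟨R, hR⟩ : ∃ R, R = 10 ^ 32 * S.d p (z * p) := ⟨_, rfl⟩
    obtain ⟨K, hK⟩ := lox_far S hl p (20 * R + 2 * 10 ^ 15 + 10 ^ 6)
    have d1 : ∀ j, j ≤ 10 ^ 32 → S.d p (z ^ j • p) ≤ R := by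
      intro j hj
      rw [hR]
      exact (disp_pow S.toGH (linv S) z p j).trans (Nat.mul_le_mul_right _ hj)
    have d2 : ∀ j, j ≤ 10 ^ 32 → S.d (z ^ K * p) (z ^ j • (z ^ K * p)) ≤ R := by
      intro j hj
      have := disp_comm S (g := z ^ j) (w := z ^ K) (by rw [← pow_add, ← pow_add, add_comm]) p
      have h := d1 j hj
      rw [smul_eq_mul] at h ⊢
      omega
    obtain ⟨m, hm, hm'⟩ := S.geo p (z ^ K * p) (4 * R + 10 ^ 5) (by omega)
    obtain ⟨m2, hm2, hm2'⟩ := S.geo p (z ^ K * p) (4 * R + 10 ^ 5 + 10 ^ 15) (by omega)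
    have s1 : ∀ j, j ≤ 10 ^ 32 → S.d m (z ^ j • m) ≤ 2 * 10 ^ 6 := by
      intro j hj
      by_contra hc
      have := lox_of_shift S.toGH (linv S) (z ^ j) (p := p) (q := z ^ K * p) (m := m) (R := R)
        (d1 j hj) (d2 j hj) (by omega) (by omega) (by omega) (by omega)
      have h2 := hcon m j hj
      omega
    have s2 : ∀ j, j ≤ 10 ^ 32 → S.d m2 (z ^ j • m2) ≤ 2 * 10 ^ 6 := by
      intro j hj
      by_contra hc
      have := lox_of_shift S.toGH (linv S) (z ^ j) (p := p) (q := z ^ K * p) (m := m2) (R := R)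
        (d1 j hj) (d2 j hj) (by omega) (by omega) (by omega) (by omega)
      have h2 := hcon m2 j hj
      omega
    have t := S.tri p m m2
    obtain ⟨i, j, hij, hj, e⟩ := S.cnt m m2 (by omega) (fun i => z ^ i)
      (fun i hi => ⟨pow_mem hz i, s1 i hi, s2 i hi⟩)
    have e' : z ^ (j - i) = 1 := by
      have e2 : z ^ i = z ^ j := e
      have : z ^ j = z ^ (j - i) * z ^ i := by rw [← pow_add, Nat.sub_add_cancel hij.le]
      rw [this] at e2
      exact (mul_eq_right.1 e2.symm)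
    exact not_lox_one S hl (by omega) e'
  have grow : ∀ k, k ≤ S.d m ((z ^ j) ^ k • m) := by
    intro k
    induction k with
    | zero => omega
    | succ k ih =>
      have := lox_grow S.toGH (linv S) (z ^ j) hm k
      omega
  by_contra hN
  push Not at hN
  obtain ⟨d0, hd0⟩ : ∃ d0, d0 = S.d p (z ^ N * p) := ⟨_, rfl⟩
  rw [← hd0] at hN
  have h1 := grow (N * (2 * S.d m p + 1))
  have e : (z ^ j) ^ (N * (2 * S.d m p + 1)) = (z ^ N) ^ ((2 * S.d m p + 1) * j) := by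
    rw [← pow_mul, ← pow_mul]
    congr 1
    ring
  rw [e] at h1
  have h2 := disp_pow S.toGH (linv S) (z ^ N) p ((2 * S.d m p + 1) * j)
  have t1 := S.tri m p ((z ^ N) ^ ((2 * S.d m p + 1) * j) • m)
  have t2 := S.tri p ((z ^ N) ^ ((2 * S.d m p + 1) * j) • p) ((z ^ N) ^ ((2 * S.d m p + 1) * j) • m)
  have i1 := linv S ((z ^ N) ^ ((2 * S.d m p + 1) * j)) p m
  have s1 := S.symm p m
  have e2 : S.d p (z ^ N • p) = d0 := hd0.symm
  rw [e2] at h2
  have h3 : N * (2 * S.d m p + 1) ≤ 2 * S.d m p + (2 * S.d m p + 1) * j * d0 := by omega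
  have h4 : j * d0 + 1 ≤ N := by
    have : j * d0 ≤ 10 ^ 32 * d0 := Nat.mul_le_mul_right _ hj
    omega
  have h5 := Nat.mul_le_mul_right (2 * S.d m p + 1) h4
  have h6 : (j * d0 + 1) * (2 * S.d m p + 1) = (2 * S.d m p + 1) * j * d0 + (2 * S.d m p + 1) := by ring
  omega

theorem pow_inj_prime (hn : n.Prime) {g : G} (hg : g ^ n = 1) {i j : ℕ} (hij : i < j) (hj : j < n)
    (h : g ^ i = g ^ j) : g = 1 := by
  have e : g ^ (j - i) = 1 := by
    have : g ^ j = g ^ (j - i) * g ^ i := by rw [← pow_add, Nat.sub_add_cancel hij.le]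
    rw [this] at h
    exact mul_eq_right.1 h.symm
  have h1 : orderOf g ∣ n := orderOf_dvd_of_pow_eq_one hg
  have h2 : orderOf g ∣ j - i := orderOf_dvd_of_pow_eq_one e
  rcases (Nat.dvd_prime hn).1 h1 with h3 | h3
  · exact orderOf_eq_one_iff.1 h3
  · rw [h3] at h2
    have := Nat.le_of_dvd (by omega) h2
    omega

/-- every nontrivial element of `E z` is loxodromic (`z` loxodromic): if `g ∈ E z`, `g ≠ 1`,
is not loxodromic, then `g^n = 1`, all `g^i` (`i < n`) are distinct, commute with `z^k`, and have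
displacement `≤ 16*200` at middle points of `[p, z^(kK) p]`, `K` huge (`nonlox_small`); contradicts `cnt`. -/
theorem ee_lox (S : Stage G U n) (hn : n.Prime) (hbig : 10 ^ 170 ≤ n) {z g : G} (hz : z ∈ U)
    (hl : Lox S.d z) (hg : g ∈ EE U z) (h1 : g ≠ 1) : Lox S.d g := by
  by_contra hng
  obtain ⟨hgU, k, hk, hcomm⟩ := hg
  have hgn : g ^ n = 1 := (S.ell g hgU).resolve_left hng
  apply h1
  have hwl : Lox S.d (z ^ k) := (lox_pow S.toGH (linv S) z hk).2 hl
  obtain ⟨p, -⟩ : ∃ p : G, p = 1 := ⟨1, rfl⟩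
  obtain ⟨R, hR⟩ : ∃ R, R = 10 ^ 32 * S.d p (g * p) := ⟨_, rfl⟩
  obtain ⟨K, hK⟩ := lox_far S hwl p (20 * R + 2 * 10 ^ 15 + 10 ^ 6)
  have hc : ∀ j, g ^ j * (z ^ k) ^ K = (z ^ k) ^ K * g ^ j := fun j =>
    ((show Commute g (z ^ k) from hcomm).pow_right K).pow_left j
  have d1 : ∀ j, j ≤ 10 ^ 32 → S.d p (g ^ j • p) ≤ R := by
    intro j hj
    rw [hR]
    exact (disp_pow S.toGH (linv S) g p j).trans (Nat.mul_le_mul_right _ hj)
  have d2 : ∀ j, j ≤ 10 ^ 32 → S.d ((z ^ k) ^ K * p) (g ^ j • ((z ^ k) ^ K * p)) ≤ R := by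
    intro j hj
    have := disp_comm S (hc j) p
    have h := d1 j hj
    rw [smul_eq_mul] at h ⊢
    omega
  have nl : ∀ j, ¬ LoxX S.d (g ^ j) := by
    intro j
    rcases Nat.eq_zero_or_pos j with h0 | h0
    · subst h0
      exact not_lox_of_pow S.toGH (linv S) _ (k := 1) le_rfl (by simp)
    · rw [lox_pow S.toGH (linv S) g h0]
      exact hng
  obtain ⟨m, hm, hm'⟩ := S.geo p ((z ^ k) ^ K * p) (4 * R + 10 ^ 5) (by omega)
  obtain ⟨m2, hm2, hm2'⟩ := S.geo p ((z ^ k) ^ K * p) (4 * R + 10 ^ 5 + 10 ^ 15) (by omega)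
  have s1 : ∀ j, j ≤ 10 ^ 32 → S.d m (g ^ j • m) ≤ 2 * 10 ^ 6 := by
    intro j hj
    have := nonlox_small S.toGH (linv S) (g ^ j) (nl j) (p := p) (q := (z ^ k) ^ K * p) (m := m)
      (R := R) (d1 j hj) (d2 j hj) (by omega) (by omega) (by omega)
    omega
  have s2 : ∀ j, j ≤ 10 ^ 32 → S.d m2 (g ^ j • m2) ≤ 2 * 10 ^ 6 := by
    intro j hj
    have := nonlox_small S.toGH (linv S) (g ^ j) (nl j) (p := p) (q := (z ^ k) ^ K * p) (m := m2)
      (R := R) (d1 j hj) (d2 j hj) (by omega) (by omega) (by omega)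
    omega
  have t := S.tri p m m2
  obtain ⟨i, j, hij, hj, e⟩ := S.cnt m m2 (by omega) (fun i => g ^ i)
    (fun i hi => ⟨pow_mem hgU i, s1 i hi, s2 i hi⟩)
  exact pow_inj_prime hn hgn hij (by omega) e

theorem ivt (b : ℕ → ℕ) (c x N : ℕ) (h1 : ∀ k, k < N → b (k + 1) ≤ b k + c)
    (h2 : ∀ k, k < N → b k ≤ b (k + 1) + c)
    (h : (b 0 ≤ x ∧ x ≤ b N) ∨ (b N ≤ x ∧ x ≤ b 0)) : ∃ k, k ≤ N ∧ b k ≤ x + c ∧ x ≤ b k + c := by
  induction N with
  | zero => exact ⟨0, le_rfl, by omega, by omega⟩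
  | succ N ih =>
    have a1 := h1 N (by omega)
    have a2 := h2 N (by omega)
    by_cases hN : (b 0 ≤ x ∧ x ≤ b N) ∨ (b N ≤ x ∧ x ≤ b 0)
    · obtain ⟨k, hk, hk1, hk2⟩ := ih (fun k hk => h1 k (by omega)) (fun k hk => h2 k (by omega)) hN
      exact ⟨k, by omega, hk1, hk2⟩
    · refine ⟨N, by omega, ?_, ?_⟩ <;> omega

theorem zinv_disp (S : Stage G U n) (z x : G) : S.d x (z⁻¹ * x) = S.d x (z * x) := by
  have := S.inv z x (z⁻¹ * x)
  rw [mul_inv_cancel_left] at this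
  rw [← this, S.symm]

/-- `g` can be corrected by a power of `z` to have small displacement -/
theorem adjust (S : Stage G U n) {z g P Q m m' : G} (hz : z ∈ U) (hl : Lox S.d z) {R I RR : ℕ}
    (hI : I = 10 ^ 32 * (R + 10 ^ 4)) (hRR : RR = R + I * (19 * 10 ^ 5))
    (hzP : S.d P (z * P) ≤ 19 * 10 ^ 5) (hzQ : S.d Q (z * Q) ≤ 19 * 10 ^ 5)
    (hgP : S.d P (g * P) ≤ R) (hgQ : S.d Q (g * Q) ≤ R)
    (hm : S.d P m + S.d m Q = S.d P Q) (hm' : S.d P m' + S.d m' Q = S.d P Q)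
    (h1 : 20 * RR + 10 ^ 6 ≤ S.d P m) (h2 : 20 * RR + 10 ^ 6 ≤ S.d m' Q)
    (h3 : S.d P m + 20 * RR + 10 ^ 6 ≤ S.d P m') :
    ∃ a : ℤ, S.d m (z ^ a * g * m) ≤ 2 * 10 ^ 6 ∧ S.d m' (z ^ a * g * m') ≤ 2 * 10 ^ 6 := by
  have ipos : ∀ (y : G), S.d P (y * P) ≤ 19 * 10 ^ 5 → ∀ i, i ≤ I → S.d P (y ^ i • P) ≤ RR := by
    intro y hy i hi
    have a1 := disp_pow S.toGH (linv S) y P i
    have a2 : i * S.d P (y • P) ≤ I * (19 * 10 ^ 5) := Nat.mul_le_mul hi hy
    omega
  have ipos' : ∀ (y : G), S.d Q (y * Q) ≤ 19 * 10 ^ 5 → ∀ i, i ≤ I → S.d Q (y ^ i • Q) ≤ RR := by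
    intro y hy i hi
    have a1 := disp_pow S.toGH (linv S) y Q i
    have a2 : i * S.d Q (y • Q) ≤ I * (19 * 10 ^ 5) := Nat.mul_le_mul hi hy
    omega
  have hgP' : S.d P (g • P) ≤ RR := le_trans hgP (by omega)
  have hgQ' : S.d Q (g • Q) ≤ RR := le_trans hgQ (by omega)
  have nz := shift_near S.toGH (linv S) g hgP' hgQ' hm (by omega) (by omega)
  -- the position of `g m`
  have x1 := S.tri P (g • P) (g • m)
  have x2 := S.tri (g • P) P (g • m)
  have x3 := linv S g P m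
  have x4 := S.symm (g • P) P
  have hgP2 : S.d P (g • P) ≤ R := hgP
  -- key for `y = z` or `z⁻¹`
  have key : ∀ y : G, S.d P (y * P) ≤ 19 * 10 ^ 5 → S.d Q (y * Q) ≤ 19 * 10 ^ 5 →
      ((S.d P m ≤ S.d P (g • m) ∧ S.d P (g • m) ≤ S.d P (y ^ I • m)) ∨
       (S.d P (y ^ I • m) ≤ S.d P (g • m) ∧ S.d P (g • m) ≤ S.d P m)) →
      ∃ i : ℕ, S.d m ((y ^ i)⁻¹ * g * m) ≤ 2 * 10 ^ 6 ∧ S.d m' ((y ^ i)⁻¹ * g * m') ≤ 2 * 10 ^ 6 := by
    intro y hyP hyQ hy
    have ym := disp_conv S.toGH (linv S) y (T := 19 * 10 ^ 5) hyP hyQ hm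
    have st : ∀ k, S.d (y ^ k • m) (y ^ (k + 1) • m) = S.d m (y • m) := by
      intro k
      rw [pow_succ, mul_smul, linv S]
    obtain ⟨i, hi, hi1, hi2⟩ := ivt (fun k => S.d P (y ^ k • m)) (19 * 10 ^ 5 + 800)
      (S.d P (g • m)) I
      (fun k _ => by
        have t1 := S.tri P (y ^ k • m) (y ^ (k + 1) • m)
        have := st k
        show S.d P (y ^ (k + 1) • m) ≤ S.d P (y ^ k • m) + (19 * 10 ^ 5 + 800)
        omega)
      (fun k _ => by
        have t1 := S.tri P (y ^ (k + 1) • m) (y ^ k • m)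
        have s1 := S.symm (y ^ (k + 1) • m) (y ^ k • m)
        have := st k
        show S.d P (y ^ k • m) ≤ S.d P (y ^ (k + 1) • m) + (19 * 10 ^ 5 + 800)
        omega)
      (by
        simp only [pow_zero, one_smul]
        exact hy)
    have hi1' : S.d P (y ^ i • m) ≤ S.d P (g • m) + (19 * 10 ^ 5 + 800) := hi1
    have hi2' : S.d P (g • m) ≤ S.d P (y ^ i • m) + (19 * 10 ^ 5 + 800) := hi2
    have q1 := ipos y hyP i hi
    have q2 := ipos' y hyQ i hi
    have ny := shift_near S.toGH (linv S) (y ^ i) q1 q2 hm (by omega) (by omega)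
    have ny' := shift_near S.toGH (linv S) (y ^ i) q1 q2 hm' (by omega) (by omega)
    have nz' := shift_near S.toGH (linv S) g hgP' hgQ' hm' (by omega) (by omega)
    have cy := shift_const S.toGH (linv S) (y ^ i) q1 q2 hm hm' (by omega) (by omega) (by omega)
    have cg := shift_const S.toGH (linv S) g hgP' hgQ' hm hm' (by omega) (by omega) (by omega)
    have e1 := close_of_pos S.toGH (k := 19 * 10 ^ 5 + 800) ny nz hi1' hi2'
    have e2 := close_of_pos S.toGH (k := 19 * 10 ^ 5 + 800 + 1200) ny' nz' (by omega) (by omega)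
    rw [max_self] at e1 e2
    have i1 := S.inv (y ^ i) m ((y ^ i)⁻¹ * g * m)
    have i2 := S.inv (y ^ i) m' ((y ^ i)⁻¹ * g * m')
    have g1 : y ^ i * ((y ^ i)⁻¹ * g * m) = g • m := by rw [smul_eq_mul]; group
    have g2 : y ^ i * ((y ^ i)⁻¹ * g * m') = g • m' := by rw [smul_eq_mul]; group
    have g3 : y ^ i * m = y ^ i • m := rfl
    have g4 : y ^ i * m' = y ^ i • m' := rfl
    rw [g1, g3] at i1
    rw [g2, g4] at i2
    exact ⟨i, by omega, by omega⟩
  have hzP' : S.d P (z⁻¹ * P) ≤ 19 * 10 ^ 5 := by rwa [zinv_disp]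
  have hzQ' : S.d Q (z⁻¹ * Q) ≤ 19 * 10 ^ 5 := by rwa [zinv_disp]
  -- shifts of `z^I`, `z^{-I}`
  have il := inj_low S hz hl m I
  have il' : R + 10 ^ 4 ≤ S.d m (z ^ I * m) := by
    by_contra hc
    have : 10 ^ 32 * (S.d m (z ^ I * m) + 1) ≤ 10 ^ 32 * (R + 10 ^ 4) :=
      Nat.mul_le_mul_left _ (by omega)
    omega
  have p1 := ipos z hzP I le_rfl
  have p2 := ipos' z hzQ I le_rfl
  have p3 := ipos z⁻¹ hzP' I le_rfl
  have p4 := ipos' z⁻¹ hzQ' I le_rfl
  have nzI := shift_near S.toGH (linv S) (z ^ I) p1 p2 hm (by omega) (by omega)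
  have cl := close_of_pos S.toGH (p := P) (q := Q) (a := z ^ I • m) (b := m) (e := 2 * 200) (e' := 0)
    (k := max (S.d P (z ^ I • m) - S.d P m) (S.d P m - S.d P (z ^ I • m)))
    nzI (by omega) (by omega) (by omega)
  rw [Nat.max_zero] at cl
  have sm := S.symm (z ^ I • m) m
  have il2 : R + 10 ^ 4 ≤ S.d m (z ^ I • m) := il'
  have sc := shift_comp S.toGH (linv S) (z ^ I) (z⁻¹ ^ I) (R := RR) p1 p2 p3 p4 hm (by omega)
    (by omega) (by omega)
  have e0 : z ^ I • z⁻¹ ^ I • m = m := by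
    rw [← mul_smul, inv_pow, mul_inv_cancel, one_smul]
  rw [e0] at sc
  -- four cases
  rcases le_total (S.d P m) (S.d P (g • m)) with hx | hx
  · rcases le_total (S.d P m) (S.d P (z ^ I • m)) with hzI | hzI
    · obtain ⟨i, hi1, hi2⟩ := key z hzP hzQ (Or.inl ⟨hx, by omega⟩)
      refine ⟨-(i : ℤ), ?_, ?_⟩
      · rwa [zpow_neg, zpow_natCast]
      · rwa [zpow_neg, zpow_natCast]
    · obtain ⟨i, hi1, hi2⟩ := key z⁻¹ hzP' hzQ' (Or.inl ⟨hx, by omega⟩)
      refine ⟨(i : ℤ), ?_, ?_⟩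
      · rwa [inv_pow, inv_inv, ← zpow_natCast] at hi1
      · rwa [inv_pow, inv_inv, ← zpow_natCast] at hi2
  · rcases le_total (S.d P m) (S.d P (z ^ I • m)) with hzI | hzI
    · obtain ⟨i, hi1, hi2⟩ := key z⁻¹ hzP' hzQ' (Or.inr ⟨by omega, hx⟩)
      refine ⟨(i : ℤ), ?_, ?_⟩
      · rwa [inv_pow, inv_inv, ← zpow_natCast] at hi1
      · rwa [inv_pow, inv_inv, ← zpow_natCast] at hi2
    · obtain ⟨i, hi1, hi2⟩ := key z hzP hzQ (Or.inr ⟨by omega, hx⟩)
      refine ⟨-(i : ℤ), ?_, ?_⟩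
      · rwa [zpow_neg, zpow_natCast]
      · rwa [zpow_neg, zpow_natCast]

/-- among `10^32 + 1` elements of `E z` two are in the same coset of `⟨z⟩` -/
theorem fin_coset (S : Stage G U n) {z : G} (hz : z ∈ U)
    (hl : Lox S.d z) {p : G} (hp : S.d p (z * p) ≤ 19 * 10 ^ 5) (f : ℕ → G)
    (hf : ∀ i, f i ∈ EE U z) : ∃ i j, i < j ∧ ∃ a : ℤ, f i = z ^ a * f j := by
  have c1 : ∀ N : ℕ, ∃ k, 1 ≤ k ∧ ∀ i, i < N → f i * z ^ k = z ^ k * f i := by
    intro N
    induction N with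
    | zero => exact ⟨1, le_rfl, fun i hi => absurd hi (by omega)⟩
    | succ N ih =>
      obtain ⟨k, hk, hk'⟩ := ih
      obtain ⟨_, l, hl, hl'⟩ := hf N
      refine ⟨k * l, Nat.mul_pos hk hl, fun i hi => ?_⟩
      rcases Nat.lt_or_ge i N with h | h
      · rw [pow_mul]
        exact (show Commute (f i) (z ^ k) from hk' i h).pow_right l
      · have : i = N := by omega
        subst this
        rw [mul_comm, pow_mul]
        exact (show Commute (f i) (z ^ l) from hl').pow_right k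
  have c2 : ∀ N : ℕ, ∃ R, ∀ i, i < N → S.d p (f i * p) ≤ R := by
    intro N
    induction N with
    | zero => exact ⟨0, fun i hi => absurd hi (by omega)⟩
    | succ N ih =>
      obtain ⟨R, hR⟩ := ih
      refine ⟨R + S.d p (f N * p), fun i hi => ?_⟩
      rcases Nat.lt_or_ge i N with h | h
      · have := hR i h
        omega
      · have : i = N := by omega
        subst this
        omega
  obtain ⟨k, hk, hcomm⟩ := c1 (10 ^ 32 + 1)
  obtain ⟨R, hR⟩ := c2 (10 ^ 32 + 1)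
  obtain ⟨I, hI⟩ : ∃ I, I = 10 ^ 32 * (R + 10 ^ 4) := ⟨_, rfl⟩
  obtain ⟨RR, hRR⟩ : ∃ RR, RR = R + I * (19 * 10 ^ 5) := ⟨_, rfl⟩
  have hwl : Lox S.d (z ^ k) := (lox_pow S.toGH (linv S) z hk).2 hl
  obtain ⟨K, hK⟩ := lox_far S hwl p (100 * RR + 10 ^ 16)
  have hzQ : S.d ((z ^ k) ^ K * p) (z * ((z ^ k) ^ K * p)) ≤ 19 * 10 ^ 5 := by
    rw [disp_comm S]
    · exact hp
    · exact (((Commute.refl z).pow_right k).pow_right K)
  have hfQ : ∀ i, i < 10 ^ 32 + 1 → S.d ((z ^ k) ^ K * p) (f i * ((z ^ k) ^ K * p)) ≤ R := by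
    intro i hi
    rw [disp_comm S]
    · exact hR i hi
    · exact (show Commute (f i) (z ^ k) from hcomm i hi).pow_right K
  obtain ⟨m, hm, hm'⟩ := S.geo p ((z ^ k) ^ K * p) (20 * RR + 10 ^ 6) (by omega)
  obtain ⟨m2, hm2, hm2'⟩ := S.geo p ((z ^ k) ^ K * p) (40 * RR + 2 * 10 ^ 6 + 10 ^ 15) (by omega)
  have adj : ∀ i, ∃ a : ℤ, i < 10 ^ 32 + 1 → S.d m (z ^ a * f i * m) ≤ 2 * 10 ^ 6 ∧
      S.d m2 (z ^ a * f i * m2) ≤ 2 * 10 ^ 6 := by
    intro i
    by_cases hi : i < 10 ^ 32 + 1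
    · obtain ⟨a, ha⟩ := adjust S (z := z) (g := f i) (P := p) (Q := (z ^ k) ^ K * p) (m := m)
        (m' := m2) hz hl hI hRR hp hzQ (hR i hi) (hfQ i hi) (by omega) (by omega) (by omega)
        (by omega) (by omega)
      exact ⟨a, fun _ => ha⟩
    · exact ⟨0, fun h => absurd h hi⟩
  choose a ha using adj
  have t := S.tri p m m2
  obtain ⟨i, j, hij, hj, e⟩ := S.cnt m m2 (by omega) (fun i => z ^ a i * f i)
    (fun i hi => ⟨mul_mem (zpow_mem hz _) (hf i).1, (ha i (by omega)).1, (ha i (by omega)).2⟩)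
  refine ⟨i, j, hij, -a i + a j, ?_⟩
  have e' : z ^ a i * f i = z ^ a j * f j := e
  rw [zpow_add, mul_assoc, ← e', zpow_neg, inv_mul_cancel_left]

/-- `E z` is infinite cyclic if `z` is loxodromic and moves some point at most `1.9*10^6`:
`⟨z⟩` has finite index in `E z` (every `g ∈ E z` can be multiplied by a power of `z` to have
displacement `≤ 2*10^6` at two far apart points of a long `[z^{-K} p, z^K p]`, then `cnt`), `E z` is
torsion free; so the transfer `E z → ⟨z⟩` is injective. -/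
theorem ee_cyc (S : Stage G U n) (hn : n.Prime) (hbig : 10 ^ 170 ≤ n) {z : G} (hz : z ∈ U)
    (hl : Lox S.d z) {p : G} (hp : S.d p (z * p) ≤ 19 * 10 ^ 5) :
    ∃ x, EE U z = Subgroup.zpowers x := by
  classical
  have hzE : z ∈ EE U z := ⟨hz, 1, le_rfl, by simp⟩
  let H : Subgroup (EE U z) := Subgroup.zpowers ⟨z, hzE⟩
  have hfin : Finite ((EE U z) ⧸ H) := by
    by_contra hinf
    rw [not_finite_iff_infinite] at hinf
    let e := Infinite.natEmbedding ((EE U z) ⧸ H)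
    obtain ⟨i, j, hij, a, ha⟩ := fin_coset S hz hl hp (fun i => ((e i).out : EE U z)⁻¹.1)
      (fun i => ((e i).out : EE U z)⁻¹.2)
    have h1 : ((e i).out : EE U z)⁻¹ = ⟨z, hzE⟩ ^ a * ((e j).out : EE U z)⁻¹ := by
      apply Subtype.ext
      rw [Subgroup.coe_mul, Subgroup.coe_zpow]
      exact ha
    have h2 : (e i) = (e j) := by
      rw [← (e i).out_eq', ← (e j).out_eq']
      apply QuotientGroup.eq.2
      rw [h1, mul_assoc, inv_mul_cancel, mul_one]
      exact Subgroup.zpow_mem _ (Subgroup.mem_zpowers _) a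
    have := e.injective h2
    omega
  have : H.FiniteIndex := Subgroup.finiteIndex_of_finite_quotient
  have hidx : H.index ≠ 0 := this.index_ne_zero
  let _ : CommGroup H := { (inferInstance : Group H) with
    mul_comm := fun a b => by
      obtain ⟨a, i, rfl⟩ := a
      obtain ⟨b, j, rfl⟩ := b
      apply Subtype.ext
      exact (Commute.zpow_zpow_self _ i j).eq }
  let τ : EE U z →* H := MonoidHom.transfer (MonoidHom.id H)
  have hτ : Function.Injective τ := by
    rw [injective_iff_map_eq_one]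
    intro g hg
    by_contra hg1
    obtain ⟨m, hm0, _, hm⟩ := Subgroup.exists_pow_mem_of_index_ne_zero hidx g
    obtain ⟨a, ha⟩ := hm
    have hgl : Lox S.d g.1 := ee_lox S hn hbig hz hl g.2 (fun h => hg1 (Subtype.ext h))
    have ha' : z ^ a = g.1 ^ m := by
      have := congrArg Subtype.val ha
      simpa using this
    have ha0 : a ≠ 0 := by
      rintro rfl
      rw [zpow_zero] at ha'
      exact not_lox_one S hgl (by omega) ha'.symm
    have key : ∀ (k : ℕ) (g₀ : EE U z), g₀⁻¹ * (g ^ m) ^ k * g₀ ∈ H →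
        g₀⁻¹ * (g ^ m) ^ k * g₀ = (g ^ m) ^ k := by
      intro k g₀ hk
      obtain ⟨b, hb⟩ := hk
      obtain ⟨_, l, hl1, hl2⟩ := g₀.2
      have hb' : z ^ b = g₀.1⁻¹ * (z ^ a) ^ k * g₀.1 := by
        have := congrArg Subtype.val hb
        rw [ha']
        simpa using this
      have e1 : (z ^ b) ^ l = (z ^ a) ^ (k * l) := by
        rw [hb']
        have : g₀.1⁻¹ * (z ^ a) ^ k * g₀.1 = g₀.1⁻¹ * (z ^ a) ^ k * (g₀.1⁻¹)⁻¹ := by rw [inv_inv]
        rw [this, conj_pow, inv_inv, ← pow_mul]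
        have hc : Commute g₀.1 ((z ^ a) ^ (k * l)) := by
          have e : (z ^ a) ^ (k * l) = (z ^ l) ^ (a * k) := by
            rw [← zpow_natCast (z ^ a), ← zpow_mul, ← zpow_natCast z l, ← zpow_mul]
            congr 1
            push_cast
            ring
          rw [e]
          exact (show Commute g₀.1 (z ^ l) from hl2).zpow_right _
        rw [mul_assoc, ← hc.eq, inv_mul_cancel_left]
      have e2 : z ^ (b * l - a * (k * l)) = 1 := by
        rw [zpow_sub, zpow_mul, zpow_mul, zpow_natCast, mul_inv_eq_one]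
        rw [e1]
        rw [← zpow_natCast]
        push_cast
        rfl
      have e3 := zpow_ne S hl e2
      have e4 : b = a * k := by
        have : (b - a * k) * l = 0 := by
          rw [← e3]
          ring
        rcases mul_eq_zero.1 this with h | h
        · omega
        · omega
      apply Subtype.ext
      rw [← hb, e4]
      show (⟨z, hzE⟩ : EE U z).1 ^ (a * (k : ℤ)) = ((g ^ m) ^ k).1
      rw [Subgroup.coe_pow, Subgroup.coe_pow, ← ha', zpow_mul, zpow_natCast]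
    have tr := MonoidHom.transfer_eq_pow (MonoidHom.id H) (g ^ m) key
    have e5 : τ (g ^ m) = 1 := by rw [map_pow, hg, one_pow]
    have e6 : (⟨(g ^ m) ^ H.index, MonoidHom.transfer_eq_pow_aux (g ^ m) key⟩ : H) = 1 := by
      rw [← e5]
      exact tr.symm
    have e7 : (g.1 ^ m) ^ H.index = 1 := by
      have := congrArg (fun x : H => x.1.1) e6
      simpa using this
    rw [← pow_mul] at e7
    exact not_lox_one S hgl (Nat.mul_pos (by omega) (Nat.pos_of_ne_zero hidx)) e7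
  have hc : IsCyclic (EE U z) := by
    have : IsCyclic H := inferInstance
    exact isCyclic_of_injective τ hτ
  obtain ⟨x, hx⟩ := hc.exists_generator
  refine ⟨x.1, ?_⟩
  ext g
  constructor
  · intro hg
    obtain ⟨k, hk⟩ := hx ⟨g, hg⟩
    exact ⟨k, by simpa using congrArg Subtype.val hk⟩
  · rintro ⟨k, rfl⟩
    exact Subgroup.zpow_mem _ x.2 k

/-- commensurable loxodromic elements have the same group -/
theorem ee_comm (S : Stage G U n) {z g : G} (hl : Lox S.d z) (hlg : Lox S.d g) {a b : ℤ}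
    (hb : b ≠ 0) (h : g ^ a = z ^ b) : EE U g ≤ EE U z := by
  rintro w ⟨hw, k, hk, hwk⟩
  have ha : a ≠ 0 := by
    rintro rfl
    rw [zpow_zero] at h
    exact hb (zpow_ne S hl h.symm)
  refine ⟨hw, k * b.natAbs, Nat.mul_pos hk (Int.natAbs_pos.2 hb), ?_⟩
  have h1 : Commute w ((g ^ k) ^ a) := (show Commute w (g ^ k) from hwk).zpow_right a
  have h2 : (g ^ k) ^ a = (z ^ k) ^ b := by
    rw [← zpow_natCast g, ← zpow_mul, mul_comm, zpow_mul, h, ← zpow_mul, mul_comm, zpow_mul, zpow_natCast]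
  rw [h2] at h1
  have h3 : z ^ (k * b.natAbs) = (z ^ k) ^ b ∨ z ^ (k * b.natAbs) = ((z ^ k) ^ b)⁻¹ := by
    rcases Int.natAbs_eq b with e | e
    · left
      rw [pow_mul, ← zpow_natCast (z ^ k) b.natAbs, ← e]
    · right
      rw [pow_mul, ← zpow_natCast (z ^ k) b.natAbs, ← zpow_neg]
      congr 1
      omega
  rcases h3 with h3 | h3
  · rw [h3]; exact h1.eq
  · rw [h3]; exact h1.inv_right.eq

/-- nontrivial elements of `E z` define the same group -/
theorem ee_eq (S : Stage G U n) (hn : n.Prime) (hbig : 10 ^ 170 ≤ n) {z g : G} (hz : z ∈ U)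
    (hl : Lox S.d z) {p : G} (hp : S.d p (z * p) ≤ 19 * 10 ^ 5) (hg : g ∈ EE U z) (h1 : g ≠ 1) :
    EE U g = EE U z := by
  obtain ⟨x, hx⟩ := ee_cyc S hn hbig hz hl hp
  have hgl := ee_lox S hn hbig hz hl hg h1
  have hzE : z ∈ EE U z := ⟨hz, 1, le_rfl, by simp⟩
  rw [hx] at hg hzE
  obtain ⟨a, ha⟩ := hg
  obtain ⟨b, hb⟩ := hzE
  have ha' : x ^ a = g := ha
  have hb' : x ^ b = z := hb
  have a0 : a ≠ 0 := by
    rintro rfl
    exact h1 (by rw [← ha', zpow_zero])
  have b0 : b ≠ 0 := by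
    rintro rfl
    rw [zpow_zero] at hb'
    exact not_lox_one S hl (k := 1) le_rfl (by rw [← hb', one_pow])
  have e : g ^ b = z ^ a := by rw [← ha', ← hb', ← zpow_mul, ← zpow_mul, mul_comm]
  exact le_antisymm (ee_comm S hl hgl a0 e) (ee_comm S hgl hl b0 e.symm)

/-- `E z` is self-normalizing in `U` (no reversal since `n` is odd) -/
theorem ee_norm (S : Stage G U n) (hn : n.Prime) (hbig : 10 ^ 170 ≤ n) {z g : G} (hz : z ∈ U)
    (hl : Lox S.d z) {p : G} (hp : S.d p (z * p) ≤ 19 * 10 ^ 5) (hg : g ∈ U)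
    (h : ∀ w, w ∈ EE U z → g * w * g⁻¹ ∈ EE U z) : g ∈ EE U z := by
  obtain ⟨x, hx⟩ := ee_cyc S hn hbig hz hl hp
  have hxE : x ∈ EE U z := by rw [hx]; exact Subgroup.mem_zpowers x
  have x1 : x ≠ 1 := by
    rintro rfl
    have hzE : z ∈ EE U z := ⟨hz, 1, le_rfl, by simp⟩
    rw [hx] at hzE
    obtain ⟨b, hb⟩ := hzE
    have hb' : (1 : G) ^ b = z := hb
    rw [one_zpow] at hb'
    exact not_lox_one S hl (k := 1) le_rfl (by rw [← hb', one_pow])
  have hxl := ee_lox S hn hbig hz hl hxE x1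
  have hxU : x ∈ U := hxE.1
  have h1 := h x hxE
  rw [hx] at h1
  obtain ⟨c, hc⟩ := h1
  have hc' : x ^ c = g * x * g⁻¹ := hc
  have hpow : ∀ i : ℕ, x ^ (c ^ i) = g ^ i * x * (g ^ i)⁻¹ := by
    intro i
    induction i with
    | zero => simp
    | succ i ih =>
      rw [pow_succ, zpow_mul, ih, conj_zpow, hc', pow_succ]
      group
  have hcc : c.natAbs ≤ 1 := by
    by_contra hc2
    have hbd : ∀ i : ℕ, c.natAbs ^ i ≤ 10 ^ 32 * S.d 1 (x * 1) := by
      intro i
      have l := inj_low S hxU hxl (g ^ i) (c.natAbs ^ i)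
      have e : S.d (g ^ i) (x ^ (c.natAbs ^ i) * g ^ i) = S.d 1 (x * 1) := by
        have e1 : S.d (g ^ i) (x ^ (c ^ i) * g ^ i) = S.d 1 (x * 1) := by
          rw [hpow, inv_mul_cancel_right]
          have := S.inv (g ^ i) 1 (x * 1)
          rw [mul_one, mul_one] at this
          rw [mul_one]
          exact this
        have e2 : x ^ (c.natAbs ^ i) = x ^ (c ^ i) ∨ x ^ (c.natAbs ^ i) = (x ^ (c ^ i))⁻¹ := by
          have : (c ^ i).natAbs = c.natAbs ^ i := Int.natAbs_pow c i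
          rw [← this]
          rcases Int.natAbs_eq (c ^ i) with e | e
          · left
            rw [← zpow_natCast, ← e]
          · right
            rw [← zpow_natCast, ← zpow_neg]
            congr 1
            omega
        rcases e2 with e2 | e2
        · rw [e2]; exact e1
        · rw [e2, zinv_disp]; exact e1
      rw [e] at l
      exact l
    have h2 : 2 ≤ c.natAbs := by omega
    have h3 := hbd (10 ^ 32 * S.d 1 (x * 1))
    have h4 : 2 ^ (10 ^ 32 * S.d 1 (x * 1)) ≤ c.natAbs ^ (10 ^ 32 * S.d 1 (x * 1)) :=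
      Nat.pow_le_pow_left h2 _
    have h5 : 10 ^ 32 * S.d 1 (x * 1) < 2 ^ (10 ^ 32 * S.d 1 (x * 1)) := Nat.lt_two_pow_self
    omega
  have hc0 : c ≠ 0 := by
    rintro rfl
    rw [zpow_zero] at hc'
    apply x1
    have := hc'.symm
    rwa [mul_inv_eq_one, mul_eq_left] at this
  have hinE : ∀ w : G, w ∈ U → w * x = x * w → w ∈ EE U z := by
    intro w hw hwx
    rw [← ee_eq S hn hbig hz hl hp hxE x1]
    exact ⟨hw, 1, le_rfl, by rw [pow_one]; exact hwx⟩
  rcases Int.natAbs_eq c with e | e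
  · have c1 : c = 1 := by omega
    rw [c1, zpow_one] at hc'
    apply hinE g hg
    rw [eq_mul_inv_iff_mul_eq] at hc'
    exact hc'.symm
  · have c1 : c = -1 := by omega
    rw [c1, zpow_neg, zpow_one] at hc'
    have hg2 : g ^ 2 ∈ EE U z := by
      apply hinE _ (pow_mem hg 2)
      have e1 : g * x⁻¹ * g⁻¹ = x := by
        have : g * x⁻¹ * g⁻¹ = (g * x * g⁻¹)⁻¹ := by group
        rw [this, ← hc', inv_inv]
      have e2 : g ^ 2 * x * (g ^ 2)⁻¹ = x := by
        have : g ^ 2 * x * (g ^ 2)⁻¹ = g * (g * x * g⁻¹) * g⁻¹ := by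
          rw [pow_two, mul_inv_rev]
          simp only [mul_assoc]
        rw [this, ← hc', e1]
      rw [mul_inv_eq_iff_eq_mul] at e2
      exact e2
    rw [hx] at hg2
    obtain ⟨b, hb⟩ := hg2
    have hb' : x ^ b = g ^ 2 := hb
    have e3 : g * x ^ b * g⁻¹ = x ^ b := by
      rw [hb']
      group
    rw [← conj_zpow, ← hc', inv_zpow, ← zpow_neg] at e3
    have e4 : x ^ (b + b) = 1 := by
      rw [zpow_add]
      nth_rewrite 1 [← e3]
      rw [zpow_neg, inv_mul_cancel]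
    have e5 := zpow_ne S hxl e4
    have b0 : b = 0 := by omega
    rw [b0, zpow_zero] at hb'
    have hng : ¬ Lox S.d g := fun hlg => not_lox_one S hlg (k := 2) (by omega) hb'.symm
    have hgn : g ^ n = 1 := (S.ell g hg).resolve_left hng
    have hodd : n % 2 = 1 := by
      rcases hn.eq_two_or_odd with h | h
      · omega
      · exact h
    have : g = 1 := by
      have e6 : n = 2 * (n / 2) + 1 := by omega
      rw [e6, pow_succ, pow_mul, ← hb', one_pow, one_mul] at hgn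
      exact hgn
    rw [this]
    exact one_mem _

theorem st_small (S : Stage G U n) {z : G}
    (hl : ¬ Lox S.d z) {p q : G} (hp : S.d p (z * p) ≤ 2 * 10 ^ 6) (hq : S.d q (z * q) ≤ 2 * 10 ^ 6)
    (c : ℕ → ℕ) (c0 : 9000000 ≤ c 0) (cs : ∀ j, c j + 100000 ≤ c (j + 1)) (j : ℕ) :
    ∀ i, i ≤ 2 ^ j → ∀ m, S.d p m + S.d m q = S.d p q → c j ≤ S.d p m →
      c j ≤ S.d m q → S.d m (z ^ i • m) ≤ 3200 := by
  have nl : ∀ j, ¬ LoxX S.d (z ^ j) := by
    intro j
    rcases Nat.eq_zero_or_pos j with h0 | h0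
    · subst h0
      exact not_lox_of_pow S.toGH (linv S) _ (k := 1) le_rfl (by simp)
    · rw [lox_pow S.toGH (linv S) z h0]
      exact hl
  induction j with
  | zero =>
    intro i hi m hm h1 h2
    have hi' : i = 0 ∨ i = 1 := by
      rw [pow_zero] at hi
      omega
    rcases hi' with rfl | rfl
    · rw [pow_zero, one_smul, S.self]
      omega
    · have := nonlox_small S.toGH (linv S) z hl (R := 2 * 10 ^ 6) hp hq hm (by omega) (by omega)
      rw [pow_one]
      omega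
  | succ j ih =>
    intro i hi m hm h1 h2
    rw [pow_succ] at hi
    have hcs := cs j
    obtain ⟨p', hp1, hp2⟩ := S.geo m p (10 ^ 5) (by rw [S.symm m p]; omega)
    obtain ⟨q', hq1, hq2⟩ := S.geo m q (10 ^ 5) (by omega)
    have s1 := S.symm m p
    have s2 := S.symm p' p
    have s3 := S.symm m p'
    have s4 := S.symm m q'
    have t1 := S.tri p p' q
    have t2 := S.tri p' m q
    have t3 := S.tri p q' q
    have t4 := S.tri p m q'
    have t5 := S.tri p p' q'
    have t6 := S.tri p' m q'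
    have hp' : S.d p p' + S.d p' q = S.d p q := by omega
    have hq' : S.d p q' + S.d q' q = S.d p q := by omega
    have hm' : S.d p' m + S.d m q' = S.d p' q' := by omega
    have dd : ∀ m, S.d p m + S.d m q = S.d p q → c j ≤ S.d p m →
        c j ≤ S.d m q → S.d m (z ^ i • m) ≤ 6400 := by
      intro m hm h1 h2
      obtain ⟨i1, i2, hi1, hi2, hi12⟩ : ∃ i1 i2, i1 ≤ 2 ^ j ∧ i2 ≤ 2 ^ j ∧ i = i1 + i2 := by
        rcases le_total i (2 ^ j) with h | h
        · exact ⟨i, 0, h, Nat.zero_le _, by omega⟩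
        · exact ⟨2 ^ j, i - 2 ^ j, le_rfl, by omega, by omega⟩
      have a1 := ih i1 hi1 m hm h1 h2
      have a2 := ih i2 hi2 m hm h1 h2
      have t := S.tri m (z ^ i1 • m) (z ^ i • m)
      have e : S.d (z ^ i1 • m) (z ^ i • m) = S.d m (z ^ i2 • m) := by
        rw [hi12, pow_add, mul_smul, linv S]
      omega
    have b1 := dd p' hp' (by omega) (by omega)
    have b2 := dd q' hq' (by omega) (by omega)
    exact nonlox_small S.toGH (linv S) (z ^ i) (nl i) (R := 6400) b1 b2 hm' (by omega) (by omega)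

/-- (C1) a non-loxodromic element of `U` with small displacement at two far points is trivial.
Induction on `j`: for all `i ≤ 2^j` and all `m ∈ [p,q]` at distance `≥ 9*10^6 + 10^5 * j` from `p` and `q`,
`d m (z^i m) ≤ 16*200` (`nonlox_small` for `z^i`, `i = i₁ + i₂`, applied between two points of `[p,m]`
and `[m,q]` which `z^i` moves `≤ 2*16*200`).  With `2^j ≥ 10^32`: `cnt` gives `z^i = z^j`,
`0 ≤ i < j ≤ 10^32 < n`; as `z^n = 1`, `n` prime, `z = 1`. -/
theorem small_triv (S : Stage G U n) (hn : n.Prime) (hbig : 10 ^ 170 ≤ n) {z : G} (hz : z ∈ U)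
    (hl : ¬ Lox S.d z) {p q : G} (hp : S.d p (z * p) ≤ 2 * 10 ^ 6) (hq : S.d q (z * q) ≤ 2 * 10 ^ 6)
    (hpq : 10 ^ 16 ≤ S.d p q) : z = 1 := by
  have hzn : z ^ n = 1 := (S.ell z hz).resolve_left hl
  obtain ⟨m, hm, hm'⟩ := S.geo p q (10 ^ 8) (by omega)
  obtain ⟨m2, hm2, hm2'⟩ := S.geo p q (10 ^ 8 + 10 ^ 15) (by omega)
  have t := S.tri p m m2
  have hpow : (10 : ℕ) ^ 32 ≤ 2 ^ 107 := by norm_num
  obtain ⟨c, c0, cs, cb⟩ : ∃ c : ℕ → ℕ, 9000000 ≤ c 0 ∧ (∀ j, c j + 100000 ≤ c (j + 1)) ∧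
      c 107 ≤ 10 ^ 8 := by
    refine ⟨fun j => 100000 * j + 9000000, by norm_num, fun j => ?_, by norm_num⟩
    show 100000 * j + 9000000 + 100000 ≤ 100000 * (j + 1) + 9000000
    linarith
  have k1 : ∀ i, i ≤ 10 ^ 32 → S.d m (z ^ i * m) ≤ 3200 := fun i hi =>
    st_small S hl hp hq c c0 cs 107 i (hi.trans hpow) m (by omega) (by omega) (by omega)
  have k2 : ∀ i, i ≤ 10 ^ 32 → S.d m2 (z ^ i * m2) ≤ 3200 := fun i hi =>
    st_small S hl hp hq c c0 cs 107 i (hi.trans hpow) m2 (by omega) (by omega) (by omega)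
  obtain ⟨i, j, hij, hj, e⟩ := S.cnt m m2 (by omega) (fun i => z ^ i)
    (fun i hi => ⟨pow_mem hz i, (k1 i hi).trans (by norm_num), (k2 i hi).trans (by norm_num)⟩)
  exact pow_inj_prime hn hzn hij (by omega) e

end Run7.h253
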