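import Mathlib

/-!
# Definitions for the disproof of MP_3ab0ed_al (helper253)

Everything is `ℕ`-valued.  `δ = 200` at every stage of the construction.
Constants (all wide apart):  `T = 10^6` (killing threshold), `T₁ = 2*10^6`, `Δ = 10^15`,
`Δ₂ = 10^16`, overlap `4*10^16`, `r = 10^18` (scale), `Θ = 10^20`, `B = 10^21` (big cone),
`R_d = 10^28`, `M = 10^32` (count), `W = 10^120` (width of lines), `len ≥ 10^130`, `n ≥ 10^170` prime.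
-/

set_option autoImplicit false

namespace Run7.h253

/-- an `ℕ`-valued metric with the geodesic property and the four point condition. -/
structure GH (X : Type*) (δ : ℕ) where
  d : X → X → ℕ
  self : ∀ x, d x x = 0
  eq_of : ∀ x y, d x y = 0 → x = y
  symm : ∀ x y, d x y = d y x
  tri : ∀ x y z, d x z ≤ d x y + d y z
  geo : ∀ x y t, t ≤ d x y → ∃ m, d x m = t ∧ t + d m y = d x y
  hyp : ∀ x y z w, d x z + d y w ≤ d x y + d z w + δ ∨ d x z + d y w ≤ d x w + d y z + δ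

/-- a geodesic sequence of length `m` from `x` to `y` -/
def IsGeod {X : Type*} (d : X → X → ℕ) (σ : ℕ → X) (m : ℕ) (x y : X) : Prop :=
  σ 0 = x ∧ σ m = y ∧ ∀ i j, i ≤ j → j ≤ m → d (σ i) (σ j) = j - i

/-- nearest points of `Y` -/
def prj {X : Type*} (d : X → X → ℕ) (Y : Set X) (x : X) : Set X :=
  {y | y ∈ Y ∧ ∀ y' ∈ Y, d x y ≤ d x y'}

open Classical in
/-- projection distance -/
noncomputable def pd {X : Type*} (d : X → X → ℕ) (Y : Set X) (x x' : X) : ℕ :=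
  if x = x' then 0 else sInf {k | ∀ y ∈ prj d Y x, ∀ y' ∈ prj d Y x', d y y' ≤ k}

/-- loxodromic: orbits grow linearly -/
def LoxX {X G : Type*} [Group G] [MulAction G X] (d : X → X → ℕ) (g : G) : Prop :=
  ∃ (p : X) (C : ℕ), ∀ k : ℕ, k ≤ C * (d p (g ^ k • p) + 1)

/-- the same for a group acting on itself -/
def Lox {G : Type*} [Group G] (d : G → G → ℕ) (g : G) : Prop :=
  ∃ (p : G) (C : ℕ), ∀ k : ℕ, k ≤ C * (d p (g ^ k * p) + 1)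

/-- A stage of the construction: a group `G` with a left invariant geodesic hyperbolic metric,
and a normal subgroup `U` whose elements are loxodromic or of exponent `n`. -/
structure Stage (G : Type*) [Group G] (U : Subgroup G) (n : ℕ) extends GH G 200 where
  inv : ∀ g x y, d (g * x) (g * y) = d x y
  ell : ∀ g ∈ U, Lox d g ∨ g ^ n = 1
  ov : ∀ z ∈ U, ∀ w ∈ U, Lox d z → Lox d w → ∀ p q, 10 ^ 15 ≤ d p q →
    d p (z * p) ≤ 2 * 10 ^ 6 → d q (z * q) ≤ 2 * 10 ^ 6 →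
    d p (w * p) ≤ 2 * 10 ^ 6 → d q (w * q) ≤ 2 * 10 ^ 6 → ∃ a : ℕ, 1 ≤ a ∧ z ^ a * w = w * z ^ a
  cnt : ∀ p q, 10 ^ 15 ≤ d p q → ∀ f : ℕ → G,
    (∀ i, i ≤ 10 ^ 32 → f i ∈ U ∧ d p (f i * p) ≤ 2 * 10 ^ 6 ∧ d q (f i * q) ≤ 2 * 10 ^ 6) →
    ∃ i j, i < j ∧ j ≤ 10 ^ 32 ∧ f i = f j

/-- A killing system on `G`: the lines `L` with their tubes `Y ℓ`, their (infinite cyclic)
groups `grp ℓ` and the rotation groups `rot ℓ` (`n`-th powers) -/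
structure BSys (G : Type*) [Group G] (U : Subgroup G) (n : ℕ) (L : Type*) [MulAction G L]
    extends GH G 200 where
  inv : ∀ g x y, d (g * x) (g * y) = d x y
  Y : L → Set G
  Y_ne : ∀ ℓ, (Y ℓ).Nonempty
  Y_smul : ∀ (g : G) ℓ p, p ∈ Y ℓ → g * p ∈ Y (g • ℓ)
  /-- quasi-convexity -/
  qc : ∀ ℓ a b m, a ∈ Y ℓ → b ∈ Y ℓ → d a m + d m b = d a b → ∃ y ∈ Y ℓ, d m y ≤ 800
  /-- bounded overlap of the `10^5` neighbourhoods -/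
  ovl : ∀ ℓ ℓ', ℓ ≠ ℓ' → ∀ p q a a' b b', a ∈ Y ℓ → a' ∈ Y ℓ' → b ∈ Y ℓ → b' ∈ Y ℓ' →
    d p a ≤ 10 ^ 5 → d p a' ≤ 10 ^ 5 → d q b ≤ 10 ^ 5 → d q b' ≤ 10 ^ 5 → d p q ≤ 4 * 10 ^ 16
  grp : L → Subgroup G
  grp_le : ∀ ℓ, grp ℓ ≤ U
  grp_smul : ∀ (g : G) ℓ z, z ∈ grp ℓ → g * z * g⁻¹ ∈ grp (g • ℓ)
  grp_fix : ∀ ℓ z, z ∈ grp ℓ → z • ℓ = ℓ
  rot : L → Subgroup G
  rot_le : ∀ ℓ, rot ℓ ≤ grp ℓ
  rot_smul : ∀ (g : G) ℓ z, z ∈ rot ℓ → g * z * g⁻¹ ∈ rot (g • ℓ)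
  pow_mem : ∀ ℓ z, z ∈ grp ℓ → z ^ n ∈ rot ℓ
  /-- every line is a coarse line, on which `rot ℓ` is generated by a coarse translation of
  length `len ℓ` -/
  len : L → ℕ
  len_big : ∀ ℓ, 10 ^ 130 ≤ len ℓ
  len_smul : ∀ (g : G) ℓ, len (g • ℓ) = len ℓ
  rot_low : ∀ ℓ r, r ∈ rot ℓ → r ≠ 1 → ∀ y ∈ Y ℓ, len ℓ ≤ d y (r * y)
  line : ∀ ℓ, ∃ (t : G → ℤ) (ρ : G), ρ ∈ rot ℓ ∧
    (∀ a ∈ Y ℓ, ∀ b ∈ Y ℓ, (d a b : ℤ) ≤ |t a - t b| + 10 ^ 120 ∧ |t a - t b| ≤ d a b + 10 ^ 120) ∧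
    (∀ a ∈ Y ℓ, |t (ρ * a) - t a - len ℓ| ≤ 10 ^ 120)
  /-- the groups are cyclic -/
  cyc : ∀ ℓ, ∃ x, grp ℓ = Subgroup.zpowers x ∧ rot ℓ = Subgroup.zpowers (x ^ n)
  grp_inj : ∀ ℓ ℓ' z, z ∈ grp ℓ → z ∈ grp ℓ' → z ≠ 1 → ℓ = ℓ'
  /-- elements of `U` fixing a line belong to its group -/
  stab : ∀ ℓ, ∀ g ∈ U, g • ℓ = ℓ → g ∈ grp ℓ
  small : ∀ ℓ z p, z ∈ grp ℓ → z ≠ 1 → d p (z * p) ≤ 10 ^ 6 → p ∈ Y ℓ
  lox_small : ∀ z ∈ U, Lox d z → ∀ p, d p (z * p) ≤ 10 ^ 6 → ∃ ℓ, z ∈ grp ℓ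
  lox_grp : ∀ ℓ z, z ∈ grp ℓ → z ≠ 1 → Lox d z
  ell : ∀ g ∈ U, Lox d g ∨ g ^ n = 1
  triv : ∀ z ∈ U, ¬ Lox d z → ∀ p q, d p (z * p) ≤ 10 ^ 6 → d q (z * q) ≤ 10 ^ 6 →
    10 ^ 16 ≤ d p q → z = 1

/-- the subgroup to be killed -/
def BSys.N {G : Type*} [Group G] {U : Subgroup G} {n : ℕ} {L : Type*} [MulAction G L]
    (S : BSys G U n L) : Subgroup G :=
  Subgroup.closure {r | ∃ ℓ, r ∈ S.rot ℓ}

/-- projection distance to a line -/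
noncomputable def BSys.D {G : Type*} [Group G] {U : Subgroup G} {n : ℕ} {L : Type*} [MulAction G L]
    (S : BSys G U n L) (ℓ : L) (x y : G) : ℕ := pd S.d (S.Y ℓ) x y

section
variable {G : Type*} [Group G] {U : Subgroup G} {n : ℕ} {L : Type*} [MulAction G L]

/-- `x, y` is a `k/16`-reduced pair -/
def BSys.Rdc (S : BSys G U n L) (k : ℕ) (x y : G) : Prop :=
  ∀ ℓ, 16 * S.D ℓ x y ≤ k * S.len ℓ

/-- elements which can be reduced to `1`, seen from `x` -/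
inductive BSys.Rd (S : BSys G U n L) (x : G) : G → Prop
  | one : BSys.Rd S x 1
  | step {ℓ : L} {r h : G} : r ∈ S.rot ℓ → r ≠ 1 → BSys.Rd S x h →
      S.len ℓ ≤ S.D ℓ x (r * h * x) + 10 ^ 19 → BSys.Rd S x (r * h)

/-- The coned-off metric.  `g.d` is the path metric of the graph in which `x, y` are adjacent
iff `d x y ≤ 10^18` or both lie in a common `Y ℓ`. -/
structure Cone (S : BSys G U n L) where
  g : GH G 200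
  inv : ∀ a x y, g.d (a * x) (a * y) = g.d x y
  of_le : ∀ x y, S.d x y ≤ 10 ^ 18 → g.d x y ≤ 1
  of_Y : ∀ ℓ x y, x ∈ S.Y ℓ → y ∈ S.Y ℓ → g.d x y ≤ 1
  of_one : ∀ x y, g.d x y ≤ 1 → S.d x y ≤ 10 ^ 18 ∨ ∃ ℓ, x ∈ S.Y ℓ ∧ y ∈ S.Y ℓ
  le_div : ∀ x y, 10 ^ 18 * g.d x y ≤ S.d x y + 10 ^ 18
  near : ∀ x y m σ, IsGeod g.d σ (g.d x y) x y → S.d x m + S.d m y = S.d x y →
    ∃ t, t ≤ g.d x y ∧ g.d m (σ t) ≤ 10
  near' : ∀ x y u, g.d x u + g.d u y = g.d x y →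
    ∃ m, S.d x m + S.d m y = S.d x y ∧ g.d u m ≤ 20
  Q1 : ∀ ℓ x y σ, IsGeod g.d σ (g.d x y) x y → 10 ^ 20 ≤ S.D ℓ x y →
    ∃ i, i < g.d x y ∧ σ i ∈ S.Y ℓ ∧ σ (i + 1) ∈ S.Y ℓ
  Q3 : ∀ x y B, (∀ ℓ, S.D ℓ x y ≤ B) → S.d x y ≤ (B + 10 ^ 21) * g.d x y

/-- the quotient pseudo-metric, on `G` -/
noncomputable def Cone.q {S : BSys G U n L} (c : Cone S) (x y : G) : ℕ :=
  sInf {k | ∃ h ∈ S.N, k = c.g.d x (h * y)}

end

end Run7.h253
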