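import Pool.Agent.Run7.h253.Hom

/-!
# Assembly

Laws `[u ^ n, z]` (`u` in the commutator subgroup, `n` a large prime): the verbal subgroup of `G` is `[N, G]` with
`N = (G')^n` (`verbal_eq`); the laws are nontrivial (`laws_proper`), the dihedral group of order `8` satisfies them
(`sat_nonab`), and the relatively free groups have torsion-free homology (`exists_tower`, `exists_perm`, `hom_tf`).
-/
set_option autoImplicit false

namespace Run7.h253

open scoped commutatorElement

/-- verbal subgroup of `G` for a set of laws -/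
def verbal (W : Set (FreeGroup ℕ)) (G : Type*) [Group G] : Subgroup G :=
  Subgroup.closure {g | ∃ w ∈ W, ∃ φ : FreeGroup ℕ →* G, g = φ w}

instance (W : Set (FreeGroup ℕ)) (G : Type*) [Group G] : (verbal W G).Normal := by
  constructor
  intro x hx g
  induction hx using Subgroup.closure_induction with
  | mem x hx =>
    obtain ⟨w, hw, φ, rfl⟩ := hx
    exact Subgroup.subset_closure ⟨w, hw, (MulAut.conj g).toMonoidHom.comp φ, rfl⟩
  | one => rw [mul_one, mul_inv_cancel]; exact one_mem _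
  | mul x y _ _ hx hy =>
    have : g * (x * y) * g⁻¹ = (g * x * g⁻¹) * (g * y * g⁻¹) := by group
    rw [this]
    exact mul_mem hx hy
  | inv x _ hx =>
    have : g * x⁻¹ * g⁻¹ = (g * x * g⁻¹)⁻¹ := by group
    rw [this]
    exact inv_mem hx

/-- `G` satisfies the laws `W` -/
def Satisfies (W : Set (FreeGroup ℕ)) (G : Type*) [Group G] : Prop :=
  ∀ w ∈ W, ∀ φ : FreeGroup ℕ →* G, φ w = 1

/-- the laws `[u ^ n, z]`, `u` in the commutator subgroup -/
def laws (n : ℕ) : Set (FreeGroup ℕ) :=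
  {w | ∃ u ∈ commutator (FreeGroup ℕ), ∃ z : FreeGroup ℕ, w = ⁅u ^ n, z⁆}

/-- two homomorphisms from `FreeGroup ℕ` factor through one -/
theorem merge {G : Type*} [Group G] (φ₁ φ₂ : FreeGroup ℕ →* G) :
    ∃ (ι₁ ι₂ : FreeGroup ℕ →* FreeGroup ℕ) (φ : FreeGroup ℕ →* G),
      (∀ w, φ (ι₁ w) = φ₁ w) ∧ (∀ w, φ (ι₂ w) = φ₂ w) := by
  refine ⟨FreeGroup.lift (fun i => FreeGroup.of (2 * i)), FreeGroup.lift (fun i => FreeGroup.of (2 * i + 1)),
    FreeGroup.lift (fun i => if i % 2 = 0 then φ₁ (FreeGroup.of (i / 2)) else φ₂ (FreeGroup.of (i / 2))), ?_, ?_⟩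
  · intro w
    refine DFunLike.congr_fun (f := (FreeGroup.lift _).comp (FreeGroup.lift _)) (g := φ₁) ?_ w
    ext i
    simp only [MonoidHom.comp_apply, FreeGroup.lift_apply_of]
    rw [if_pos (by omega)]
    congr 2
    omega
  · intro w
    refine DFunLike.congr_fun (f := (FreeGroup.lift _).comp (FreeGroup.lift _)) (g := φ₂) ?_ w
    ext i
    simp only [MonoidHom.comp_apply, FreeGroup.lift_apply_of]
    rw [if_neg (by omega)]
    congr 2
    omega

theorem map_comm {G H : Type*} [Group G] [Group H] (φ : G →* H) {u : G} (hu : u ∈ commutator G) :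
    φ u ∈ commutator H := by
  have h2 : (commutator G).map φ ≤ commutator H := by
    rw [commutator_def, Subgroup.map_commutator]
    exact Subgroup.commutator_mono le_top le_top
  exact h2 ⟨u, hu, rfl⟩

/-- elements of the commutator subgroup come from `FreeGroup ℕ` -/
theorem lift_comm {G : Type*} [Group G] {u : G} (hu : u ∈ commutator G) :
    ∃ u' ∈ commutator (FreeGroup ℕ), ∃ φ : FreeGroup ℕ →* G, φ u' = u := by
  rw [commutator_eq_closure] at hu
  induction hu using Subgroup.closure_induction with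
  | mem x hx =>
    obtain ⟨a, b, rfl⟩ := hx
    refine ⟨⁅FreeGroup.of 0, FreeGroup.of 1⁆, ?_, FreeGroup.lift (fun i => if i = 0 then a else b), ?_⟩
    · exact Subgroup.commutator_mem_commutator (Subgroup.mem_top _) (Subgroup.mem_top _)
    · rw [map_commutatorElement]
      simp
  | one => exact ⟨1, one_mem _, 1, rfl⟩
  | mul x y _ _ hx hy =>
    obtain ⟨u1, h1, φ1, rfl⟩ := hx
    obtain ⟨u2, h2, φ2, rfl⟩ := hy
    obtain ⟨ι1, ι2, φ, e1, e2⟩ := merge φ1 φ2
    exact ⟨ι1 u1 * ι2 u2, mul_mem (map_comm _ h1) (map_comm _ h2), φ, by rw [map_mul, e1, e2]⟩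
  | inv x _ hx =>
    obtain ⟨u1, h1, φ1, rfl⟩ := hx
    exact ⟨u1⁻¹, inv_mem h1, φ1, map_inv _ _⟩

theorem verbal_eq (n : ℕ) {G : Type*} [Group G] : verbal (laws n) G =
    ⁅Subgroup.closure {x | ∃ u ∈ commutator G, x = u ^ n}, (⊤ : Subgroup G)⁆ := by
  apply le_antisymm
  · refine (Subgroup.closure_le _).2 ?_
    rintro _ ⟨_, ⟨u, hu, z, rfl⟩, φ, rfl⟩
    rw [map_commutatorElement, map_pow]
    exact Subgroup.commutator_mem_commutator (Subgroup.subset_closure ⟨φ u, map_comm φ hu, rfl⟩)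
      (Subgroup.mem_top _)
  · rw [Subgroup.commutator_le]
    intro h hh f _
    have key : (h : G ⧸ verbal (laws n) G) ∈ Subgroup.center (G ⧸ verbal (laws n) G) := by
      induction hh using Subgroup.closure_induction with
      | mem x hx =>
        obtain ⟨u, hu, rfl⟩ := hx
        rw [Subgroup.mem_center_iff]
        intro g
        induction g using QuotientGroup.induction_on with
        | H g =>
        obtain ⟨u1, h1, φ1, rfl⟩ := lift_comm hu
        obtain ⟨ι1, ι2, φ, e1, e2⟩ := merge φ1 (FreeGroup.lift (fun _ => g⁻¹))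
        rw [← QuotientGroup.mk_mul, ← QuotientGroup.mk_mul, QuotientGroup.eq]
        refine Subgroup.subset_closure ⟨⁅((ι1 u1)⁻¹) ^ n, ι2 (FreeGroup.of 0)⁆,
          ⟨(ι1 u1)⁻¹, inv_mem (map_comm _ h1), _, rfl⟩, φ, ?_⟩
        rw [map_commutatorElement, map_pow, map_inv, e1, e2, FreeGroup.lift_apply_of, commutatorElement_def]
        group
      | one => exact one_mem _
      | mul x y _ _ hx hy => exact mul_mem hx hy
      | inv x _ hx => exact inv_mem hx
    have h1 := Subgroup.mem_center_iff.1 key (f : G ⧸ verbal (laws n) G)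
    rw [← QuotientGroup.eq_one_iff, commutatorElement_def, QuotientGroup.mk_mul, QuotientGroup.mk_mul,
      QuotientGroup.mk_mul, ← h1, QuotientGroup.mk_inv, QuotientGroup.mk_inv]
    group

theorem laws_proper {n : ℕ} (hn : n ≠ 0) : ∃ w ∈ laws n, w ≠ 1 := by
  refine ⟨⁅⁅(FreeGroup.of 0 : FreeGroup ℕ), FreeGroup.of 1⁆ ^ n, FreeGroup.of 0⁆,
    ⟨_, Subgroup.commutator_mem_commutator (Subgroup.mem_top _) (Subgroup.mem_top _), _, rfl⟩, ?_⟩
  intro h
  let a : Equiv.Perm ℚ := Equiv.mulLeft₀ 2 (by norm_num)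
  let b : Equiv.Perm ℚ := Equiv.addRight 1
  let φ : FreeGroup ℕ →* Equiv.Perm ℚ := FreeGroup.lift (fun i => if i = 0 then a else b)
  have h1 : φ ⁅⁅(FreeGroup.of 0 : FreeGroup ℕ), FreeGroup.of 1⁆ ^ n, FreeGroup.of 0⁆ = 1 := by rw [h, map_one]
  rw [map_commutatorElement, map_pow, map_commutatorElement] at h1
  have e0 : φ (FreeGroup.of 0) = a := by simp [φ]
  have e1 : φ (FreeGroup.of 1) = b := by simp [φ]
  rw [e0, e1] at h1
  have hc : ⁅a, b⁆ = Equiv.addRight (1 : ℚ) := by
    ext x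
    show 2 * (2⁻¹ * (x + -1) + 1) = x + 1
    ring
  have hp : ∀ (m : ℕ) (x : ℚ), (⁅a, b⁆ ^ m) x = x + m := by
    intro m
    induction m with
    | zero => intro x; simp
    | succ m ih =>
      intro x
      rw [pow_succ, Equiv.Perm.mul_apply, ih, hc]
      show x + 1 + (m : ℚ) = x + ((m + 1 : ℕ) : ℚ)
      push_cast
      ring
  rw [commutatorElement_eq_one_iff_mul_comm] at h1
  have h2 := congrArg (fun e : Equiv.Perm ℚ => e 0) h1
  simp only [Equiv.Perm.mul_apply, hp] at h2
  have h3 : (2 : ℚ) * 0 + n = 2 * (0 + n) := h2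
  have h4 : (n : ℚ) = 0 := by linarith
  exact hn (by exact_mod_cast h4)

theorem sat_nonab {n : ℕ} : ∃ (H : Type) (_ : Group H), Satisfies (laws n) H ∧ ∃ a b : H, a * b ≠ b * a := by
  refine ⟨DihedralGroup 4, inferInstance, ?_, DihedralGroup.r 1, DihedralGroup.sr 0, by decide⟩
  rintro _ ⟨u, hu, z, rfl⟩ φ
  have h1 : commutator (DihedralGroup 4) ≤ Subgroup.center (DihedralGroup 4) := by
    rw [commutator_def, Subgroup.commutator_le]
    intro a _ b _
    rw [Subgroup.mem_center_iff]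
    have key : ∀ a b g : DihedralGroup 4, g * (a * b * a⁻¹ * b⁻¹) = (a * b * a⁻¹ * b⁻¹) * g := by decide
    exact key a b
  have h2 := h1 (map_comm φ hu)
  rw [map_commutatorElement, map_pow, commutatorElement_eq_one_iff_mul_comm]
  exact (Subgroup.mem_center_iff.1 (pow_mem h2 n) (φ z)).symm

theorem transfer {X : Type} (V V' : Subgroup (FreeGroup X)) [V.Normal] [V'.Normal] (h : V = V') (k : ℕ)
    (H : ∀ (m : ℤ) (x : groupHomology (Rep.trivial ℤ (FreeGroup X ⧸ V') ℤ) k), m ≠ 0 → m • x = 0 → x = 0) :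
    ∀ (m : ℤ) (x : groupHomology (Rep.trivial ℤ (FreeGroup X ⧸ V) ℤ) k), m ≠ 0 → m • x = 0 → x = 0 := by
  subst h
  exact H

/-- all free groups of the variety with laws `laws n` have torsion-free homology -/
theorem laws_tf {n : ℕ} (hn : n.Prime) (hbig : 10 ^ 170 ≤ n) (X : Type) (k : ℕ) (hk : 1 ≤ k) :
    ∀ (m : ℤ) (x : groupHomology (Rep.trivial ℤ (FreeGroup X ⧸ verbal (laws n) (FreeGroup X)) ℤ) k),
      m ≠ 0 → m • x = 0 → x = 0 := by
  obtain ⟨T⟩ := exists_tower X (commutator (FreeGroup X)) hn hbig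
  obtain ⟨P⟩ := exists_perm X hn T
  have hN : (Subgroup.closure {x | ∃ u ∈ commutator (FreeGroup X), x = u ^ n}).Normal := P.normal
  have hle : Subgroup.closure {x | ∃ u ∈ commutator (FreeGroup X), x = u ^ n} ≤ commutator (FreeGroup X) := by
    rw [Subgroup.closure_le]
    rintro _ ⟨u, hu, rfl⟩
    exact pow_mem hu n
  refine transfer _ _ (verbal_eq n) k ?_
  intro m x hm hx
  exact hom_tf X hn.one_le _ hle P k hk m x hm hx

end Run7.h253
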