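import Mathlib

/-!
# Piece `fox`: the relation sequence `0 → N^ab → ℤQ^(X) → ℤQ → ℤ → 0`, `Q = F/N`, elementary form

`D` = Fox derivation with values in `ℤQ^(X) = (X × Q →₀ ℤ)`.  `D (w w') = D w + w̄ D w'`, `D x = e_(x,1)`.
`fox_inj`: for `w ∈ N` with `D w = 0` we have `w ∈ [N,N]`: choose a section `s : Q → F`, `s 1 = 1`, and the derivation
`D' : F → (Q → N^ab)`, `D' w q = [s(q) w s(q w̄)⁻¹]`, `D' (w w') q = D' w q + D' w' (q w̄)`; it factors through
`D` (both are determined by the values at the generators), and `D' w 1 = [w]` for `w ∈ N`.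
`fox_ker`: for `v ∈ ker ∂` use the loops `s(q) x s(q x)⁻¹ ∈ N`.
-/

set_option autoImplicit false

namespace Run7.h253

variable {X : Type} (N : Subgroup (FreeGroup X)) [N.Normal]

/-- `ℤQ^(X)` -/
abbrev FoxMod (X : Type) (N : Subgroup (FreeGroup X)) [N.Normal] : Type :=
  X × (FreeGroup X ⧸ N) →₀ ℤ

/-- left multiplication by `q` on `ℤQ^(X)` -/
noncomputable def foxAct (q : FreeGroup X ⧸ N) : FoxMod X N →+ FoxMod X N :=
  Finsupp.mapDomain.addMonoidHom fun p => (p.1, q * p.2)

/-- the boundary `e_(x,q) ↦ q x - q` -/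
noncomputable def foxBd : FoxMod X N →+ (FreeGroup X ⧸ N →₀ ℤ) :=
  Finsupp.mapDomain.addMonoidHom (fun p : X × (FreeGroup X ⧸ N) => p.2 * (FreeGroup.of p.1 : FreeGroup X)) -
    Finsupp.mapDomain.addMonoidHom (fun p : X × (FreeGroup X ⧸ N) => p.2)

/-- the augmentation -/
noncomputable def augQ : (FreeGroup X ⧸ N →₀ ℤ) →+ ℤ := Finsupp.liftAddHom fun _ => AddMonoidHom.id ℤ

theorem foxAct_single (q : FreeGroup X ⧸ N) (p : X × (FreeGroup X ⧸ N)) (a : ℤ) :
    foxAct N q (Finsupp.single p a) = Finsupp.single (p.1, q * p.2) a := Finsupp.mapDomain_single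

theorem foxAct_one (m : FoxMod X N) : foxAct N 1 m = m := by
  induction m using Finsupp.induction_linear with
  | zero => rw [map_zero]
  | add x y hx hy => rw [map_add, hx, hy]
  | single p a => rw [foxAct_single, one_mul]

theorem foxAct_mul (q q' : FreeGroup X ⧸ N) (m : FoxMod X N) :
    foxAct N (q * q') m = foxAct N q (foxAct N q' m) := by
  induction m using Finsupp.induction_linear with
  | zero => simp only [map_zero]
  | add x y hx hy => simp only [map_add, hx, hy]
  | single p a => rw [foxAct_single, foxAct_single, foxAct_single, mul_assoc]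

/-- affine permutation of a generator -/
noncomputable def foxPerm (x : X) : Equiv.Perm (FoxMod X N) where
  toFun m := Finsupp.single (x, 1) 1 + foxAct N (FreeGroup.of x : FreeGroup X) m
  invFun m := foxAct N (FreeGroup.of x : FreeGroup X)⁻¹ (m - Finsupp.single (x, 1) 1)
  left_inv m := by
    beta_reduce
    rw [add_sub_cancel_left, ← foxAct_mul, inv_mul_cancel, foxAct_one]
  right_inv m := by
    beta_reduce
    rw [← foxAct_mul, mul_inv_cancel, foxAct_one, add_sub_cancel]

theorem foxPerm_affine (w : FreeGroup X) (m : FoxMod X N) :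
    FreeGroup.lift (foxPerm N) w m = FreeGroup.lift (foxPerm N) w 0 + foxAct N w m := by
  induction w using FreeGroup.induction_on generalizing m with
  | C1 => simp [foxAct_one]
  | of x =>
    rw [FreeGroup.lift_apply_of]
    show Finsupp.single (x, 1) 1 + foxAct N (FreeGroup.of x : FreeGroup X) m =
      (Finsupp.single (x, 1) 1 + foxAct N (FreeGroup.of x : FreeGroup X) 0) + _
    rw [map_zero, add_zero]
  | inv_of x ih =>
    rw [map_inv, FreeGroup.lift_apply_of]
    show foxAct N (FreeGroup.of x : FreeGroup X)⁻¹ (m - Finsupp.single (x, 1) 1) =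
      foxAct N (FreeGroup.of x : FreeGroup X)⁻¹ (0 - Finsupp.single (x, 1) 1) + _
    rw [QuotientGroup.mk_inv, ← map_add]
    congr 1
    abel
  | mul u v hu hv =>
    rw [map_mul, Equiv.Perm.mul_apply, Equiv.Perm.mul_apply, hv, hu, hu (FreeGroup.lift (foxPerm N) v 0),
      map_add, QuotientGroup.mk_mul, foxAct_mul]
    abel

/-- Fox derivation: existence -/
theorem exists_fox : ∃ D : FreeGroup X → FoxMod X N,
    (∀ x, D (FreeGroup.of x) = Finsupp.single (x, 1) 1) ∧
    (∀ w w', D (w * w') = D w + foxAct N w (D w')) := by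
  refine ⟨fun w => FreeGroup.lift (foxPerm N) w 0, ?_, ?_⟩
  · intro x
    beta_reduce
    rw [FreeGroup.lift_apply_of]
    show Finsupp.single (x, 1) 1 + foxAct N (FreeGroup.of x : FreeGroup X) 0 = _
    rw [map_zero, add_zero]
  · intro w w'
    show FreeGroup.lift (foxPerm N) (w * w') 0 = _
    rw [map_mul, Equiv.Perm.mul_apply, foxPerm_affine]

section D

variable {N} (D : FreeGroup X → FoxMod X N)

theorem fox_one (h2 : ∀ w w', D (w * w') = D w + foxAct N w (D w')) : D 1 = 0 := by
  have h := h2 1 1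
  rw [one_mul, QuotientGroup.mk_one, foxAct_one] at h
  exact left_eq_add.1 h

theorem fox_inv (h2 : ∀ w w', D (w * w') = D w + foxAct N w (D w')) (w : FreeGroup X) :
    D w⁻¹ = - foxAct N (w⁻¹ : FreeGroup X) (D w) := by
  have h := h2 w⁻¹ w
  rw [inv_mul_cancel, fox_one D h2] at h
  exact eq_neg_of_add_eq_zero_left h.symm

/-- the section -/
noncomputable def sec (N : Subgroup (FreeGroup X)) [N.Normal] (q : FreeGroup X ⧸ N) : FreeGroup X := by
  classical
  exact if q = 1 then 1 else q.out

theorem sec_mk (q : FreeGroup X ⧸ N) : ((sec N q : FreeGroup X) : FreeGroup X ⧸ N) = q := by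
  unfold sec
  split_ifs with h
  · rw [h]; rfl
  · exact Quotient.out_eq' q

theorem sec_one : sec N 1 = 1 := by
  unfold sec
  rw [if_pos rfl]

/-- the loop at `q` with label `w` -/
noncomputable def lp (q : FreeGroup X ⧸ N) (w : FreeGroup X) : N :=
  ⟨sec N q * w * (sec N (q * (w : FreeGroup X ⧸ N)))⁻¹, by
    rw [← QuotientGroup.eq_one_iff, QuotientGroup.mk_mul, QuotientGroup.mk_mul, QuotientGroup.mk_inv, sec_mk, sec_mk,
      mul_inv_cancel]⟩

theorem lp_mul (q : FreeGroup X ⧸ N) (w w' : FreeGroup X) :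
    lp q (w * w') = lp q w * lp (q * (w : FreeGroup X ⧸ N)) w' := by
  apply Subtype.ext
  show _ = (sec N q * w * (sec N (q * (w : FreeGroup X ⧸ N)))⁻¹) *
    (sec N (q * (w : FreeGroup X ⧸ N)) * w' * (sec N (q * (w : FreeGroup X ⧸ N) * (w' : FreeGroup X ⧸ N)))⁻¹)
  show sec N q * (w * w') * (sec N (q * ((w * w' : FreeGroup X) : FreeGroup X ⧸ N)))⁻¹ = _
  rw [QuotientGroup.mk_mul, ← mul_assoc q]
  group

/-- class of a loop -/
noncomputable def lc (q : FreeGroup X ⧸ N) (w : FreeGroup X) : Additive (Abelianization N) :=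
  Additive.ofMul (Abelianization.of (lp q w))

theorem lc_mul (q : FreeGroup X ⧸ N) (w w' : FreeGroup X) :
    lc q (w * w') = lc q w + lc (q * (w : FreeGroup X ⧸ N)) w' := by
  unfold lc
  rw [lp_mul, map_mul, ofMul_mul]

theorem lc_one (q : FreeGroup X ⧸ N) : lc q (1 : FreeGroup X) = 0 := by
  have h := lc_mul q 1 1
  rw [one_mul, QuotientGroup.mk_one, mul_one] at h
  exact left_eq_add.1 h

theorem lc_inv (q : FreeGroup X ⧸ N) (w : FreeGroup X) :
    lc q w⁻¹ = - lc (q * ((w⁻¹ : FreeGroup X) : FreeGroup X ⧸ N)) w := by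
  have h := lc_mul q w⁻¹ w
  rw [inv_mul_cancel, lc_one] at h
  exact eq_neg_of_add_eq_zero_left h.symm

/-- linear extension -/
noncomputable def Phi (q : FreeGroup X ⧸ N) : FoxMod X N →+ Additive (Abelianization N) :=
  Finsupp.liftAddHom fun p => (zmultiplesHom _ (lc (q * p.2) (FreeGroup.of p.1)))

theorem Phi_single (q : FreeGroup X ⧸ N) (p : X × (FreeGroup X ⧸ N)) (a : ℤ) :
    Phi q (Finsupp.single p a) = a • lc (q * p.2) (FreeGroup.of p.1) := by
  unfold Phi
  rw [Finsupp.liftAddHom_apply_single]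
  rfl

theorem Phi_act (q q' : FreeGroup X ⧸ N) (m : FoxMod X N) :
    Phi q (foxAct N q' m) = Phi (q * q') m := by
  induction m using Finsupp.induction_linear with
  | zero => simp only [map_zero]
  | add x y hx hy => simp only [map_add, hx, hy]
  | single p a => rw [foxAct_single, Phi_single, Phi_single, mul_assoc]

theorem Phi_D (h1 : ∀ x, D (FreeGroup.of x) = Finsupp.single (x, 1) 1)
    (h2 : ∀ w w', D (w * w') = D w + foxAct N w (D w')) (w : FreeGroup X) (q : FreeGroup X ⧸ N) :
    Phi q (D w) = lc q w := by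
  induction w using FreeGroup.induction_on generalizing q with
  | C1 => rw [fox_one D h2, map_zero, lc_one]
  | of x => rw [h1, Phi_single, mul_one, one_smul]
  | inv_of x ih => rw [fox_inv D h2, map_neg, Phi_act, ih, lc_inv]
  | mul u v hu hv => rw [h2, map_add, Phi_act, hu, hv, lc_mul]

end D

theorem fox_inj (D : FreeGroup X → FoxMod X N) (h1 : ∀ x, D (FreeGroup.of x) = Finsupp.single (x, 1) 1)
    (h2 : ∀ w w', D (w * w') = D w + foxAct N w (D w')) {w : FreeGroup X} (hw : w ∈ N)
    (h : D w = 0) : w ∈ ⁅N, N⁆ := by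
  have h3 := Phi_D D h1 h2 w 1
  rw [h, map_zero] at h3
  have h4 : Abelianization.of (lp (N := N) 1 w) = 1 := congrArg Additive.toMul h3.symm
  have h5 : lp (N := N) 1 w = ⟨w, hw⟩ := by
    apply Subtype.ext
    show sec N 1 * w * (sec N (1 * (w : FreeGroup X ⧸ N)))⁻¹ = w
    rw [(QuotientGroup.eq_one_iff w).2 hw, mul_one, sec_one, one_mul, inv_one, mul_one]
  rw [h5] at h4
  have h6 : (⟨w, hw⟩ : N) ∈ commutator N := by
    rw [← Abelianization.ker_of]
    exact h4
  rw [← Subgroup.map_subtype_commutator]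
  exact ⟨⟨w, hw⟩, h6, rfl⟩

theorem foxBd_single (p : X × (FreeGroup X ⧸ N)) (a : ℤ) :
    foxBd N (Finsupp.single p a) = Finsupp.single (p.2 * (FreeGroup.of p.1 : FreeGroup X)) a -
      Finsupp.single p.2 a := by
  unfold foxBd
  rw [AddMonoidHom.sub_apply]
  congr 1 <;> exact Finsupp.mapDomain_single

/-- left multiplication on `ℤQ` -/
noncomputable def qAct (q : FreeGroup X ⧸ N) : (FreeGroup X ⧸ N →₀ ℤ) →+ (FreeGroup X ⧸ N →₀ ℤ) :=
  Finsupp.mapDomain.addMonoidHom fun p => q * p

theorem qAct_single (q p : FreeGroup X ⧸ N) (a : ℤ) :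
    qAct N q (Finsupp.single p a) = Finsupp.single (q * p) a := Finsupp.mapDomain_single

theorem foxBd_act (q : FreeGroup X ⧸ N) (m : FoxMod X N) :
    foxBd N (foxAct N q m) = qAct N q (foxBd N m) := by
  induction m using Finsupp.induction_linear with
  | zero => simp only [map_zero]
  | add x y hx hy => simp only [map_add, hx, hy]
  | single p a => rw [foxAct_single, foxBd_single, foxBd_single, map_sub, qAct_single, qAct_single, mul_assoc]

theorem foxBd_D (D : FreeGroup X → FoxMod X N) (h1 : ∀ x, D (FreeGroup.of x) = Finsupp.single (x, 1) 1)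
    (h2 : ∀ w w', D (w * w') = D w + foxAct N w (D w')) (w : FreeGroup X) :
    foxBd N (D w) = Finsupp.single (w : FreeGroup X ⧸ N) 1 - Finsupp.single 1 1 := by
  induction w using FreeGroup.induction_on with
  | C1 => rw [fox_one D h2, map_zero, QuotientGroup.mk_one, sub_self]
  | of x => rw [h1, foxBd_single, one_mul]
  | inv_of x ih =>
    rw [fox_inv D h2, map_neg, foxBd_act, ih, map_sub, qAct_single, qAct_single, ← QuotientGroup.mk_mul,
      inv_mul_cancel, QuotientGroup.mk_one, mul_one, neg_sub]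
  | mul u v hu hv =>
    rw [h2, map_add, foxBd_act, hu, hv, map_sub, qAct_single, qAct_single, mul_one, QuotientGroup.mk_mul]
    abel

/-- the retraction onto loops -/
noncomputable def Psi (D : FreeGroup X → FoxMod X N) : (FreeGroup X ⧸ N →₀ ℤ) →+ FoxMod X N :=
  Finsupp.liftAddHom fun q => (zmultiplesHom _ (D (sec N q)))

theorem Psi_single (D : FreeGroup X → FoxMod X N) (q : FreeGroup X ⧸ N) (a : ℤ) :
    Psi N D (Finsupp.single q a) = a • D (sec N q) := by
  unfold Psi
  rw [Finsupp.liftAddHom_apply_single]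
  rfl

theorem D_lp (D : FreeGroup X → FoxMod X N) (h1 : ∀ x, D (FreeGroup.of x) = Finsupp.single (x, 1) 1)
    (h2 : ∀ w w', D (w * w') = D w + foxAct N w (D w')) (x : X) (q : FreeGroup X ⧸ N) :
    D (lp q (FreeGroup.of x) : FreeGroup X) = Finsupp.single (x, q) 1 -
      Psi N D (foxBd N (Finsupp.single (x, q) 1)) := by
  show D (sec N q * FreeGroup.of x * (sec N (q * (FreeGroup.of x : FreeGroup X ⧸ N)))⁻¹) = _
  rw [h2, h2, fox_inv D h2, map_neg, ← foxAct_mul, foxBd_single, map_sub, Psi_single, Psi_single, h1,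
    foxAct_single, one_smul, one_smul, QuotientGroup.mk_mul, QuotientGroup.mk_inv, sec_mk, sec_mk, mul_inv_cancel,
    foxAct_one, mul_one]
  abel

/-- the subgroup `D N` -/
def DN (D : FreeGroup X → FoxMod X N) (h2 : ∀ w w', D (w * w') = D w + foxAct N w (D w')) :
    AddSubgroup (FoxMod X N) where
  carrier := {v | ∃ w ∈ N, D w = v}
  zero_mem' := ⟨1, N.one_mem, fox_one D h2⟩
  add_mem' := by
    rintro _ _ ⟨w, hw, rfl⟩ ⟨w', hw', rfl⟩
    refine ⟨w * w', N.mul_mem hw hw', ?_⟩
    rw [h2, (QuotientGroup.eq_one_iff w).2 hw, foxAct_one]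
  neg_mem' := by
    rintro _ ⟨w, hw, rfl⟩
    refine ⟨w⁻¹, N.inv_mem hw, ?_⟩
    rw [fox_inv D h2, (QuotientGroup.eq_one_iff w⁻¹).2 (N.inv_mem hw), foxAct_one]

theorem fox_ker (D : FreeGroup X → FoxMod X N) (h1 : ∀ x, D (FreeGroup.of x) = Finsupp.single (x, 1) 1)
    (h2 : ∀ w w', D (w * w') = D w + foxAct N w (D w')) (v : FoxMod X N) :
    foxBd N v = 0 ↔ ∃ w ∈ N, D w = v := by
  constructor
  · intro hv
    have key : ∀ v : FoxMod X N, v - Psi N D (foxBd N v) ∈ DN N D h2 := by
      intro v
      induction v using Finsupp.induction_linear with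
      | zero => simp only [map_zero, sub_zero]; exact (DN N D h2).zero_mem
      | add x y hx hy =>
        rw [map_add, map_add, add_sub_add_comm]
        exact (DN N D h2).add_mem hx hy
      | single p a =>
        have h3 : (Finsupp.single p a : FoxMod X N) = a • Finsupp.single p 1 := by
          rw [Finsupp.smul_single, smul_eq_mul, mul_one]
        rw [h3, map_zsmul, map_zsmul, ← smul_sub]
        refine (DN N D h2).zsmul_mem ?_ a
        obtain ⟨x, q⟩ := p
        rw [← D_lp N D h1 h2]
        exact ⟨_, (lp q (FreeGroup.of x)).2, rfl⟩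
    have h3 := key v
    rw [hv, map_zero, sub_zero] at h3
    exact h3
  · rintro ⟨w, hw, rfl⟩
    rw [foxBd_D N D h1 h2, (QuotientGroup.eq_one_iff w).2 hw, sub_self]

omit [N.Normal] in
theorem augQ_single (q : FreeGroup X ⧸ N) (a : ℤ) : augQ N (Finsupp.single q a) = a := by
  unfold augQ
  rw [Finsupp.liftAddHom_apply_single]
  rfl

theorem aug_ker (u : FreeGroup X ⧸ N →₀ ℤ) : augQ N u = 0 ↔ ∃ v, foxBd N v = u := by
  constructor
  · intro hu
    obtain ⟨D, h1, h2⟩ := exists_fox N
    have key : ∀ u : FreeGroup X ⧸ N →₀ ℤ, u - Finsupp.single 1 (augQ N u) ∈ (foxBd N).range := by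
      intro u
      induction u using Finsupp.induction_linear with
      | zero => simp only [map_zero, Finsupp.single_zero, sub_zero]; exact (foxBd N).range.zero_mem
      | add x y hx hy =>
        rw [map_add, Finsupp.single_add, add_sub_add_comm]
        exact (foxBd N).range.add_mem hx hy
      | single q a =>
        rw [augQ_single]
        have h3 : (Finsupp.single q a - Finsupp.single 1 a : FreeGroup X ⧸ N →₀ ℤ) =
            a • (Finsupp.single q 1 - Finsupp.single 1 1) := by
          rw [smul_sub, Finsupp.smul_single, Finsupp.smul_single, smul_eq_mul, mul_one]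
        rw [h3]
        refine (foxBd N).range.zsmul_mem ?_ a
        refine ⟨D (sec N q), ?_⟩
        rw [foxBd_D N D h1 h2, sec_mk]
    have h3 := key u
    rw [hu, Finsupp.single_zero, sub_zero] at h3
    exact h3
  · rintro ⟨v, rfl⟩
    induction v using Finsupp.induction_linear with
    | zero => simp only [map_zero]
    | add x y hx hy => rw [map_add, map_add, hx, hy, add_zero]
    | single p a => rw [foxBd_single, map_sub, augQ_single, augQ_single, sub_self]

/-- the augmented `x`-component -/
noncomputable def compX [DecidableEq X] (x : X) : FoxMod X N →+ ℤ :=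
  Finsupp.liftAddHom fun p => if p.1 = x then AddMonoidHom.id ℤ else 0

theorem compX_apply [DecidableEq X] (x : X) (m : FoxMod X N) :
    compX N x m = m.sum fun p a => if p.1 = x then a else 0 := by
  unfold compX
  rw [Finsupp.liftAddHom_apply]
  refine Finsupp.sum_congr fun p _ => ?_
  split_ifs <;> rfl

theorem compX_single [DecidableEq X] (x : X) (p : X × (FreeGroup X ⧸ N)) (a : ℤ) :
    compX N x (Finsupp.single p a) = if p.1 = x then a else 0 := by
  unfold compX
  rw [Finsupp.liftAddHom_apply_single]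
  split_ifs <;> rfl

theorem compX_act [DecidableEq X] (x : X) (q : FreeGroup X ⧸ N) (m : FoxMod X N) :
    compX N x (foxAct N q m) = compX N x m := by
  induction m using Finsupp.induction_linear with
  | zero => simp only [map_zero]
  | add x y hx hy => simp only [map_add, hx, hy]
  | single p a => rw [foxAct_single, compX_single, compX_single]

/-- `x`-component of `D`, augmented, is the exponent sum of `x` -/
theorem fox_aug [DecidableEq X] (D : FreeGroup X → FoxMod X N)
    (h1 : ∀ x, D (FreeGroup.of x) = Finsupp.single (x, 1) 1)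
    (h2 : ∀ w w', D (w * w') = D w + foxAct N w (D w')) {w : FreeGroup X}
    (hw : w ∈ commutator (FreeGroup X)) (x : X) :
    ((D w).sum fun p a => if p.1 = x then a else 0) = 0 := by
  rw [← compX_apply]
  let Φ : FreeGroup X →* Multiplicative ℤ :=
    MonoidHom.mk' (fun g => Multiplicative.ofAdd (compX N x (D g))) (by
      intro a b
      rw [← ofAdd_add, h2, map_add, compX_act])
  have h3 : commutator (FreeGroup X) ≤ Φ.ker := Abelianization.commutator_subset_ker Φ
  exact congrArg Multiplicative.toAdd ((MonoidHom.mem_ker).1 (h3 hw))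

end Run7.h253
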