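import Pool.Agent.Run7.h253.Defs

/-!
# Piece `guess`: the guessing-geodesics criterion (Masur–Schleimer / Bowditch)

`d'` an integral geodesic metric, `I x y m` (`m` lies on the guessed path from `x` to `y`).

Proof.  (A) if `d' x y ≤ 2^j` (`σ` geodesic sequence) then every `u` with `I x y u` is within `j+2` of
some `σ i` (induction on `j`, splitting in the middle).
(B) Let `t` be the largest distance from such a `u` to such a `σ`, over all pairs with
`d' x y ≤ n` (finite by (A)).  Take `u, σ` realizing `t`, `σ j` nearest to `u`,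
`x' = σ (j-(2t+3))` (or `x`), `y' = σ (j+2t+3)` (or `y`).  By `slim` twice `u` is within `2` of `u'` in
`I x x' ∪ I x' y' ∪ I y' y`.  In the first case `u` is within `t+2` of some `σ s`, `s ≤ j-(2t+3)`,
but `d' u (σ s) ≥ (2t+3) - t`; contradiction (if `x'=x` then `u'` is within 2 of `x`, so `t ≤ 4`).
Likewise the last case.  In the middle case `t ≤ 2 + (⌈log2 (4t+6)⌉ + 2)`, which forces `t ≤ 10`.
(C) For `v = σ j` use the chain `conn`: consecutive `c i, c (i+1)` are within `10` of `σ s`, `σ s'`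
with `s ≤ j ≤ s'`, so `s'-s ≤ 21` and `v` is within `20` of one of them.
(D) triangles are `31`-slim, hence the four point inequality with `4*31+2`:
for `x,y,z,w` choose `a` on `[x,z]` within `31` of `[x,y]` and `32` of `[y,z]`, `a'` on the same
geodesic `[x,z]` within `31` of `[x,w]` and `32` of `[w,z]`; compare according to whether `a` or `a'` comes first.
-/

set_option autoImplicit false

namespace Run7.h253

section
variable {X : Type*} {d' : X → X → ℕ}

theorem geod_of (self : ∀ x, d' x x = 0) (eq_of : ∀ x y, d' x y = 0 → x = y)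
    (symm : ∀ x y, d' x y = d' y x) (tri : ∀ x y z, d' x z ≤ d' x y + d' y z)
    (geo : ∀ x y t, t ≤ d' x y → ∃ m, d' x m = t ∧ t + d' m y = d' x y) (x y : X) :
    ∃ σ, IsGeod d' σ (d' x y) x y := by
  have key : ∀ u : X, ∃ v : X, 1 ≤ d' u y → d' u v = 1 ∧ 1 + d' v y = d' u y := by
    intro u
    by_cases h : 1 ≤ d' u y
    · obtain ⟨v, hv⟩ := geo u y 1 h
      exact ⟨v, fun _ => hv⟩
    · exact ⟨u, fun h' => absurd h' h⟩
  choose nx hnx using key
  let σ : ℕ → X := fun i => Nat.rec x (fun _ u => nx u) i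
  have h0 : σ 0 = x := rfl
  have hs : ∀ i, σ (i + 1) = nx (σ i) := fun i => rfl
  have h1 : ∀ i, i ≤ d' x y → d' (σ i) y = d' x y - i := by
    intro i
    induction i with
    | zero => intro _; rw [h0]; omega
    | succ i ih =>
      intro hi
      have e := ih (by omega)
      have := (hnx (σ i) (by omega)).2
      rw [← hs] at this
      omega
  have h2 : ∀ i, i < d' x y → d' (σ i) (σ (i + 1)) = 1 := by
    intro i hi
    have e := h1 i (by omega)
    have := (hnx (σ i) (by omega)).1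
    rwa [← hs] at this
  have h3 : ∀ k i, i + k ≤ d' x y → d' (σ i) (σ (i + k)) ≤ k := by
    intro k
    induction k with
    | zero => intro i _; rw [add_zero, self]
    | succ k ih =>
      intro i hi
      have a := ih i (by omega)
      have b := h2 (i + k) (by omega)
      have t := tri (σ i) (σ (i + k)) (σ (i + k + 1))
      have e : i + (k + 1) = i + k + 1 := by omega
      rw [e]
      omega
  refine ⟨σ, h0, ?_, ?_⟩
  · apply eq_of
    rw [h1 _ le_rfl]
    omega
  · intro i j hij hj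
    have a := h3 (j - i) i (by omega)
    have e : i + (j - i) = j := by omega
    rw [e] at a
    have b := tri (σ i) (σ j) y
    have c := h1 i (by omega)
    have c' := h1 j hj
    omega

theorem gsub {σ : ℕ → X} {m : ℕ} {x y : X} (h : IsGeod d' σ m x y) {a b : ℕ} (hab : a ≤ b)
    (hb : b ≤ m) : IsGeod d' (fun i => σ (a + i)) (b - a) (σ a) (σ b) := by
  refine ⟨rfl, ?_, ?_⟩
  · show σ (a + (b - a)) = σ b
    congr 1
    omega
  · intro i j hij hj
    show d' (σ (a + i)) (σ (a + j)) = j - i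
    rw [h.2.2 _ _ (by omega) (by omega)]
    omega

/-- (A) -/
theorem guessA (I : X → X → X → Prop) (tri : ∀ x y z, d' x z ≤ d' x y + d' y z)
    (symm : ∀ x y, d' x y = d' y x)
    (one : ∀ x y m, d' x y ≤ 1 → I x y m → d' x m ≤ 2)
    (slim : ∀ x y z m, I x y m → ∃ m', (I x z m' ∨ I z y m') ∧ d' m m' ≤ 1) (j : ℕ) :
    ∀ x y u σ, IsGeod d' σ (d' x y) x y → d' x y ≤ 2 ^ j → I x y u →
      ∃ i, i ≤ d' x y ∧ d' u (σ i) ≤ j + 2 := by
  induction j with
  | zero =>
    intro x y u σ hσ h hu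
    refine ⟨0, by omega, ?_⟩
    rw [hσ.1, symm]
    exact one x y u (by simpa using h) hu
  | succ j ih =>
    intro x y u σ hσ h hu
    rw [pow_succ] at h
    have hk : d' x y / 2 ≤ d' x y := by omega
    have g1 := gsub hσ (Nat.zero_le _) hk
    have g2 := gsub hσ hk le_rfl
    have e1 : d' x (σ (d' x y / 2)) = d' x y / 2 := by
      have := hσ.2.2 0 (d' x y / 2) (Nat.zero_le _) hk
      rw [hσ.1] at this
      omega
    have e2 : d' (σ (d' x y / 2)) y = d' x y - d' x y / 2 := by
      have := hσ.2.2 (d' x y / 2) (d' x y) hk le_rfl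
      rw [hσ.2.1] at this
      omega
    rw [hσ.1, Nat.sub_zero] at g1
    rw [hσ.2.1] at g2
    obtain ⟨m', hm, hm'⟩ := slim x y (σ (d' x y / 2)) u hu
    rcases hm with hm | hm
    · obtain ⟨i, hi, hi'⟩ := ih x (σ (d' x y / 2)) m' _ (by rw [e1]; exact g1) (by omega) hm
      refine ⟨0 + i, by omega, ?_⟩
      have := tri u m' (σ (0 + i))
      have : d' m' (σ (0 + i)) ≤ j + 2 := hi'
      omega
    · obtain ⟨i, hi, hi'⟩ := ih (σ (d' x y / 2)) y m' _ (by rw [e2]; exact g2) (by omega) hm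
      refine ⟨d' x y / 2 + i, by omega, ?_⟩
      have := tri u m' (σ (d' x y / 2 + i))
      have : d' m' (σ (d' x y / 2 + i)) ≤ j + 2 := hi'
      omega

theorem four_pow {t : ℕ} (ht : 11 ≤ t) : 4 * t + 6 ≤ 2 ^ (t - 5) := by
  induction t, ht using Nat.le_induction with
  | base => norm_num
  | succ t ht ih =>
    have e : t + 1 - 5 = (t - 5) + 1 := by omega
    rw [e, pow_succ]
    omega

/-- (B) -/
theorem guessB (I : X → X → X → Prop) (tri : ∀ x y z, d' x z ≤ d' x y + d' y z)
    (symm : ∀ x y, d' x y = d' y x) (self : ∀ x, d' x x = 0)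
    (one : ∀ x y m, d' x y ≤ 1 → I x y m → d' x m ≤ 2)
    (slim : ∀ x y z m, I x y m → ∃ m', (I x z m' ∨ I z y m') ∧ d' m m' ≤ 1) (n : ℕ) :
    ∀ x y u σ, IsGeod d' σ (d' x y) x y → d' x y ≤ n → I x y u →
      ∃ i, i ≤ d' x y ∧ d' u (σ i) ≤ 10 := by
  classical
  let P : ℕ → Prop := fun t => ∀ x y u σ, IsGeod d' σ (d' x y) x y → d' x y ≤ n → I x y u →
      ∃ i, i ≤ d' x y ∧ d' u (σ i) ≤ t
  have hex : ∃ t, P t := by
    refine ⟨n + 2, fun x y u σ hσ h hu => ?_⟩
    exact guessA I tri symm one slim n x y u σ hσ (h.trans Nat.lt_two_pow_self.le) hu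
  have hP := Nat.find_spec hex
  have hmin := fun m => Nat.find_min hex (m := m)
  generalize Nat.find hex = t at hP hmin
  rcases Nat.lt_or_ge t 11 with ht | ht
  · intro x y u σ hσ h hu
    obtain ⟨i, hi, hi'⟩ := hP x y u σ hσ h hu
    exact ⟨i, hi, by omega⟩
  exfalso
  apply hmin (t - 1) (by omega)
  intro x y u σ hσ h hu
  by_contra hcon
  push Not at hcon
  have hfar : ∀ i, i ≤ d' x y → t ≤ d' u (σ i) := fun i hi => by
    have := hcon i hi
    omega
  obtain ⟨j, hj, hj'⟩ := hP x y u σ hσ h hu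
  have dist : ∀ a b, a ≤ b → b ≤ d' x y → d' (σ a) (σ b) = b - a := hσ.2.2
  obtain ⟨b, hb1, hb2, hb3, hb4⟩ : ∃ b, j ≤ b ∧ b ≤ d' x y ∧ b ≤ j + (2 * t + 3) ∧
      (b = d' x y ∨ b = j + (2 * t + 3)) := by
    rcases le_total (d' x y) (j + (2 * t + 3)) with h1 | h1
    · exact ⟨d' x y, hj, le_rfl, h1, Or.inl rfl⟩
    · exact ⟨_, by omega, h1, le_rfl, Or.inr rfl⟩
  have ha : j - (2 * t + 3) ≤ b := by omega
  obtain ⟨m1, hm1, hm1'⟩ := slim x y (σ (j - (2 * t + 3))) u hu
  have ex0 : d' x (σ (j - (2 * t + 3))) = j - (2 * t + 3) := by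
    have := dist 0 (j - (2 * t + 3)) (by omega) (by omega)
    rw [hσ.1] at this
    omega
  rcases hm1 with hm1 | hm1
  · -- first case
    rcases Nat.eq_zero_or_pos (j - (2 * t + 3)) with h0 | h0
    · rw [h0, hσ.1] at hm1
      have o := one x x m1 (by rw [self]; omega) hm1
      have f := hfar 0 (by omega)
      rw [hσ.1] at f
      have t1 := tri u m1 x
      have s1 := symm m1 x
      omega
    · have g1 := gsub hσ (Nat.zero_le _) (show j - (2 * t + 3) ≤ d' x y by omega)
      rw [hσ.1, Nat.sub_zero] at g1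
      obtain ⟨s, hs, hs'⟩ := hP x (σ (j - (2 * t + 3))) m1 _ (by rw [ex0]; exact g1) (by omega) hm1
      have hs'' : d' m1 (σ (0 + s)) ≤ t := hs'
      rw [Nat.zero_add] at hs''
      have t1 := tri u m1 (σ s)
      have t2 := tri (σ s) u (σ j)
      have d1 := dist s j (by omega) (by omega)
      have s1 := symm (σ s) u
      omega
  · obtain ⟨m2, hm2, hm2'⟩ := slim (σ (j - (2 * t + 3))) y (σ b) m1 hm1
    have t0 := tri u m1 m2
    rcases hm2 with hm2 | hm2
    · -- middle case
      have g1 := gsub hσ ha hb2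
      have exy : d' (σ (j - (2 * t + 3))) (σ b) = b - (j - (2 * t + 3)) := dist _ _ ha hb2
      have fp := four_pow ht
      obtain ⟨i, hi, hi'⟩ := guessA I tri symm one slim (t - 5) (σ (j - (2 * t + 3))) (σ b) m2 _
        (by rw [exy]; exact g1) (by omega) hm2
      have hi'' : d' m2 (σ (j - (2 * t + 3) + i)) ≤ t - 5 + 2 := hi'
      have t1 := tri u m2 (σ (j - (2 * t + 3) + i))
      have f := hfar (j - (2 * t + 3) + i) (by omega)
      omega
    · -- last case
      have ey : d' (σ b) y = d' x y - b := by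
        have := dist b (d' x y) hb2 le_rfl
        rwa [hσ.2.1] at this
      rcases hb4 with hb4 | hb4
      · have ey0 : σ b = y := by rw [hb4]; exact hσ.2.1
        rw [ey0] at hm2
        have o := one y y m2 (by rw [self]; omega) hm2
        have f := hfar b hb2
        rw [ey0] at f
        have t1 := tri u m2 y
        have s1 := symm m2 y
        omega
      · have g1 := gsub hσ hb2 le_rfl
        rw [hσ.2.1] at g1
        obtain ⟨s, hs, hs'⟩ := hP (σ b) y m2 _ (by rw [ey]; exact g1) (by omega) hm2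
        have hs'' : d' m2 (σ (b + s)) ≤ t := hs'
        have t1 := tri u m2 (σ (b + s))
        have t2 := tri (σ j) u (σ (b + s))
        have d1 := dist j (b + s) (by omega) (by omega)
        have s1 := symm (σ j) u
        omega

/-- (C) -/
theorem guessC (I : X → X → X → Prop) (self : ∀ x, d' x x = 0) (eq_of : ∀ x y, d' x y = 0 → x = y)
    (tri : ∀ x y z, d' x z ≤ d' x y + d' y z)
    (symm : ∀ x y, d' x y = d' y x)
    (geo : ∀ x y t, t ≤ d' x y → ∃ m, d' x m = t ∧ t + d' m y = d' x y)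
    (conn : ∀ x y, ∃ (k : ℕ) (c : ℕ → X), c 0 = x ∧ c k = y ∧ (∀ i, i ≤ k → I x y (c i)) ∧
      ∀ i, i < k → d' (c i) (c (i + 1)) ≤ 1)
    (hB : ∀ x y m σ, IsGeod d' σ (d' x y) x y → I x y m → ∃ t, t ≤ d' x y ∧ d' m (σ t) ≤ 10)
    (x y u : X) (hu : d' x u + d' u y = d' x y) : ∃ m, I x y m ∧ d' u m ≤ 20 := by
  classical
  obtain ⟨σ1, h1⟩ := geod_of self eq_of symm tri geo x u
  obtain ⟨σ2, h2⟩ := geod_of self eq_of symm tri geo u y
  let σ : ℕ → X := fun i => if i ≤ d' x u then σ1 i else σ2 (i - d' x u)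
  have hσl : ∀ i, i ≤ d' x u → σ i = σ1 i := fun i hi => if_pos hi
  have hσr : ∀ i, d' x u ≤ i → σ i = σ2 (i - d' x u) := by
    intro i hi
    rcases Nat.eq_or_lt_of_le hi with h | h
    · rw [hσl i (by omega), ← h, Nat.sub_self, h1.2.1, h2.1]
    · exact if_neg (by omega)
  have hσ : IsGeod d' σ (d' x y) x y := by
    refine ⟨?_, ?_, ?_⟩
    · rw [hσl 0 (Nat.zero_le _), h1.1]
    · rw [hσr _ (by omega)]
      have : d' x y - d' x u = d' u y := by omega
      rw [this, h2.2.1]
    · intro i j hij hj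
      rcases le_total j (d' x u) with a | a
      · rw [hσl i (by omega), hσl j a, h1.2.2 i j hij a]
      · rcases le_total i (d' x u) with b | b
        · rw [hσl i b, hσr j a]
          have e1 := h1.2.2 i _ b le_rfl
          have e2 := h2.2.2 0 (j - d' x u) (Nat.zero_le _) (by omega)
          have e3 := h1.2.2 0 i (Nat.zero_le _) b
          have e4 := h2.2.2 (j - d' x u) (d' u y) (by omega) le_rfl
          rw [h1.2.1] at e1
          rw [h2.1] at e2
          rw [h1.1] at e3
          rw [h2.2.1] at e4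
          have t1 := tri (σ1 i) u (σ2 (j - d' x u))
          have t2 := tri x (σ1 i) y
          have t3 := tri (σ1 i) (σ2 (j - d' x u)) y
          omega
        · rw [hσr i b, hσr j a, h2.2.2 _ _ (by omega) (by omega)]
          omega
  have hσu : σ (d' x u) = u := by rw [hσl _ le_rfl, h1.2.1]
  obtain ⟨k, c, hc0, hck, hcI, hc1⟩ := conn x y
  -- first index with a near point after `u`
  by_cases hall : ∀ i, i ≤ k → ∃ s, s ≤ d' x u ∧ d' (c i) (σ s) ≤ 10
  · obtain ⟨s, hs, hs'⟩ := hall k le_rfl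
    refine ⟨y, ?_, ?_⟩
    · rw [← hck]
      have := hcI k le_rfl
      rwa [hck] at this ⊢
    · rw [hck] at hs'
      have e := hσ.2.2 s (d' x y) (by omega) le_rfl
      rw [hσ.2.1] at e
      have s1 := symm y (σ s)
      omega
  · push Not at hall
    have hex : ∃ i, i ≤ k ∧ ∀ s, s ≤ d' x u → 10 < d' (c i) (σ s) := hall
    have hfs := Nat.find_spec hex
    have hmin := fun m => Nat.find_min hex (m := m)
    generalize Nat.find hex = i at hfs hmin
    have hi0 : i ≠ 0 := by
      rintro rfl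
      have := hfs.2 0 (Nat.zero_le _)
      rw [hc0, hσ.1, self] at this
      omega
    obtain ⟨i, rfl⟩ : ∃ i', i = i' + 1 := ⟨i - 1, by omega⟩
    have hprev := hmin i (by omega)
    push Not at hprev
    obtain ⟨s, hs, hs'⟩ := hprev (by omega)
    obtain ⟨s2, hs2, hs2'⟩ := hB x y (c (i + 1)) σ hσ (hcI _ hfs.1)
    have hlt : d' x u < s2 := by
      by_contra hcon
      have := hfs.2 s2 (by omega)
      omega
    have cc := hc1 i (by omega)
    have t1 := tri (σ s) (c i) (σ s2)
    have t2 := tri (c i) (c (i + 1)) (σ s2)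
    have e := hσ.2.2 s s2 (by omega) hs2
    have s1 := symm (σ s) (c i)
    have e1 := hσ.2.2 s (d' x u) hs (by omega)
    have e2 := hσ.2.2 (d' x u) s2 (by omega) hs2
    rw [hσu] at e1 e2
    rcases Nat.lt_or_ge (d' x u - s) 11 with h3 | h3
    · refine ⟨c i, hcI i (by omega), ?_⟩
      have t3 := tri u (σ s) (c i)
      have s3 := symm u (σ s)
      omega
    · refine ⟨c (i + 1), hcI _ hfs.1, ?_⟩
      have t3 := tri u (σ s2) (c (i + 1))
      have s3 := symm (σ s2) (c (i + 1))
      omega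

/-- (D) from slim triangles to the four point condition -/
theorem guessD (self : ∀ x, d' x x = 0) (eq_of : ∀ x y, d' x y = 0 → x = y)
    (symm : ∀ x y, d' x y = d' y x) (tri : ∀ x y z, d' x z ≤ d' x y + d' y z)
    (geo : ∀ x y t, t ≤ d' x y → ∃ m, d' x m = t ∧ t + d' m y = d' x y)
    (slim : ∀ x z y u, d' x u + d' u z = d' x z → ∃ v, (d' x v + d' v y = d' x y ∨
      d' y v + d' v z = d' y z) ∧ d' u v ≤ 31) (x y z w : X) :
    d' x z + d' y w ≤ d' x y + d' z w + 200 ∨
      d' x z + d' y w ≤ d' x w + d' y z + 200 := by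
  obtain ⟨σ, hσ⟩ := geod_of self eq_of symm tri geo x z
  have pos : ∀ i, i ≤ d' x z → d' x (σ i) = i ∧ d' (σ i) z = d' x z - i := by
    intro i hi
    have e1 := hσ.2.2 0 i (Nat.zero_le _) hi
    have e2 := hσ.2.2 i _ hi le_rfl
    rw [hσ.1] at e1
    rw [hσ.2.1] at e2
    exact ⟨by omega, e2⟩
  have key : ∀ y, ∃ a, a ≤ d' x z ∧ d' x (σ a) + d' (σ a) y ≤ d' x y + 64 ∧
      d' y (σ a) + d' (σ a) z ≤ d' y z + 64 := by
    intro y
    classical
    by_cases hall : ∀ i, i ≤ d' x z → ∃ v, d' x v + d' v y = d' x y ∧ d' (σ i) v ≤ 31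
    · refine ⟨d' x z, le_rfl, ?_, ?_⟩
      · obtain ⟨v, hv, hv'⟩ := hall _ le_rfl
        have t1 := tri x v (σ (d' x z))
        have t2 := tri (σ (d' x z)) v y
        have s1 := symm v (σ (d' x z))
        omega
      · rw [hσ.2.1, self]
        omega
    · push Not at hall
      have hex : ∃ i, i ≤ d' x z ∧ ∀ v, d' x v + d' v y = d' x y → 31 < d' (σ i) v := hall
      have hfs := Nat.find_spec hex
      have hmin := fun m => Nat.find_min hex (m := m)
      generalize Nat.find hex = i at hfs hmin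
      have hi0 : i ≠ 0 := by
        rintro rfl
        have := hfs.2 x (by rw [self]; omega)
        rw [hσ.1, self] at this
        omega
      obtain ⟨i, rfl⟩ : ∃ i', i = i' + 1 := ⟨i - 1, by omega⟩
      have hprev := hmin i (by omega)
      push Not at hprev
      obtain ⟨v, hv, hv'⟩ := hprev (by omega)
      have p1 := pos (i + 1) hfs.1
      obtain ⟨v2, hv2, hv2'⟩ := slim x z y (σ (i + 1)) (by omega)
      have hv3 : d' y v2 + d' v2 z = d' y z := by
        rcases hv2 with h | h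
        · have := hfs.2 v2 h
          omega
        · exact h
      refine ⟨i, by omega, ?_, ?_⟩
      · have t1 := tri x v (σ i)
        have t2 := tri (σ i) v y
        have s1 := symm v (σ i)
        omega
      · have e := hσ.2.2 i (i + 1) (by omega) hfs.1
        have t0 := tri (σ i) (σ (i + 1)) v2
        have t1 := tri y v2 (σ i)
        have t2 := tri (σ i) v2 z
        have s1 := symm v2 (σ i)
        omega
  obtain ⟨a, ha, ha1, ha2⟩ := key y
  obtain ⟨b, hb, hb1, hb2⟩ := key w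
  have pa := pos a ha
  have pb := pos b hb
  have s1 := symm y (σ a)
  have s2 := symm w (σ b)
  have s3 := symm z w
  have t1 := tri y (σ a) w
  have t2 := tri (σ a) (σ b) w
  have t2' := tri (σ a) (σ b) w
  have s4 := symm (σ a) (σ b)
  rcases le_total a b with h | h
  · have e := hσ.2.2 a b h hb
    omega
  · have e := hσ.2.2 b a h ha
    omega

end

theorem exists_geod {X : Type*} {δ : ℕ} (H : GH X δ) (x y : X) : ∃ σ, IsGeod H.d σ (H.d x y) x y :=
  geod_of H.self H.eq_of H.symm H.tri H.geo x y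

theorem guess {X : Type*} (d' : X → X → ℕ)
    (self : ∀ x, d' x x = 0) (eq_of : ∀ x y, d' x y = 0 → x = y)
    (symm : ∀ x y, d' x y = d' y x) (tri : ∀ x y z, d' x z ≤ d' x y + d' y z)
    (geo : ∀ x y t, t ≤ d' x y → ∃ m, d' x m = t ∧ t + d' m y = d' x y)
    (I : X → X → X → Prop)
    (hl : ∀ x y, I x y x) (hr : ∀ x y, I x y y) (hs : ∀ x y m, I x y m → I y x m)
    (one : ∀ x y m, d' x y ≤ 1 → I x y m → d' x m ≤ 2)
    (slim : ∀ x y z m, I x y m → ∃ m', (I x z m' ∨ I z y m') ∧ d' m m' ≤ 1)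
    (conn : ∀ x y, ∃ (k : ℕ) (c : ℕ → X), c 0 = x ∧ c k = y ∧ (∀ i, i ≤ k → I x y (c i)) ∧
      ∀ i, i < k → d' (c i) (c (i + 1)) ≤ 1) :
    (∀ x y m σ, IsGeod d' σ (d' x y) x y → I x y m → ∃ t, t ≤ d' x y ∧ d' m (σ t) ≤ 10) ∧
    (∀ x y u, d' x u + d' u y = d' x y → ∃ m, I x y m ∧ d' u m ≤ 20) ∧
    (∀ x y z w, d' x z + d' y w ≤ d' x y + d' z w + 200 ∨
      d' x z + d' y w ≤ d' x w + d' y z + 200) := by
  have hB : ∀ x y m σ, IsGeod d' σ (d' x y) x y → I x y m → ∃ t, t ≤ d' x y ∧ d' m (σ t) ≤ 10 :=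
    fun x y m σ hσ hm => guessB I tri symm self one slim (d' x y) x y m σ hσ le_rfl hm
  have hC : ∀ x y u, d' x u + d' u y = d' x y → ∃ m, I x y m ∧ d' u m ≤ 20 :=
    guessC I self eq_of tri symm geo conn hB
  refine ⟨hB, hC, ?_⟩
  apply guessD self eq_of symm tri geo
  intro x z y u hu
  obtain ⟨m, hm, hm'⟩ := hC x z u hu
  obtain ⟨m', h1, h2⟩ := slim x z y m hm
  have t1 := tri u m m'
  rcases h1 with h1 | h1
  · obtain ⟨σ, hσ⟩ := geod_of self eq_of symm tri geo x y
    obtain ⟨i, hi, hi'⟩ := hB x y m' σ hσ h1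
    refine ⟨σ i, Or.inl ?_, ?_⟩
    · have e1 := hσ.2.2 0 i (Nat.zero_le _) hi
      have e2 := hσ.2.2 i _ hi le_rfl
      rw [hσ.1] at e1
      rw [hσ.2.1] at e2
      omega
    · have t2 := tri u m' (σ i)
      omega
  · obtain ⟨σ, hσ⟩ := geod_of self eq_of symm tri geo y z
    obtain ⟨i, hi, hi'⟩ := hB y z m' σ hσ h1
    refine ⟨σ i, Or.inr ?_, ?_⟩
    · have e1 := hσ.2.2 0 i (Nat.zero_le _) hi
      have e2 := hσ.2.2 i _ hi le_rfl
      rw [hσ.1] at e1
      rw [hσ.2.1] at e2
      omega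
    · have t2 := tri u m' (σ i)
      omega

end Run7.h253
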