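import Pool.Agent.Run7.h253.HomA

/-!
# Piece `homB`: torsion-freeness and vanishing for permutation modules

(`k` is `ℤ` in the application; written `ℤ` below; a general `k` avoids instance diamonds.)

`G` a group; `P ≤ Z(G)`.  `rm P g` = right multiplication by `g` on `ℤ[G/P]`; `Hm_rm`: it is the identity on homology,
from `Hm_twT` with `h (x P) = x g x⁻¹`.

* `exists_supp`: a homology class depends on finitely many elements of `A`.
* `colim_surj`, `colim_inj`: homology commutes with directed colimits (chain level, finite supports).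
* `tf_step`: `0 → ℤ[G/P] →(rm a - 1) ℤ[G/P] → ℤ[G/P'] → 0`, `P' = ⟨a⟩ P`, and (R).
* `tf_PS`: finite `S` by `tf_step`, arbitrary `S` by `colim_*`.
* `aug_step`: map `0 → ℤ[G/P] →(rm c - 1) ℤ[G/P] → ℤ[G/P'] → 0` to `0 → I_P → ℤ[G/P] → ℤ → 0` (left map: `u ↦ u (c - 1)`,
  middle: identity, right: augmentation); naturality of `dl`.  The set of `c ∈ G` such that `u ↦ u (c - 1)`, `ℤ[G/P] → I_P`,
  is zero on homology is a subgroup containing all commutators:
  `ab a⁻¹ b⁻¹ - 1 = (a-1) ((b-1) a⁻¹ b⁻¹) - (b-1) ((a-1) a⁻¹ b⁻¹)`, and `rm a - 1` is zero on homology.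
* `tf_of_orbits`, `zero_of_orbits`: `x = Σ_orbits (e_i)_* x` (finite sum, by `exists_supp`).
-/

set_option autoImplicit false

namespace Run7.h253

open CategoryTheory

variable {k : Type} [CommRing k] {G : Type} [Group G]

/-- torsion-free homology -/
def TF (A : Rep.{0} k G) (j : ℕ) : Prop :=
  ∀ (m : ℤ) (x : groupHomology A j), m ≠ 0 → m • x = 0 → x = 0

/-- map of permutation modules -/
noncomputable def prMap {Y Z : Type} [MulAction G Y] [MulAction G Z] (f : Y → Z)
    (hf : ∀ (g : G) (y : Y), f (g • y) = g • f y) : pr k G Y ⟶ pr k G Z :=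
  twLift (fun y => (Finsupp.lsingle (f y) : k →ₗ[k] (Z →₀ k))) (by
    intro g y a
    show (te (f (g • y)) a : pr k G Z) = (pr k G Z).ρ g (te (f y) a)
    rw [tw_rho_te, hf]
    rfl)

theorem prMap_te {Y Z : Type} [MulAction G Y] [MulAction G Z] (f : Y → Z)
    (hf : ∀ (g : G) (y : Y), f (g • y) = g • f y) (y : Y) (a : k) :
    (prMap f hf : pr k G Y ⟶ pr k G Z).hom (te y a) = te (f y) a := by
  unfold prMap
  exact twLift_te (A := Rep.trivial k G k) _ _ y a

/-- `G`-map from `ℤ[Y]` to a `G`-module -/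
noncomputable def prHom {Y : Type} [MulAction G Y] {B : Rep.{0} k G} (b : Y → B)
    (hb : ∀ (g : G) (y : Y), b (g • y) = B.ρ g (b y)) : pr k G Y ⟶ B :=
  twLift (fun y => (LinearMap.toSpanSingleton k B (b y) : k →ₗ[k] B)) (by
    intro g y a
    show (a : k) • b (g • y) = B.ρ g ((a : k) • b y)
    rw [hb, map_smul])

theorem prHom_te' {Y : Type} [MulAction G Y] {B : Rep.{0} k G} (b : Y → B)
    (hb : ∀ (g : G) (y : Y), b (g • y) = B.ρ g (b y)) (y : Y) (a : k) :
    (prHom b hb).hom (te y a) = a • b y := by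
  unfold prHom
  exact twLift_te (A := Rep.trivial k G k) _ _ y a

theorem prHom_te {Y : Type} [MulAction G Y] {B : Rep.{0} k G} (b : Y → B)
    (hb : ∀ (g : G) (y : Y), b (g • y) = B.ρ g (b y)) (y : Y) :
    (prHom b hb).hom (te y (1 : k)) = b y := by
  rw [prHom_te', one_smul]

theorem te_eq_smul {Y : Type} [MulAction G Y] (y : Y) (a : k) :
    (te y a : pr k G Y) = a • te y (1 : k) := by
  have := te_smul (A := Rep.trivial k G k) y a (1 : k)
  rw [← this]
  congr 1
  simp

@[elab_as_elim]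
theorem pr_induction {Y : Type} [MulAction G Y] {p : pr k G Y → Prop} (x : pr k G Y)
    (h0 : p 0) (hadd : ∀ x y, p x → p y → p (x + y)) (hsmul : ∀ (a : k) x, p x → p (a • x))
    (hte : ∀ y, p (te y (1 : k))) : p x := by
  induction x using tw_induction with
  | h0 => exact h0
  | hadd x y hx hy => exact hadd x y hx hy
  | hte y a => rw [te_eq_smul]; exact hsmul _ _ (hte y)

theorem pr_ext {Y : Type} [MulAction G Y] {B : Rep.{0} k G} {f g : pr k G Y ⟶ B}
    (h : ∀ y, f.hom (te y (1 : k)) = g.hom (te y (1 : k))) : f = g := by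
  apply tw_ext
  intro y a
  rw [te_eq_smul, map_smul, map_smul, h]

theorem chainsMap_apply {A B : Rep.{0} k G} (f : A ⟶ B) (j : ℕ) (z : (Fin j → G) →₀ A) :
    ((groupHomology.chainsMap (MonoidHom.id G) f).f j).hom z =
      Finsupp.mapRange.linearMap f.hom.toLinearMap z := by
  rw [groupHomology.chainsMap_id_f_hom_eq_mapRange]

/-- cycle inclusion as a plain map -/
noncomputable def ic {A : Rep.{0} k G} {j : ℕ} (c : groupHomology.cycles A j) : (Fin j → G) →₀ A :=
  (groupHomology.iCycles A j).hom c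

theorem ic_inj {A : Rep.{0} k G} {j : ℕ} {c c' : groupHomology.cycles A j} (h : ic c = ic c') : c = c' :=
  (ModuleCat.mono_iff_injective (groupHomology.iCycles A j)).1 inferInstance h

theorem Hm_pi {A B : Rep.{0} k G} (f : A ⟶ B) {j : ℕ} (c : groupHomology.cycles A j) :
    ∃ c' : groupHomology.cycles B j, ic c' = Finsupp.mapRange.linearMap f.hom.toLinearMap (ic c) ∧
      Hm f j ((groupHomology.π A j).hom c) = (groupHomology.π B j).hom c' := by
  refine ⟨(groupHomology.cyclesMap (MonoidHom.id G) f j).hom c, ?_, ?_⟩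
  · have h := HomologicalComplex.cyclesMap_i (groupHomology.chainsMap (MonoidHom.id G) f) j
    have h2 := congrArg (fun t => ModuleCat.Hom.hom t c) h
    exact h2.trans (chainsMap_apply f j _)
  · have h := groupHomology.π_map (MonoidHom.id G) f j
    exact congrArg (fun t => ModuleCat.Hom.hom t c) h

theorem exists_supp {A : Rep.{0} k G} {j : ℕ} (x : groupHomology A j) : ∃ Z : Finset A,
    ∀ (B : Rep.{0} k G) (e e' : A ⟶ B), (∀ z ∈ Z, e.hom z = e'.hom z) → Hm e j x = Hm e' j x := by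
  classical
  induction x using groupHomology_induction_on with
  | h c =>
    refine ⟨(ic c).support.image (ic c), ?_⟩
    intro B e e' h
    obtain ⟨c1, h1, h1'⟩ := Hm_pi e c
    obtain ⟨c2, h2, h2'⟩ := Hm_pi e' c
    rw [h1', h2']
    congr 1
    apply ic_inj
    rw [h1, h2]
    ext1 i
    show e.hom (ic c i) = e'.hom (ic c i)
    by_cases hi : i ∈ (ic c).support
    · exact h _ (Finset.mem_image_of_mem _ hi)
    · rw [Finsupp.notMem_support_iff.1 hi, map_zero, map_zero]

/-- a cycle with a bounding chain has trivial class -/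
theorem pi_eq_zero {A : Rep.{0} k G} {j : ℕ} (c : groupHomology.cycles A j)
    (z : (Fin (j + 1) → G) →₀ A)
    (h : (groupHomology.inhomogeneousChains.d A j).hom z = ic c) : (groupHomology.π A j).hom c = 0 := by
  refine pi_zero (groupHomology.inhomogeneousChains A) j c z ?_
  rw [groupHomology.inhomogeneousChains.d_def]
  exact h

theorem exists_bound_aux (K : ChainComplex (ModuleCat.{0} k) ℕ) (j : ℕ) (x : K.cycles j)
    (h : (K.homologyπ j).hom x = 0) : ∃ y : K.X (j + 1), (K.d (j + 1) j).hom y = (K.iCycles j).hom x := by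
  have h1 : (ShortComplex.mk (K.toCycles (j + 1) j) (K.homologyπ j)
      (K.toCycles_comp_homologyπ (j + 1) j)).Exact :=
    ShortComplex.exact_of_g_is_cokernel _ (K.homologyIsCokernel (j + 1) j (by simp))
  rw [ShortComplex.moduleCat_exact_iff] at h1
  obtain ⟨y, hy⟩ := h1 x h
  refine ⟨y, ?_⟩
  have h2 := congrArg (fun t => ModuleCat.Hom.hom t y) (K.toCycles_i (j + 1) j)
  have h3 : (K.toCycles (j + 1) j).hom y = x := hy
  rw [← h3]
  exact h2.symm

theorem exists_bound {A : Rep.{0} k G} {j : ℕ} (c : groupHomology.cycles A j)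
    (h : (groupHomology.π A j).hom c = 0) : ∃ z : (Fin (j + 1) → G) →₀ A,
      (groupHomology.inhomogeneousChains.d A j).hom z = ic c := by
  obtain ⟨y, hy⟩ := exists_bound_aux (groupHomology.inhomogeneousChains A) j c h
  rw [groupHomology.inhomogeneousChains.d_def] at hy
  exact ⟨y, hy⟩

theorem d_ic {A : Rep.{0} k G} {j : ℕ} (c : groupHomology.cycles A (j + 1)) :
    (groupHomology.inhomogeneousChains.d A j).hom (ic c) = 0 := by
  have := (groupHomology.inhomogeneousChains A).iCycles_d (j + 1) j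
  rw [groupHomology.inhomogeneousChains.d_def] at this
  exact congrArg (fun t => ModuleCat.Hom.hom t c) this

theorem exists_cycle {A : Rep.{0} k G} {j : ℕ} (z : (Fin (j + 1) → G) →₀ A)
    (hz : (groupHomology.inhomogeneousChains.d A j).hom z = 0) :
    ∃ c : groupHomology.cycles A (j + 1), ic c = z := by
  have h : ((groupHomology.inhomogeneousChains A).d (j + 1) j).hom z = 0 := by
    rw [groupHomology.inhomogeneousChains.d_def]
    exact hz
  exact ⟨groupHomology.cyclesMk (j + 1) j (by simp) z h, groupHomology.iCycles_mk (by simp) z h⟩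

theorem exists_cycle0 {A : Rep.{0} k G} (z : (Fin 0 → G) →₀ A) :
    ∃ c : groupHomology.cycles A 0, ic c = z := by
  have h : ((groupHomology.inhomogeneousChains A).d 0 0).hom z = 0 := by
    rw [(groupHomology.inhomogeneousChains A).shape 0 0 (by simp)]
    rfl
  exact ⟨groupHomology.cyclesMk 0 0 (by simp) z h, groupHomology.iCycles_mk (by simp) z h⟩

theorem d_mapRange {A B : Rep.{0} k G} (f : A ⟶ B) (j : ℕ) (z : (Fin (j + 1) → G) →₀ A) :
    (groupHomology.inhomogeneousChains.d B j).hom (Finsupp.mapRange.linearMap f.hom.toLinearMap z) =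
      Finsupp.mapRange.linearMap f.hom.toLinearMap ((groupHomology.inhomogeneousChains.d A j).hom z) := by
  have h := (groupHomology.chainsMap (MonoidHom.id G) f).comm (j + 1) j
  rw [groupHomology.inhomogeneousChains.d_def, groupHomology.inhomogeneousChains.d_def] at h
  have h2 := congrArg (fun t => ModuleCat.Hom.hom t z) h
  have h3 := chainsMap_apply f (j + 1) z
  have h4 := chainsMap_apply f j ((groupHomology.inhomogeneousChains.d A j).hom z)
  rw [← h3, ← h4]
  exact h2


theorem mapRange_comp_apply {A B C : Rep.{0} k G} (f : A ⟶ B) (g : B ⟶ C) {α : Type} (z : α →₀ A) :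
    Finsupp.mapRange.linearMap g.hom.toLinearMap (Finsupp.mapRange.linearMap f.hom.toLinearMap z) =
      Finsupp.mapRange.linearMap (f ≫ g).hom.toLinearMap z := by
  ext a
  rfl

section colim

variable {I : Type} [Preorder I] [IsDirectedOrder I] [Nonempty I] {A : I → Rep.{0} k G}
    {B : Rep.{0} k G} (t : ∀ i i', i ≤ i' → (A i ⟶ A i')) (f : ∀ i, A i ⟶ B)
    (hf : ∀ i i' (h : i ≤ i'), t i i' h ≫ f i' = f i)
    (htt : ∀ i i' i'' (h : i ≤ i') (h' : i' ≤ i''), t i i' h ≫ t i' i'' h' = t i i'' (h.trans h'))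
    (c1 : ∀ b : B, ∃ i, ∃ a : A i, (f i).hom a = b)
    (c2 : ∀ i (a : A i), (f i).hom a = 0 → ∃ i', ∃ h : i ≤ i', (t i i' h).hom a = 0)

include hf c1 in
theorem lift_fin {α : Type} (z : α →₀ B) : ∃ i, ∃ w : α →₀ A i,
    Finsupp.mapRange.linearMap (f i).hom.toLinearMap w = z := by
  classical
  induction z using Finsupp.induction_linear with
  | zero => exact ⟨Classical.arbitrary I, 0, map_zero _⟩
  | add z1 z2 h1 h2 =>
    obtain ⟨i1, w1, h1⟩ := h1
    obtain ⟨i2, w2, h2⟩ := h2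
    obtain ⟨i, l1, l2⟩ := exists_ge_ge i1 i2
    refine ⟨i, Finsupp.mapRange.linearMap (t i1 i l1).hom.toLinearMap w1 +
      Finsupp.mapRange.linearMap (t i2 i l2).hom.toLinearMap w2, ?_⟩
    rw [map_add, mapRange_comp_apply, mapRange_comp_apply, hf, hf, h1, h2]
  | single x b =>
    obtain ⟨i, a, ha⟩ := c1 b
    refine ⟨i, Finsupp.single x a, ?_⟩
    rw [Finsupp.mapRange.linearMap_apply, Finsupp.mapRange_single]
    exact congrArg _ ha

omit [Nonempty I] in
include htt c2 in
theorem kill_fin {i : I} (S : Finset (A i)) (hS : ∀ s ∈ S, (f i).hom s = 0) :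
    ∃ i', ∃ h : i ≤ i', ∀ s ∈ S, (t i i' h).hom s = 0 := by
  classical
  induction S using Finset.induction_on with
  | empty => exact ⟨i, le_refl i, by simp⟩
  | insert s S hs ih =>
    obtain ⟨i1, l1, h1⟩ := ih fun s' hs' => hS s' (Finset.mem_insert_of_mem hs')
    obtain ⟨i2, l2, h2⟩ := c2 i s (hS s (Finset.mem_insert_self _ _))
    obtain ⟨i3, l3, l4⟩ := exists_ge_ge i1 i2
    refine ⟨i3, l1.trans l3, ?_⟩
    intro s' hs'
    rcases Finset.mem_insert.1 hs' with rfl | hs'
    · have : t i i3 (l1.trans l3) = t i i2 l2 ≫ t i2 i3 l4 := (htt _ _ _ _ _).symm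
      rw [this]
      show (t i2 i3 l4).hom ((t i i2 l2).hom s') = 0
      rw [h2, map_zero]
    · rw [← htt i i1 i3 l1 l3]
      show (t i1 i3 l3).hom ((t i i1 l1).hom s') = 0
      rw [h1 s' hs', map_zero]

omit [Nonempty I] in
include htt c2 in
theorem kill_finsupp {α : Type} {i : I} (w : α →₀ A i)
    (hw : Finsupp.mapRange.linearMap (f i).hom.toLinearMap w = 0) :
    ∃ i', ∃ h : i ≤ i', Finsupp.mapRange.linearMap (t i i' h).hom.toLinearMap w = 0 := by
  classical
  obtain ⟨i', h, h'⟩ := kill_fin t f htt c2 (w.support.image w) (by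
    intro s hs
    obtain ⟨a, -, rfl⟩ := Finset.mem_image.1 hs
    exact DFunLike.congr_fun hw a)
  refine ⟨i', h, ?_⟩
  ext1 a
  show (t i i' h).hom (w a) = 0
  by_cases ha : a ∈ w.support
  · exact h' _ (Finset.mem_image_of_mem _ ha)
  · rw [Finsupp.notMem_support_iff.1 ha, map_zero]

include hf htt c1 c2 in
theorem colim_surj {j : ℕ}
    (x : groupHomology B j) : ∃ i, ∃ y : groupHomology (A i) j, Hm (f i) j y = x := by
  induction x using groupHomology_induction_on with
  | h c =>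
    obtain ⟨i, w, hw⟩ := lift_fin t f hf c1 (ic c)
    have key : ∃ i', ∃ c' : groupHomology.cycles (A i') j,
        Finsupp.mapRange.linearMap (f i').hom.toLinearMap (ic c') = ic c := by
      cases j with
      | zero =>
        obtain ⟨c', hc'⟩ := exists_cycle0 w
        exact ⟨i, c', by rw [hc', hw]⟩
      | succ j =>
        have h1 : Finsupp.mapRange.linearMap (f i).hom.toLinearMap
            ((groupHomology.inhomogeneousChains.d (A i) j).hom w) = 0 := by
          rw [← d_mapRange, hw, d_ic]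
        obtain ⟨i', h, h2⟩ := kill_finsupp t f htt c2 _ h1
        rw [← d_mapRange] at h2
        obtain ⟨c', hc'⟩ := exists_cycle _ h2
        refine ⟨i', c', ?_⟩
        rw [hc', mapRange_comp_apply, hf, hw]
    obtain ⟨i', c', hc'⟩ := key
    refine ⟨i', (groupHomology.π (A i') j).hom c', ?_⟩
    obtain ⟨c'', h1, h2⟩ := Hm_pi (f i') c'
    rw [h2]
    congr 1
    apply ic_inj
    rw [h1, hc']

include hf htt c1 c2 in
theorem colim_inj {j : ℕ}
    {i : I} (y : groupHomology (A i) j) (hy : Hm (f i) j y = 0) :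
    ∃ i', ∃ h : i ≤ i', Hm (t i i' h) j y = 0 := by
  induction y using groupHomology_induction_on with
  | h c =>
    obtain ⟨c1', h1, h2⟩ := Hm_pi (f i) c
    have h3 : (groupHomology.π B j).hom c1' = 0 := by rw [← h2]; exact hy
    obtain ⟨z, hz⟩ := exists_bound c1' h3
    obtain ⟨i1, w, hw⟩ := lift_fin t f hf c1 z
    obtain ⟨i2, l, l1⟩ := exists_ge_ge i i1
    have h4 : Finsupp.mapRange.linearMap (f i2).hom.toLinearMap
        ((groupHomology.inhomogeneousChains.d (A i2) j).hom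
          (Finsupp.mapRange.linearMap (t i1 i2 l1).hom.toLinearMap w) -
          Finsupp.mapRange.linearMap (t i i2 l).hom.toLinearMap (ic c)) = 0 := by
      rw [map_sub, ← d_mapRange, mapRange_comp_apply, mapRange_comp_apply, hf, hf, hw, hz, h1, sub_self]
    obtain ⟨i3, l3, h5⟩ := kill_finsupp t f htt c2 _ h4
    rw [map_sub, ← d_mapRange, mapRange_comp_apply, mapRange_comp_apply, htt, htt, sub_eq_zero] at h5
    refine ⟨i3, l.trans l3, ?_⟩
    obtain ⟨c2', h6, h7⟩ := Hm_pi (t i i3 (l.trans l3)) c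
    have h8 : Hm (t i i3 (l.trans l3)) j ((groupHomology.π (A i) j).hom c) = 0 := by
      rw [h7]
      refine pi_eq_zero c2' _ (h5.trans h6.symm)
    exact h8

end colim

/-- linear (not equivariant) map of permutation modules -/
noncomputable def plin (k G : Type) [CommRing k] [Group G] {Y Z : Type} [MulAction G Y] [MulAction G Z]
    (s : Z → Y) : pr k G Z →ₗ[k] pr k G Y :=
  (Finsupp.lmapDomain k k s : (Z →₀ k) →ₗ[k] (Y →₀ k))

theorem plin_te {Y Z : Type} [MulAction G Y] [MulAction G Z]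
    (s : Z → Y) (z : Z) (a : k) : plin k G s (te z a) = te (s z) a :=
  Finsupp.mapDomain_single (M := k) (f := s) (a := z) (b := a)

/-- the kernel of a map of permutation modules is spanned by differences -/
theorem prMap_ker {Y Z : Type} [MulAction G Y] [MulAction G Z] (q : Y → Z)
    (hq : ∀ (g : G) (y : Y), q (g • y) = g • q y) (hs : Function.Surjective q)
    (K : pr k G Y → Prop) (K0 : K 0) (Ka : ∀ u v, K u → K v → K (u + v)) (Ks : ∀ (a : k) u, K u → K (a • u))
    (hK : ∀ y y', q y = q y' → K (te y (1 : k) - te y' (1 : k)))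
    (u : pr k G Y) (hu : (prMap q hq).hom u = 0) : K u := by
  have key : ∀ u : pr k G Y, K (u - plin k G (Function.surjInv hs)
      ((prMap (k := k) q hq).hom u)) := by
    intro u
    induction u using pr_induction with
    | h0 =>
      rw [map_zero, map_zero, sub_zero]
      exact K0
    | hadd x y hx hy =>
      have := Ka _ _ hx hy
      rw [map_add, map_add, add_sub_add_comm]
      exact this
    | hsmul a x hx =>
      have := Ks a _ hx
      rw [map_smul, map_smul, ← smul_sub]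
      exact this
    | hte y =>
      rw [prMap_te, plin_te]
      exact hK _ _ (Function.surjInv_eq hs (q y)).symm
  have h1 := key u
  rwa [hu, map_zero, sub_zero] at h1

/-- right multiplication -/
noncomputable def rm (P : Subgroup G) [P.Normal] (g : G) : pr k G (G ⧸ P) ⟶ pr k G (G ⧸ P) :=
  prMap (fun y => y * (g : G ⧸ P)) (by
    intro x y
    induction y using QuotientGroup.induction_on with
    | H y =>
      show ((x * y : G) : G ⧸ P) * (g : G ⧸ P) = ((x * (y * g) : G) : G ⧸ P)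
      rw [← QuotientGroup.mk_mul, mul_assoc])

theorem rm_te (P : Subgroup G) [P.Normal] (g : G) (y : G ⧸ P) (a : k) :
    (rm P g : pr k G (G ⧸ P) ⟶ pr k G (G ⧸ P)).hom (te y a) = te (y * (g : G ⧸ P)) a :=
  prMap_te _ _ y a

theorem Hm_rm (P : Subgroup G) [P.Normal] (hP : P ≤ Subgroup.center G) (g : G) (j : ℕ)
    (x : groupHomology (pr k G (G ⧸ P)) j) : Hm (rm P g) j x = x := by
  have hw : ∀ a b : G, (QuotientGroup.leftRel P) a b → a * g * a⁻¹ = b * g * b⁻¹ := by
    intro a b hab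
    rw [QuotientGroup.leftRel_apply] at hab
    have h2 : b = a * (a⁻¹ * b) := by group
    have h3 := Subgroup.mem_center_iff.1 (hP hab)
    generalize a⁻¹ * b = p at h2 h3
    subst h2
    rw [mul_inv_rev]
    have h4 : a * p * g * (p⁻¹ * a⁻¹) = a * (p * g) * (p⁻¹ * a⁻¹) := by group
    rw [h4, ← h3 g]
    group
  let h : G ⧸ P → G := Quotient.lift (fun a => a * g * a⁻¹) hw
  have hh : ∀ (k : G) (y : G ⧸ P), h (k • y) = k * h y * k⁻¹ := by
    intro k y
    induction y using QuotientGroup.induction_on with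
    | H y =>
      show (k * y) * g * (k * y)⁻¹ = k * (y * g * y⁻¹) * k⁻¹
      group
  have e : (rm P g : pr k G (G ⧸ P) ⟶ pr k G (G ⧸ P)) = twT h hh (Rep.trivial k G k) := by
    apply pr_ext
    intro y
    rw [rm_te, twT_te]
    show (te (y * (g : G ⧸ P)) (1 : k) : pr k G (G ⧸ P)) = te (h y • y) (1 : k)
    congr 1
    induction y using QuotientGroup.induction_on with
    | H y =>
      show ((y * g : G) : G ⧸ P) = ((y * g * y⁻¹ * y : G) : G ⧸ P)
      congr 1
      group
  rw [e]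
  exact Hm_twT h hh _ j x

/-- quotient map of permutation modules -/
noncomputable def qm (k : Type) [CommRing k] (P P' : Subgroup G) (h : P ≤ P') : pr k G (G ⧸ P) ⟶ pr k G (G ⧸ P') :=
  prMap (Subgroup.quotientMapOfLE h) (by
    intro x y
    induction y using QuotientGroup.induction_on with
    | H y => rfl)

theorem qm_te (P P' : Subgroup G) (h : P ≤ P') (y : G ⧸ P) (a : k) :
    (qm k P P' h).hom (te y a) = te (Subgroup.quotientMapOfLE h y) a := prMap_te _ _ y a

theorem qm_surj (P P' : Subgroup G) (h : P ≤ P') : Function.Surjective (qm k P P' h).hom := by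
  intro x
  induction x using pr_induction with
  | h0 => exact ⟨0, map_zero _⟩
  | hadd x y hx hy =>
    obtain ⟨a, rfl⟩ := hx
    obtain ⟨b, rfl⟩ := hy
    exact ⟨a + b, map_add _ _ _⟩
  | hsmul r x hx =>
    obtain ⟨a, rfl⟩ := hx
    exact ⟨r • a, map_smul _ _ _⟩
  | hte y =>
    induction y using QuotientGroup.induction_on with
    | H y => exact ⟨te (y : G ⧸ P) 1, qm_te _ _ _ _ _⟩

theorem quotientMapOfLE_surj (P P' : Subgroup G) (h : P ≤ P') :
    Function.Surjective (Subgroup.quotientMapOfLE h) := by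
  intro y
  induction y using QuotientGroup.induction_on with
  | H y => exact ⟨(y : G ⧸ P), rfl⟩

theorem rm_comp (P : Subgroup G) [P.Normal] (g h : G) :
    (rm P (g * h) : pr k G (G ⧸ P) ⟶ _) = rm P g ≫ rm P h := by
  apply pr_ext
  intro y
  show (rm P (g * h)).hom (te y (1 : k)) = (rm P h).hom ((rm P g).hom (te y (1 : k)))
  rw [rm_te, rm_te, rm_te, QuotientGroup.mk_mul, mul_assoc]

theorem Hm_rm_sub (P : Subgroup G) [P.Normal] (hP : P ≤ Subgroup.center G) (g : G) (j : ℕ)
    (x : groupHomology (pr k G (G ⧸ P)) j) : Hm (rm P g - 𝟙 _) j x = 0 := by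
  rw [Hm_sub, Hm_rm P hP, Hm_id, sub_self]

theorem rm_inj (P : Subgroup G) [P.Normal] (a : G) (ha : ∀ m : ℤ, a ^ m ∈ P → m = 0)
    (u : pr k G (G ⧸ P)) (hu : (rm P a).hom u = u) : u = 0 := by
  let w : (G ⧸ P) →₀ k := u
  have h1 : ∀ u : pr k G (G ⧸ P), (rm P a).hom u = plin k G (fun y : G ⧸ P => y * (a : G ⧸ P)) u := by
    intro u
    induction u using pr_induction with
    | h0 => rw [map_zero, map_zero]
    | hadd x y hx hy => rw [map_add, map_add, hx, hy]
    | hsmul r x hx => rw [map_smul, map_smul, hx]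
    | hte y => rw [rm_te, plin_te]
  have h2 : Finsupp.mapDomain (fun y : G ⧸ P => y * (a : G ⧸ P)) w = w := (h1 u).symm.trans hu
  have h3 : ∀ y : G ⧸ P, w (y * (a : G ⧸ P)) = w y := by
    intro y
    have h4 := Finsupp.mapDomain_apply (f := fun y : G ⧸ P => y * (a : G ⧸ P))
      (mul_left_injective _) w y
    rw [h2] at h4
    exact h4
  have h5 : ∀ (n : ℕ) (y : G ⧸ P), w (y * (a : G ⧸ P) ^ n) = w y := by
    intro n
    induction n with
    | zero => intro y; rw [pow_zero, mul_one]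
    | succ n ih => intro y; rw [pow_succ, ← mul_assoc, h3, ih]
  have h6 : w = 0 := by
    by_contra hw
    obtain ⟨y, hy⟩ := Finsupp.ne_iff.1 hw
    have h7 : Function.Injective (fun n : ℕ => y * (a : G ⧸ P) ^ n) := by
      intro n m hnm
      have h8 : (a : G ⧸ P) ^ n = (a : G ⧸ P) ^ m := mul_left_cancel hnm
      rw [← QuotientGroup.mk_pow, ← QuotientGroup.mk_pow, QuotientGroup.eq] at h8
      have h9 := ha (m - n) (by
        rw [zpow_sub, zpow_natCast, zpow_natCast]
        have : a ^ m * (a ^ n)⁻¹ = (a ^ n)⁻¹ * a ^ m := by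
          rw [← zpow_natCast, ← zpow_natCast, ← zpow_neg, ← zpow_add, ← zpow_add, add_comm]
        rw [this]
        exact h8)
      omega
    have h10 : Set.range (fun n : ℕ => y * (a : G ⧸ P) ^ n) ⊆ (w.support : Set (G ⧸ P)) := by
      rintro _ ⟨n, rfl⟩
      show _ ∈ w.support
      rw [Finsupp.mem_support_iff]
      show w (y * (a : G ⧸ P) ^ n) ≠ 0
      rw [h5]
      exact hy
    exact (Set.infinite_range_of_injective h7) (w.support.finite_toSet.subset h10)
  exact h6

theorem sub_id_hom {A : Rep.{0} k G} (f : A ⟶ A) (x : A) : (f - 𝟙 A).hom x = f.hom x - x := by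
  rw [Rep.sub_hom]
  rfl

theorem rm_ses (P P' : Subgroup G) [P.Normal] (a : G)
    (hP' : ∀ x, x ∈ P' ↔ ∃ m : ℤ, ∃ p ∈ P, x = a ^ m * p) (ha : ∀ m : ℤ, a ^ m ∈ P → m = 0)
    (h : P ≤ P') : SES (rm P a - 𝟙 _) (qm k P P' h) where
  inj := by
    rw [injective_iff_map_eq_zero]
    intro u hu
    rw [sub_id_hom, sub_eq_zero] at hu
    exact rm_inj P a ha u hu
  surj := qm_surj P P' h
  exact := by
    intro b
    constructor
    · intro hb
      refine prMap_ker (Subgroup.quotientMapOfLE h) _ (quotientMapOfLE_surj P P' h)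
        (fun b => ∃ a_1, (rm P a - 𝟙 (pr k G (G ⧸ P))).hom a_1 = b) ?_ ?_ ?_ ?_ b hb
      · exact ⟨0, map_zero _⟩
      · rintro _ _ ⟨u, rfl⟩ ⟨v, rfl⟩
        exact ⟨u + v, map_add _ _ _⟩
      · rintro r _ ⟨u, rfl⟩
        exact ⟨r • u, map_smul _ _ _⟩
      · -- differences
        have hn : ∀ (n : ℕ) (y : G ⧸ P), ∃ u, (rm P a - 𝟙 (pr k G (G ⧸ P))).hom u =
            te (y * (a : G ⧸ P) ^ n) (1 : k) - te y (1 : k) := by
          intro n y
          induction n with
          | zero => exact ⟨0, by rw [pow_zero, mul_one, sub_self, map_zero]⟩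
          | succ n ih =>
            obtain ⟨u, hu⟩ := ih
            refine ⟨u + te (y * (a : G ⧸ P) ^ n) (1 : k), ?_⟩
            rw [map_add, hu, sub_id_hom, rm_te, pow_succ, mul_assoc]
            abel
        have hz : ∀ (n : ℤ) (y : G ⧸ P), ∃ u, (rm P a - 𝟙 (pr k G (G ⧸ P))).hom u =
            te (y * (a : G ⧸ P) ^ n) (1 : k) - te y (1 : k) := by
          intro n y
          obtain ⟨n, rfl | rfl⟩ := n.eq_nat_or_neg
          · rw [zpow_natCast]
            exact hn n y
          · obtain ⟨u, hu⟩ := hn n (y * (a : G ⧸ P) ^ (-(n : ℤ)))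
            refine ⟨-u, ?_⟩
            rw [map_neg, hu, neg_sub, mul_assoc, zpow_neg, zpow_natCast, inv_mul_cancel, mul_one]
        intro y y' hy
        induction y using QuotientGroup.induction_on with
        | H y =>
        induction y' using QuotientGroup.induction_on with
        | H y' =>
        have hy' : ((y : G) : G ⧸ P') = ((y' : G) : G ⧸ P') := hy
        rw [QuotientGroup.eq] at hy'
        obtain ⟨m, p, hp, h1⟩ := (hP' _).1 hy'
        have h2 : ((y' : G) : G ⧸ P) = ((y : G) : G ⧸ P) * (a : G ⧸ P) ^ m := by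
          rw [← QuotientGroup.mk_zpow, ← QuotientGroup.mk_mul]
          refine (QuotientGroup.eq.2 ?_).symm
          have : (y * a ^ m)⁻¹ * y' = p := by
            rw [mul_inv_rev, mul_assoc, h1]
            group
          rw [this]
          exact hp
        obtain ⟨u, hu⟩ := hz m (y : G ⧸ P)
        refine ⟨-u, ?_⟩
        rw [map_neg, hu, neg_sub, h2]
    · rintro ⟨u, rfl⟩
      have h0 : (rm P a - 𝟙 (pr k G (G ⧸ P))) ≫ qm k P P' h = 0 := by
        apply pr_ext
        intro y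
        show (qm k P P' h).hom ((rm P a - 𝟙 (pr k G (G ⧸ P))).hom (te y (1 : k))) = 0
        rw [sub_id_hom, rm_te, map_sub, qm_te, qm_te, sub_eq_zero]
        congr 1
        induction y using QuotientGroup.induction_on with
        | H y =>
        show ((y * a : G) : G ⧸ P') = ((y : G) : G ⧸ P')
        rw [QuotientGroup.eq]
        rw [mul_inv_rev, mul_assoc, inv_mul_cancel, mul_one]
        refine P'.inv_mem ((hP' a).2 ⟨1, 1, P.one_mem, ?_⟩)
        rw [zpow_one, mul_one]
      exact congrArg (fun t => t.hom u) h0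

theorem tf_step (P P' : Subgroup G) [P.Normal] (hP : P ≤ Subgroup.center G) (a : G)
    (hP' : ∀ x, x ∈ P' ↔ ∃ m : ℤ, ∃ p ∈ P, x = a ^ m * p) (ha : ∀ m : ℤ, a ^ m ∈ P → m = 0)
    (h : ∀ j, TF (pr k G (G ⧸ P)) j) (j : ℕ) : TF (pr k G (G ⧸ P')) j := by
  have hle : P ≤ P' := fun p hp => (hP' p).2 ⟨0, p, hp, by rw [zpow_zero, one_mul]⟩
  have s : SES (rm P a - 𝟙 _) (qm k P P' hle) := rm_ses P P' a hP' ha hle
  have key : ∀ (j : ℕ) (m : ℤ) (y : groupHomology (pr k G (G ⧸ P)) j), m ≠ 0 →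
      m • Hm (qm k P P' hle) j y = 0 → y = 0 := by
    intro j m y hm hy
    rw [← map_zsmul, les_mid s] at hy
    obtain ⟨z, hz⟩ := hy
    rw [Hm_rm_sub P hP] at hz
    exact h j m y hm hz.symm
  cases j with
  | zero =>
    intro m x hm hx
    obtain ⟨y, rfl⟩ := les_zero s x
    rw [key 0 m y hm hx, map_zero]
  | succ j =>
    intro m x hm hx
    have h1 : dl s j x = 0 := h j m _ hm (by rw [← map_zsmul, hx, map_zero])
    obtain ⟨y, rfl⟩ := (dl_right s j x).1 h1
    rw [key (j + 1) m y hm hx, map_zero]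

/-- lift to the kernel -/
noncomputable def kerLift {A B C : Rep.{0} k G} (g : B ⟶ C) (f : A ⟶ B) (h : ∀ x, g.hom (f.hom x) = 0) :
    A ⟶ kerRep g :=
  Rep.ofHom ⟨f.hom.toLinearMap.codRestrict (LinearMap.ker g.hom.toLinearMap) h, by
    intro x
    ext v
    exact Rep.hom_comm_apply f x v⟩

theorem kerLift_inc {A B C : Rep.{0} k G} (g : B ⟶ C) (f : A ⟶ B) (h : ∀ x, g.hom (f.hom x) = 0) :
    kerLift g f h ≫ kerInc g = f := rfl

theorem kerInc_mono {A B C : Rep.{0} k G} (g : B ⟶ C) {f f' : A ⟶ kerRep g}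
    (h : f ≫ kerInc g = f' ≫ kerInc g) : f = f' := by
  ext x
  exact Subtype.ext (congrArg (fun t => t.hom x) h)

theorem rm_aug (P : Subgroup G) [P.Normal] (g : G) (x : pr k G (G ⧸ P)) :
    (twAug (G ⧸ P) (Rep.trivial k G k)).hom ((rm P g).hom x) =
      (twAug (G ⧸ P) (Rep.trivial k G k)).hom x := by
  induction x using pr_induction with
  | h0 => simp only [map_zero]
  | hadd x y hx hy => simp only [map_add, hx, hy]
  | hsmul r x hx => simp only [map_smul, hx]
  | hte y => rw [rm_te, twAug_te, twAug_te]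

/-- `u ↦ u (c - 1)` with values in the augmentation ideal -/
noncomputable def Lc (k : Type) [CommRing k] (P : Subgroup G) [P.Normal] (c : G) :
    pr k G (G ⧸ P) ⟶ kerRep (twAug (G ⧸ P) (Rep.trivial k G k)) :=
  kerLift _ (rm P c - 𝟙 _) (by
    intro x
    rw [sub_id_hom, map_sub, rm_aug, sub_self])

theorem Lc_inc (P : Subgroup G) [P.Normal] (c : G) :
    Lc k P c ≫ kerInc _ = rm P c - 𝟙 _ := rfl

theorem Lc_mul (P : Subgroup G) [P.Normal] (a b : G) :
    Lc k P (a * b) = rm P a ≫ Lc k P b + Lc k P a := by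
  apply kerInc_mono
  rw [Preadditive.add_comp, Category.assoc, Lc_inc, Lc_inc, Lc_inc, rm_comp, Preadditive.comp_sub,
    Category.comp_id]
  abel

theorem Hm_Lc (P : Subgroup G) [P.Normal] (hP : P ≤ Subgroup.center G) (c : G)
    (hc : c ∈ commutator G) (j : ℕ) (x : groupHomology (pr k G (G ⧸ P)) j) : Hm (Lc k P c) j x = 0 := by
  let Φ : G →* Multiplicative (groupHomology (kerRep (twAug (G ⧸ P) (Rep.trivial k G k))) j) :=
    MonoidHom.mk' (fun g => Multiplicative.ofAdd (Hm (Lc k P g) j x)) (by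
      intro a b
      rw [← ofAdd_add, Lc_mul, Hm_add, Hm_comp, Hm_rm P hP, add_comm])
  have h1 : commutator G ≤ Φ.ker := Abelianization.commutator_subset_ker Φ
  exact congrArg Multiplicative.toAdd ((MonoidHom.mem_ker).1 (h1 hc))

theorem aug_step (P P' : Subgroup G) [P.Normal] (hP : P ≤ Subgroup.center G) (c : G)
    (hc : c ∈ commutator G)
    (hP' : ∀ x, x ∈ P' ↔ ∃ m : ℤ, ∃ p ∈ P, x = c ^ m * p) (ha : ∀ m : ℤ, c ^ m ∈ P → m = 0)
    (h : ∀ j, 1 ≤ j → ∀ x, Hm (twAug (G ⧸ P) (Rep.trivial k G k)) j x = 0) (j : ℕ) (hj : 1 ≤ j)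
    (x : groupHomology (pr k G (G ⧸ P')) j) : Hm (twAug (G ⧸ P') (Rep.trivial k G k)) j x = 0 := by
  have hle : P ≤ P' := fun p hp => (hP' p).2 ⟨0, p, hp, by rw [zpow_zero, one_mul]⟩
  have s : SES (rm P c - 𝟙 _) (qm k P P' hle) := rm_ses P P' c hP' ha hle
  have hs : Function.Surjective (twAug (G ⧸ P) (Rep.trivial k G k)).hom :=
    fun a => ⟨te ((1 : G) : G ⧸ P) a, twAug_te _ _ _ a⟩
  have s' := ker_ses (twAug (G ⧸ P) (Rep.trivial k G k)) hs
  obtain ⟨j, rfl⟩ : ∃ i, j = i + 1 := ⟨j - 1, by omega⟩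
  have e1 : (rm P c - 𝟙 _) ≫ 𝟙 _ = Lc k P c ≫ kerInc _ := by rw [Lc_inc, Category.comp_id]
  have e2 : qm k P P' hle ≫ twAug (G ⧸ P') (Rep.trivial k G k) =
      𝟙 _ ≫ twAug (G ⧸ P) (Rep.trivial k G k) := by
    apply pr_ext
    intro y
    show (twAug (G ⧸ P') (Rep.trivial k G k)).hom ((qm k P P' hle).hom (te y (1 : k))) =
      (twAug (G ⧸ P) (Rep.trivial k G k)).hom (te y (1 : k))
    rw [qm_te, twAug_te, twAug_te]
  have h1 := dl_nat s s' (Lc k P c) (𝟙 _) (twAug (G ⧸ P') (Rep.trivial k G k)) e1 e2 j x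
  rw [Hm_Lc P hP c hc] at h1
  obtain ⟨y, hy⟩ := (dl_right s' j _).1 h1
  rw [← hy]
  exact h (j + 1) hj y

/-- the subgroup of a free abelian central subgroup spanned by a part of the basis -/
def PS {T : Type} (ψ : Multiplicative (T →₀ ℤ) →* G) (S : Set T) : Subgroup G where
  carrier := {x | ∃ v : T →₀ ℤ, (v.support : Set T) ⊆ S ∧ ψ (Multiplicative.ofAdd v) = x}
  one_mem' := ⟨0, by simp, by simp⟩
  mul_mem' := by
    classical
    rintro _ _ ⟨v, hv, rfl⟩ ⟨w, hw, rfl⟩
    refine ⟨v + w, ?_, ?_⟩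
    · refine (Finset.coe_subset.2 Finsupp.support_add).trans ?_
      rw [Finset.coe_union]
      exact Set.union_subset hv hw
    · rw [ofAdd_add, map_mul]
  inv_mem' := by
    rintro _ ⟨v, hv, rfl⟩
    refine ⟨-v, ?_, ?_⟩
    · rw [Finsupp.support_neg]
      exact hv
    · rw [ofAdd_neg, map_inv]

theorem TF.of_retract {A B : Rep.{0} k G} (i : A ⟶ B) (r : B ⟶ A) (hir : i ≫ r = 𝟙 A) (j : ℕ)
    (h : TF B j) : TF A j := by
  intro m x hm hx
  have h1 : Hm i j x = 0 := h m _ hm (by rw [← map_zsmul, hx, map_zero])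
  have h2 : Hm r j (Hm i j x) = x := by rw [← Hm_comp, hir, Hm_id]
  rw [← h2, h1, map_zero]

theorem h0_triv_inj : Function.Injective (h0 (Rep.trivial k G k)) := by
  have h1 : h0 (Rep.trivial k G k) =
      ModuleCat.Hom.hom (groupHomology.H0IsoOfIsTrivial (Rep.trivial k G k)).inv := rfl
  rw [h1]
  exact (ModuleCat.mono_iff_injective (groupHomology.H0IsoOfIsTrivial (Rep.trivial k G k)).inv).1 inferInstance

theorem tf_reg (hk : ∀ (m : ℤ) (x : k), m ≠ 0 → m • x = 0 → x = 0) (j : ℕ) : TF (pr k G G) j := by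
  cases j with
  | succ j => exact fun m x _ _ => vanish' _ j x
  | zero =>
    intro m x hm hx
    obtain ⟨a, rfl⟩ := h0_surj _ x
    have h1 : ∀ a : pr k G G, h0 (pr k G G) a =
        h0 (pr k G G) ((twAug G (Rep.trivial k G k)).hom a • te (1 : G) (1 : k)) := by
      intro a
      induction a using pr_induction with
      | h0 => simp only [map_zero, zero_smul]
      | hadd x y hx hy => rw [map_add, map_add, add_smul, map_add, hx, hy]
      | hsmul r x hx =>
        rw [map_smul (h0 (pr k G G)), hx, ← map_smul (h0 (pr k G G))]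
        congr 1
        rw [map_smul (twAug G (Rep.trivial k G k)).hom]
        exact smul_smul r ((twAug G (Rep.trivial k G k)).hom x : k) (te (1 : G) (1 : k) : pr k G G)
      | hte y =>
        rw [twAug_te]
        have h2 := tw_rho_te (A := Rep.trivial k G k) y (1 : G) (1 : k)
        have h3 : (te y (1 : k) : pr k G G) = (pr k G G).ρ y (te (1 : G) (1 : k)) := by
          rw [h2, smul_eq_mul, mul_one]
          rfl
        rw [h3, h0_rho]
        congr 1
        exact (one_smul k _).symm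
    have h2 : m • (twAug G (Rep.trivial k G k)).hom a = 0 := by
      apply h0_triv_inj (G := G)
      rw [← map_zsmul, map_zero, ← Hm_h0, map_zsmul, hx, map_zero]
    have h3 : (twAug G (Rep.trivial k G k)).hom a = 0 := hk m _ hm h2
    rw [h1, h3]
    have : ((0 : Rep.trivial k G k) : k) • (te (1 : G) (1 : k) : pr k G G) = 0 := zero_smul k _
    rw [this, map_zero]


theorem prMap_comp {X Y Z : Type} [MulAction G X] [MulAction G Y] [MulAction G Z] (f : X → Y)
    (hf : ∀ (g : G) (y : X), f (g • y) = g • f y) (f' : Y → Z)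
    (hf' : ∀ (g : G) (y : Y), f' (g • y) = g • f' y) (f'' : X → Z)
    (hf'' : ∀ (g : G) (y : X), f'' (g • y) = g • f'' y) (h : ∀ x, f' (f x) = f'' x) :
    (prMap f hf ≫ prMap f' hf' : pr k G X ⟶ pr k G Z) = prMap f'' hf'' := by
  apply pr_ext
  intro y
  show (prMap f' hf').hom ((prMap f hf).hom (te y (1 : k))) = (prMap f'' hf'').hom (te y (1 : k))
  rw [prMap_te, prMap_te, prMap_te, h]

theorem prMap_id {X : Type} [MulAction G X] (f : X → X)
    (hf : ∀ (g : G) (y : X), f (g • y) = g • f y) (h : ∀ x, f x = x) :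
    (prMap f hf : pr k G X ⟶ pr k G X) = 𝟙 _ := by
  apply pr_ext
  intro y
  rw [prMap_te, h]
  rfl

theorem prMap_aug {X Y : Type} [MulAction G X] [MulAction G Y] (f : X → Y)
    (hf : ∀ (g : G) (y : X), f (g • y) = g • f y) :
    prMap f hf ≫ twAug Y (Rep.trivial k G k) = twAug X (Rep.trivial k G k) := by
  apply pr_ext
  intro y
  show (twAug Y (Rep.trivial k G k)).hom ((prMap f hf).hom (te y (1 : k))) = _
  rw [prMap_te, twAug_te, twAug_te]

theorem TF.of_equiv {X Y : Type} [MulAction G X] [MulAction G Y] (f : X → Y)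
    (hf : ∀ (g : G) (y : X), f (g • y) = g • f y) (f' : Y → X)
    (hf' : ∀ (g : G) (y : Y), f' (g • y) = g • f' y) (h : ∀ x, f' (f x) = x) (j : ℕ)
    (hY : TF (pr k G Y) j) : TF (pr k G X) j :=
  TF.of_retract (prMap f hf) (prMap f' hf') (by
    rw [prMap_comp f hf f' hf' id (fun _ _ => rfl) h]
    exact prMap_id _ _ (fun _ => rfl)) j hY

section PSsec

variable {T : Type} (ψ : Multiplicative (T →₀ ℤ) →* G)

theorem PS_mono {S S' : Set T} (h : S ⊆ S') : PS ψ S ≤ PS ψ S' := by
  rintro _ ⟨v, hv, rfl⟩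
  exact ⟨v, hv.trans h, rfl⟩

theorem PS_le (Q : Subgroup G) (hc : ∀ v, ψ v ∈ Q) (S : Set T) : PS ψ S ≤ Q := by
  rintro _ ⟨v, hv, rfl⟩
  exact hc _

theorem PS_normal (hc : ∀ v, ψ v ∈ Subgroup.center G) (S : Set T) : (PS ψ S).Normal := by
  constructor
  intro n hn g
  have h1 := Subgroup.mem_center_iff.1 (PS_le ψ _ hc S hn) g
  rw [h1, mul_assoc, mul_inv_cancel, mul_one]
  exact hn

theorem PS_empty : PS ψ (∅ : Set T) = ⊥ := by
  rw [eq_bot_iff]
  rintro _ ⟨v, hv, rfl⟩
  have : v = 0 := by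
    rw [← Finsupp.support_eq_empty]
    exact Finset.coe_eq_empty.1 (Set.subset_empty_iff.1 hv)
  rw [this, ofAdd_zero, map_one]
  exact Subgroup.mem_bot.2 rfl

theorem PS_insert [DecidableEq T] (S : Set T) (t : T) (x : G) : x ∈ PS ψ (insert t S) ↔
    ∃ m : ℤ, ∃ p ∈ PS ψ S, x = ψ (Multiplicative.ofAdd (Finsupp.single t 1)) ^ m * p := by
  constructor
  · rintro ⟨v, hv, rfl⟩
    refine ⟨v t, ψ (Multiplicative.ofAdd (v.erase t)), ⟨v.erase t, ?_, rfl⟩, ?_⟩
    · intro s hs
      have h1 : s ∈ (v.erase t).support := hs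
      rw [Finsupp.support_erase, Finset.mem_erase] at h1
      rcases hv h1.2 with h2 | h2
      · exact absurd h2 h1.1
      · exact h2
    · rw [← map_zpow, ← map_mul, ← ofAdd_zsmul, ← ofAdd_add, Finsupp.smul_single, smul_eq_mul, mul_one,
        Finsupp.single_add_erase]
  · rintro ⟨m, p, ⟨v, hv, rfl⟩, rfl⟩
    refine ⟨Finsupp.single t m + v, ?_, ?_⟩
    · refine (Finset.coe_subset.2 Finsupp.support_add).trans ?_
      rw [Finset.coe_union]
      refine Set.union_subset ?_ (hv.trans (Set.subset_insert _ _))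
      refine (Finset.coe_subset.2 Finsupp.support_single_subset).trans ?_
      simp
    · rw [← map_zpow, ← map_mul, ← ofAdd_zsmul, ← ofAdd_add, Finsupp.smul_single, smul_eq_mul, mul_one]

theorem PS_free (hψ : Function.Injective ψ) (S : Set T) (t : T) (ht : t ∉ S) (m : ℤ)
    (hm : ψ (Multiplicative.ofAdd (Finsupp.single t 1)) ^ m ∈ PS ψ S) : m = 0 := by
  obtain ⟨v, hv, h⟩ := hm
  rw [← map_zpow, ← ofAdd_zsmul, Finsupp.smul_single, smul_eq_mul, mul_one] at h
  have h1 : v = Finsupp.single t m := Multiplicative.ofAdd.injective (hψ h)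
  by_contra hm
  apply ht
  apply hv
  rw [h1]
  show t ∈ (Finsupp.single t m).support
  rw [Finsupp.mem_support_iff, Finsupp.single_eq_same]
  exact hm

theorem tf_fin (hk : ∀ (m : ℤ) (x : k), m ≠ 0 → m • x = 0 → x = 0) (hψ : Function.Injective ψ)
    (hc : ∀ v, ψ v ∈ Subgroup.center G) (S : Finset T) (j : ℕ) :
    TF (pr k G (G ⧸ PS ψ (S : Set T))) j := by
  classical
  induction S using Finset.induction_on generalizing j with
  | empty =>
    have h0 : PS ψ ((∅ : Finset T) : Set T) = ⊥ := by rw [Finset.coe_empty, PS_empty]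
    have hf : ∀ a b : G, (QuotientGroup.leftRel (PS ψ ((∅ : Finset T) : Set T))) a b → a = b := by
      intro a b hab
      rw [QuotientGroup.leftRel_apply, h0, Subgroup.mem_bot, inv_mul_eq_one] at hab
      exact hab
    let f : G ⧸ PS ψ ((∅ : Finset T) : Set T) → G := Quotient.lift id hf
    refine TF.of_equiv f ?_ (fun g => (g : G ⧸ PS ψ ((∅ : Finset T) : Set T))) ?_ ?_ j (tf_reg hk j)
    · intro g y
      induction y using QuotientGroup.induction_on with
      | H y => rfl
    · intro g y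
      rfl
    · intro y
      induction y using QuotientGroup.induction_on with
      | H y => rfl
  | insert t S ht ih =>
    have := PS_normal ψ hc (S : Set T)
    refine tf_step (PS ψ (S : Set T)) _ (PS_le ψ _ hc _) (ψ (Multiplicative.ofAdd (Finsupp.single t 1)))
      ?_ (PS_free ψ hψ _ _ (by simpa using ht)) (fun j => ih j) j
    intro x
    rw [Finset.coe_insert]
    exact PS_insert ψ _ t x

theorem aug_fin (hψ : Function.Injective ψ)
    (hc : ∀ v, ψ v ∈ Subgroup.center G) (hcc : ∀ v, ψ v ∈ commutator G) (S : Finset T) (j : ℕ)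
    (hj : 1 ≤ j) (x : groupHomology (pr k G (G ⧸ PS ψ (S : Set T))) j) :
    Hm (twAug (G ⧸ PS ψ (S : Set T)) (Rep.trivial k G k)) j x = 0 := by
  classical
  induction S using Finset.induction_on generalizing j with
  | empty =>
    have h0 : PS ψ ((∅ : Finset T) : Set T) = ⊥ := by rw [Finset.coe_empty, PS_empty]
    have hf : ∀ a b : G, (QuotientGroup.leftRel (PS ψ ((∅ : Finset T) : Set T))) a b → a = b := by
      intro a b hab
      rw [QuotientGroup.leftRel_apply, h0, Subgroup.mem_bot, inv_mul_eq_one] at hab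
      exact hab
    let f : G ⧸ PS ψ ((∅ : Finset T) : Set T) → G := Quotient.lift id hf
    have hf' : ∀ (g : G) (y : G ⧸ PS ψ ((∅ : Finset T) : Set T)), f (g • y) = g • f y := by
      intro g y
      induction y using QuotientGroup.induction_on with
      | H y => rfl
    obtain ⟨j, rfl⟩ : ∃ i, j = i + 1 := ⟨j - 1, by omega⟩
    rw [← prMap_aug f hf', Hm_comp, vanish' _ j (Hm (prMap f hf') (j + 1) x), map_zero]
  | insert t S ht ih =>
    have := PS_normal ψ hc (S : Set T)
    refine aug_step (PS ψ (S : Set T)) _ (PS_le ψ _ hc _) (ψ (Multiplicative.ofAdd (Finsupp.single t 1)))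
      (hcc _) ?_ (PS_free ψ hψ _ _ (by simpa using ht)) (fun j hj x => ih j hj x) j hj x
    intro x
    rw [Finset.coe_insert]
    exact PS_insert ψ _ t x


/-- finite parts of `S` -/
def Sf (S : Set T) (F : Finset T) : Set T := {t | t ∈ F ∧ t ∈ S}

theorem Sf_eq [DecidableEq T] (S : Set T) (F : Finset T) : ∃ F' : Finset T, Sf S F = (F' : Set T) := by
  classical
  refine ⟨F.filter (· ∈ S), ?_⟩
  ext t
  simp [Sf]

theorem Sf_mono (S : Set T) {F F' : Finset T} (h : F ≤ F') : Sf S F ⊆ Sf S F' :=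
  fun _ ht => ⟨h ht.1, ht.2⟩

theorem Sf_sub (S : Set T) (F : Finset T) : Sf S F ⊆ S := fun _ ht => ht.2

theorem qm_comp (P P' P'' : Subgroup G) (h : P ≤ P') (h' : P' ≤ P'') (h'' : P ≤ P'') :
    qm k P P' h ≫ qm k P' P'' h' = qm k P P'' h'' := by
  apply pr_ext
  intro y
  show (qm k P' P'' h').hom ((qm k P P' h).hom (te y (1 : k))) = (qm k P P'' h'').hom (te y (1 : k))
  rw [qm_te, qm_te, qm_te]
  congr 1
  induction y using QuotientGroup.induction_on with
  | H y => rfl

theorem qm_c2 [DecidableEq T] (S : Set T) (F : Finset T) (a : pr k G (G ⧸ PS ψ (Sf S F)))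
    (ha : (qm k _ _ (PS_mono ψ (Sf_sub S F))).hom a = 0) :
    ∃ F' : Finset T, ∃ h : F ≤ F', (qm k _ _ (PS_mono ψ (Sf_mono S h))).hom a = 0 := by
  refine prMap_ker (Subgroup.quotientMapOfLE (PS_mono ψ (Sf_sub S F))) _ (quotientMapOfLE_surj _ _ _)
    (fun a => ∃ F' : Finset T, ∃ h : F ≤ F', (qm k _ _ (PS_mono ψ (Sf_mono S h))).hom a = 0)
    ?_ ?_ ?_ ?_ a ha
  · exact ⟨F, le_refl F, map_zero _⟩
  · rintro u v ⟨F1, h1, h1'⟩ ⟨F2, h2, h2'⟩
    refine ⟨F1 ∪ F2, h1.trans Finset.subset_union_left, ?_⟩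
    rw [map_add]
    have e2 : ∀ (F1 F3 : Finset T) (h1 : F ≤ F1) (h3 : F1 ≤ F3) (u : pr k G (G ⧸ PS ψ (Sf S F))),
      (qm k _ _ (PS_mono ψ (Sf_mono S h1))).hom u = 0 →
      (qm k _ _ (PS_mono ψ (Sf_mono S (h1.trans h3)))).hom u = 0 := by
      intro F1 F3 h1 h3 u hu
      rw [← qm_comp _ _ _ (PS_mono ψ (Sf_mono S h1)) (PS_mono ψ (Sf_mono S h3))]
      show (qm k _ _ _).hom ((qm k _ _ _).hom u) = 0
      rw [hu, map_zero]
    rw [e2 F1 _ h1 Finset.subset_union_left u h1', e2 F2 _ h2 Finset.subset_union_right v h2', add_zero]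
  · rintro r u ⟨F1, h1, h1'⟩
    refine ⟨F1, h1, ?_⟩
    rw [map_smul, h1', smul_zero]
  · intro y y' hy
    induction y using QuotientGroup.induction_on with
    | H y =>
    induction y' using QuotientGroup.induction_on with
    | H y' =>
    have hy' : ((y : G) : G ⧸ PS ψ S) = ((y' : G) : G ⧸ PS ψ S) := hy
    rw [QuotientGroup.eq] at hy'
    obtain ⟨v, hv, h1⟩ := hy'
    refine ⟨F ∪ v.support, Finset.subset_union_left, ?_⟩
    rw [map_sub, qm_te, qm_te, sub_eq_zero]
    congr 1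
    show ((y : G) : G ⧸ PS ψ (Sf S (F ∪ v.support))) = ((y' : G) : G ⧸ PS ψ (Sf S (F ∪ v.support)))
    rw [QuotientGroup.eq]
    refine ⟨v, ?_, h1⟩
    intro t ht
    exact ⟨Finset.mem_union_right _ ht, hv ht⟩

end PSsec

theorem tf_PS (hk : ∀ (m : ℤ) (x : k), m ≠ 0 → m • x = 0 → x = 0) {T : Type} (ψ : Multiplicative (T →₀ ℤ) →* G) (hψ : Function.Injective ψ)
    (hc : ∀ v, ψ v ∈ Subgroup.center G) (S : Set T) (j : ℕ) : TF (pr k G (G ⧸ PS ψ S)) j := by
  classical
  have hf : ∀ F : Finset T, TF (pr k G (G ⧸ PS ψ (Sf S F))) j := by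
    intro F
    obtain ⟨F', hF'⟩ := Sf_eq S F
    rw [hF']
    exact tf_fin ψ hk hψ hc F' j
  have c1 : ∀ b : pr k G (G ⧸ PS ψ S), ∃ F : Finset T, ∃ a,
      (qm k (PS ψ (Sf S F)) (PS ψ S) (PS_mono ψ (Sf_sub S F))).hom a = b := by
    intro b
    obtain ⟨a, ha⟩ := qm_surj (k := k) (PS ψ (Sf S ∅)) (PS ψ S) (PS_mono ψ (Sf_sub S ∅)) b
    exact ⟨∅, a, ha⟩
  have e1 : ∀ (i i' : Finset T) (h : i ≤ i'), qm k _ _ (PS_mono ψ (Sf_mono S h)) ≫
      qm k (PS ψ (Sf S i')) (PS ψ S) (PS_mono ψ (Sf_sub S i')) =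
      qm k (PS ψ (Sf S i)) (PS ψ S) (PS_mono ψ (Sf_sub S i)) := fun i i' h => qm_comp _ _ _ _ _ _
  have e2 : ∀ (i i' i'' : Finset T) (h : i ≤ i') (h' : i' ≤ i''), qm k _ _ (PS_mono ψ (Sf_mono S h)) ≫
      qm k _ _ (PS_mono ψ (Sf_mono S h')) = qm k _ _ (PS_mono ψ (Sf_mono S (h.trans h'))) :=
    fun i i' i'' h h' => qm_comp _ _ _ _ _ _
  have e3 := qm_c2 (k := k) ψ S
  intro m x hm hx
  obtain ⟨i, y, rfl⟩ := colim_surj (fun i i' h => qm k _ _ (PS_mono ψ (Sf_mono S h)))
    (fun i => qm k (PS ψ (Sf S i)) (PS ψ S) (PS_mono ψ (Sf_sub S i))) e1 e2 c1 e3 x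
  rw [← map_zsmul] at hx
  obtain ⟨i', h, h'⟩ := colim_inj (fun i i' h => qm k _ _ (PS_mono ψ (Sf_mono S h)))
    (fun i => qm k (PS ψ (Sf S i)) (PS ψ S) (PS_mono ψ (Sf_sub S i))) e1 e2 c1 e3 _ hx
  rw [map_zsmul] at h'
  have h3 := hf i' m _ hm h'
  rw [← e1 i i' h, Hm_comp, h3, map_zero]

theorem aug_PS {T : Type} (ψ : Multiplicative (T →₀ ℤ) →* G) (hψ : Function.Injective ψ)
    (hc : ∀ v, ψ v ∈ Subgroup.center G) (hcc : ∀ v, ψ v ∈ commutator G) (S : Set T) (j : ℕ)
    (hj : 1 ≤ j) (x : groupHomology (pr k G (G ⧸ PS ψ S)) j) :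
    Hm (twAug (G ⧸ PS ψ S) (Rep.trivial k G k)) j x = 0 := by
  classical
  have c1 : ∀ b : pr k G (G ⧸ PS ψ S), ∃ F : Finset T, ∃ a,
      (qm k (PS ψ (Sf S F)) (PS ψ S) (PS_mono ψ (Sf_sub S F))).hom a = b := by
    intro b
    obtain ⟨a, ha⟩ := qm_surj (k := k) (PS ψ (Sf S ∅)) (PS ψ S) (PS_mono ψ (Sf_sub S ∅)) b
    exact ⟨∅, a, ha⟩
  have e1 : ∀ (i i' : Finset T) (h : i ≤ i'), qm k _ _ (PS_mono ψ (Sf_mono S h)) ≫
      qm k (PS ψ (Sf S i')) (PS ψ S) (PS_mono ψ (Sf_sub S i')) =
      qm k (PS ψ (Sf S i)) (PS ψ S) (PS_mono ψ (Sf_sub S i)) := fun i i' h => qm_comp _ _ _ _ _ _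
  have e2 : ∀ (i i' i'' : Finset T) (h : i ≤ i') (h' : i' ≤ i''), qm k _ _ (PS_mono ψ (Sf_mono S h)) ≫
      qm k _ _ (PS_mono ψ (Sf_mono S h')) = qm k _ _ (PS_mono ψ (Sf_mono S (h.trans h'))) :=
    fun i i' i'' h h' => qm_comp _ _ _ _ _ _
  have e3 := qm_c2 (k := k) ψ S
  obtain ⟨i, y, rfl⟩ := colim_surj (fun i i' h => qm k _ _ (PS_mono ψ (Sf_mono S h)))
    (fun i => qm k (PS ψ (Sf S i)) (PS ψ S) (PS_mono ψ (Sf_sub S i))) e1 e2 c1 e3 x
  have e4 : qm k (PS ψ (Sf S i)) (PS ψ S) (PS_mono ψ (Sf_sub S i)) ≫ twAug _ (Rep.trivial k G k) =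
      twAug _ (Rep.trivial k G k) := prMap_aug _ _
  rw [← Hm_comp, e4]
  obtain ⟨F', hF'⟩ := Sf_eq S i
  have h5 : ∀ (S' : Set T) (_ : S' = (F' : Set T)) (y : groupHomology (pr k G (G ⧸ PS ψ S')) j),
      Hm (twAug (G ⧸ PS ψ S') (Rep.trivial k G k)) j y = 0 := by
    rintro S' rfl y
    exact aug_fin ψ hψ hc hcc F' j hj y
  exact h5 _ hF' y

/-- the orbit map `g H ↦ g y`, `H` the stabilizer of `y` -/
noncomputable def orbMap {Y : Type} [MulAction G Y] (y : Y) :
    pr k G (G ⧸ MulAction.stabilizer G y) ⟶ pr k G Y :=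
  prMap (MulAction.ofQuotientStabilizer G y) (MulAction.ofQuotientStabilizer_smul G y)

theorem orbMap_te {Y : Type} [MulAction G Y] (y : Y) (z : G ⧸ MulAction.stabilizer G y) (a : k) :
    (orbMap y : pr k G (G ⧸ MulAction.stabilizer G y) ⟶ pr k G Y).hom (te z a) =
      te (MulAction.ofQuotientStabilizer G y z) a := prMap_te _ _ z a

open Classical in
/-- projection to an orbit: value on generators -/
noncomputable def opf {Y : Type} [MulAction G Y] (y0 : Y) (y : Y) :
    pr k G (G ⧸ MulAction.stabilizer G y0) :=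
  if h : ∃ z, MulAction.ofQuotientStabilizer G y0 z = y then te h.choose (1 : k) else 0

theorem opf_eq {Y : Type} [MulAction G Y] (y0 : Y) (z : G ⧸ MulAction.stabilizer G y0) :
    (opf y0 (MulAction.ofQuotientStabilizer G y0 z) : pr k G (G ⧸ MulAction.stabilizer G y0)) =
      te z (1 : k) := by
  unfold opf
  have h : ∃ z', MulAction.ofQuotientStabilizer G y0 z' = MulAction.ofQuotientStabilizer G y0 z := ⟨z, rfl⟩
  rw [dif_pos h, MulAction.injective_ofQuotientStabilizer G y0 h.choose_spec]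

theorem opf_eq0 {Y : Type} [MulAction G Y] (y0 y : Y)
    (h : ∀ z, MulAction.ofQuotientStabilizer G y0 z ≠ y) :
    (opf y0 y : pr k G (G ⧸ MulAction.stabilizer G y0)) = 0 := by
  unfold opf
  rw [dif_neg]
  rintro ⟨z, hz⟩
  exact h z hz

/-- projection to an orbit -/
noncomputable def opr {Y : Type} [MulAction G Y] (y0 : Y) :
    pr k G Y ⟶ pr k G (G ⧸ MulAction.stabilizer G y0) :=
  prHom (opf y0) (by
    intro g y
    by_cases h : ∃ z, MulAction.ofQuotientStabilizer G y0 z = y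
    · obtain ⟨z, rfl⟩ := h
      rw [← MulAction.ofQuotientStabilizer_smul, opf_eq, opf_eq]
      exact (tw_rho_te (A := Rep.trivial k G k) g z (1 : k)).symm
    · rw [opf_eq0 y0 y (fun z hz => h ⟨z, hz⟩), opf_eq0, map_zero]
      intro z hz
      apply h
      refine ⟨g⁻¹ • z, ?_⟩
      rw [MulAction.ofQuotientStabilizer_smul, hz, inv_smul_smul])

/-- idempotent of an orbit -/
noncomputable def oe (k : Type) [CommRing k] {G : Type} [Group G] {Y : Type} [MulAction G Y] (y0 : Y) :
    pr k G Y ⟶ pr k G Y := opr y0 ≫ orbMap y0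

theorem oe_eq {Y : Type} [MulAction G Y] (y0 y : Y) (h : y ∈ MulAction.orbit G y0) :
    (oe k (G := G) y0).hom (te y (1 : k)) = te y (1 : k) := by
  obtain ⟨g, rfl⟩ := h
  show (orbMap y0).hom ((prHom _ _).hom (te (g • y0) (1 : k))) = te (g • y0) (1 : k)
  rw [prHom_te, ← MulAction.ofQuotientStabilizer_mk, opf_eq, orbMap_te]

theorem oe_eq0 {Y : Type} [MulAction G Y] (y0 y : Y) (h : y ∉ MulAction.orbit G y0) :
    (oe k (G := G) y0).hom (te y (1 : k)) = 0 := by
  show (orbMap y0).hom ((prHom _ _).hom (te y (1 : k))) = 0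
  rw [prHom_te, opf_eq0, map_zero]
  intro z hz
  apply h
  rw [← hz]
  exact MulAction.ofQuotientStabilizer_mem_orbit G y0 z

theorem orbit_sum {Y : Type} [MulAction G Y] (Z : Finset (pr k G Y)) :
    ∃ W : Finset Y, ∀ z ∈ Z, (∑ w ∈ W, oe k (G := G) w).hom z = z := by
  classical
  have hrep : ∃ r : Y → Y, (∀ y, y ∈ MulAction.orbit G (r y)) ∧
      ∀ y y', y' ∈ MulAction.orbit G y → r y = r y' := by
    refine ⟨fun y => Quotient.out (Quotient.mk (MulAction.orbitRel G Y) y), ?_, ?_⟩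
    · intro y
      have h1 : (MulAction.orbitRel G Y) (Quotient.out (Quotient.mk (MulAction.orbitRel G Y) y)) y :=
        Quotient.mk_out (s := MulAction.orbitRel G Y) y
      exact (MulAction.orbitRel_apply.1 ((MulAction.orbitRel G Y).symm h1))
    · intro y y' h
      have : Quotient.mk (MulAction.orbitRel G Y) y = Quotient.mk (MulAction.orbitRel G Y) y' :=
        Quotient.sound ((MulAction.orbitRel G Y).symm (MulAction.orbitRel_apply.2 h))
      show Quotient.out _ = Quotient.out _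
      rw [this]
  obtain ⟨r, h1, h2⟩ := hrep
  -- property of a set of representatives
  have hsum : ∀ (W : Finset Y) (x : pr k G Y), (∑ w ∈ W, oe k (G := G) w).hom x =
      ∑ w ∈ W, (oe k (G := G) w).hom x := by
    intro W x
    induction W using Finset.induction_on with
    | empty => rfl
    | insert a s ha ih =>
      rw [Finset.sum_insert ha, Finset.sum_insert ha, ← ih, Rep.add_hom]
      rfl
  have key : ∀ x : pr k G Y, ∃ W0 : Finset Y, ∀ W : Finset Y, (∀ w ∈ W, ∃ y, w = r y) →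
      (∀ w ∈ W0, r w ∈ W) → (∑ w ∈ W, oe k (G := G) w).hom x = x := by
    intro x
    induction x using pr_induction with
    | h0 => exact ⟨∅, fun W _ _ => map_zero _⟩
    | hadd x y hx hy =>
      obtain ⟨W1, h3⟩ := hx
      obtain ⟨W2, h4⟩ := hy
      refine ⟨W1 ∪ W2, fun W hW hs => ?_⟩
      rw [map_add, h3 W hW (fun w hw => hs w (Finset.mem_union_left _ hw)),
        h4 W hW (fun w hw => hs w (Finset.mem_union_right _ hw))]
    | hsmul a x hx =>
      obtain ⟨W1, h3⟩ := hx
      refine ⟨W1, fun W hW hs => ?_⟩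
      rw [map_smul, h3 W hW hs]
    | hte y =>
      refine ⟨{y}, fun W hW hs => ?_⟩
      rw [hsum, Finset.sum_eq_single (r y)]
      · exact oe_eq _ _ (h1 y)
      · intro w hw hne
        apply oe_eq0
        intro hy
        apply hne
        obtain ⟨y', rfl⟩ := hW w hw
        have h3 : r (r y') = r y := h2 _ _ hy
        have h4 : r (r y') = r y' := h2 _ _ (h1 y')
        rw [← h4, h3]
      · intro h
        exact absurd (hs y (Finset.mem_singleton_self _)) h
  choose W0 hW0 using key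
  refine ⟨(Z.biUnion W0).image r, ?_⟩
  intro z hz
  apply hW0
  · intro w hw
    obtain ⟨y, -, rfl⟩ := Finset.mem_image.1 hw
    exact ⟨y, rfl⟩
  · intro w hw
    exact Finset.mem_image_of_mem _ (Finset.mem_biUnion.2 ⟨z, hz, hw⟩)

theorem Hm_sum {A B : Rep.{0} k G} {ι : Type} (W : Finset ι) (f : ι → (A ⟶ B)) (j : ℕ)
    (x : groupHomology A j) : Hm (∑ w ∈ W, f w) j x = ∑ w ∈ W, Hm (f w) j x :=
  map_sum (HmA j x) f W

theorem orbit_decomp {Y : Type} [MulAction G Y] {j : ℕ} (x : groupHomology (pr k G Y) j) :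
    ∃ W : Finset Y, x = ∑ w ∈ W, Hm (orbMap w) j (Hm (opr w) j x) := by
  obtain ⟨Z, hZ⟩ := exists_supp x
  obtain ⟨W, hW⟩ := orbit_sum Z
  refine ⟨W, ?_⟩
  have h1 := hZ (pr k G Y) (𝟙 _) (∑ w ∈ W, oe k (G := G) w) (fun z hz => (hW z hz).symm)
  rw [Hm_id, Hm_sum] at h1
  refine h1.trans (Finset.sum_congr rfl fun w _ => ?_)
  rw [← Hm_comp]
  rfl

theorem tf_of_orbits (Y : Type) [MulAction G Y]
    (h : ∀ (y : Y) (j : ℕ), TF (pr k G (G ⧸ MulAction.stabilizer G y)) j) (j : ℕ) :
    TF (pr k G Y) j := by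
  intro m x hm hx
  obtain ⟨W, hW⟩ := orbit_decomp x
  rw [hW]
  refine Finset.sum_eq_zero fun w _ => ?_
  rw [h w j m (Hm (opr w) j x) hm (by rw [← map_zsmul, hx, map_zero]), map_zero]

theorem zero_of_orbits (Y : Type) [MulAction G Y] {B : Rep.{0} k G} (f : pr k G Y ⟶ B) (j : ℕ)
    (h : ∀ (y : Y) (x : groupHomology (pr k G (G ⧸ MulAction.stabilizer G y)) j),
      Hm (orbMap y ≫ f) j x = 0) (x : groupHomology (pr k G Y) j) : Hm f j x = 0 := by
  obtain ⟨W, hW⟩ := orbit_decomp x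
  rw [hW, map_sum]
  refine Finset.sum_eq_zero fun w _ => ?_
  rw [← Hm_comp]
  exact h w _

end Run7.h253
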