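import Pool.Agent.Run7.h253.Perm
import Pool.Agent.Run7.h253.Fox
import Pool.Agent.Run7.h253.HomB

/-!
# Piece `hom`: homology of `G = F ⧸ [N, F]`

`F = FreeGroup X`, `C = N/[N,F]` central in `G`, `Q = F/N = G/C`.  All modules below are `G`-modules; all long exact
sequences are for the fixed group `G`.

Plan (with `Fox.lean`, `HomB.lean`):
`T` = orbit representatives of `Ω`; `ψ : Multiplicative (T →₀ ℤ) →* G`, `single t 1 ↦ A_t ^ n`; `ψ` is injective with range
`C = N/[N,F]`: left inverse from `N^ab → (T →₀ ℤ)`, `b_ω ↦ single [ω] 1` (kills `[N,F]`).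
`G` acts on `Ω` (`N` acts trivially by `stab` with `a = 0`) and on `Q = F ⧸ N`.
(1) `ζ : ℤΩ → ℤ[X × Q]`, `ω ↦ D (A_ω ^ n)`; equivariant and injective (`fox_inj`, `b` basis), image = `ker ∂` (`fox_ker`).
(2) `I = ker (ℤQ → ℤ)`: `0 → ℤΩ → ℤ[X × Q] → I → 0`, `0 → I → ℤQ → ℤ → 0`.
(3) `tf_PS` (+ `tf_of_orbits`): `H_j(G, ℤQ)`, `H_j(G, ℤ[X × Q])` torsion free.  `tf_step` + `tf_PS`: stabilizer of `ω` in `G` is
`⟨A_ω⟩ C = ⟨A_ω⟩ PS (T ∖ {t})`, so `H_j(G, ℤΩ)` is torsion free.
(4) `aug_PS`: `H_j(G, ℤQ) → H_j(G, ℤ)` is `0` for `j ≥ 1`, so `H_k(G,ℤ) ↪ H_{k-1}(G, I)`.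
(5) `Hm ζ j = 0` for all `j`: `zero_of_orbits`; on `ℤ[G/E_ω]` it is `g ↦ Σ_{i<n} g A^i ∈ ℤQ` followed by right multiplication by
`D A ∈ ℤ[X × Q]`, which is additive in `D A`, and right multiplication by `(x, q)` is on homology the inclusion `ι_x`
(`Hm_rm`), so the total is `Σ_x (augmentation of the x-component of D A) ι_x = 0` (`fox_aug`, `A ∈ F'`).
(6) so `0 → H_j(G, ℤ[X × Q]) → H_j(G, I) → H_{j-1}(G, ℤΩ)` is exact and `H_j(G, I)` is torsion free.
-/

set_option autoImplicit false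

namespace Run7.h253

open CategoryTheory
open scoped commutatorElement

namespace HP

section core

variable {k : Type} [CommRing k] {G : Type} [Group G]

theorem tf_of_ses {A B C : Rep.{0} k G} {f : A ⟶ B} {g : B ⟶ C} (s : SES f g)
    (hf : ∀ j x, Hm f j x = 0) (hA : ∀ j, TF A j) (hB : ∀ j, TF B j) (j : ℕ) : TF C j := by
  have key : ∀ (j : ℕ) (m : ℤ) (y : groupHomology B j), m ≠ 0 → m • Hm g j y = 0 → y = 0 := by
    intro j m y hm hy
    rw [← map_zsmul, les_mid s] at hy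
    obtain ⟨z, hz⟩ := hy
    rw [hf] at hz
    exact hB j m y hm hz.symm
  cases j with
  | zero =>
    intro m x hm hx
    obtain ⟨y, rfl⟩ := les_zero s x
    rw [key 0 m y hm hx, map_zero]
  | succ j =>
    intro m x hm hx
    have h1 : dl s j x = 0 := hA j m _ hm (by rw [← map_zsmul, hx, map_zero])
    obtain ⟨y, rfl⟩ := (dl_right s j x).1 h1
    rw [key (j + 1) m y hm hx, map_zero]

variable {Q : Type} [Group Q] [MulAction G Q]

/-- right multiplication on `k[Q]` -/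
noncomputable def rq (k : Type) [CommRing k] (ρ : G →* Q) (hQ : ∀ (g : G) (q : Q), g • q = ρ g * q) (q' : Q) :
    pr k G Q ⟶ pr k G Q :=
  prMap (fun q => q * q') (by
    intro g q
    rw [hQ, hQ, mul_assoc])

theorem Hm_rq (ρ : G →* Q) (hQ : ∀ (g : G) (q : Q), g • q = ρ g * q) (hρ : Function.Surjective ρ)
    (hk : ∀ g, ρ g = 1 → g ∈ Subgroup.center G) (q' : Q) (j : ℕ) (x : groupHomology (pr k G Q) j) :
    Hm (rq k ρ hQ q') j x = x := by
  obtain ⟨g0, rfl⟩ := hρ q'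
  let s : Q → G := Function.surjInv hρ
  have hs : ∀ q, ρ (s q) = q := Function.surjInv_eq hρ
  let h : Q → G := fun q => s q * g0 * (s q)⁻¹
  have hh : ∀ (k : G) (y : Q), h (k • y) = k * h y * k⁻¹ := by
    intro k y
    show s (k • y) * g0 * (s (k • y))⁻¹ = k * (s y * g0 * (s y)⁻¹) * k⁻¹
    have h1 : (k * s y)⁻¹ * s (k • y) ∈ Subgroup.center G := by
      apply hk
      rw [map_mul, map_inv, map_mul, hs, hs, hQ, inv_mul_cancel]
    have h2 : s (k • y) = (k * s y) * ((k * s y)⁻¹ * s (k • y)) := by group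
    have h3 := Subgroup.mem_center_iff.1 h1
    rw [h2]
    generalize (k * s y)⁻¹ * s (k • y) = p at h3
    have h4 : (k * s y * p) * g0 * (k * s y * p)⁻¹ = (k * s y) * (p * g0) * p⁻¹ * (k * s y)⁻¹ := by group
    rw [h4, ← h3 g0]
    group
  have e : (rq k ρ hQ (ρ g0) : pr k G Q ⟶ pr k G Q) = twT h hh (Rep.trivial k G k) := by
    apply pr_ext
    intro y
    rw [twT_te]
    unfold rq
    rw [prMap_te]
    show (te (y * ρ g0) (1 : k) : pr k G Q) = te (h y • y) (1 : k)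
    congr 1
    rw [hQ]
    show y * ρ g0 = ρ (s y * g0 * (s y)⁻¹) * y
    rw [map_mul, map_mul, map_inv, hs, inv_mul_cancel_right]
  rw [e]
  exact Hm_twT h hh _ j x

/-- cyclic sums -/
noncomputable def cs (k : Type) [CommRing k] (a : Q) (n : ℕ) (q : Q) : pr k G Q :=
  ∑ i ∈ Finset.range n, te (q * a ^ i) (1 : k)

theorem cs_shift1 (a : Q) (n : ℕ) (ha : a ^ n = 1) (q : Q) : cs (G := G) k a n (q * a) = cs k a n q := by
  unfold cs
  have h1 := Finset.sum_range_succ (fun i => (te (q * a ^ i) (1 : k) : pr k G Q)) n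
  rw [Finset.sum_range_succ', ha, pow_zero, add_left_inj] at h1
  rw [← h1]
  refine Finset.sum_congr rfl fun i _ => ?_
  rw [mul_assoc, ← pow_succ']

theorem cs_shift (a : Q) (n : ℕ) (ha : a ^ n = 1) (m : ℤ) (q : Q) :
    cs (G := G) k a n (q * a ^ m) = cs k a n q := by
  induction m using Int.induction_on with
  | zero => rw [zpow_zero, mul_one]
  | succ i ih => rw [zpow_add_one, ← mul_assoc, cs_shift1 a n ha, ih]
  | pred i ih =>
    rw [← ih, ← cs_shift1 a n ha (q * a ^ (-(i : ℤ) - 1)), mul_assoc, ← zpow_add_one]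
    congr 2
    ring_nf

variable {X : Type} [MulAction G (X × Q)]

/-- `q ↦ (x, q q')` -/
noncomputable def rx (k : Type) [CommRing k] (ρ : G →* Q) (hQ : ∀ (g : G) (q : Q), g • q = ρ g * q)
    (hXQ : ∀ (g : G) (p : X × Q), g • p = (p.1, ρ g * p.2)) (p : X × Q) :
    pr k G Q ⟶ pr k G (X × Q) :=
  prMap (fun q => (p.1, q * p.2)) (by
    intro g q
    rw [hQ, hXQ, mul_assoc])

theorem rx_te (ρ : G →* Q) (hQ : ∀ (g : G) (q : Q), g • q = ρ g * q)
    (hXQ : ∀ (g : G) (p : X × Q), g • p = (p.1, ρ g * p.2)) (p : X × Q) (q : Q) (a : k) :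
    (rx k ρ hQ hXQ p).hom (te q a) = te (p.1, q * p.2) a := prMap_te _ _ q a

theorem Hm_rx (ρ : G →* Q) (hQ : ∀ (g : G) (q : Q), g • q = ρ g * q)
    (hXQ : ∀ (g : G) (p : X × Q), g • p = (p.1, ρ g * p.2)) (hρ : Function.Surjective ρ)
    (hk : ∀ g, ρ g = 1 → g ∈ Subgroup.center G) (p : X × Q) (j : ℕ) (x : groupHomology (pr k G Q) j) :
    Hm (rx k ρ hQ hXQ p) j x = Hm (rx k ρ hQ hXQ (p.1, 1)) j x := by
  have e : rx k ρ hQ hXQ p = rq k ρ hQ p.2 ≫ rx k ρ hQ hXQ (p.1, 1) := by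
    symm
    apply prMap_comp
    intro q
    rw [mul_one]
  rw [e, Hm_comp, Hm_rq ρ hQ hρ hk]

/-- right multiplication by `d ∈ k[X × Q]` -/
noncomputable def rd (k : Type) [CommRing k] (ρ : G →* Q) (hQ : ∀ (g : G) (q : Q), g • q = ρ g * q)
    (hXQ : ∀ (g : G) (p : X × Q), g • p = (p.1, ρ g * p.2)) (d : X × Q →₀ ℤ) :
    pr k G Q ⟶ pr k G (X × Q) :=
  ∑ p ∈ d.support, d p • rx k ρ hQ hXQ p

theorem Hm_rd [DecidableEq X] (ρ : G →* Q) (hQ : ∀ (g : G) (q : Q), g • q = ρ g * q)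
    (hXQ : ∀ (g : G) (p : X × Q), g • p = (p.1, ρ g * p.2)) (hρ : Function.Surjective ρ)
    (hk : ∀ g, ρ g = 1 → g ∈ Subgroup.center G) (d : X × Q →₀ ℤ)
    (hd : ∀ x, (d.sum fun p a => if p.1 = x then a else 0) = 0) (j : ℕ)
    (x : groupHomology (pr k G Q) j) :
    Hm (rd k ρ hQ hXQ d) j x = 0 := by
  unfold rd
  rw [Hm_sum]
  have h1 : ∑ p ∈ d.support, Hm (d p • rx k ρ hQ hXQ p) j x =
      d.sum fun p a => a • Hm (rx k ρ hQ hXQ (p.1, 1)) j x := by
    unfold Finsupp.sum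
    refine Finset.sum_congr rfl fun p _ => ?_
    rw [Hm_zsmul, Hm_rx ρ hQ hXQ hρ hk]
  have h2 : d.mapDomain Prod.fst = 0 := by
    ext y
    rw [Finsupp.mapDomain, Finsupp.sum_apply, Finsupp.zero_apply, ← hd y]
    refine Finsupp.sum_congr fun p _ => ?_
    rw [Finsupp.single_apply]
  rw [h1, ← Finsupp.sum_mapDomain_index (h := fun (y : X) (a : ℤ) => a • Hm (rx k ρ hQ hXQ (y, 1)) j x)
    (fun _ => zero_smul _ _) (fun _ _ _ => add_smul _ _ _), h2, Finsupp.sum_zero_index]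


theorem hom_zsmul_apply {A B : Rep.{0} k G} (m : ℤ) (f : A ⟶ B) (x : A) :
    (m • f).hom x = m • f.hom x := by
  let e : (A ⟶ B) →+ B := AddMonoidHom.mk' (fun f => f.hom x) (fun f g => by rw [Rep.add_hom]; rfl)
  exact e.map_zsmul m f

theorem hom_sum_apply {A B : Rep.{0} k G} {ι : Type} (W : Finset ι) (f : ι → (A ⟶ B)) (x : A) :
    (∑ w ∈ W, f w).hom x = ∑ w ∈ W, (f w).hom x := by
  let e : (A ⟶ B) →+ B := AddMonoidHom.mk' (fun f => f.hom x) (fun f g => by rw [Rep.add_hom]; rfl)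
  exact map_sum e f W

theorem rd_te (ρ : G →* Q) (hQ : ∀ (g : G) (q : Q), g • q = ρ g * q)
    (hXQ : ∀ (g : G) (p : X × Q), g • p = (p.1, ρ g * p.2)) (d : X × Q →₀ ℤ) (q : Q) :
    (rd k ρ hQ hXQ d).hom (te q (1 : k)) =
      ∑ p ∈ d.support, d p • (te (p.1, q * p.2) (1 : k) : pr k G (X × Q)) := by
  unfold rd
  rw [hom_sum_apply]
  refine Finset.sum_congr rfl fun p _ => ?_
  rw [hom_zsmul_apply, rx_te]

end core

theorem hom_core {G Q : Type} [Group G] [Group Q] {T X Ω : Type} [MulAction G Ω] [MulAction G Q]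
    [MulAction G (X × Q)] [DecidableEq X]
    (ρ : G →* Q) (hρ : Function.Surjective ρ) (hQ : ∀ (g : G) (q : Q), g • q = ρ g * q)
    (hXQ : ∀ (g : G) (p : X × Q), g • p = (p.1, ρ g * p.2))
    (ψ : Multiplicative (T →₀ ℤ) →* G) (hψ : Function.Injective ψ)
    (hc : ∀ v, ψ v ∈ Subgroup.center G) (hcc : ∀ v, ψ v ∈ commutator G)
    (hker : ∀ g, ρ g = 1 ↔ g ∈ PS ψ Set.univ)
    (n : ℕ)
    (ζ : pr ℤ G Ω ⟶ pr ℤ G (X × Q)) (bd : pr ℤ G (X × Q) ⟶ pr ℤ G Q)
    (h1 : Function.Injective ζ.hom) (h2 : ∀ v, bd.hom v = 0 ↔ ∃ u, ζ.hom u = v)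
    (h3 : ∀ u, (twAug Q (Rep.trivial ℤ G ℤ)).hom u = 0 ↔ ∃ v, bd.hom v = u)
    (hω : ∀ ω : Ω, ∃ (t : T) (A : G) (d : X × Q →₀ ℤ),
      (∀ g : G, g • ω = ω ↔ ∃ m : ℤ, ∃ p ∈ PS ψ {t}ᶜ, g = A ^ m * p) ∧
      (∀ m : ℤ, A ^ m ∈ PS ψ {t}ᶜ → m = 0) ∧
      ρ A ^ n = 1 ∧
      ζ.hom (te ω (1 : ℤ)) = ∑ i ∈ Finset.range n, ∑ p ∈ d.support,
        d p • (te (p.1, ρ A ^ i * p.2) (1 : ℤ) : pr ℤ G (X × Q)) ∧
      ∀ x, (d.sum fun p a => if p.1 = x then a else 0) = 0)
    (j : ℕ) (hj : 1 ≤ j) (m : ℤ) (x : groupHomology (Rep.trivial ℤ G ℤ) j) (hm : m ≠ 0) (hx : m • x = 0) :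
    x = 0 := by
  classical
  have hk : ∀ g, ρ g = 1 → g ∈ Subgroup.center G := fun g hg => PS_le ψ _ hc _ ((hker g).1 hg)
  have hkz : ∀ (m : ℤ) (x : ℤ), m ≠ 0 → m • x = 0 → x = 0 := by
    intro m x hm hx
    exact (smul_eq_zero.1 hx).resolve_left hm
  -- Q as a `G`-set
  let s : Q → G := Function.surjInv hρ
  have hs : ∀ q, ρ (s q) = q := Function.surjInv_eq hρ
  let f : Q → G ⧸ PS ψ Set.univ := fun q => (s q : G ⧸ PS ψ Set.univ)
  have hf : ∀ (g : G) (q : Q), f (g • q) = g • f q := by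
    intro g q
    show ((s (g • q) : G) : G ⧸ PS ψ Set.univ) = ((g * s q : G) : G ⧸ PS ψ Set.univ)
    rw [QuotientGroup.eq, ← hker, map_mul, map_inv, map_mul, hs, hs, hQ, inv_mul_cancel]
  let f' : G ⧸ PS ψ Set.univ → Q := Quotient.lift (fun g => ρ g) (by
    intro a b hab
    have h : (QuotientGroup.leftRel (PS ψ Set.univ)) a b := hab
    rw [QuotientGroup.leftRel_apply, ← hker, map_mul, map_inv, inv_mul_eq_one] at h
    exact h)
  have hf' : ∀ (g : G) (q : G ⧸ PS ψ Set.univ), f' (g • q) = g • f' q := by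
    intro g q
    induction q using QuotientGroup.induction_on with
    | H q =>
      show ρ (g * q) = g • ρ q
      rw [map_mul, hQ]
  have hff' : ∀ q, f' (f q) = q := hs
  have tQ : ∀ j, TF (pr ℤ G Q) j := fun j => TF.of_equiv f hf f' hf' hff' j (tf_PS hkz ψ hψ hc _ j)
  have hPS : ∀ (H : Subgroup G) (_ : H = PS ψ Set.univ) (j : ℕ), TF (pr ℤ G (G ⧸ H)) j := by
    rintro H rfl j
    exact tf_PS hkz ψ hψ hc _ j
  have tXQ : ∀ j, TF (pr ℤ G (X × Q)) j := by
    refine tf_of_orbits _ ?_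
    intro y j
    apply hPS
    ext g
    rw [MulAction.mem_stabilizer_iff, hXQ, ← hker, Prod.ext_iff]
    show (y.1 = y.1 ∧ ρ g * y.2 = y.2) ↔ _
    rw [mul_eq_right]
    exact ⟨fun h => h.2, fun h => ⟨rfl, h⟩⟩
  have tΩ : ∀ j, TF (pr ℤ G Ω) j := by
    refine tf_of_orbits _ ?_
    intro ω j
    obtain ⟨t, A, d, a1, a2, -⟩ := hω ω
    have := PS_normal ψ hc ({t}ᶜ : Set T)
    exact tf_step (PS ψ {t}ᶜ) _ (PS_le ψ _ hc _) A (fun g => by rw [MulAction.mem_stabilizer_iff]; exact a1 g) a2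
      (fun j => tf_PS hkz ψ hψ hc _ j) j
  have aQ : ∀ j, 1 ≤ j → ∀ x, Hm (twAug Q (Rep.trivial ℤ G ℤ)) j x = 0 := by
    intro j hj x
    rw [← prMap_aug f hf, Hm_comp, aug_PS ψ hψ hc hcc _ j hj]
  -- `ζ` is zero on homology
  have hζ : ∀ j x, Hm ζ j x = 0 := by
    intro j x
    refine zero_of_orbits Ω ζ j ?_ x
    intro ω x
    obtain ⟨t, A, d, a1, -, a3, a4, a5⟩ := hω ω
    have hw : ∀ a b : G, (QuotientGroup.leftRel (MulAction.stabilizer G ω)) a b →
        (cs (G := G) ℤ (ρ A) n (ρ a)) = cs ℤ (ρ A) n (ρ b) := by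
      intro a b hab
      rw [QuotientGroup.leftRel_apply, MulAction.mem_stabilizer_iff, a1] at hab
      obtain ⟨m, p, hp, hab⟩ := hab
      have h4 : ρ b = ρ a * ρ A ^ m := by
        have h5 : b = a * (A ^ m * p) := by rw [← hab]; group
        have h6 : ρ p = 1 := (hker p).2 (PS_mono ψ (Set.subset_univ _) hp)
        rw [h5, map_mul, map_mul, h6, mul_one, map_zpow]
      rw [h4, cs_shift (ρ A) n a3]
    let τ : pr ℤ G (G ⧸ MulAction.stabilizer G ω) ⟶ pr ℤ G Q :=
      prHom (Quotient.lift (fun a => cs (G := G) ℤ (ρ A) n (ρ a)) hw) (by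
        intro g y
        induction y using QuotientGroup.induction_on with
        | H y =>
          show cs (G := G) ℤ (ρ A) n (ρ (g * y)) = (pr ℤ G Q).ρ g (cs ℤ (ρ A) n (ρ y))
          unfold cs
          rw [map_sum]
          refine Finset.sum_congr rfl fun i _ => ?_
          rw [tw_rho_te, map_mul, hQ, mul_assoc]
          rfl)
    have e : orbMap ω ≫ ζ = τ ≫ rd ℤ ρ hQ hXQ d := by
      apply pr_ext
      intro y
      induction y using QuotientGroup.induction_on with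
      | H y =>
        show ζ.hom ((orbMap ω).hom (te (y : G ⧸ MulAction.stabilizer G ω) (1 : ℤ))) =
          (rd ℤ ρ hQ hXQ d).hom (τ.hom (te (y : G ⧸ MulAction.stabilizer G ω) (1 : ℤ)))
        rw [orbMap_te, prHom_te]
        show ζ.hom (te (y • ω) (1 : ℤ)) = (rd ℤ ρ hQ hXQ d).hom (cs ℤ (ρ A) n (ρ y))
        have h5 : (te (y • ω) (1 : ℤ) : pr ℤ G Ω) = (pr ℤ G Ω).ρ y (te ω (1 : ℤ)) := by
          rw [tw_rho_te]
          rfl
        rw [h5, Rep.hom_comm_apply, a4, map_sum]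
        unfold cs
        rw [map_sum]
        refine Finset.sum_congr rfl fun i _ => ?_
        rw [map_sum, rd_te]
        refine Finset.sum_congr rfl fun p _ => ?_
        rw [map_zsmul, tw_rho_te, hXQ]
        congr 2
        · show (p.1, ρ y * (ρ A ^ i * p.2)) = _
          rw [mul_assoc]
    rw [e, Hm_comp, Hm_rd ρ hQ hXQ hρ hk d a5]
  -- the augmentation ideal
  have hsQ : Function.Surjective (twAug Q (Rep.trivial ℤ G ℤ)).hom := fun a => ⟨te 1 a, twAug_te _ _ _ a⟩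
  have s' := ker_ses (twAug Q (Rep.trivial ℤ G ℤ)) hsQ
  let bd' := kerLift (twAug Q (Rep.trivial ℤ G ℤ)) bd (fun x => (h3 _).2 ⟨x, rfl⟩)
  have s1 : SES ζ bd' := by
    refine ⟨h1, ?_, ?_⟩
    · rintro ⟨u, hu⟩
      obtain ⟨v, hv⟩ := (h3 u).1 hu
      exact ⟨v, Subtype.ext hv⟩
    · intro b
      rw [← h2]
      constructor
      · intro h
        exact congrArg Subtype.val h
      · intro h
        exact Subtype.ext h
  have tI := tf_of_ses s1 hζ tΩ tXQ
  obtain ⟨j, rfl⟩ : ∃ i, j = i + 1 := ⟨j - 1, by omega⟩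
  have h4 : dl s' j x = 0 := tI j m _ hm (by rw [← map_zsmul, hx, map_zero])
  obtain ⟨y, rfl⟩ := (dl_right s' j x).1 h4
  exact aQ _ hj y

theorem basis_ext {Ω M H : Type} [AddCommGroup M] [AddCommGroup H] (b : Module.Basis Ω ℤ M) (f g : M →+ H)
    (h : ∀ ω, f (b ω) = g (b ω)) (m : M) : f m = g m := by
  have h1 : f.toIntLinearMap = g.toIntLinearMap := b.ext h
  exact DFunLike.congr_fun h1 m

section inst

variable {F : Type} [Group F] (N : Subgroup F) [N.Normal]

omit [N.Normal] in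
theorem cls_surj (m : Additive (Abelianization N)) : ∃ (h : F) (hh : h ∈ N), cls N h hh = m := by
  obtain ⟨⟨h, hh⟩, hm⟩ := QuotientGroup.mk_surjective (Additive.toMul m)
  exact ⟨h, hh, congrArg Additive.ofMul hm⟩

omit [N.Normal] in
theorem cls_mul (x y : F) (hx : x ∈ N) (hy : y ∈ N) :
    cls N (x * y) (N.mul_mem hx hy) = cls N x hx + cls N y hy := by
  unfold cls
  rw [← ofMul_mul, ← map_mul]
  rfl

omit [N.Normal] in
theorem cls_inv (x : F) (hx : x ∈ N) :
    cls N x⁻¹ (N.inv_mem hx) = - cls N x hx := by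
  unfold cls
  rw [← ofMul_inv, ← map_inv]
  rfl

omit [N.Normal] in
theorem cls_congr {x y : F} (h : x = y) (hx : x ∈ N) (hy : y ∈ N) : cls N x hx = cls N y hy := by
  subst h
  rfl

/-- additive map out of `N^ab` -/
noncomputable def clsLift {H : Type} [AddCommGroup H] (f : F → H)
    (hf : ∀ x y, x ∈ N → y ∈ N → f (x * y) = f x + f y) : Additive (Abelianization N) →+ H :=
  AddMonoidHom.mk' (fun m => Multiplicative.toAdd (Abelianization.lift
    (MonoidHom.mk' (fun x : N => Multiplicative.ofAdd (f x)) (by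
      intro a b
      rw [← ofAdd_add, ← hf _ _ a.2 b.2]
      rfl)) (Additive.toMul m))) (by
    intro a b
    rw [toMul_add, map_mul, toAdd_mul])

omit [N.Normal] in
theorem clsLift_cls {H : Type} [AddCommGroup H] (f : F → H)
    (hf : ∀ x y, x ∈ N → y ∈ N → f (x * y) = f x + f y) (x : F) (hx : x ∈ N) :
    clsLift N f hf (cls N x hx) = f x := by
  show Multiplicative.toAdd (Abelianization.lift _ (Abelianization.of (⟨x, hx⟩ : N))) = f x
  rw [Abelianization.lift_apply_of]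
  rfl

/-- conjugation on `N^ab` -/
noncomputable def cj (f : F) : Additive (Abelianization N) →+ Additive (Abelianization N) := by
  classical
  exact clsLift N (fun x => if h : x ∈ N then cls N (f * x * f⁻¹) (Subgroup.Normal.conj_mem inferInstance x h f) else 0)
    (by
      intro x y hx hy
      rw [dif_pos hx, dif_pos hy, dif_pos (N.mul_mem hx hy), ← cls_mul]
      apply cls_congr
      group)

theorem cj_cls (f x : F) (hx : x ∈ N) :
    cj N f (cls N x hx) = cls N (f * x * f⁻¹) (Subgroup.Normal.conj_mem inferInstance x hx f) := by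
  unfold cj
  rw [clsLift_cls, dif_pos hx]

/-- `[N, F]` -/
abbrev KK : Subgroup F := ⁅N, (⊤ : Subgroup F)⁆

theorem KK_le : KK N ≤ N := Subgroup.commutator_le_left N ⊤

omit [N.Normal] in
theorem pi_comm (h : F) (hh : h ∈ N) (f : F) :
    ((f * h : F) : F ⧸ KK N) = ((h * f : F) : F ⧸ KK N) := by
  rw [QuotientGroup.eq]
  have e : (f * h)⁻¹ * (h * f) = ⁅h⁻¹, f⁻¹⁆ := by
    rw [commutatorElement_def]
    group
  rw [e]
  exact Subgroup.commutator_mem_commutator (N.inv_mem hh) (Subgroup.mem_top _)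

theorem pi_central (h : F) (hh : h ∈ N) : ((h : F) : F ⧸ KK N) ∈ Subgroup.center (F ⧸ KK N) := by
  rw [Subgroup.mem_center_iff]
  intro g
  induction g using QuotientGroup.induction_on with
  | H g => exact pi_comm N h hh g

theorem pi_conj (h : F) (hh : h ∈ N) (f : F) :
    ((f * h * f⁻¹ : F) : F ⧸ KK N) = ((h : F) : F ⧸ KK N) := by
  rw [QuotientGroup.mk_mul, pi_comm N h hh f, ← QuotientGroup.mk_mul, mul_inv_cancel_right]

/-- the center is commutative -/
@[instance_reducible]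
def centerCG (G : Type) [Group G] : CommGroup (Subgroup.center G) :=
  { (inferInstance : Group (Subgroup.center G)) with
    mul_comm := fun a b => Subtype.ext (Subgroup.mem_center_iff.1 b.2 a) }

attribute [local instance] centerCG

/-- `N^ab → Z(F/[N,F])` -/
noncomputable def th : Additive (Abelianization N) →+ Additive (Subgroup.center (F ⧸ KK N)) := by
  classical
  exact clsLift N (fun x => if h : x ∈ N then Additive.ofMul (⟨(x : F ⧸ KK N), pi_central N x h⟩ : Subgroup.center (F ⧸ KK N)) else 0)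
    (by
      intro x y hx hy
      rw [dif_pos hx, dif_pos hy, dif_pos (N.mul_mem hx hy)]
      rfl)

theorem th_cls (x : F) (hx : x ∈ N) :
    th N (cls N x hx) = Additive.ofMul (⟨(x : F ⧸ KK N), pi_central N x hx⟩ : Subgroup.center (F ⧸ KK N)) := by
  unfold th
  rw [clsLift_cls, dif_pos hx]

theorem th_cls_val (x : F) (hx : x ∈ N) :
    ((Additive.toMul (th N (cls N x hx)) : Subgroup.center (F ⧸ KK N)) : F ⧸ KK N) = (x : F ⧸ KK N) := by
  rw [th_cls]
  rfl

theorem th_cj (f : F) (m : Additive (Abelianization N)) : th N (cj N f m) = th N m := by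
  obtain ⟨h, hh, rfl⟩ := cls_surj N m
  rw [cj_cls, th_cls, th_cls]
  congr 1
  apply Subtype.ext
  exact pi_conj N h hh f


variable {U : Subgroup F} {n : ℕ} (P : PermBasis F N U n)

attribute [instance] PermBasis.act

/-- orbits -/
abbrev TT : Type := MulAction.orbitRel.Quotient F P.Ω

/-- orbit of `ω` -/
def tq (ω : P.Ω) : TT N P := Quotient.mk _ ω

/-- representative -/
noncomputable def tr (t : TT N P) : P.Ω := Quotient.out t

omit [N.Normal] in
theorem tq_tr (t : TT N P) : tq N P (tr N P t) = t := Quotient.out_eq t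

omit [N.Normal] in
theorem tq_smul (f : F) (ω : P.Ω) : tq N P (f • ω) = tq N P ω :=
  Quotient.sound (MulAction.orbitRel_apply.2 ⟨f, rfl⟩)

omit [N.Normal] in
theorem tr_tq (ω : P.Ω) : ∃ f : F, f • ω = tr N P (tq N P ω) := by
  have h : (MulAction.orbitRel F P.Ω) (tr N P (tq N P ω)) ω := Quotient.exact (tq_tr N P (tq N P ω))
  exact MulAction.orbitRel_apply.1 h

theorem b_cj (f : F) (ω : P.Ω) : P.b (f • ω) = cj N f (P.b ω) := by
  rw [P.b_smul, P.b_eq, cj_cls]

theorem th_b (ω : P.Ω) : th N (P.b (tr N P (tq N P ω))) = th N (P.b ω) := by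
  obtain ⟨f, hf⟩ := tr_tq N P ω
  rw [← hf, b_cj, th_cj]

/-- `ℤ[T] → N^ab` -/
noncomputable def ps : (TT N P →₀ ℤ) →+ Additive (Abelianization N) :=
  Finsupp.liftAddHom fun t => zmultiplesHom _ (P.b (tr N P t))

omit [N.Normal] in
theorem ps_single (t : TT N P) (a : ℤ) : ps N P (Finsupp.single t a) = a • P.b (tr N P t) := by
  unfold ps
  rw [Finsupp.liftAddHom_apply_single]
  rfl

/-- `N^ab → ℤ[T]` -/
noncomputable def lT : Additive (Abelianization N) →+ (TT N P →₀ ℤ) :=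
  (Finsupp.mapDomain.addMonoidHom (tq N P)).comp (P.b.repr : Additive (Abelianization N) →ₗ[ℤ] (P.Ω →₀ ℤ)).toAddMonoidHom

omit [N.Normal] in
theorem lT_b (ω : P.Ω) : lT N P (P.b ω) = Finsupp.single (tq N P ω) 1 := by
  show Finsupp.mapDomain (tq N P) (P.b.repr (P.b ω)) = _
  rw [Module.Basis.repr_self, Finsupp.mapDomain_single]

omit [N.Normal] in
theorem lT_ps (v : TT N P →₀ ℤ) : lT N P (ps N P v) = v := by
  induction v using Finsupp.induction_linear with
  | zero => simp only [map_zero]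
  | add x y hx hy => simp only [map_add, hx, hy]
  | single t a =>
    rw [ps_single, map_zsmul, lT_b, tq_tr, Finsupp.smul_single, smul_eq_mul, mul_one]

theorem lT_cj (f : F) (m : Additive (Abelianization N)) : lT N P (cj N f m) = lT N P m := by
  refine basis_ext P.b ((lT N P).comp (cj N f)) (lT N P) ?_ m
  intro ω
  show lT N P (cj N f (P.b ω)) = lT N P (P.b ω)
  rw [← b_cj, lT_b, lT_b, tq_smul]

theorem lT_KK (h : F) (hh : h ∈ N) (hK : h ∈ KK N) : lT N P (cls N h hh) = 0 := by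
  let S : Subgroup F :=
    { carrier := {h | ∃ hh : h ∈ N, lT N P (cls N h hh) = 0}
      one_mem' := ⟨N.one_mem, by
        have : cls N 1 N.one_mem = 0 := by
          have h := cls_mul N 1 1 N.one_mem N.one_mem
          rw [cls_congr N (mul_one (1 : F)) _ N.one_mem] at h
          exact left_eq_add.1 h
        rw [this, map_zero]⟩
      mul_mem' := by
        rintro a b ⟨ha, ha'⟩ ⟨hb, hb'⟩
        exact ⟨N.mul_mem ha hb, by rw [cls_mul N a b ha hb, map_add, ha', hb', add_zero]⟩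
      inv_mem' := by
        rintro a ⟨ha, ha'⟩
        exact ⟨N.inv_mem ha, by rw [cls_inv N a ha, map_neg, ha', neg_zero]⟩ }
  have h1 : KK N ≤ S := by
    unfold KK
    rw [Subgroup.commutator_le]
    intro a ha f _
    have hc : f * a⁻¹ * f⁻¹ ∈ N := Subgroup.Normal.conj_mem inferInstance _ (N.inv_mem ha) f
    have e : ⁅a, f⁆ = a * (f * a⁻¹ * f⁻¹) := by
      rw [commutatorElement_def]
      group
    rw [e]
    refine ⟨N.mul_mem ha hc, ?_⟩
    rw [cls_mul N a _ ha hc, map_add, ← cj_cls N f a⁻¹ (N.inv_mem ha), lT_cj, cls_inv N a ha, map_neg, add_neg_cancel]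
  obtain ⟨h2, h3⟩ := h1 hK
  exact h3

theorem th_lT (m : Additive (Abelianization N)) (hm : th N m = 0) : lT N P m = 0 := by
  obtain ⟨h, hh, rfl⟩ := cls_surj N m
  apply lT_KK
  rw [← QuotientGroup.eq_one_iff, ← th_cls_val N h hh, hm]
  rfl

theorem th_ps (m : Additive (Abelianization N)) : th N (ps N P (lT N P m)) = th N m := by
  refine basis_ext P.b (((th N).comp (ps N P)).comp (lT N P)) (th N) ?_ m
  intro ω
  show th N (ps N P (lT N P (P.b ω))) = th N (P.b ω)
  rw [lT_b, ps_single, one_smul, th_b]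

/-- the central embedding -/
noncomputable def psi : Multiplicative (TT N P →₀ ℤ) →* F ⧸ KK N :=
  MonoidHom.mk' (fun v => ((Additive.toMul (th N (ps N P (Multiplicative.toAdd v))) :
    Subgroup.center (F ⧸ KK N)) : F ⧸ KK N)) (by
    intro a b
    rw [toAdd_mul, map_add, map_add, toMul_add]
    rfl)

theorem psi_apply (v : TT N P →₀ ℤ) : psi N P (Multiplicative.ofAdd v) =
    ((Additive.toMul (th N (ps N P v)) : Subgroup.center (F ⧸ KK N)) : F ⧸ KK N) := rfl

theorem psi_inj : Function.Injective (psi N P) := by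
  rw [injective_iff_map_eq_one]
  intro v hv
  have h1 : th N (ps N P (Multiplicative.toAdd v)) = 0 := by
    apply Additive.toMul.injective
    exact Subtype.ext hv
  have h2 := th_lT N P _ h1
  rw [lT_ps] at h2
  exact h2

theorem psi_central (v : Multiplicative (TT N P →₀ ℤ)) : psi N P v ∈ Subgroup.center (F ⧸ KK N) :=
  (Additive.toMul (th N (ps N P (Multiplicative.toAdd v)))).2

theorem psi_mem (v : Multiplicative (TT N P →₀ ℤ)) : ∃ h ∈ N, psi N P v = (h : F ⧸ KK N) := by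
  obtain ⟨h, hh, hm⟩ := cls_surj N (ps N P (Multiplicative.toAdd v))
  refine ⟨h, hh, ?_⟩
  rw [← th_cls_val N h hh, hm]
  rfl

theorem psi_surj (h : F) (hh : h ∈ N) : ∃ v : TT N P →₀ ℤ, psi N P (Multiplicative.ofAdd v) = (h : F ⧸ KK N) := by
  refine ⟨lT N P (cls N h hh), ?_⟩
  rw [psi_apply, th_ps, th_cls_val]

theorem psi_single (ω : P.Ω) : psi N P (Multiplicative.ofAdd (Finsupp.single (tq N P ω) 1)) =
    ((P.A ω : F) : F ⧸ KK N) ^ n := by
  rw [psi_apply, ps_single, one_smul, th_b, P.b_eq, th_cls_val]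
  rfl

/-- `F/[N,F] → F/N` -/
noncomputable def rho : F ⧸ KK N →* F ⧸ N := QuotientGroup.map (KK N) N (MonoidHom.id F) (KK_le N)

theorem rho_mk (f : F) : rho N (f : F ⧸ KK N) = (f : F ⧸ N) := rfl

theorem rho_surj : Function.Surjective (rho N) := by
  intro q
  induction q using QuotientGroup.induction_on with
  | H q => exact ⟨(q : F ⧸ KK N), rfl⟩

theorem rho_ker (g : F ⧸ KK N) : rho N g = 1 ↔ g ∈ PS (psi N P) Set.univ := by
  constructor
  · intro hg
    induction g using QuotientGroup.induction_on with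
    | H g =>
    rw [rho_mk, QuotientGroup.eq_one_iff] at hg
    obtain ⟨v, hv⟩ := psi_surj N P g hg
    exact ⟨v, Set.subset_univ _, hv⟩
  · rintro ⟨v, -, rfl⟩
    obtain ⟨h, hh, h1⟩ := psi_mem N P (Multiplicative.ofAdd v)
    rw [h1, rho_mk, QuotientGroup.eq_one_iff]
    exact hh

theorem psi_comm (hU : N ≤ commutator F) (v : Multiplicative (TT N P →₀ ℤ)) :
    psi N P v ∈ commutator (F ⧸ KK N) := by
  obtain ⟨h, hh, h1⟩ := psi_mem N P v
  rw [h1]
  have h2 : (commutator F).map (QuotientGroup.mk' (KK N)) ≤ commutator (F ⧸ KK N) := by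
    rw [commutator_def, Subgroup.map_commutator]
    exact Subgroup.commutator_mono le_top le_top
  exact h2 ⟨h, hU hh, rfl⟩

theorem KK_fix (h : F) (hh : h ∈ KK N) (ω : P.Ω) : h • ω = ω :=
  (P.stab ω h).2 ⟨0, h, KK_le N hh, by rw [zpow_zero, one_mul]⟩

/-- action of `F/[N,F]` on `Ω` -/
@[instance_reducible]
noncomputable def actΩ : MulAction (F ⧸ KK N) P.Ω :=
  MulAction.compHom P.Ω (QuotientGroup.lift (KK N) (MulAction.toPermHom F P.Ω) (fun h hh => by
    ext ω
    exact KK_fix N P h hh ω))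

theorem split (ω : P.Ω) (v : TT N P →₀ ℤ) : psi N P (Multiplicative.ofAdd v) =
    ((P.A ω : F) : F ⧸ KK N) ^ ((n : ℤ) * v (tq N P ω)) *
      psi N P (Multiplicative.ofAdd (v.erase (tq N P ω))) := by
  classical
  have h1 := psi_single N P ω
  rw [zpow_mul, zpow_natCast, ← h1, ← map_zpow, ← map_mul, ← ofAdd_zsmul, ← ofAdd_add, Finsupp.smul_single,
    smul_eq_mul, mul_one, Finsupp.single_add_erase]

theorem stab_iff (ω : P.Ω) (g : F ⧸ KK N) :
    (actΩ N P).toSMul.smul g ω = ω ↔ ∃ m : ℤ, ∃ p ∈ PS (psi N P) {tq N P ω}ᶜ,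
      g = ((P.A ω : F) : F ⧸ KK N) ^ m * p := by
  classical
  induction g using QuotientGroup.induction_on with
  | H g =>
  have h0 : (actΩ N P).toSMul.smul (g : F ⧸ KK N) ω = g • ω := rfl
  rw [h0, P.stab]
  constructor
  · rintro ⟨a, h, hh, rfl⟩
    obtain ⟨v, hv⟩ := psi_surj N P h hh
    refine ⟨a + n * v (tq N P ω), psi N P (Multiplicative.ofAdd (v.erase (tq N P ω))), ⟨_, ?_, rfl⟩, ?_⟩
    · intro t ht
      have ht' : t ∈ (v.erase (tq N P ω)).support := ht
      rw [Finsupp.support_erase, Finset.mem_erase] at ht'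
      exact ht'.1
    · rw [QuotientGroup.mk_mul, QuotientGroup.mk_zpow, ← hv, split N P ω v, zpow_add, mul_assoc]
  · rintro ⟨m, p, ⟨v, -, rfl⟩, hg⟩
    obtain ⟨h, hh, h1⟩ := psi_mem N P (Multiplicative.ofAdd v)
    rw [h1, ← QuotientGroup.mk_zpow, ← QuotientGroup.mk_mul] at hg
    have h2 := KK_le N (QuotientGroup.eq.1 hg.symm)
    refine ⟨m, h * ((P.A ω ^ m * h)⁻¹ * g), N.mul_mem hh h2, ?_⟩
    group

theorem free_iff (ω : P.Ω) (m : ℤ)
    (hm : ((P.A ω : F) : F ⧸ KK N) ^ m ∈ PS (psi N P) {tq N P ω}ᶜ) : m = 0 := by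
  classical
  obtain ⟨v, hv, h⟩ := hm
  obtain ⟨w, hw, h1⟩ := psi_mem N P (Multiplicative.ofAdd v)
  rw [h1, ← QuotientGroup.mk_zpow] at h
  have h2 := KK_le N (QuotientGroup.eq.1 h)
  have h3 : P.A ω ^ m ∈ N := by
    have : P.A ω ^ m = w * (w⁻¹ * P.A ω ^ m) := by group
    rw [this]
    exact N.mul_mem hw h2
  obtain ⟨c, rfl⟩ := (P.order ω m).1 h3
  rw [← h1, QuotientGroup.mk_zpow, zpow_mul, zpow_natCast, ← psi_single N P ω, ← map_zpow, ← ofAdd_zsmul,
    Finsupp.smul_single, smul_eq_mul, mul_one] at h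
  have h4 : v = Finsupp.single (tq N P ω) c := Multiplicative.ofAdd.injective (psi_inj N P h)
  have h5 : c = 0 := by
    by_contra hc
    have h6 : tq N P ω ∈ (v.support : Set (TT N P)) := by
      rw [h4]
      show _ ∈ (Finsupp.single (tq N P ω) c).support
      rw [Finsupp.mem_support_iff, Finsupp.single_eq_same]
      exact hc
    exact hv h6 rfl
  rw [h5, mul_zero]

end inst

section foxfin

variable {X : Type} (N : Subgroup (FreeGroup X)) [N.Normal]

/-- action of `F/[N,F]` on `F/N` -/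
@[instance_reducible]
noncomputable def aQ : MulAction (FreeGroup X ⧸ KK N) (FreeGroup X ⧸ N) where
  smul g q := rho N g * q
  one_smul q := by
    show rho N 1 * q = q
    rw [map_one, one_mul]
  mul_smul g h q := by
    show rho N (g * h) * q = rho N g * (rho N h * q)
    rw [map_mul, mul_assoc]

/-- action of `F/[N,F]` on `X × F/N` -/
@[instance_reducible]
noncomputable def aXQ : MulAction (FreeGroup X ⧸ KK N) (X × (FreeGroup X ⧸ N)) where
  smul g p := (p.1, rho N g * p.2)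
  one_smul p := by
    show (p.1, rho N 1 * p.2) = p
    rw [map_one, one_mul]
  mul_smul g h p := by
    show (p.1, rho N (g * h) * p.2) = (p.1, rho N g * (rho N h * p.2))
    rw [map_mul, mul_assoc]

attribute [local instance] aQ aXQ

/-- the module `ℤQ^(X)` -/
noncomputable abbrev MX : Rep.{0} ℤ (FreeGroup X ⧸ KK N) := pr ℤ (FreeGroup X ⧸ KK N) (X × (FreeGroup X ⧸ N))

/-- the module `ℤQ` -/
noncomputable abbrev MQ : Rep.{0} ℤ (FreeGroup X ⧸ KK N) := pr ℤ (FreeGroup X ⧸ KK N) (FreeGroup X ⧸ N)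

/-- identification -/
noncomputable def toMX : FoxMod X N →+ MX N := AddMonoidHom.id (X × (FreeGroup X ⧸ N) →₀ ℤ)

noncomputable def toMQ : (FreeGroup X ⧸ N →₀ ℤ) →+ MQ N := AddMonoidHom.id (FreeGroup X ⧸ N →₀ ℤ)

theorem toMX_single (p : X × (FreeGroup X ⧸ N)) (a : ℤ) : toMX N (Finsupp.single p a) = te p (a : ℤ) := rfl

theorem toMQ_single (p : FreeGroup X ⧸ N) (a : ℤ) : toMQ N (Finsupp.single p a) = te p (a : ℤ) := rfl

theorem toMX_inj : Function.Injective (toMX N) := fun _ _ h => h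
theorem toMQ_inj : Function.Injective (toMQ N) := fun _ _ h => h
theorem toMX_surj : Function.Surjective (toMX N) := fun x => ⟨x, rfl⟩
theorem toMQ_surj : Function.Surjective (toMQ N) := fun x => ⟨x, rfl⟩

theorem rho_fox (g : FreeGroup X ⧸ KK N) (m : FoxMod X N) :
    (MX N).ρ g (toMX N m) = toMX N (foxAct N (rho N g) m) := by
  induction m using Finsupp.induction_linear with
  | zero => simp only [map_zero]
  | add x y hx hy => simp only [map_add, hx, hy]
  | single p a =>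
    rw [foxAct_single, toMX_single, toMX_single, tw_rho_te]
    rfl

/-- boundary -/
noncomputable def bdm : MX N ⟶ MQ N :=
  prHom (fun p => toMQ N (Finsupp.single (p.2 * (FreeGroup.of p.1 : FreeGroup X)) 1 - Finsupp.single p.2 1)) (by
    intro g p
    rw [map_sub, map_sub, map_sub, toMQ_single, toMQ_single, toMQ_single, toMQ_single, tw_rho_te, tw_rho_te]
    show (te (rho N g * p.2 * (FreeGroup.of p.1 : FreeGroup X)) (1 : ℤ) : MQ N) - te (rho N g * p.2) (1 : ℤ) =
      (te (rho N g * (p.2 * (FreeGroup.of p.1 : FreeGroup X))) (1 : ℤ) : MQ N) - te (rho N g * p.2) (1 : ℤ)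
    rw [mul_assoc])

theorem bdm_eq (m : FoxMod X N) : (bdm N).hom (toMX N m) = toMQ N (foxBd N m) := by
  induction m using Finsupp.induction_linear with
  | zero => simp only [map_zero]
  | add x y hx hy => simp only [map_add, hx, hy]
  | single p a =>
    rw [foxBd_single, toMX_single]
    unfold bdm
    rw [prHom_te']
    show toMQ N (a • (Finsupp.single (p.2 * (FreeGroup.of p.1 : FreeGroup X)) 1 - Finsupp.single p.2 1)) = _
    rw [smul_sub, Finsupp.smul_single, Finsupp.smul_single, smul_eq_mul, mul_one]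

theorem aug_eq (m : FreeGroup X ⧸ N →₀ ℤ) :
    (twAug (FreeGroup X ⧸ N) (Rep.trivial ℤ (FreeGroup X ⧸ KK N) ℤ)).hom (toMQ N m) = augQ N m := by
  induction m using Finsupp.induction_linear with
  | zero => simp only [map_zero]
  | add x y hx hy => rw [map_add, map_add, map_add, hx, hy]
  | single p a =>
    rw [augQ_single, toMQ_single, twAug_te]

variable (D : FreeGroup X → FoxMod X N)

theorem D_pow (h2 : ∀ w w', D (w * w') = D w + foxAct N w (D w')) (w : FreeGroup X) (n : ℕ) :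
    D (w ^ n) = ∑ i ∈ Finset.range n, foxAct N ((w : FreeGroup X ⧸ N) ^ i) (D w) := by
  induction n with
  | zero => rw [pow_zero, fox_one D h2, Finset.range_zero, Finset.sum_empty]
  | succ n ih => rw [pow_succ, h2, ih, Finset.sum_range_succ, QuotientGroup.mk_pow]

theorem foxAct_sum (q : FreeGroup X ⧸ N) (d : FoxMod X N) :
    foxAct N q d = ∑ p ∈ d.support, d p • (Finsupp.single (p.1, q * p.2) 1 : FoxMod X N) := by
  show d.sum (fun p a => Finsupp.single (p.1, q * p.2) a) = _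
  refine Finset.sum_congr rfl fun p _ => ?_
  rw [Finsupp.smul_single, smul_eq_mul, mul_one]

theorem D_N (h2 : ∀ w w', D (w * w') = D w + foxAct N w (D w')) (x y : FreeGroup X) (hx : x ∈ N) :
    D (x * y) = D x + D y := by
  rw [h2, (QuotientGroup.eq_one_iff x).2 hx, foxAct_one]

theorem D_conj (h2 : ∀ w w', D (w * w') = D w + foxAct N w (D w')) (f h : FreeGroup X) (hh : h ∈ N) :
    D (f * h * f⁻¹) = foxAct N f (D h) := by
  rw [h2, h2, fox_inv D h2, map_neg, ← foxAct_mul, ← QuotientGroup.mk_mul,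
    (QuotientGroup.eq_one_iff (f * h * f⁻¹)).2 (Subgroup.Normal.conj_mem inferInstance h hh f), foxAct_one]
  abel

/-- `N^ab → ℤQ^(X)` -/
noncomputable def DM (h2 : ∀ w w', D (w * w') = D w + foxAct N w (D w')) :
    Additive (Abelianization N) →+ FoxMod X N :=
  clsLift N D (fun x y hx _ => D_N N D h2 x y hx)

theorem DM_cls (h2 : ∀ w w', D (w * w') = D w + foxAct N w (D w')) (x : FreeGroup X) (hx : x ∈ N) :
    DM N D h2 (cls N x hx) = D x := clsLift_cls _ _ _ _ _

theorem DM_inj (h1 : ∀ x, D (FreeGroup.of x) = Finsupp.single (x, 1) 1)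
    (h2 : ∀ w w', D (w * w') = D w + foxAct N w (D w')) : Function.Injective (DM N D h2) := by
  rw [injective_iff_map_eq_zero]
  intro m hm
  obtain ⟨h, hh, rfl⟩ := cls_surj N m
  rw [DM_cls] at hm
  have h3 := fox_inj N D h1 h2 hh hm
  have h4 : (⟨h, hh⟩ : N) ∈ commutator N := by
    rw [← Subgroup.map_subtype_commutator] at h3
    obtain ⟨⟨y, hy⟩, h5, h6⟩ := h3
    have : y = h := h6
    subst this
    exact h5
  rw [← Abelianization.ker_of] at h4
  exact congrArg Additive.ofMul (MonoidHom.mem_ker.1 h4)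

variable {n : ℕ} {U : Subgroup (FreeGroup X)} (P : PermBasis (FreeGroup X) N U n)

attribute [local instance] actΩ

/-- `ℤΩ` -/
noncomputable abbrev MΩ : Rep.{0} ℤ (FreeGroup X ⧸ KK N) :=
  @tw ℤ (FreeGroup X ⧸ KK N) _ _ P.Ω (actΩ N P) (Rep.trivial ℤ (FreeGroup X ⧸ KK N) ℤ)

/-- `ζ` -/
noncomputable def zet (h2 : ∀ w w', D (w * w') = D w + foxAct N w (D w')) : MΩ N P ⟶ MX N :=
  @prHom ℤ _ (FreeGroup X ⧸ KK N) _ P.Ω (actΩ N P) (MX N) (fun ω => toMX N (DM N D h2 (P.b ω))) (by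
    intro g ω
    induction g using QuotientGroup.induction_on with
    | H g =>
      show toMX N (DM N D h2 (P.b (g • ω))) = (MX N).ρ (g : FreeGroup X ⧸ KK N) (toMX N (DM N D h2 (P.b ω)))
      rw [rho_fox, P.b_smul, DM_cls, P.b_eq, DM_cls, D_conj N D h2 _ _ (P.pow_mem ω), rho_mk])


theorem zet_eq (h2 : ∀ w w', D (w * w') = D w + foxAct N w (D w')) (u : P.Ω →₀ ℤ) :
    (zet N D P h2).hom (u : MΩ N P) = toMX N (DM N D h2 (P.b.repr.symm u)) := by
  induction u using Finsupp.induction_linear with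
  | zero =>
    rw [map_zero, map_zero, map_zero]
    exact map_zero _
  | add x y hx hy =>
    have h3 : (zet N D P h2).hom ((x + y : P.Ω →₀ ℤ) : MΩ N P) =
      (zet N D P h2).hom (x : MΩ N P) + (zet N D P h2).hom (y : MΩ N P) := map_add _ _ _
    rw [h3, hx, hy, map_add, map_add, map_add]
  | single ω a =>
    have h3 : (zet N D P h2).hom ((Finsupp.single ω a : P.Ω →₀ ℤ) : MΩ N P) =
        a • toMX N (DM N D h2 (P.b ω)) :=
      @prHom_te' ℤ _ (FreeGroup X ⧸ KK N) _ P.Ω (actΩ N P) (MX N) (fun ω => toMX N (DM N D h2 (P.b ω))) _ ω a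
    rw [h3, ← Module.Basis.repr_symm_single_one]
    have h4 : (Finsupp.single ω a : P.Ω →₀ ℤ) = a • Finsupp.single ω 1 := by
      rw [Finsupp.smul_single, smul_eq_mul, mul_one]
    rw [h4, map_zsmul, map_zsmul, map_zsmul]

theorem zet_te (h2 : ∀ w w', D (w * w') = D w + foxAct N w (D w')) (ω : P.Ω) :
    (zet N D P h2).hom (@te ℤ (FreeGroup X ⧸ KK N) _ _ P.Ω (actΩ N P) (Rep.trivial ℤ (FreeGroup X ⧸ KK N) ℤ) ω (1 : ℤ)) =
      toMX N (D (P.A ω ^ n)) := by
  have h3 := zet_eq N D P h2 (Finsupp.single ω 1)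
  rw [Module.Basis.repr_symm_single_one, P.b_eq, DM_cls] at h3
  exact h3

theorem zet_ex (h1 : ∀ x, D (FreeGroup.of x) = Finsupp.single (x, 1) 1)
    (h2 : ∀ w w', D (w * w') = D w + foxAct N w (D w')) (v : MX N) :
    (bdm N).hom v = 0 ↔ ∃ u, (zet N D P h2).hom u = v := by
  obtain ⟨v, rfl⟩ := toMX_surj N v
  rw [bdm_eq]
  constructor
  · intro h
    have h3 : foxBd N v = 0 := toMQ_inj N (h.trans (map_zero _).symm)
    obtain ⟨w, hw, hv⟩ := (fox_ker N D h1 h2 v).1 h3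
    refine ⟨(P.b.repr (cls N w hw) : P.Ω →₀ ℤ), ?_⟩
    have h4 := zet_eq N D P h2 (P.b.repr (cls N w hw))
    rw [LinearEquiv.symm_apply_apply, DM_cls, hv] at h4
    exact h4
  · rintro ⟨u, hu⟩
    have h4 := zet_eq N D P h2 u
    rw [hu] at h4
    have h5 := toMX_inj N h4
    obtain ⟨w, hw, h6⟩ := cls_surj N (P.b.repr.symm u)
    rw [h5, ← h6, DM_cls, (fox_ker N D h1 h2 (D w)).2 ⟨w, hw, rfl⟩, map_zero]

theorem zet_inj (h1 : ∀ x, D (FreeGroup.of x) = Finsupp.single (x, 1) 1)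
    (h2 : ∀ w w', D (w * w') = D w + foxAct N w (D w')) : Function.Injective (zet N D P h2).hom := by
  intro u u' h
  have h3 := zet_eq N D P h2 u
  have h4 := zet_eq N D P h2 u'
  rw [h] at h3
  have h5 := toMX_inj N (h3.symm.trans h4)
  exact P.b.repr.symm.injective (DM_inj N D h1 h2 h5)

theorem aug_ex (u : MQ N) :
    (twAug (FreeGroup X ⧸ N) (Rep.trivial ℤ (FreeGroup X ⧸ KK N) ℤ)).hom u = 0 ↔
      ∃ v, (bdm N).hom v = u := by
  obtain ⟨u, rfl⟩ := toMQ_surj N u
  rw [aug_eq]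
  constructor
  · intro h
    obtain ⟨v, hv⟩ := (aug_ker N u).1 h
    exact ⟨toMX N v, by rw [bdm_eq, hv]⟩
  · rintro ⟨v, hv⟩
    obtain ⟨v, rfl⟩ := toMX_surj N v
    rw [bdm_eq] at hv
    exact (aug_ker N u).2 ⟨v, toMQ_inj N hv⟩

theorem zet_sum (h2 : ∀ w w', D (w * w') = D w + foxAct N w (D w')) (ω : P.Ω) :
    (zet N D P h2).hom (@te ℤ (FreeGroup X ⧸ KK N) _ _ P.Ω (actΩ N P) (Rep.trivial ℤ (FreeGroup X ⧸ KK N) ℤ) ω (1 : ℤ)) =
      ∑ i ∈ Finset.range n, ∑ p ∈ (D (P.A ω)).support,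
        D (P.A ω) p • (te (p.1, rho N (P.A ω : FreeGroup X) ^ i * p.2) (1 : ℤ) : MX N) := by
  rw [zet_te, D_pow N D h2, map_sum]
  refine Finset.sum_congr rfl fun i _ => ?_
  rw [foxAct_sum, map_sum]
  refine Finset.sum_congr rfl fun p _ => ?_
  rw [map_zsmul, toMX_single]
  rfl

end foxfin

end HP

open HP

/-- torsion freeness of the homology of `F ⧸ [N, F]` -/
theorem hom_tf (X : Type) {n : ℕ} (hn : 1 ≤ n) (N : Subgroup (FreeGroup X))
    (hN : N ≤ commutator (FreeGroup X)) [N.Normal]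
    (P : PermBasis (FreeGroup X) N (commutator (FreeGroup X)) n) (k : ℕ) (hk : 1 ≤ k) (m : ℤ)
    (x : groupHomology (Rep.trivial ℤ (FreeGroup X ⧸ ⁅N, (⊤ : Subgroup (FreeGroup X))⁆) ℤ) k)
    (hm : m ≠ 0) (hx : m • x = 0) : x = 0 := by
  classical
  obtain ⟨D, d1, d2⟩ := exists_fox N
  refine @hom_core (FreeGroup X ⧸ KK N) (FreeGroup X ⧸ N) _ _ (TT N P) X P.Ω (actΩ N P) (aQ N) (aXQ N) _
    (rho N) (rho_surj N) (fun _ _ => rfl) (fun _ _ => rfl) (psi N P) (psi_inj N P) (psi_central N P)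
    (psi_comm N P hN) (rho_ker N P) n (zet N D P d2) (bdm N) (zet_inj N D P d1 d2) (zet_ex N D P d1 d2)
    (aug_ex N) ?_ k hk m x hm hx
  intro ω
  refine ⟨tq N P ω, ((P.A ω : FreeGroup X) : FreeGroup X ⧸ KK N), D (P.A ω), fun g => stab_iff N P ω g,
    fun m hm => free_iff N P ω m hm, ?_, zet_sum N D P d2 ω, fun x => fox_aug N D d1 d2 (P.A_mem ω) x⟩
  rw [rho_mk, ← QuotientGroup.mk_pow, QuotientGroup.eq_one_iff]
  exact P.pow_mem ω

end Run7.h253
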