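import Mathlib

/-!
# Piece `homA`: wrapper for Mathlib's group homology, twisted permutation modules, and (R)

(Coefficients in a commutative ring `k` only to avoid instance diamonds for `ℤ`.)

* `Hm f j` : the induced linear map, functorial and additive; `SES`, `dl` (connecting map) and the long exact
  sequence in element form; naturality of `dl`.
* `tw Y A` = `k[Y] ⊗ A` with the diagonal action, carrier `Y →₀ A`, `g (y ⊗ a) = g y ⊗ g a`.
* `vanish`: `H_(j+1)(G, tw Y (tw G A)) = 0`.  Contracting homotopy on the inhomogeneous chains: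
  `s (g ⊗ b) = (x⁻¹, g) ⊗ x⁻¹ b` for `b` homogeneous of degree `x ∈ G`.
* (R) `Hm_twT`: for `h : Y → G` with `h (k y) = k (h y) k⁻¹`, the endomorphism `y ⊗ a ↦ (h y) (y ⊗ a)` of `tw Y A` is the
  identity on `H_j`.  `j = 0`: `H_0` = coinvariants.  `j + 1`: `0 → K → tw G A → A → 0` (`x ⊗ a ↦ a`), apply
  `tw Y`, naturality of `dl`, and `dl` is injective by `vanish`.
-/

set_option autoImplicit false
namespace Run7.h253
open CategoryTheory
variable {k G : Type} [CommRing k] [Group G]

/-- induced map on homology -/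
noncomputable def Hm {A B : Rep.{0} k G} (f : A ⟶ B) (j : ℕ) :
    groupHomology A j →ₗ[k] groupHomology B j :=
  ModuleCat.Hom.hom ((groupHomology.functor k G j).map f)

theorem Hm_id (A : Rep.{0} k G) (j : ℕ) (x : groupHomology A j) : Hm (𝟙 A) j x = x := by
  unfold Hm
  rw [CategoryTheory.Functor.map_id]
  rfl

theorem Hm_comp {A B C : Rep.{0} k G} (f : A ⟶ B) (g : B ⟶ C) (j : ℕ) (x : groupHomology A j) :
    Hm (f ≫ g) j x = Hm g j (Hm f j x) := by
  unfold Hm
  rw [CategoryTheory.Functor.map_comp]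
  rfl

theorem chainsMap_add {A B : Rep.{0} k G} (f g : A ⟶ B) :
    groupHomology.chainsMap (MonoidHom.id G) (f + g) =
      groupHomology.chainsMap (MonoidHom.id G) f + groupHomology.chainsMap (MonoidHom.id G) g := by
  ext i x a
  simp [groupHomology.chainsMap_f, Rep.add_hom]

theorem Hm_add {A B : Rep.{0} k G} (f g : A ⟶ B) (j : ℕ) (x : groupHomology A j) :
    Hm (f + g) j x = Hm f j x + Hm g j x := by
  have : (groupHomology.functor k G j).map (f + g) =
      (groupHomology.functor k G j).map f + (groupHomology.functor k G j).map g := by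
    show HomologicalComplex.homologyMap (groupHomology.chainsMap (MonoidHom.id G) (f + g)) j =
      HomologicalComplex.homologyMap (groupHomology.chainsMap (MonoidHom.id G) f) j +
      HomologicalComplex.homologyMap (groupHomology.chainsMap (MonoidHom.id G) g) j
    rw [chainsMap_add, HomologicalComplex.homologyMap_add]
  unfold Hm
  rw [this]
  rfl

/-- `Hm` as an additive map in `f` -/
noncomputable def HmA {A B : Rep.{0} k G} (j : ℕ) (x : groupHomology A j) :
    (A ⟶ B) →+ groupHomology B j :=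
  AddMonoidHom.mk' (fun f => Hm f j x) (fun f g => Hm_add f g j x)

theorem Hm_sub {A B : Rep.{0} k G} (f g : A ⟶ B) (j : ℕ) (x : groupHomology A j) :
    Hm (f - g) j x = Hm f j x - Hm g j x :=
  (HmA j x).map_sub f g

theorem Hm_zero {A B : Rep.{0} k G} (j : ℕ) (x : groupHomology A j) :
    Hm (0 : A ⟶ B) j x = 0 :=
  (HmA j x).map_zero

theorem Hm_zsmul {A B : Rep.{0} k G} (m : ℤ) (f : A ⟶ B) (j : ℕ) (x : groupHomology A j) :
    Hm (m • f) j x = m • Hm f j x :=
  (HmA j x).map_zsmul m f

/-- short exact sequence of `G`-modules, elementwise -/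
structure SES {A B C : Rep.{0} k G} (f : A ⟶ B) (g : B ⟶ C) : Prop where
  inj : Function.Injective f.hom
  surj : Function.Surjective g.hom
  exact : ∀ b, g.hom b = 0 ↔ ∃ a, f.hom a = b

theorem SES.w {A B C : Rep.{0} k G} {f : A ⟶ B} {g : B ⟶ C} (h : SES f g) : f ≫ g = 0 := by
  ext x
  exact (h.exact _).2 ⟨x, rfl⟩

/-- the short complex -/
noncomputable abbrev SES.sc {A B C : Rep.{0} k G} {f : A ⟶ B} {g : B ⟶ C} (h : SES f g) :
    ShortComplex (Rep.{0} k G) := ShortComplex.mk f g h.w

theorem SES.se {A B C : Rep.{0} k G} {f : A ⟶ B} {g : B ⟶ C} (h : SES f g) :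
    h.sc.ShortExact := by
  have hm : Mono f := (Rep.mono_iff_injective f).2 h.inj
  have he : Epi g := (Rep.epi_iff_surjective g).2 h.surj
  refine { exact := ?_, mono_f := hm, epi_g := he }
  rw [← ShortComplex.exact_map_iff_of_faithful h.sc (forget₂ (Rep.{0} k G) (ModuleCat.{0} k)),
    ShortComplex.moduleCat_exact_iff]
  intro x hx
  exact (h.exact x).1 hx

/-- the connecting map -/
noncomputable def dl {A B C : Rep.{0} k G} {f : A ⟶ B} {g : B ⟶ C} (h : SES f g) (j : ℕ) :
    groupHomology C (j + 1) →ₗ[k] groupHomology A j :=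
  ModuleCat.Hom.hom (groupHomology.δ h.se (j + 1) j rfl)

theorem les_mid {A B C : Rep.{0} k G} {f : A ⟶ B} {g : B ⟶ C} (h : SES f g) (j : ℕ)
    (b : groupHomology B j) : Hm g j b = 0 ↔ ∃ a, Hm f j a = b := by
  have h1 := groupHomology.mapShortComplex₂_exact h.se j
  rw [ShortComplex.moduleCat_exact_iff] at h1
  constructor
  · intro hb
    exact h1 b hb
  · rintro ⟨a, rfl⟩
    rw [← Hm_comp, h.w, Hm_zero]

theorem dl_right {A B C : Rep.{0} k G} {f : A ⟶ B} {g : B ⟶ C} (h : SES f g) (j : ℕ)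
    (x : groupHomology C (j + 1)) : dl h j x = 0 ↔ ∃ y, Hm g (j + 1) y = x := by
  have h1 := groupHomology.mapShortComplex₃_exact h.se (i := j + 1) (j := j) rfl
  rw [ShortComplex.moduleCat_exact_iff] at h1
  constructor
  · intro hb
    exact h1 x hb
  · rintro ⟨a, rfl⟩
    have h2 := (groupHomology.mapShortComplex₃ h.se (i := j + 1) (j := j) rfl).zero
    exact congrArg (fun t => ModuleCat.Hom.hom t a) h2

theorem dl_left {A B C : Rep.{0} k G} {f : A ⟶ B} {g : B ⟶ C} (h : SES f g) (j : ℕ)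
    (a : groupHomology A j) : Hm f j a = 0 ↔ ∃ x, dl h j x = a := by
  have h1 := groupHomology.mapShortComplex₁_exact h.se (i := j + 1) (j := j) rfl
  rw [ShortComplex.moduleCat_exact_iff] at h1
  constructor
  · intro hb
    exact h1 a hb
  · rintro ⟨a, rfl⟩
    have h2 := (groupHomology.mapShortComplex₁ h.se (i := j + 1) (j := j) rfl).zero
    exact congrArg (fun t => ModuleCat.Hom.hom t a) h2

theorem dl_nat {A B C A' B' C' : Rep.{0} k G} {f : A ⟶ B} {g : B ⟶ C} {f' : A' ⟶ B'} {g' : B' ⟶ C'}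
    (h : SES f g) (h' : SES f' g') (a : A ⟶ A') (b : B ⟶ B') (c : C ⟶ C')
    (e1 : f ≫ b = a ≫ f') (e2 : g ≫ c = b ≫ g') (j : ℕ) (x : groupHomology C (j + 1)) :
    dl h' j (Hm c (j + 1) x) = Hm a j (dl h j x) := by
  let φ : h.sc ⟶ h'.sc := { τ₁ := a, τ₂ := b, τ₃ := c, comm₁₂ := e1.symm, comm₂₃ := e2.symm }
  have h1 := HomologicalComplex.HomologySequence.δ_naturality
    ((groupHomology.chainsFunctor k G).mapShortComplex.map φ)
    (groupHomology.map_chainsFunctor_shortExact h.se)
    (groupHomology.map_chainsFunctor_shortExact h'.se) (j + 1) j rfl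
  exact (congrArg (fun t => ModuleCat.Hom.hom t x) h1).symm

/-- the connecting homomorphism -/
theorem exists_dl : ∃ dl : ∀ {A B C : Rep.{0} k G} {f : A ⟶ B} {g : B ⟶ C}, SES f g → ∀ j : ℕ,
      groupHomology C (j + 1) →ₗ[k] groupHomology A j,
    (∀ {A B C : Rep.{0} k G} {f : A ⟶ B} {g : B ⟶ C} (h : SES f g) (j : ℕ) (x : groupHomology C (j + 1)),
      dl h j x = 0 ↔ ∃ y, Hm g (j + 1) y = x) ∧
    (∀ {A B C : Rep.{0} k G} {f : A ⟶ B} {g : B ⟶ C} (h : SES f g) (j : ℕ) (a : groupHomology A j),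
      Hm f j a = 0 ↔ ∃ x, dl h j x = a) ∧
    (∀ {A B C A' B' C' : Rep.{0} k G} {f : A ⟶ B} {g : B ⟶ C} {f' : A' ⟶ B'} {g' : B' ⟶ C'}
      (h : SES f g) (h' : SES f' g') (a : A ⟶ A') (b : B ⟶ B') (c : C ⟶ C')
      (_ : f ≫ b = a ≫ f') (_ : g ≫ c = b ≫ g') (j : ℕ) (x : groupHomology C (j + 1)),
      dl h' j (Hm c (j + 1) x) = Hm a j (dl h j x)) :=
  ⟨fun h j => dl h j, dl_right, dl_left, dl_nat⟩

theorem les_zero {A B C : Rep.{0} k G} {f : A ⟶ B} {g : B ⟶ C} (h : SES f g) :
    Function.Surjective (Hm g 0) := by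
  have he : Epi g := (Rep.epi_iff_surjective g).2 h.surj
  exact (ModuleCat.epi_iff_surjective (groupHomology.map (MonoidHom.id G) g 0)).1 inferInstance


theorem contract_zero {n : ℕ} (t : G) (g : Fin (n + 1) → G) :
    Fin.contractNth 0 (· * ·) (Fin.cons t g : Fin (n + 2) → G) =
      Fin.cons (t * g 0) (fun i => g i.succ) := by
  funext i
  refine Fin.cases ?_ (fun i => ?_) i
  · simp [Fin.contractNth]
  · simp [Fin.contractNth]

theorem contract_succ {n : ℕ} (t : G) (g : Fin (n + 1) → G) (j : Fin (n + 1)) :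
    Fin.contractNth j.succ (· * ·) (Fin.cons t g : Fin (n + 2) → G) =
      Fin.cons t (Fin.contractNth j (· * ·) g) := by
  funext i
  refine Fin.cases ?_ (fun i => ?_) i
  · simp [Fin.contractNth]
  · simp only [Fin.contractNth, Fin.val_succ, add_lt_add_iff_right, add_left_inj, Fin.cons_succ,
      Fin.castSucc_succ]

/-- the contracting homotopy -/
noncomputable def hs {B : Rep.{0} k G} (c : B →ₗ[k] (G →₀ B)) (n : ℕ) :
    ((Fin n → G) →₀ B) →ₗ[k] ((Fin (n + 1) → G) →₀ B) :=
  Finsupp.lsum k fun g => (Finsupp.lmapDomain B k (fun t => (Fin.cons t g : Fin (n + 1) → G))) ∘ₗ c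

theorem hs_single {B : Rep.{0} k G} (c : B →ₗ[k] (G →₀ B)) (n : ℕ) (g : Fin n → G) (b : B) :
    hs c n (Finsupp.single g b) =
      Finsupp.mapDomain (fun t => (Fin.cons t g : Fin (n + 1) → G)) (c b) := by
  simp [hs]

theorem d_cons {B : Rep.{0} k G} (n : ℕ) (g : Fin (n + 1) → G) (w : G →₀ B) :
    (groupHomology.inhomogeneousChains.d B (n + 1)).hom
      (Finsupp.mapDomain (fun t => (Fin.cons t g : Fin (n + 2) → G)) w) =
    Finsupp.single g (Finsupp.lsum k (fun t => B.ρ t⁻¹) w) -
      Finsupp.mapDomain (fun t => (Fin.cons (t * g 0) (fun i => g i.succ) : Fin (n + 1) → G)) w +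
      ∑ j : Fin (n + 1), (-1 : k) ^ (j : ℕ) •
        Finsupp.mapDomain (fun t => (Fin.cons t (Fin.contractNth j (· * ·) g) : Fin (n + 1) → G)) w := by
  induction w using Finsupp.induction_linear with
  | zero => simp
  | add w1 w2 h1 h2 =>
    rw [Finsupp.mapDomain_add, map_add, h1, h2, map_add, Finsupp.single_add, Finsupp.mapDomain_add]
    simp only [Finsupp.mapDomain_add, smul_add, Finset.sum_add_distrib]
    abel
  | single t v =>
    rw [Finsupp.mapDomain_single, groupHomology.inhomogeneousChains.d_single, Fin.sum_univ_succ]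
    simp only [Finsupp.mapDomain_single, contract_zero, contract_succ]
    simp [pow_succ]
    abel

theorem homotopy {B : Rep.{0} k G} (c : B →ₗ[k] (G →₀ B))
    (c1 : ∀ b, Finsupp.lsum k (fun t : G => B.ρ t⁻¹) (c b) = b)
    (c2 : ∀ h b, c (B.ρ h⁻¹ b) = Finsupp.mapDomain (· * h) (c b)) (n : ℕ)
    (z : (Fin (n + 1) → G) →₀ B) :
    (groupHomology.inhomogeneousChains.d B (n + 1)).hom (hs c (n + 1) z) +
      hs c n ((groupHomology.inhomogeneousChains.d B n).hom z) = z := by
  induction z using Finsupp.induction_linear with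
  | zero => simp
  | add w1 w2 h1 h2 =>
    have := congrArg₂ (· + ·) h1 h2
    simp only [map_add] at this ⊢
    rw [← this]
    abel
  | single g b =>
    rw [hs_single, d_cons, groupHomology.inhomogeneousChains.d_single, map_add, map_sum, hs_single,
      c1, c2, ← Finsupp.mapDomain_comp]
    simp only [map_smul, hs_single]
    have h3 : ∑ j : Fin (n + 1), (-1 : k) ^ ((j : ℕ) + 1) •
        Finsupp.mapDomain (fun t => (Fin.cons t (Fin.contractNth j (· * ·) g) : Fin (n + 1) → G)) (c b) =
        - ∑ j : Fin (n + 1), (-1 : k) ^ (j : ℕ) •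
        Finsupp.mapDomain (fun t => (Fin.cons t (Fin.contractNth j (· * ·) g) : Fin (n + 1) → G)) (c b) := by
      rw [← Finset.sum_neg_distrib]
      refine Finset.sum_congr rfl fun j _ => ?_
      rw [pow_succ, mul_neg_one, neg_smul]
    rw [h3]
    have h4 : ((fun t => (Fin.cons t (fun i => g i.succ) : Fin (n + 1) → G)) ∘ fun x => x * g 0) =
      (fun t => (Fin.cons (t * g 0) (fun i => g i.succ) : Fin (n + 1) → G)) := rfl
    rw [h4]
    abel

theorem pi_zero (K : ChainComplex (ModuleCat.{0} k) ℕ) (j : ℕ) (x : K.cycles j) (y : K.X (j + 1))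
    (h : (K.d (j + 1) j).hom y = (K.iCycles j).hom x) : (K.homologyπ j).hom x = 0 := by
  have h3 : (K.toCycles (j + 1) j).hom y = x := by
    apply (ModuleCat.mono_iff_injective (K.iCycles j)).1 inferInstance
    have := K.toCycles_i (j + 1) j
    exact (congrArg (fun t => ModuleCat.Hom.hom t y) this).trans h
  rw [← h3]
  have := K.toCycles_comp_homologyπ (j + 1) j
  exact congrArg (fun t => ModuleCat.Hom.hom t y) this

theorem vanish_of_homotopy {B : Rep.{0} k G} (c : B →ₗ[k] (G →₀ B))
    (c1 : ∀ b, Finsupp.lsum k (fun t : G => B.ρ t⁻¹) (c b) = b)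
    (c2 : ∀ h b, c (B.ρ h⁻¹ b) = Finsupp.mapDomain (· * h) (c b)) (j : ℕ)
    (x : groupHomology B (j + 1)) : x = 0 := by
  induction x using groupHomology_induction_on with
  | h x =>
    have h1 := homotopy c c1 c2 j (groupHomology.iCycles B (j + 1) x)
    have h2 : (groupHomology.inhomogeneousChains.d B j).hom (groupHomology.iCycles B (j + 1) x) = 0 := by
      have := (groupHomology.inhomogeneousChains B).iCycles_d (j + 1) j
      rw [groupHomology.inhomogeneousChains.d_def] at this
      exact congrArg (fun t => ModuleCat.Hom.hom t x) this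
    rw [h2, map_zero, add_zero] at h1
    refine pi_zero (groupHomology.inhomogeneousChains B) (j + 1) x
      (hs c (j + 1) (groupHomology.iCycles B (j + 1) x)) ?_
    rw [groupHomology.inhomogeneousChains.d_def]
    exact h1


/-- `k[Y] ⊗ A`, diagonal action -/
noncomputable def twRep (Y : Type) [MulAction G Y] (A : Rep.{0} k G) :
    Representation k G (Y →₀ A) where
  toFun g := Finsupp.lmapDomain A k (g • ·) ∘ₗ Finsupp.mapRange.linearMap (A.ρ g)
  map_one' := by
    ext y a
    simp
  map_mul' g g' := by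
    ext y a
    simp [mul_smul]

noncomputable def tw (Y : Type) [MulAction G Y] (A : Rep.{0} k G) : Rep.{0} k G := Rep.of (twRep Y A)

/-- the permutation module `k[Y]` -/
noncomputable abbrev pr (k G : Type) [CommRing k] [Group G] (Y : Type) [MulAction G Y] : Rep.{0} k G :=
  tw Y (Rep.trivial k G k)

/-- generator `y ⊗ a` -/
noncomputable def te {Y : Type} [MulAction G Y] {A : Rep.{0} k G} (y : Y) (a : A) : tw Y A :=
  (Finsupp.single y a : Y →₀ A)

theorem tw_rho_te {Y : Type} [MulAction G Y] {A : Rep.{0} k G} (g : G) (y : Y) (a : A) :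
    (tw Y A).ρ g (te y a) = te (g • y) (A.ρ g a) := by
  show (Finsupp.lmapDomain A k (g • ·) ∘ₗ Finsupp.mapRange.linearMap (A.ρ g)) (Finsupp.single y a) = _
  simp [te]

theorem te_add {Y : Type} [MulAction G Y] {A : Rep.{0} k G} (y : Y) (a b : A) :
    (te y (a + b) : tw Y A) = te y a + te y b := Finsupp.single_add y a b

theorem te_zero {Y : Type} [MulAction G Y] {A : Rep.{0} k G} (y : Y) :
    (te y (0 : A) : tw Y A) = 0 := Finsupp.single_zero y

theorem te_smul {Y : Type} [MulAction G Y] {A : Rep.{0} k G} (y : Y) (r : k) (a : A) :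
    (te y (r • a) : tw Y A) = r • te y a := (Finsupp.smul_single r y a).symm

@[elab_as_elim]
theorem tw_induction {Y : Type} [MulAction G Y] {A : Rep.{0} k G} {p : tw Y A → Prop} (x : tw Y A)
    (h0 : p 0) (hadd : ∀ x y, p x → p y → p (x + y)) (hte : ∀ y a, p (te y a)) : p x :=
  Finsupp.induction_linear (motive := p) x h0 hadd hte

/-- linear map out of `tw Y A` -/
noncomputable def twLift {Y : Type} [MulAction G Y] {A B : Rep.{0} k G} (F : Y → A →ₗ[k] B)
    (hF : ∀ (g : G) (y : Y) (a : A), F (g • y) (A.ρ g a) = B.ρ g (F y a)) : tw Y A ⟶ B :=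
  Rep.ofHom ⟨(Finsupp.lsum k F : (Y →₀ A) →ₗ[k] B), by
    intro g
    ext y a
    simp [twRep, hF]⟩

theorem twLift_te {Y : Type} [MulAction G Y] {A B : Rep.{0} k G} (F : Y → A →ₗ[k] B)
    (hF : ∀ (g : G) (y : Y) (a : A), F (g • y) (A.ρ g a) = B.ρ g (F y a)) (y : Y) (a : A) :
    (twLift F hF).hom (te y a) = F y a := by
  show Finsupp.lsum k F (Finsupp.single y a) = F y a
  simp

theorem tw_ext {Y : Type} [MulAction G Y] {A B : Rep.{0} k G} {f g : tw Y A ⟶ B}
    (h : ∀ y a, f.hom (te y a) = g.hom (te y a)) : f = g := by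
  ext x
  induction x using tw_induction with
  | h0 => simp
  | hadd x y hx hy => rw [map_add, map_add, hx, hy]
  | hte y a => exact h y a

/-- the augmentation `x ⊗ a ↦ a` -/
noncomputable def twAug (Y : Type) [MulAction G Y] (A : Rep.{0} k G) : tw Y A ⟶ A :=
  twLift (fun _ => LinearMap.id) (fun _ _ _ => rfl)

theorem twAug_te (Y : Type) [MulAction G Y] (A : Rep.{0} k G) (y : Y) (a : A) :
    (twAug Y A).hom (te y a) = a := twLift_te _ _ y a


/-- the grading map for `tw Y (tw G A)` -/
noncomputable def cc (Y : Type) [MulAction G Y] (A : Rep.{0} k G) :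
    tw Y (tw G A) →ₗ[k] (G →₀ tw Y (tw G A)) :=
  (Finsupp.lsum k fun y : Y => (Finsupp.lsum k fun x : G =>
    (Finsupp.lsingle x⁻¹ : tw Y (tw G A) →ₗ[k] (G →₀ tw Y (tw G A))) ∘ₗ
      ((tw Y (tw G A)).ρ x⁻¹) ∘ₗ (Finsupp.lsingle y : tw G A →ₗ[k] (Y →₀ tw G A)) ∘ₗ
        (Finsupp.lsingle x : A →ₗ[k] (G →₀ A)) : (G →₀ A) →ₗ[k] (G →₀ tw Y (tw G A))) :
    (Y →₀ (G →₀ A)) →ₗ[k] (G →₀ tw Y (tw G A)))

theorem cc_te (Y : Type) [MulAction G Y] (A : Rep.{0} k G) (y : Y) (x : G) (a : A) :
    cc Y A (te y (te x a)) =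
      Finsupp.single x⁻¹ ((tw Y (tw G A)).ρ x⁻¹ (te y (te x a))) := by
  show (Finsupp.lsum k fun y : Y => (Finsupp.lsum k fun x : G =>
    (Finsupp.lsingle x⁻¹ : tw Y (tw G A) →ₗ[k] (G →₀ tw Y (tw G A))) ∘ₗ
      ((tw Y (tw G A)).ρ x⁻¹) ∘ₗ (Finsupp.lsingle y : tw G A →ₗ[k] (Y →₀ tw G A)) ∘ₗ
        (Finsupp.lsingle x : A →ₗ[k] (G →₀ A)) : (G →₀ A) →ₗ[k] (G →₀ tw Y (tw G A))) :
    (Y →₀ (G →₀ A)) →ₗ[k] (G →₀ tw Y (tw G A))) (Finsupp.single y (Finsupp.single x a)) = _
  rw [Finsupp.lsum_single, Finsupp.lsum_single]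
  rfl

theorem vanish (A : Rep.{0} k G) (Y : Type) [MulAction G Y] (j : ℕ)
    (x : groupHomology (tw Y (tw G A)) (j + 1)) : x = 0 := by
  refine vanish_of_homotopy (cc Y A) ?_ ?_ j x
  · intro b
    induction b using tw_induction with
    | h0 => simp
    | hadd x y hx hy => rw [map_add, map_add, hx, hy]
    | hte y b =>
      induction b using tw_induction with
      | h0 => simp [te_zero]
      | hadd b b' hb hb' => rw [te_add, map_add, map_add, hb, hb']
      | hte x a =>
        rw [cc_te, Finsupp.lsum_single, inv_inv, ← LinearMap.comp_apply, ← Module.End.mul_eq_comp, ← map_mul,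
          mul_inv_cancel, map_one]
        rfl
  · intro h b
    induction b using tw_induction with
    | h0 => simp
    | hadd x y hx hy => rw [map_add, map_add, map_add, hx, hy, Finsupp.mapDomain_add]
    | hte y b =>
      induction b using tw_induction with
      | h0 => simp [te_zero]
      | hadd b b' hb hb' => rw [te_add, map_add, map_add, map_add, hb, hb', Finsupp.mapDomain_add]
      | hte x a =>
        rw [cc_te, Finsupp.mapDomain_single, tw_rho_te, tw_rho_te, cc_te, tw_rho_te, tw_rho_te,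
          tw_rho_te, tw_rho_te]
        simp only [smul_eq_mul, mul_inv_rev, inv_inv, smul_smul]
        congr 2
        · group
        · congr 1
          · group
          · rw [← LinearMap.comp_apply, ← Module.End.mul_eq_comp, ← map_mul]
            congr 2
            group

/-- the grading map for `tw G A` -/
noncomputable def cc' (A : Rep.{0} k G) : tw G A →ₗ[k] (G →₀ tw G A) :=
  (Finsupp.lsum k fun x : G =>
    (Finsupp.lsingle x⁻¹ : tw G A →ₗ[k] (G →₀ tw G A)) ∘ₗ
      ((tw G A).ρ x⁻¹) ∘ₗ (Finsupp.lsingle x : A →ₗ[k] (G →₀ A)) : (G →₀ A) →ₗ[k] (G →₀ tw G A))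

theorem cc'_te (A : Rep.{0} k G) (x : G) (a : A) :
    cc' A (te x a) = Finsupp.single x⁻¹ ((tw G A).ρ x⁻¹ (te x a)) := by
  show (Finsupp.lsum k fun x : G =>
    (Finsupp.lsingle x⁻¹ : tw G A →ₗ[k] (G →₀ tw G A)) ∘ₗ
      ((tw G A).ρ x⁻¹) ∘ₗ (Finsupp.lsingle x : A →ₗ[k] (G →₀ A)) : (G →₀ A) →ₗ[k] (G →₀ tw G A))
    (Finsupp.single x a) = _
  rw [Finsupp.lsum_single]
  rfl

theorem vanish' (A : Rep.{0} k G) (j : ℕ) (x : groupHomology (tw G A) (j + 1)) : x = 0 := by
  refine vanish_of_homotopy (cc' A) ?_ ?_ j x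
  · intro b
    induction b using tw_induction with
    | h0 => simp
    | hadd b b' hb hb' => rw [map_add, map_add, hb, hb']
    | hte x a =>
      rw [cc'_te, Finsupp.lsum_single, inv_inv, ← LinearMap.comp_apply, ← Module.End.mul_eq_comp, ← map_mul,
        mul_inv_cancel, map_one]
      rfl
  · intro h b
    induction b using tw_induction with
    | h0 => simp
    | hadd b b' hb hb' => rw [map_add, map_add, map_add, hb, hb', Finsupp.mapDomain_add]
    | hte x a =>
      rw [cc'_te, Finsupp.mapDomain_single, tw_rho_te, tw_rho_te, cc'_te, tw_rho_te]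
      simp only [smul_eq_mul, mul_inv_rev, inv_inv]
      congr 2
      · group
      · rw [← LinearMap.comp_apply, ← Module.End.mul_eq_comp, ← map_mul]
        congr 2
        group

/-- twisting by an equivariant family of group elements -/
noncomputable def twT {Y : Type} [MulAction G Y] (h : Y → G) (hh : ∀ (k : G) (y : Y), h (k • y) = k * h y * k⁻¹)
    (A : Rep.{0} k G) : tw Y A ⟶ tw Y A :=
  twLift (fun y => (Finsupp.lsingle (h y • y) : A →ₗ[k] (Y →₀ A)) ∘ₗ (A.ρ (h y))) (by
    intro g y a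
    show (te (h (g • y) • g • y) (A.ρ (h (g • y)) (A.ρ g a)) : tw Y A) =
      (tw Y A).ρ g (te (h y • y) (A.ρ (h y) a))
    rw [tw_rho_te, hh]
    congr 1
    · simp only [smul_smul]
      congr 1
      group
    · simp only [← LinearMap.comp_apply, ← Module.End.mul_eq_comp, ← map_mul]
      congr 2
      group)

theorem twT_te {Y : Type} [MulAction G Y] (h : Y → G) (hh : ∀ (k : G) (y : Y), h (k • y) = k * h y * k⁻¹)
    (A : Rep.{0} k G) (y : Y) (a : A) :
    (twT h hh A).hom (te y a) = te (h y • y) (A.ρ (h y) a) := by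
  exact twLift_te _ _ y a


/-- class in degree zero -/
noncomputable def h0 (A : Rep.{0} k G) : A →ₗ[k] groupHomology A 0 :=
  ModuleCat.Hom.hom (groupHomology.H0π A)

theorem Hm_h0 {A B : Rep.{0} k G} (f : A ⟶ B) (a : A) : Hm f 0 (h0 A a) = h0 B (f.hom a) := by
  have := groupHomology.H0π_comp_map (MonoidHom.id G) f
  exact congrArg (fun t => ModuleCat.Hom.hom t a) this

theorem h0_surj (A : Rep.{0} k G) : Function.Surjective (h0 A) :=
  (ModuleCat.epi_iff_surjective (groupHomology.H0π A)).1 inferInstance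

theorem h0_rho (A : Rep.{0} k G) (g : G) (a : A) : h0 A (A.ρ g a) = h0 A a := by
  have h1 : Function.Injective (ModuleCat.Hom.hom (groupHomology.H0Iso A).hom) :=
    (ModuleCat.mono_iff_injective (groupHomology.H0Iso A).hom).1 inferInstance
  apply h1
  have h2 := groupHomology.H0π_comp_H0Iso_hom A
  have h3 : ∀ b : A, (ModuleCat.Hom.hom (groupHomology.H0Iso A).hom) (h0 A b) =
      Representation.Coinvariants.mk A.ρ b := fun b =>
    congrArg (fun t => ModuleCat.Hom.hom t b) h2
  rw [h3, h3]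
  exact Representation.Coinvariants.mk_self_apply _ _ _


/-- functoriality of `tw Y` in the coefficients -/
noncomputable def twMap (Y : Type) [MulAction G Y] {A B : Rep.{0} k G} (f : A ⟶ B) : tw Y A ⟶ tw Y B :=
  twLift (fun y => (Finsupp.lsingle y : B →ₗ[k] (Y →₀ B)) ∘ₗ f.hom.toLinearMap) (by
    intro g y a
    show (te (g • y) (f.hom (A.ρ g a)) : tw Y B) = (tw Y B).ρ g (te y (f.hom a))
    rw [tw_rho_te, Rep.hom_comm_apply])

theorem twMap_te (Y : Type) [MulAction G Y] {A B : Rep.{0} k G} (f : A ⟶ B) (y : Y) (a : A) :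
    (twMap Y f).hom (te y a) = te y (f.hom a) := twLift_te _ _ y a

theorem twMap_eq (Y : Type) [MulAction G Y] {A B : Rep.{0} k G} (f : A ⟶ B) (x : tw Y A) :
    (twMap Y f).hom x = Finsupp.mapRange.linearMap f.hom.toLinearMap x := by
  induction x using tw_induction with
  | h0 => exact (map_zero _).trans (map_zero (Finsupp.mapRange.linearMap f.hom.toLinearMap)).symm
  | hadd x y hx hy =>
    exact ((map_add _ _ _).trans (congrArg₂ _ hx hy)).trans
      ((Finsupp.mapRange.linearMap (α := Y) f.hom.toLinearMap).map_add x y).symm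
  | hte y a =>
    rw [twMap_te]
    exact (Finsupp.mapRange_single (f := f.hom.toLinearMap) (hf := map_zero _)).symm

theorem twMap_ses (Y : Type) [MulAction G Y] {A B C : Rep.{0} k G} {f : A ⟶ B} {g : B ⟶ C}
    (h : SES f g) : SES (twMap Y f) (twMap Y g) where
  inj := by
    intro x y hxy
    rw [twMap_eq, twMap_eq] at hxy
    exact Finsupp.mapRange_injective _ (map_zero f.hom.toLinearMap) h.inj hxy
  surj := by
    intro x
    obtain ⟨y, hy⟩ := Finsupp.mapRange_surjective _ (map_zero g.hom.toLinearMap) h.surj x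
    exact ⟨y, (twMap_eq Y g y).trans hy⟩
  exact := by
    intro b
    constructor
    · intro hb
      rw [twMap_eq] at hb
      have h1 : b ∈ LinearMap.ker (Finsupp.mapRange.linearMap (α := Y) g.hom.toLinearMap) := hb
      have h2 : LinearMap.ker g.hom.toLinearMap = LinearMap.range f.hom.toLinearMap := by
        ext x
        simp only [LinearMap.mem_ker, LinearMap.mem_range]
        exact h.exact x
      rw [Finsupp.ker_mapRange, h2, ← Finsupp.range_mapRange_linearMap f.hom.toLinearMap
        (LinearMap.ker_eq_bot.2 h.inj)] at h1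
      obtain ⟨a, ha⟩ := h1
      exact ⟨a, (twMap_eq Y f a).trans ha⟩
    · rintro ⟨a, rfl⟩
      induction a using tw_induction with
      | h0 => simp
      | hadd x y hx hy => rw [map_add, map_add, hx, hy, add_zero]
      | hte y a =>
        rw [twMap_te, twMap_te, (h.exact _).2 ⟨a, rfl⟩, te_zero]

/-- the kernel of a map -/
noncomputable def kerRep {B C : Rep.{0} k G} (g : B ⟶ C) : Rep.{0} k G :=
  Rep.of (X := LinearMap.ker g.hom.toLinearMap)
    { toFun := fun x => (B.ρ x).restrict (fun b hb => by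
        have hb' : g.hom b = 0 := hb
        show g.hom (B.ρ x b) = 0
        rw [Rep.hom_comm_apply, hb', map_zero])
      map_one' := by
        ext b
        simp
      map_mul' := fun x y => by
        ext b
        simp }

noncomputable def kerInc {B C : Rep.{0} k G} (g : B ⟶ C) : kerRep g ⟶ B :=
  Rep.ofHom ⟨(LinearMap.ker g.hom.toLinearMap).subtype, by
    intro x
    rfl⟩

theorem ker_ses {B C : Rep.{0} k G} (g : B ⟶ C) (hg : Function.Surjective g.hom) :
    SES (kerInc g) g where
  inj := Subtype.coe_injective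
  surj := hg
  exact := fun b => ⟨fun hb => ⟨⟨b, hb⟩, rfl⟩, fun ⟨a, ha⟩ => ha ▸ a.2⟩

/-- (R) -/
theorem Hm_twT {Y : Type} [MulAction G Y] (h : Y → G)
    (hh : ∀ (k : G) (y : Y), h (k • y) = k * h y * k⁻¹) (A : Rep.{0} k G) (j : ℕ)
    (x : groupHomology (tw Y A) j) : Hm (twT h hh A) j x = x := by
  induction j generalizing A with
  | zero =>
    obtain ⟨x, rfl⟩ := h0_surj _ x
    rw [Hm_h0]
    induction x using tw_induction with
    | h0 => simp
    | hadd x y hx hy => rw [map_add, map_add, hx, hy, map_add]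
    | hte y a => rw [twT_te, ← tw_rho_te, h0_rho]
  | succ j ih =>
    have hs : Function.Surjective (twAug G A).hom := fun a => ⟨te 1 a, twAug_te G A 1 a⟩
    have s := twMap_ses Y (ker_ses (twAug G A) hs)
    have c : ∀ {A B : Rep.{0} k G} (f : A ⟶ B), twMap Y f ≫ twT h hh B = twT h hh A ≫ twMap Y f := by
      intro A B f
      apply tw_ext
      intro y a
      rw [Rep.hom_comp, Rep.hom_comp]
      show (twT h hh B).hom ((twMap Y f).hom (te y a)) = (twMap Y f).hom ((twT h hh A).hom (te y a))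
      rw [twMap_te, twT_te, twT_te, twMap_te, Rep.hom_comm_apply]
    have h3 := dl_nat s s (twT h hh _) (twT h hh _) (twT h hh A) (c _) (c _) j x
    rw [ih] at h3
    have h4 : dl s j (Hm (twT h hh A) (j + 1) x - x) = 0 := by
      rw [map_sub, h3, sub_self]
    obtain ⟨y, hy⟩ := (dl_right s j _).1 h4
    rw [vanish A Y j y, map_zero] at hy
    exact (sub_eq_zero.1 hy.symm)
end Run7.h253
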