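import Pool.Agent.Run7.h253.Defs

/-!
# Piece `iso`: elementary hyperbolic geometry of isometries (all proofs: a few instances of the
four point condition `H.hyp` and `omega`)
-/

set_option autoImplicit false

namespace Run7.h253

section metric
variable {X : Type*} {δ : ℕ} (H : GH X δ)

/-- two points near `[p,q]` (excess `e`, `e'`) with almost the same position are close -/
theorem close_of_pos {p q a b : X} {e e' k : ℕ} (ha : H.d p a + H.d a q ≤ H.d p q + e)
    (hb : H.d p b + H.d b q ≤ H.d p q + e') (h1 : H.d p a ≤ H.d p b + k) (h2 : H.d p b ≤ H.d p a + k) :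
    H.d a b ≤ k + max e e' + δ := by
  have h3 := H.hyp a p b q
  have h4 := H.symm a p
  have h5 := H.symm a q
  have h6 := H.symm b q
  rcases le_total e e' with he | he
  · rw [max_eq_right he]
    omega
  · rw [max_eq_left he]
    omega

/-- slim triangles -/
theorem slim_tri {x y z m : X} (hm : H.d x m + H.d m y = H.d x y) :
    ∃ m', ((H.d x m' + H.d m' z = H.d x z) ∨ (H.d z m' + H.d m' y = H.d z y)) ∧ H.d m m' ≤ 2 * δ := by
  have h := H.hyp x z y m
  have s1 := H.symm z m
  have s2 := H.symm y m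
  have s3 := H.symm x y
  have s4 := H.symm z y
  have s5 := H.symm x z
  rcases h with h | h
  · rcases le_total (H.d x m) (H.d x z) with hl | hl
    · obtain ⟨m', hm1, hm2⟩ := H.geo x z (H.d x m) hl
      refine ⟨m', Or.inl (by omega), ?_⟩
      have := close_of_pos H (p := x) (q := z) (a := m) (b := m') (e := δ) (e' := 0) (k := 0)
        (by omega) (by omega) (by omega) (by omega)
      simp only [Nat.max_zero] at this
      omega
    · refine ⟨z, Or.inl (by have := H.self z; omega), by omega⟩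
  · rcases le_total (H.d y m) (H.d y z) with hl | hl
    · obtain ⟨m', hm1, hm2⟩ := H.geo y z (H.d y m) hl
      have s6 := H.symm z m'
      have s7 := H.symm y m'
      have s8 := H.symm y z
      refine ⟨m', Or.inr (by omega), ?_⟩
      have := close_of_pos H (p := y) (q := z) (a := m) (b := m') (e := δ) (e' := 0) (k := 0)
        (by omega) (by omega) (by omega) (by omega)
      simp only [Nat.max_zero] at this
      omega
    · have s8 := H.symm y z
      refine ⟨z, Or.inr (by have := H.self z; omega), by omega⟩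

/-- slim quadrilaterals -/
theorem slim_quad {x y z w m : X} (hm : H.d x m + H.d m y = H.d x y) :
    ∃ m', ((H.d x m' + H.d m' z = H.d x z) ∨ (H.d z m' + H.d m' w = H.d z w) ∨
      (H.d w m' + H.d m' y = H.d w y)) ∧ H.d m m' ≤ 4 * δ := by
  obtain ⟨m', h, h'⟩ := slim_tri H (z := z) hm
  rcases h with h | h
  · exact ⟨m', Or.inl h, by omega⟩
  · obtain ⟨m'', h2, h2'⟩ := slim_tri H (z := w) h
    have := H.tri m m' m''
    refine ⟨m'', ?_, by omega⟩
    rcases h2 with h2 | h2
    · exact Or.inr (Or.inl h2)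
    · exact Or.inr (Or.inr h2)

end metric

section act
variable {X : Type*} {δ : ℕ} (H : GH X δ) {G : Type*} [Group G] [MulAction G X]
  (hinv : ∀ (g : G) (x y : X), H.d (g • x) (g • y) = H.d x y)
include hinv

/-- (S1) an isometry moving `p, q` little maps middle points of `[p,q]` near `[p,q]`.
4pt on `(g p, g m, g q, q)` gives `d (g p) (g m) + d (g m) q ≤ d (g p) q + δ`, then
4pt on `(q, g m, g p, p)`. -/
theorem shift_near (g : G) {p q m : X} {R : ℕ} (hp : H.d p (g • p) ≤ R) (hq : H.d q (g • q) ≤ R)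
    (hm : H.d p m + H.d m q = H.d p q) (h1 : R + 2 * δ < H.d p m) (h2 : R + δ < H.d m q) :
    H.d p (g • m) + H.d (g • m) q ≤ H.d p q + 2 * δ := by
  have i1 := hinv g p q
  have i2 := hinv g p m
  have i3 := hinv g m q
  have h3 := H.hyp (g • p) (g • m) (g • q) q
  have h4 := H.hyp q (g • m) (g • p) p
  have s1 := H.symm (g • q) q
  have s2 := H.symm (g • p) p
  have s3 := H.symm (g • m) (g • p)
  have s4 := H.symm (g • m) p
  have s5 := H.symm (g • m) q
  have s6 := H.symm (g • p) q
  have s7 := H.symm p q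
  omega

/-- (S2) the shift is constant: `m, m'` far apart middle points (`m` first).
Here the shift of `g` at `m` is `d p (g m) - d p m`. -/
theorem shift_const (g : G) {p q m m' : X} {R : ℕ} (hp : H.d p (g • p) ≤ R)
    (hq : H.d q (g • q) ≤ R) (hm : H.d p m + H.d m q = H.d p q)
    (hm' : H.d p m' + H.d m' q = H.d p q) (h1 : R + 2 * δ < H.d p m) (h2 : R + δ < H.d m' q)
    (h3 : H.d p m + 2 * R + 4 * δ < H.d p m') :
    H.d p (g • m) + H.d p m' ≤ H.d p (g • m') + H.d p m + 3 * δ ∧
    H.d p (g • m') + H.d p m ≤ H.d p (g • m) + H.d p m' + 3 * δ := by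
  have n1 := shift_near H hinv g hp hq hm h1 (by omega)
  have n2 := shift_near H hinv g hp hq hm' (by omega) h2
  have h4 := H.hyp m p m' q
  have h5 := H.hyp (g • m) p (g • m') q
  have i1 := hinv g m m'
  have i2 := hinv g p m
  have i3 := hinv g p m'
  have t1 := H.tri p m m'
  have t2 := H.tri p (g • m) (g • m')
  have t3 := H.tri p (g • p) (g • m)
  have t4 := H.tri (g • p) p (g • m')
  have s1 := H.symm m p
  have s2 := H.symm m q
  have s3 := H.symm m' q
  have s4 := H.symm (g • m) p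
  have s5 := H.symm (g • m) q
  have s6 := H.symm (g • m') q
  have s7 := H.symm (g • p) p
  omega

/-- (L3) loxodromy criterion; `d m (g^(k+1) m) ≥ d m (g^k m) + 1` for all `k`, by 4pt on
`(m, g^(k-1) m, g^k m, g^(k+1) m)` -/
theorem lox_grow (g : G) {m : X} (h : H.d m (g • m) + δ + 1 ≤ H.d m (g ^ 2 • m)) (k : ℕ) :
    H.d m (g ^ k • m) + 1 ≤ H.d m (g ^ (k + 1) • m) := by
  have hk : ∀ i j : ℕ, H.d (g ^ i • m) (g ^ (i + j) • m) = H.d m (g ^ j • m) := by
    intro i j
    rw [pow_add, mul_smul, hinv]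
  induction k with
  | zero =>
    have h1 := hk 1 1
    have t := H.tri m (g • m) (g ^ 2 • m)
    have s := H.self m
    simp only [pow_one, Nat.reduceAdd, pow_zero, one_smul, zero_add] at h1 ⊢
    omega
  | succ k ih =>
    have h4 := H.hyp m (g ^ k • m) (g ^ (k + 1) • m) (g ^ (k + 2) • m)
    have e1 := hk k 1
    have e2 := hk k 2
    have e3 := hk (k + 1) 1
    have e4 : k + 1 + 1 = k + 2 := rfl
    rw [e4] at e3 ⊢
    rw [pow_one] at e1 e3
    omega

theorem lox_crit (g : G) {m : X} (h : H.d m (g • m) + δ + 1 ≤ H.d m (g ^ 2 • m)) :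
    LoxX H.d g := by
  refine ⟨m, 1, fun k => ?_⟩
  have : k ≤ H.d m (g ^ k • m) := by
    induction k with
    | zero => omega
    | succ k ih =>
      have := lox_grow H hinv g h k
      omega
  omega

/-- `LoxX` may be checked at any point -/
theorem lox_at (g : G) (h : LoxX H.d g) (p : X) : ∃ C : ℕ, ∀ k : ℕ, k ≤ C * (H.d p (g ^ k • p) + 1) := by
  obtain ⟨p0, C, h⟩ := h
  refine ⟨C * (2 * H.d p0 p + 1), fun k => (h k).trans ?_⟩
  have t1 := H.tri p0 p (g ^ k • p0)
  have t2 := H.tri p (g ^ k • p) (g ^ k • p0)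
  have i1 := hinv (g ^ k) p p0
  have s1 := H.symm p p0
  rw [mul_assoc]
  apply Nat.mul_le_mul_left
  nlinarith [Nat.zero_le (H.d p0 p * H.d p (g ^ k • p))]

/-- displacement of a power -/
theorem disp_pow (g : G) (p : X) (k : ℕ) : H.d p (g ^ k • p) ≤ k * H.d p (g • p) := by
  induction k with
  | zero => simp [H.self]
  | succ k ih =>
    have t := H.tri p (g ^ k • p) (g ^ (k + 1) • p)
    have i : H.d (g ^ k • p) (g ^ (k + 1) • p) = H.d p (g • p) := by
      rw [pow_succ, mul_smul, hinv]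
    rw [i] at t
    linarith [add_mul k 1 (H.d p (g • p))]

/-- a power of a non-loxodromic element is non-loxodromic and conversely -/
theorem lox_pow (g : G) {k : ℕ} (hk : 1 ≤ k) : LoxX H.d (g ^ k) ↔ LoxX H.d g := by
  constructor
  · rintro ⟨p, C, h⟩
    refine ⟨p, k * (C * (k * H.d p (g • p) + 1) + 1), fun i => ?_⟩
    have h1 := h (i / k)
    have h2 : i = k * (i / k) + i % k := (Nat.div_add_mod i k).symm
    have h3 : i % k < k := Nat.mod_lt _ (by omega)
    have t := H.tri p (g ^ i • p) (g ^ (k * (i / k)) • p)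
    have e : H.d (g ^ (k * (i / k)) • p) (g ^ i • p) = H.d p (g ^ (i % k) • p) := by
      conv_lhs => rw [h2]
      rw [pow_add, mul_smul]
      have : k * ((k * (i / k) + i % k) / k) = k * (i / k) := by rw [← h2]
      rw [this, hinv]
    have e2 := disp_pow H hinv g p (i % k)
    have e3 : (i % k) * H.d p (g • p) ≤ k * H.d p (g • p) := Nat.mul_le_mul_right _ h3.le
    have s := H.symm (g ^ i • p) (g ^ (k * (i / k)) • p)
    rw [← pow_mul] at h1
    have h4 : H.d p (g ^ (k * (i / k)) • p) ≤ H.d p (g ^ i • p) + k * H.d p (g • p) := by omega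
    have h5 : i / k ≤ C * (H.d p (g ^ i • p) + k * H.d p (g • p) + 1) :=
      h1.trans (Nat.mul_le_mul_left _ (by omega))
    have h6 : i ≤ k * (i / k + 1) := by
      rw [mul_add, mul_one]; omega
    refine h6.trans ?_
    rw [mul_assoc]
    apply Nat.mul_le_mul_left
    nlinarith [Nat.zero_le (C * (k * H.d p (g • p)) * H.d p (g ^ i • p)), Nat.zero_le (H.d p (g ^ i • p))]
  · rintro ⟨p, C, h⟩
    refine ⟨p, C, fun i => ?_⟩
    have h1 := h (k * i)
    rw [pow_mul] at h1
    have : i ≤ k * i := Nat.le_mul_of_pos_left _ (by omega)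
    omega

theorem lox_inv (g : G) : LoxX H.d g⁻¹ ↔ LoxX H.d g := by
  have key : ∀ g : G, LoxX H.d g → LoxX H.d g⁻¹ := by
    rintro g ⟨p, C, h⟩
    refine ⟨p, C, fun k => ?_⟩
    have h1 := h k
    have i := hinv (g ^ k) p ((g⁻¹) ^ k • p)
    rw [← mul_smul, inv_pow, mul_inv_cancel, one_smul] at i
    rw [inv_pow]
    have s := H.symm (g ^ k • p) p
    have e : H.d p ((g ^ k)⁻¹ • p) = H.d p (g ^ k • p) := by omega
    rw [e]
    exact h1
  constructor
  · intro h
    have := key _ h
    rwa [inv_inv] at this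
  · exact key g

theorem lox_conj (g h : G) : LoxX H.d (h * g * h⁻¹) ↔ LoxX H.d g := by
  have key : ∀ g h : G, LoxX H.d g → LoxX H.d (h * g * h⁻¹) := by
    rintro g h ⟨p, C, hC⟩
    refine ⟨h • p, C, fun k => ?_⟩
    have e : (h * g * h⁻¹) ^ k • h • p = h • g ^ k • p := by
      rw [conj_pow, ← mul_smul, inv_mul_cancel_right, mul_smul]
    rw [e, hinv]
    exact hC k
  constructor
  · intro hh
    have := key _ h⁻¹ hh
    have e : h⁻¹ * (h * g * h⁻¹) * h⁻¹⁻¹ = g := by group
    rwa [e] at this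
  · exact key g h

/-- if `g^k = 1` with `k ≥ 1` then `g` is not loxodromic -/
theorem not_lox_of_pow (g : G) {k : ℕ} (hk : 1 ≤ k) (h : g ^ k = 1) : ¬ LoxX H.d g := by
  intro hl
  rw [← lox_pow H hinv g hk, h] at hl
  obtain ⟨p, C, hC⟩ := hl
  have := hC (C + 1)
  rw [one_pow, one_smul, H.self] at this
  omega

/-- a large shift in the middle gives a loxodromic element -/
theorem lox_of_shift (g : G) {p q m : X} {R : ℕ} (hp : H.d p (g • p) ≤ R) (hq : H.d q (g • q) ≤ R)
    (hm : H.d p m + H.d m q = H.d p q) (h1 : 4 * R + 20 * δ < H.d p m) (h2 : 4 * R + 20 * δ < H.d m q)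
    (h3 : 16 * δ < H.d m (g • m)) : H.d m (g • m) + δ + 1 ≤ H.d m (g ^ 2 • m) := by
  have hδ : 0 < H.d m (g • m) := by omega
  have n1 := shift_near H hinv g hp hq hm (by omega) (by omega)
  have t1 := H.tri p (g • p) (g • m)
  have t1' := H.tri (g • p) p (g • m)
  have t2 := H.tri (g • m) (g • q) q
  have i1 := hinv g p m
  have i2 := hinv g m q
  have s0 := H.symm (g • p) p
  have s1 := H.symm (g • q) q
  -- the point `m''` on `[p,q]` with the position of `g m`
  obtain ⟨m2, hm2, hm2'⟩ := H.geo p q (H.d p (g • m)) (by omega)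
  have c1 := close_of_pos H (p := p) (q := q) (a := g • m) (b := m2) (e := 2 * δ) (e' := 0) (k := 0)
    n1 (by omega) (by omega) (by omega)
  rw [Nat.max_zero] at c1
  have i3 := hinv g (g • m) m2
  have hsq : g ^ 2 • m = g • g • m := by rw [pow_two, mul_smul]
  have d1 := close_of_pos H (p := p) (q := q) (a := g • m) (b := m) (e := 2 * δ) (e' := 0)
    (k := max (H.d p (g • m) - H.d p m) (H.d p m - H.d p (g • m)))
    n1 (by omega) (by omega) (by omega)
  rw [Nat.max_zero] at d1
  have sm := H.symm m (g • m)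
  have tt := H.tri m (g • (g • m)) (g • m2)
  have tp := H.tri p m (g • m2)
  have tp' := H.tri m p (g • m2)
  have tq := H.tri p (g • m2) m
  have spm := H.symm p m
  have sgm2 := H.symm m (g • m2)
  have gpm2 := H.tri p (g • m2) m
  rcases Nat.lt_or_ge (H.d p (g • m)) (H.d p m) with hlt | hge
  · -- negative shift; compare with a point near `q`
    obtain ⟨m0, hm0, hm0'⟩ := H.geo p q (H.d p q - (R + δ + 1)) (by omega)
    have c2 := shift_const H hinv g hp hq hm (by omega : H.d p m0 + H.d m0 q = H.d p q) (by omega)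
      (by omega) (by omega)
    have c3 := shift_const H hinv g hp hq (by omega : H.d p m2 + H.d m2 q = H.d p q)
      (by omega : H.d p m0 + H.d m0 q = H.d p q) (by omega) (by omega) (by omega)
    rw [hsq]
    omega
  · rcases Nat.eq_zero_or_pos R with hR | hR
    · have : H.d p (g • m) = H.d p m := by omega
      omega
    obtain ⟨m0, hm0, hm0'⟩ := H.geo p q (R + 2 * δ + 1) (by omega)
    have c2 := shift_const H hinv g hp hq (by omega : H.d p m0 + H.d m0 q = H.d p q) hm (by omega)
      (by omega) (by omega)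
    have c3 := shift_const H hinv g hp hq (by omega : H.d p m0 + H.d m0 q = H.d p q)
      (by omega : H.d p m2 + H.d m2 q = H.d p q) (by omega) (by omega) (by omega)
    rw [hsq]
    omega

/-- non-loxodromic elements with small displacement at both ends have tiny displacement in the middle -/
theorem nonlox_small (g : G) (hg : ¬ LoxX H.d g) {p q m : X} {R : ℕ} (hp : H.d p (g • p) ≤ R)
    (hq : H.d q (g • q) ≤ R) (hm : H.d p m + H.d m q = H.d p q)
    (h1 : 4 * R + 20 * δ < H.d p m) (h2 : 4 * R + 20 * δ < H.d m q) :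
    H.d m (g • m) ≤ 16 * δ := by
  by_contra h
  exact hg (lox_crit H hinv g (lox_of_shift H hinv g hp hq hm h1 h2 (by omega)))

/-- composition of shifts -/
theorem shift_comp (a b : G) {p q m : X} {R : ℕ} (hap : H.d p (a • p) ≤ R)
    (haq : H.d q (a • q) ≤ R) (hbp : H.d p (b • p) ≤ R) (hbq : H.d q (b • q) ≤ R)
    (hm : H.d p m + H.d m q = H.d p q) (hR : 0 < R + δ)
    (h1 : 20 * R + 100 * δ < H.d p m) (h2 : 20 * R + 100 * δ < H.d m q) :
    H.d p (a • b • m) + H.d p m ≤ H.d p (a • m) + H.d p (b • m) + 9 * δ ∧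
    H.d p (a • m) + H.d p (b • m) ≤ H.d p (a • b • m) + H.d p m + 9 * δ ∧
    H.d p (a • b • m) + H.d (a • b • m) q ≤ H.d p q + 8 * δ := by
  have n1 := shift_near H hinv b hbp hbq hm (by omega) (by omega)
  have t1 := H.tri p (b • p) (b • m)
  have t1' := H.tri (b • p) p (b • m)
  have i1 := hinv b p m
  have s0 := H.symm (b • p) p
  obtain ⟨m2, hm2, hm2'⟩ := H.geo p q (H.d p (b • m)) (by omega)
  have c1 := close_of_pos H (p := p) (q := q) (a := b • m) (b := m2) (e := 2 * δ) (e' := 0) (k := 0)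
    n1 (by omega) (by omega) (by omega)
  rw [Nat.max_zero] at c1
  have i3 := hinv a (b • m) m2
  obtain ⟨m0, hm0, hm0'⟩ := H.geo p q (R + 2 * δ + 1) (by omega)
  have c2 := shift_const H hinv a hap haq (by omega : H.d p m0 + H.d m0 q = H.d p q) hm (by omega)
    (by omega) (by omega)
  have c3 := shift_const H hinv a hap haq (by omega : H.d p m0 + H.d m0 q = H.d p q)
    (by omega : H.d p m2 + H.d m2 q = H.d p q) (by omega) (by omega) (by omega)
  have n2 := shift_near H hinv a hap haq (by omega : H.d p m2 + H.d m2 q = H.d p q) (by omega) (by omega)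
  have t2 := H.tri p (a • m2) (a • b • m)
  have t3 := H.tri p (a • b • m) (a • m2)
  have t4 := H.tri (a • b • m) (a • m2) q
  have s1 := H.symm (a • m2) (a • b • m)
  omega

theorem fix_mid (hδ : δ = 0) (a : G) {p q m : X} (hap : H.d p (a • p) = 0)
    (haq : H.d q (a • q) = 0) (hm : H.d p m + H.d m q = H.d p q) : a • m = m := by
  have e1 := H.eq_of _ _ hap
  have e2 := H.eq_of _ _ haq
  have i1 := hinv a p m
  have i2 := hinv a m q
  rw [← e1] at i1
  rw [← e2] at i2
  have c1 := close_of_pos H (p := p) (q := q) (a := a • m) (b := m) (e := 0) (e' := 0) (k := 0)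
    (by omega) (by omega) (by omega) (by omega)
  rw [Nat.max_zero] at c1
  exact H.eq_of _ _ (by omega)

/-- commutators have tiny displacement in the middle -/
theorem comm_small (a b : G) {p q m : X} {R : ℕ} (hap : H.d p (a • p) ≤ R)
    (haq : H.d q (a • q) ≤ R) (hbp : H.d p (b • p) ≤ R) (hbq : H.d q (b • q) ≤ R)
    (hm : H.d p m + H.d m q = H.d p q)
    (h1 : 20 * R + 100 * δ < H.d p m) (h2 : 20 * R + 100 * δ < H.d m q) :
    H.d m ((a * b * a⁻¹ * b⁻¹) • m) ≤ 64 * δ := by
  rcases Nat.eq_zero_or_pos (R + δ) with h0 | h0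
  · have hδ : δ = 0 := by omega
    have fa := fix_mid H hinv hδ a (by omega) (by omega) hm
    have fb := fix_mid H hinv hδ b (by omega) (by omega) hm
    have fa' : a⁻¹ • m = m := by rw [inv_smul_eq_iff]; exact fa.symm
    have fb' : b⁻¹ • m = m := by rw [inv_smul_eq_iff]; exact fb.symm
    rw [mul_smul, mul_smul, mul_smul, fb', fa', fb, fa, H.self]
    omega
  · have iv : ∀ (g : G) (x : X), H.d x (g⁻¹ • x) = H.d x (g • x) := by
      intro g x
      have i := hinv g x (g⁻¹ • x)
      rw [← mul_smul, mul_inv_cancel, one_smul] at i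
      have s := H.symm (g • x) x
      omega
    have k1 := shift_comp H hinv a⁻¹ b⁻¹ (by rwa [iv]) (by rwa [iv]) (by rwa [iv]) (by rwa [iv]) hm h0 h1 h2
    have k2 := shift_comp H hinv b⁻¹ a⁻¹ (by rwa [iv]) (by rwa [iv]) (by rwa [iv]) (by rwa [iv]) hm h0 h1 h2
    have c := close_of_pos H (k := 18 * δ) k1.2.2 k2.2.2 (by omega) (by omega)
    rw [max_self] at c
    have i := hinv (b * a) (b⁻¹ • a⁻¹ • m) (a⁻¹ • b⁻¹ • m)
    have e1 : (b * a) • a⁻¹ • b⁻¹ • m = m := by
      rw [← mul_smul, ← mul_smul]; simp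
    have i2 := hinv (a * b) (b⁻¹ • a⁻¹ • m) (a⁻¹ • b⁻¹ • m)
    have e2 : (a * b) • b⁻¹ • a⁻¹ • m = m := by
      rw [← mul_smul, ← mul_smul]; simp
    have e3 : (a * b) • a⁻¹ • b⁻¹ • m = (a * b * a⁻¹ * b⁻¹) • m := by
      rw [← mul_smul, ← mul_smul]
    rw [e2, e3] at i2
    have s := H.symm (b⁻¹ • a⁻¹ • m) (a⁻¹ • b⁻¹ • m)
    omega

/-- two isometries with almost the same shift at `m` differ little at `m'` -/
theorem diff_small (a b : G) {p q m m' : X} {R : ℕ} (hap : H.d p (a • p) ≤ R)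
    (haq : H.d q (a • q) ≤ R) (hbp : H.d p (b • p) ≤ R) (hbq : H.d q (b • q) ≤ R)
    (hm : H.d p m + H.d m q = H.d p q) (hm' : H.d p m' + H.d m' q = H.d p q)
    (h1 : R + 2 * δ < H.d p m) (h2 : R + δ < H.d m' q)
    (h3 : H.d p m + 2 * R + 4 * δ < H.d p m')
    (h4 : H.d p (a • m) ≤ H.d p (b • m) + δ) (h5 : H.d p (b • m) ≤ H.d p (a • m) + δ) :
    H.d m ((a⁻¹ * b) • m) ≤ 10 * δ ∧ H.d m' ((a⁻¹ * b) • m') ≤ 10 * δ := by
  have ca := shift_const H hinv a hap haq hm hm' h1 h2 h3
  have cb := shift_const H hinv b hbp hbq hm hm' h1 h2 h3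
  have na := shift_near H hinv a hap haq hm h1 (by omega)
  have nb := shift_near H hinv b hbp hbq hm h1 (by omega)
  have na' := shift_near H hinv a hap haq hm' (by omega) h2
  have nb' := shift_near H hinv b hbp hbq hm' (by omega) h2
  have e1 := close_of_pos H (k := δ) na nb (by omega) (by omega)
  have e2 := close_of_pos H (k := 7 * δ) na' nb' (by omega) (by omega)
  rw [max_self] at e1 e2
  have i1 := hinv a m ((a⁻¹ * b) • m)
  have i2 := hinv a m' ((a⁻¹ * b) • m')
  rw [← mul_smul, mul_inv_cancel_left] at i1 i2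
  omega

theorem orbit_grow (g : G) {m : X} {β : ℕ} (hβ : 2 * H.d m (g • m) ≤ H.d m (g ^ 2 • m) + β)
    (h : β + 2 * δ + 1 ≤ H.d m (g • m)) (k : ℕ) :
    H.d m (g ^ k • m) + H.d m (g • m) ≤ H.d m (g ^ (k + 1) • m) + β + δ := by
  have hk : ∀ i j : ℕ, H.d (g ^ i • m) (g ^ (i + j) • m) = H.d m (g ^ j • m) := by
    intro i j
    rw [pow_add, mul_smul, hinv]
  induction k with
  | zero =>
    have s := H.self m
    simp only [pow_zero, one_smul, zero_add, pow_one]
    omega
  | succ k ih =>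
    have h4 := H.hyp m (g ^ k • m) (g ^ (k + 1) • m) (g ^ (k + 2) • m)
    have e1 := hk k 1
    have e2 := hk k 2
    have e3 := hk (k + 1) 1
    have e4 : k + 1 + 1 = k + 2 := rfl
    rw [e4] at e3 ⊢
    rw [pow_one] at e1 e3
    omega

/-- local-to-global for powers of `g`: if the defect `β = 2 d m (g m) - d m (g² m)` is smaller than
`d m (g m) - 2δ`, the orbit is almost geodesic -/
theorem orbit_add (g : G) {m : X} {β : ℕ} (hβ : 2 * H.d m (g • m) ≤ H.d m (g ^ 2 • m) + β)
    (h : β + 2 * δ + 1 ≤ H.d m (g • m)) (i j : ℕ) :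
    H.d m (g ^ i • m) + H.d m (g ^ j • m) ≤ H.d m (g ^ (i + j) • m) + β + 2 * δ := by
  have hk : ∀ i j : ℕ, H.d (g ^ i • m) (g ^ (i + j) • m) = H.d m (g ^ j • m) := by
    intro i j
    rw [pow_add, mul_smul, hinv]
  have gr := orbit_grow H hinv g hβ h
  rcases Nat.eq_zero_or_pos j with hj | hj
  · subst hj
    have s := H.self m
    simp only [pow_zero, one_smul, add_zero]
    omega
  obtain ⟨j, rfl⟩ : ∃ j', j = j' + 1 := ⟨j - 1, by omega⟩
  have g1 := gr i
  have g2 := gr j
  have h4 := H.hyp m (g ^ i • m) (g ^ (i + 1) • m) (g ^ (i + (j + 1)) • m)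
  have e1 := hk i 1
  have e2 := hk i (j + 1)
  have e3 := hk (i + 1) j
  have e4 : i + 1 + j = i + (j + 1) := by omega
  rw [e4] at e3
  rw [pow_one] at e1
  omega

/-- tube lemma: `z, w` commute, `z` moves `p` and `w` moves `q` by at most `T`;
then every point of `[p,q]` is moved by at most `T + 4δ` by `z` or by `w`.
Proof: suppose not at `m`.  4pt on `(m, w q, w m, w p)`: `d m (w m) + d (w m) (w p) ≤ d m (w p) + δ`;
same for `w⁻¹`: `d (w m) m + d m p ≤ d (w m) p + δ`; 4pt on `(p, m, w m, w p)`: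
`d p m + d m (w p) ≤ d p (w p) + 3δ`.  With `b = w p` (moved `≤ T` by `z`) 4pt on
`(z m, z b, m, z p)`: `d m (z m) + d b p ≤ d m b + d m p + T + δ`.  Contradiction. -/
theorem tube (z w : G) (hzw : z * w = w * z) {p q m : X} {T : ℕ} (hp : H.d p (z • p) ≤ T)
    (hq : H.d q (w • q) ≤ T) (hm : H.d p m + H.d m q = H.d p q) :
    H.d m (z • m) ≤ T + 4 * δ ∨ H.d m (w • m) ≤ T + 4 * δ := by
  by_contra hcon
  rw [not_or, not_le, not_le] at hcon
  obtain ⟨hz, hw⟩ := hcon
  have h1 := H.hyp m (w • q) (w • m) (w • p)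
  have i1 := hinv w q p
  have i2 := hinv w m p
  have i3 := hinv w q m
  have t1 := H.tri m q (w • q)
  have h2 := H.hyp m (w⁻¹ • q) (w⁻¹ • m) (w⁻¹ • p)
  have j0 := hinv w m (w⁻¹ • m)
  have j1 := hinv w⁻¹ q p
  have j2 := hinv w⁻¹ m p
  have j3 := hinv w⁻¹ q m
  have j4 := hinv w q (w⁻¹ • q)
  have j5 := hinv w m (w⁻¹ • p)
  rw [smul_inv_smul] at j0 j4 j5
  have t2 := H.tri m q (w⁻¹ • q)
  have h3 := H.hyp p m (w • m) (w • p)
  have t3 := H.tri m (w • m) (w • p)
  have i4 := hinv z (w • p) m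
  have i5 := hinv z m p
  have i6 : H.d (w • p) (z • w • p) = H.d p (z • p) := by
    rw [← mul_smul, hzw, mul_smul, hinv]
  have i7 := hinv z (w • p) p
  have h5 := H.hyp (z • m) (z • w • p) m (z • p)
  have t4 := H.tri m p (z • p)
  have t5 := H.tri m (w • p) (z • w • p)
  have s1 := H.symm q p
  have s2 := H.symm (w • q) (w • p)
  have s3 := H.symm (w • m) m
  have s4 := H.symm (w • q) q
  have s5 := H.symm (w • q) m
  have s6 := H.symm (w⁻¹ • q) q
  have s7 := H.symm m p
  have s8 := H.symm m q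
  have s9 := H.symm (w • q) (w • m)
  have s10 := H.symm (w⁻¹ • q) (w⁻¹ • m)
  have s11 := H.symm (w • m) p
  have s12 := H.symm (z • m) m
  have s13 := H.symm (z • w • p) m
  have s14 := H.symm (z • w • p) (z • p)
  have s15 := H.symm (w • p) p
  have s16 := H.symm (w • p) m
  have s17 := H.symm (w⁻¹ • p) m
  have s18 := H.symm (z • w • p) (z • m)
  omega

/-- displacement is quasi-convex -/
theorem disp_conv (z : G) {p q m : X} {T : ℕ} (hp : H.d p (z • p) ≤ T)
    (hq : H.d q (z • q) ≤ T) (hm : H.d p m + H.d m q = H.d p q) :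
    H.d m (z • m) ≤ T + 4 * δ := by
  rcases tube H hinv z z rfl hp hq hm with h | h <;> exact h

/-- if `p` minimizes the displacement of `g` and it is `≥ 3δ+3`, the defect is at most `2δ+2` -/
theorem min_defect (g : G) {p : X} (hmin : ∀ x, H.d p (g • p) ≤ H.d x (g • x))
    (h : 10 * δ + 10 ≤ H.d p (g • p)) :
    2 * H.d p (g • p) ≤ H.d p (g ^ 2 • p) + 2 * δ + 2 := by
  obtain ⟨c, hc, hc'⟩ := H.geo p (g • p) (H.d p (g • p) / 2) (by omega)
  have h1 := hmin c
  have h2 := H.hyp c (g • p) (g • c) (g ^ 2 • p)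
  have h3 := H.hyp p (g • p) (g ^ 2 • p) c
  have e : g ^ 2 • p = g • g • p := by rw [pow_two, mul_smul]
  have i1 := hinv g p (g • p)
  have i2 := hinv g p c
  have i3 := hinv g c (g • p)
  rw [← e] at i1 i3
  have h4 := H.hyp c p (g ^ 2 • p) (g • p)
  have s1 := H.symm c p
  have s2 := H.symm c (g • p)
  have s3 := H.symm c (g ^ 2 • p)
  have s4 := H.symm (g • p) p
  have s5 := H.symm (g ^ 2 • p) p
  have s6 := H.symm (g ^ 2 • p) (g • p)
  have s7 := H.symm (g ^ 2 • p) (g • c)
  have s8 := H.symm (g • c) (g • p)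
  omega

end act

end Run7.h253
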