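import Pool.Agent.Run7.h253.Quot
import Pool.Agent.Run7.h253.Iso

/-!
# Piece `lemq`: an element of `grp ℓ` moving a far point little (modulo `N`) is a rotation

`g ∈ grp ℓ`, `q p y ≥ R + 30` for all `y ∈ Y ℓ`, `q p (g p) ≤ R`; then `g ∈ rot ℓ`.

Proof.  Replace `p` by the `N`-translate closest to `Y ℓ` (w.r.t. `d`), `y` a nearest point.  Multiply `g`
by an element of `rot ℓ` so that `D ℓ p (g p) ≤ len ℓ / 2 + 10^121` (coordinate `t`, generator `ρ`;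
`t (ρ^k a) = t a + k len ± …`; choose the element of `g rot ℓ` minimizing `d y (g y)`).
Suppose `g ≠ 1`.  For `ℓ' ≠ ℓ`: `D ℓ' p y ≤ len ℓ' / 2 + 10^121` (else rotate `p` about `ℓ'`, closer to `y`).
`D ℓ' p (g p) ≤ D ℓ' p y + 5*10^16 + D (g⁻¹ ℓ') p y`, and not both terms are `> 10^18`: `ℓ'` and
`g⁻¹ ℓ' ≠ ℓ'` would be two different tubes between `p` and `y` (if `g⁻¹ ℓ' = ℓ'` then `g ∈ grp ℓ' ∩ grp ℓ`,
`grp_inj`), at the same distance from `Y ℓ` (`g` preserves `Y ℓ`); but the tube further from `y` is further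
from `Y ℓ` (`D_beh`, `D_far`).  So `Rdc 15 p (g p)` and `d' p (g p) = q p (g p) ≤ R`.
All points of `[p, g p]` (geodesic for `d`) are at `d'`-distance `≤ R + 10` from `p`, hence `d`-far from
`Y ℓ` (`> 10^18`); so (`D_far`) `d y (g y) ≤ 10^4`, and with `m ∈ [p,y]`, `d m y = 5*10^5`, hyperbolicity gives
`d m (g m) ≤ 10^6`, so `m ∈ Y ℓ` (`small`), contradicting that `y` is a nearest point.
-/

set_option autoImplicit false

namespace Run7.h253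

variable {G : Type*} [Group G] {U : Subgroup G} {n : ℕ} {L : Type*} [MulAction G L]
  {S : BSys G U n L}

theorem exists_min_pair (S : BSys G U n L) (ℓ ℓ' : L) : ∃ a ∈ S.Y ℓ, ∃ b ∈ S.Y ℓ',
    ∀ a' ∈ S.Y ℓ, ∀ b' ∈ S.Y ℓ', S.d a b ≤ S.d a' b' := by
  obtain ⟨a₀, ha₀⟩ := S.Y_ne ℓ
  obtain ⟨b₀, hb₀⟩ := S.Y_ne ℓ'
  have hne : {m | ∃ a ∈ S.Y ℓ, ∃ b ∈ S.Y ℓ', m = S.d a b}.Nonempty := ⟨_, a₀, ha₀, b₀, hb₀, rfl⟩
  obtain ⟨a, ha, b, hb, h⟩ := Nat.sInf_mem hne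
  refine ⟨a, ha, b, hb, fun a' ha' b' hb' => ?_⟩
  rw [← h]
  exact Nat.sInf_le ⟨a', ha', b', hb', rfl⟩

/-- a tube between `Y ℓ` and `Y ℓ₂` is closer -/
theorem closer (S : BSys G U n L) {ℓ₁ : L} {a b : G} (h : 10 ^ 17 ≤ S.D ℓ₁ a b) :
    ∃ u ∈ S.Y ℓ₁, S.d a u < S.d a b := by
  obtain ⟨u, hu⟩ := prj_nonempty S ℓ₁ a
  obtain ⟨v, hv⟩ := prj_nonempty S ℓ₁ b
  have h1 := D_far' S ℓ₁ hu hv (by omega)
  have h2 := D_prj S ℓ₁ hu hv
  exact ⟨u, hu.1, by omega⟩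

theorem not_both (S : BSys G U n L) {ℓ ℓ' : L} {g p y : G} (hg : g ∈ S.grp ℓ) (hg1 : g ≠ 1)
    (hne : ℓ' ≠ ℓ) (hy : y ∈ S.Y ℓ) (h1 : 10 ^ 18 < S.D ℓ' y p) (h2 : 10 ^ 18 < S.D (g⁻¹ • ℓ') y p) :
    False := by
  have hgU : g ∈ U := S.grp_le ℓ hg
  have hgl : g • ℓ = ℓ := S.grp_fix ℓ g hg
  have hgl' : g⁻¹ • ℓ = ℓ := by rw [inv_smul_eq_iff, hgl]
  have hne2 : g⁻¹ • ℓ' ≠ ℓ' := by
    intro h
    have h3 := S.stab ℓ' g⁻¹ (U.inv_mem hgU) h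
    exact hne (S.grp_inj ℓ' ℓ g⁻¹ h3 ((S.grp ℓ).inv_mem hg) (by simpa using hg1))
  have hne3 : g⁻¹ • ℓ' ≠ ℓ := by
    intro h
    apply hne
    rw [inv_smul_eq_iff, hgl] at h
    exact h
  obtain ⟨a, ha, b, hb, hab⟩ := exists_min_pair S ℓ ℓ'
  obtain ⟨a', ha', b', hb', hab'⟩ := exists_min_pair S ℓ (g⁻¹ • ℓ')
  have e1 : S.d a b ≤ S.d a' b' := by
    have h3 := S.Y_smul g ℓ a' ha'
    rw [hgl] at h3
    have h4 := S.Y_smul g _ b' hb'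
    rw [smul_inv_smul] at h4
    have h5 := hab _ h3 _ h4
    rwa [S.inv] at h5
  have e2 : S.d a' b' ≤ S.d a b := by
    have h3 := S.Y_smul g⁻¹ ℓ a ha
    rw [hgl'] at h3
    have h4 := S.Y_smul g⁻¹ _ b hb
    have h5 := hab' _ h3 _ h4
    rwa [S.inv] at h5
  rcases D_beh S ℓ' (g⁻¹ • ℓ') (Ne.symm hne2) p with hb1 | hb1
  · have f1 := hb1 b' hb'
    have f2 := D_tri S ℓ' y b' p
    have f3 := D_comm S ℓ' b' p
    have f4 := D_tri S ℓ' y a' b'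
    have f5 := D_cone S ℓ' ℓ hne hy ha'
    obtain ⟨u, hu, h6⟩ := closer S (ℓ₁ := ℓ') (a := a') (b := b') (by omega)
    have h7 := hab a' ha' u hu
    omega
  · have f1 := hb1 b hb
    have f2 := D_tri S (g⁻¹ • ℓ') y b p
    have f3 := D_comm S (g⁻¹ • ℓ') b p
    have f4 := D_tri S (g⁻¹ • ℓ') y a b
    have f5 := D_cone S (g⁻¹ • ℓ') ℓ hne3 hy ha
    obtain ⟨u, hu, h6⟩ := closer S (ℓ₁ := g⁻¹ • ℓ') (a := a) (b := b) (by omega)
    have h7 := hab' a ha u hu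
    omega

/-- bounding the displacement of the best element of a coset of `rot ℓ` -/
theorem half_len (S : BSys G U n L) {ℓ : L} {a b : G} (ha : a ∈ S.Y ℓ) (hb : b ∈ S.Y ℓ)
    (hmin : ∀ r ∈ S.rot ℓ, S.d a b ≤ S.d a (r * b)) : 32 * S.d a b ≤ 17 * S.len ℓ := by
  obtain ⟨t, ρ, hρ, h1, h2, h3⟩ := line' S ℓ
  have hbig := S.len_big ℓ
  have g1 := h1 a ha b hb
  rcases le_total (t a) (t b) with hle | hle
  · have hr : ρ⁻¹ ∈ S.rot ℓ := (S.rot ℓ).inv_mem hρ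
    have k1 := hmin _ hr
    have k2 := h3 b hb
    have k3 := h1 a ha _ (rot_Y S hr hb)
    omega
  · have k1 := hmin _ hρ
    have k2 := h2 b hb
    have k3 := h1 a ha _ (rot_Y S hρ hb)
    omega

theorem lemQ (c : Cone S) {ℓ : L} {g p : G} {R : ℕ} (hg : g ∈ S.grp ℓ)
    (h1 : ∀ y ∈ S.Y ℓ, R + 30 ≤ c.q p y) (h2 : c.q p (g * p) ≤ R) : g ∈ S.rot ℓ := by
  have hN : S.N.Normal := N_normal S
  -- choose `p₁`, `y`
  obtain ⟨y₀, hy₀⟩ := S.Y_ne ℓ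
  have hne : {m | ∃ h ∈ S.N, ∃ y ∈ S.Y ℓ, m = S.d (h * p) y}.Nonempty :=
    ⟨_, 1, S.N.one_mem, y₀, hy₀, rfl⟩
  obtain ⟨h, hh, y, hy, hm⟩ := Nat.sInf_mem hne
  have hmin : ∀ h' ∈ S.N, ∀ y' ∈ S.Y ℓ, S.d (h * p) y ≤ S.d (h' * (h * p)) y' := by
    intro h' hh' y' hy'
    rw [← hm]
    exact Nat.sInf_le ⟨h' * h, S.N.mul_mem hh' hh, y', hy', by rw [mul_assoc]⟩
  -- choose `g₁`
  have hne2 : {m | ∃ r ∈ S.rot ℓ, m = S.d y (r * g * y)}.Nonempty := ⟨_, 1, (S.rot ℓ).one_mem, rfl⟩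
  obtain ⟨r, hr, hm2⟩ := Nat.sInf_mem hne2
  have hmin2 : ∀ r' ∈ S.rot ℓ, S.d y (r * g * y) ≤ S.d y (r' * (r * g * y)) := by
    intro r' hr'
    rw [← hm2]
    exact Nat.sInf_le ⟨r' * r, (S.rot ℓ).mul_mem hr' hr, by simp only [mul_assoc]⟩
  clear hm hm2 hne hne2
  set p₁ := h * p with hp₁
  set g₁ := r * g with hg₁
  have hg₁m : g₁ ∈ S.grp ℓ := (S.grp ℓ).mul_mem (S.rot_le ℓ hr) hg
  by_cases h1' : g₁ = 1
  · have : g = r⁻¹ := by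
      rw [eq_inv_iff_mul_eq_one]
      have h3 : r * g = 1 := h1'
      rw [mul_eq_one_iff_eq_inv] at h3
      rw [h3]; group
    rw [this]
    exact (S.rot ℓ).inv_mem hr
  exfalso
  have hgfix : g₁ • ℓ = ℓ := S.grp_fix ℓ _ hg₁m
  have hgy : g₁ * y ∈ S.Y ℓ := by
    have := S.Y_smul g₁ ℓ y hy
    rwa [hgfix] at this
  -- `q` of `p₁`
  have q1 : ∀ y' ∈ S.Y ℓ, R + 30 ≤ c.q p₁ y' := by
    intro y' hy'
    have := q_N c p y' hh S.N.one_mem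
    rw [one_mul] at this
    rw [hp₁, this]
    exact h1 y' hy'
  have q2 : c.q p₁ (g₁ * p₁) ≤ R := by
    have e : g₁ * p₁ = (r * (g * h * g⁻¹)) * (g * p) := by rw [hg₁, hp₁]; group
    rw [e, hp₁, q_N c p (g * p) hh (S.N.mul_mem (rot_N S hr) (hN.conj_mem h hh g))]
    exact h2
  -- `y` is a nearest point of `p₁`
  have yprj : y ∈ prj S.d (S.Y ℓ) p₁ := ⟨hy, fun y' hy' => by
    have := hmin 1 S.N.one_mem y' hy'
    rwa [one_mul] at this⟩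
  have gyprj : g₁ * y ∈ prj S.d (S.Y ℓ) (g₁ * p₁) := by
    refine ⟨hgy, fun y' hy' => ?_⟩
    have h3 : g₁⁻¹ * y' ∈ S.Y ℓ := by
      have := S.Y_smul g₁⁻¹ ℓ y' hy'
      rwa [show g₁⁻¹ • ℓ = ℓ by rw [inv_smul_eq_iff, hgfix]] at this
    have h4 := yprj.2 _ h3
    rwa [← S.inv g₁, ← S.inv g₁ p₁ (g₁⁻¹ * y'), mul_inv_cancel_left] at h4
  -- reducedness
  have ha : ∀ ℓ', 32 * S.D ℓ' y p₁ ≤ 17 * S.len ℓ' := by
    intro ℓ'
    have := addPt_aux (S := S) (x := y) (y := y) (z := p₁) (k := 0) (by omega) ℓ'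
      (by rw [D_self]; omega) (fun r' hr' => by
        have h3 := hmin r' (rot_N S hr') y hy
        rw [S.symm y p₁, S.symm y (r' * p₁)]
        omega)
    simpa using this
  have hred : S.Rdc 15 p₁ (g₁ * p₁) := by
    intro ℓ'
    have hbig := S.len_big ℓ'
    by_cases hℓ : ℓ' = ℓ
    · subst hℓ
      have h3 := half_len S hy hgy hmin2
      have h4 := D_prj S ℓ' yprj gyprj
      omega
    · have h3 := D_tri S ℓ' p₁ y (g₁ * p₁)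
      have h4 := D_tri S ℓ' y (g₁ * y) (g₁ * p₁)
      have h5 := D_cone S ℓ' ℓ hℓ hy hgy
      have h6 : S.D ℓ' (g₁ * y) (g₁ * p₁) = S.D (g₁⁻¹ • ℓ') y p₁ := D_inv S _ _ _ _
      have h7 := ha ℓ'
      have h8 := ha (g₁⁻¹ • ℓ')
      rw [len_inv] at h8
      have h9 := D_comm S ℓ' p₁ y
      have h10 : S.D ℓ' y p₁ ≤ 10 ^ 18 ∨ S.D (g₁⁻¹ • ℓ') y p₁ ≤ 10 ^ 18 := by
        by_contra hcon
        push Not at hcon
        exact not_both S hg₁m h1' hℓ hy hcon.1 hcon.2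
      omega
  have hd' : c.g.d p₁ (g₁ * p₁) ≤ R := by rw [← q_eq c hred]; exact q2
  have hfar : ∀ m y', S.d p₁ m + S.d m (g₁ * p₁) = S.d p₁ (g₁ * p₁) → y' ∈ S.Y ℓ →
      10 ^ 18 < S.d m y' := by
    intro m y' hm hy'
    by_contra hcon
    push Not at hcon
    have e1 := c.of_le m y' hcon
    have e2 := cone_near_seg c hm
    have e3 := c.g.tri p₁ m y'
    have e4 := q1 y' hy'
    have e5 := q_le c p₁ y'
    omega
  have hpy : 10 ^ 18 < S.d p₁ y := hfar p₁ y (by rw [S.self]; omega) hy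
  have hsmall : S.d y (g₁ * y) ≤ 2400 := by
    by_contra hcon
    push Not at hcon
    have e1 := D_far S ℓ yprj gyprj hcon
    have e2 := S.inv g₁ y p₁
    have e3 := S.symm y p₁
    obtain ⟨m, hm1, hm2⟩ := S.geo p₁ (g₁ * p₁) (S.d p₁ y) (by omega)
    have e4 := S.tri y (g₁ * y) (g₁ * p₁)
    have e5 := close_of_pos S.toGH (p := p₁) (q := g₁ * p₁) (a := m) (b := y) (e := 0) (e' := 4600)
      (k := 0) (by omega) (by omega) (by omega) (by omega)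
    have e6 := hfar m y (by omega) hy
    omega
  obtain ⟨m, hm1, hm2⟩ := S.geo y p₁ (4 * 10 ^ 5) (by rw [S.symm]; omega)
  have e1 := S.tri m y (g₁ * m)
  have e2 := S.tri y (g₁ * y) (g₁ * m)
  have e3 := S.inv g₁ y m
  have e4 := S.symm m y
  have hmY := S.small ℓ g₁ m hg₁m h1' (by omega)
  have e5 := yprj.2 m hmY
  have e6 := S.symm y p₁
  have e7 := S.symm p₁ m
  omega

end Run7.h253
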