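import Pool.Agent.Run7.h253.Cyc

/-!
# Piece `line`: the killing system of a stage

Lines: `Ω = {E z | z ∈ U loxodromic, z moves some point at most 10^6}` with the conjugation action;
`A ω = {p | ∃ z ∈ ω, z ≠ 1, d p (z p) ≤ 10^6}`, `Y ω` = the union of all geodesics between points of `A ω`.

* points of `Y ω` are moved at most `10^6 + 4δ` by some `z ∈ ω`, `z ≠ 1` (`tube`, `ω` is abelian).
* `qc`: `slim_tri`/`slim_quad`: `[u,v] ⊂ N_{4δ}(Y ω)` for `u ∈ [a,b]`, `v ∈ [a',b']`.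
* `ovl`: `p, q` in the `10^5` neighbourhoods of both are moved `≤ T' = 10^6 + 4δ + 2*10^5` by
  nontrivial elements `z₁, w₁ ∈ ω₁` (`z₁` at `p`, `w₁` at `q`), `z₂, w₂ ∈ ω₂`.  On a geodesic `[p,q]` there is
  `a₁` such that `z₁` moves all points of `[p,a₁]` and `w₁` all points of `[a₁+1, q]` at most
  `T' + 8δ ≤ 2*10^6` (`tube`, `disp_conv`); same with `a₂`.  One of the three pieces has length
  `≥ (|pq|-2)/3 ≥ 10^16`: by `Stage.ov` the two elements commute up to a power, so `ω₁ = ω₂`.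
* `Cob`: for `c, c'` moved `≤ 1.5*10^6` by nontrivial elements of `ω` there is `w ∈ ω` with
  `d c (w c') ≤ 10^40`: take `w` minimizing `ρ = d c (w c')`; if `ρ` is large half of the segment is
  moved `≤ 1.5*10^6+8δ` by one `z ∈ ω`; some `z^i`, `i ≤ 10^32`, has shift `> 16δ` there by `cnt`, then
  `z^{±i}` moves `c` closer to `w c'`.
* a generator `x` of `ω` moves a suitable point at most `1.5*10^6`
  (a point `c'` of minimal displacement `μ` of `x`; if `μ ≥ 10δ+10` then by `min_defect`, `orbit_grow`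
  `z = x^k` has displacement `≥ μ - C` everywhere), hence every point of `Y ω` at most `10^42`.
* `line`: at `y ∈ Y ω` put `u_i = d y (x^i y)`.  As `u_{2^j} ≥ 2^j/10^32` (`inj_low`) and
  `u_1 ≤ 10^42` there is `j ≤ 300` with `u_{2^{j+1}} > u_{2^j} + 10δ`... so `orbit_add` applies to `x^{2^j}`
  with defect `β ≤ 2^j * 2 * 10^42`(use: `2 u_K - u_{2K} = β < u_K - 2δ`), giving
  `u_{i+j} ≥ u_i + u_j - 10^119` for all `i, j ≥ 0`.  With `Cob` this gives the coordinate `t` and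
  `len = (min displacement of rot on Y) `, e.g. `len = u_n(y₀) - 10^119`-ish, or the infimum.
-/

set_option autoImplicit false

namespace Run7.h253

section
variable {G : Type*} [Group G] {U : Subgroup G} {n : ℕ}

/-- pushing `c` towards `q` -/
theorem push (S : Stage G U n) {z c q m : G} (hz : z ∈ U) (hl : Lox S.d z)
    (hc : S.d c (z * c) ≤ 2 * 10 ^ 6) (hm : S.d m (z * m) ≤ 2 * 10 ^ 6)
    (hcq : S.d c m + S.d m q = S.d c q) (hlong : 10 ^ 41 ≤ S.d c m) :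
    ∃ a : ℤ, S.d (z ^ a * c) q < S.d c q := by
  have d1 : ∀ i, i ≤ 10 ^ 32 → S.d c (z ^ i • c) ≤ 2 * 10 ^ 38 := by
    intro i hi
    have h := disp_pow S.toGH (linv S) z c i
    have h2 : i * S.d c (z • c) ≤ 10 ^ 32 * (2 * 10 ^ 6) := Nat.mul_le_mul hi hc
    have h3 : (10 : ℕ) ^ 32 * (2 * 10 ^ 6) = 2 * 10 ^ 38 := by norm_num
    rw [h3] at h2
    exact h.trans h2
  have d2 : ∀ i, i ≤ 10 ^ 32 → S.d m (z ^ i • m) ≤ 2 * 10 ^ 38 := by
    intro i hi
    have h := disp_pow S.toGH (linv S) z m i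
    have h2 : i * S.d m (z • m) ≤ 10 ^ 32 * (2 * 10 ^ 6) := Nat.mul_le_mul hi hm
    have h3 : (10 : ℕ) ^ 32 * (2 * 10 ^ 6) = 2 * 10 ^ 38 := by norm_num
    rw [h3] at h2
    exact h.trans h2
  obtain ⟨w, i, hi, hw, hw1, hw2, hw3⟩ : ∃ (w : G) (i : ℕ), i ≤ 10 ^ 32 ∧
      S.d c w + S.d w m = S.d c m ∧ 5 * 10 ^ 39 ≤ S.d c w ∧ 5 * 10 ^ 39 ≤ S.d w m ∧
      2 * 10 ^ 6 < S.d w (z ^ i • w) := by
    by_contra hcon
    push Not at hcon
    obtain ⟨u, hu, hu'⟩ := S.geo c m (5 * 10 ^ 39) (by omega)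
    obtain ⟨v, hv, hv'⟩ := S.geo c m (6 * 10 ^ 39) (by omega)
    have t := S.tri c u v
    obtain ⟨i, j, hij, hj, e⟩ := S.cnt u v (by omega) (fun i => z ^ i)
      (fun i hi => ⟨pow_mem hz i, hcon u i hi (by omega) (by omega) (by omega),
        hcon v i hi (by omega) (by omega) (by omega)⟩)
    have e' : z ^ (j - i) = 1 := by
      have e2 : z ^ i = z ^ j := e
      have : z ^ j = z ^ (j - i) * z ^ i := by rw [← pow_add, Nat.sub_add_cancel hij.le]
      rw [this] at e2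
      exact (mul_eq_right.1 e2.symm)
    exact not_lox_one S hl (by omega) e'
  have key : ∀ y : G, S.d c (y • c) ≤ 2 * 10 ^ 38 → S.d m (y • m) ≤ 2 * 10 ^ 38 →
      S.d c w + 5000 ≤ S.d c (y • w) → S.d (y * c) q < S.d c q := by
    intro y hy1 hy2 hy3
    have ny := shift_near S.toGH (linv S) y hy1 hy2 hw (by omega) (by omega)
    have t1 := S.tri (y * c) (y * w) q
    have t2 := S.tri (y * w) m q
    have i1 := S.inv y c w
    have e1 : S.d (y * w) m = S.d (y • w) m := rfl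
    omega
  have ny := shift_near S.toGH (linv S) (z ^ i) (d1 i hi) (d2 i hi) hw (by omega) (by omega)
  have cl := close_of_pos S.toGH (p := c) (q := m) (a := z ^ i • w) (b := w) (e := 2 * 200) (e' := 0)
    (k := max (S.d c (z ^ i • w) - S.d c w) (S.d c w - S.d c (z ^ i • w)))
    ny (by omega) (by omega) (by omega)
  rw [Nat.max_zero] at cl
  have sw := S.symm (z ^ i • w) w
  rcases le_total (S.d c w) (S.d c (z ^ i • w)) with h | h
  · refine ⟨(i : ℤ), ?_⟩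
    rw [zpow_natCast]
    exact key (z ^ i) (d1 i hi) (d2 i hi) (by omega)
  · have e1 : S.d c ((z ^ i)⁻¹ • c) ≤ 2 * 10 ^ 38 := by
      have := zinv_disp S (z ^ i) c
      have h2 := d1 i hi
      rw [smul_eq_mul] at h2 ⊢
      omega
    have e2 : S.d m ((z ^ i)⁻¹ • m) ≤ 2 * 10 ^ 38 := by
      have := zinv_disp S (z ^ i) m
      have h2 := d2 i hi
      rw [smul_eq_mul] at h2 ⊢
      omega
    have sc := shift_comp S.toGH (linv S) (z ^ i) (z ^ i)⁻¹ (R := 2 * 10 ^ 38) (d1 i hi) (d2 i hi)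
      e1 e2 hw (by omega) (by omega) (by omega)
    rw [smul_inv_smul] at sc
    refine ⟨-(i : ℤ), ?_⟩
    rw [zpow_neg, zpow_natCast]
    exact key _ e1 e2 (by omega)

variable {z0 p0 : G}

theorem ee_mul_comm (S : Stage G U n) (hn : n.Prime) (hbig : 10 ^ 170 ≤ n) (hz : z0 ∈ U)
    (hl : Lox S.d z0) (hp : S.d p0 (z0 * p0) ≤ 19 * 10 ^ 5) {a b : G} (ha : a ∈ EE U z0)
    (hb : b ∈ EE U z0) : a * b = b * a := by
  obtain ⟨x, hx⟩ := ee_cyc S hn hbig hz hl hp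
  rw [hx] at ha hb
  obtain ⟨i, rfl⟩ := ha
  obtain ⟨j, rfl⟩ := hb
  exact (Commute.zpow_zpow_self x i j).eq

/-- coboundedness -/
theorem cob (S : Stage G U n) (hn : n.Prime) (hbig : 10 ^ 170 ≤ n) (hz : z0 ∈ U)
    (hl : Lox S.d z0) (hp : S.d p0 (z0 * p0) ≤ 19 * 10 ^ 5) {c c' z1 z2 : G}
    (h1 : z1 ∈ EE U z0) (n1 : z1 ≠ 1) (h2 : z2 ∈ EE U z0) (n2 : z2 ≠ 1)
    (hc : S.d c (z1 * c) ≤ 15 * 10 ^ 5) (hc' : S.d c' (z2 * c') ≤ 15 * 10 ^ 5) :
    ∃ w ∈ EE U z0, S.d c (w * c') ≤ 10 ^ 42 := by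
  classical
  have hex : ∃ k, ∃ w ∈ EE U z0, S.d c (w * c') = k := ⟨_, 1, one_mem _, rfl⟩
  obtain ⟨w, hw, hwk⟩ := Nat.find_spec hex
  have hmin : ∀ w' ∈ EE U z0, S.d c (w * c') ≤ S.d c (w' * c') := by
    intro w' hw'
    rw [hwk]
    exact Nat.find_min' hex ⟨w', hw', rfl⟩
  refine ⟨w, hw, ?_⟩
  by_contra hcon
  have comm := ee_mul_comm S hn hbig hz hl hp h1 h2
  have comm2 := ee_mul_comm S hn hbig hz hl hp h2 hw
  have hl1 := ee_lox S hn hbig hz hl h1 n1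
  have hl2 := ee_lox S hn hbig hz hl h2 n2
  have hq : S.d (w * c') (z2 * (w * c')) ≤ 15 * 10 ^ 5 := by
    rw [disp_comm S comm2]; exact hc'
  obtain ⟨m, hm, hm'⟩ := S.geo c (w * c') (5 * 10 ^ 41) (by omega)
  have hmm : S.d c m + S.d m (w * c') = S.d c (w * c') := by omega
  have s1 := S.symm m (w * c')
  have s2 := S.symm m c
  have s3 := S.symm c (w * c')
  rcases tube S.toGH (linv S) z1 z2 comm (T := 15 * 10 ^ 5) hc hq hmm with h | h
  · have h' : S.d m (z1 * m) ≤ 15 * 10 ^ 5 + 4 * 200 := h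
    obtain ⟨a, ha⟩ := push S (z := z1) (c := c) (q := w * c') (m := m) h1.1 hl1 (by omega)
      (by omega) hmm (by omega)
    have h3 := hmin ((z1 ^ a)⁻¹ * w) (mul_mem (inv_mem (Subgroup.zpow_mem _ h1 a)) hw)
    have h4 := S.inv (z1 ^ a) c ((z1 ^ a)⁻¹ * w * c')
    have e : z1 ^ a * ((z1 ^ a)⁻¹ * w * c') = w * c' := by group
    rw [e] at h4
    omega
  · have h' : S.d m (z2 * m) ≤ 15 * 10 ^ 5 + 4 * 200 := h
    obtain ⟨a, ha⟩ := push S (z := z2) (c := w * c') (q := c) (m := m) h2.1 hl2 (by omega)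
      (by omega) (by omega) (by omega)
    have h3 := hmin (z2 ^ a * w) (mul_mem (Subgroup.zpow_mem _ h2 a) hw)
    have s4 := S.symm (z2 ^ a * (w * c')) c
    rw [mul_assoc] at h3
    omega

/-- a root moves some point little -/
theorem gen_pt (S : Stage G U n) {x : G} {k : ℕ} (hk : 1 ≤ k)
    (hp : S.d p0 (x ^ k * p0) ≤ 10 ^ 6) : ∃ c, S.d c (x * c) ≤ 15 * 10 ^ 5 := by
  classical
  have hex : ∃ r, ∃ p : G, S.d p (x * p) = r := ⟨_, p0, rfl⟩
  obtain ⟨c, hc⟩ := Nat.find_spec hex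
  have hmin : ∀ p, S.d c (x * c) ≤ S.d p (x * p) := by
    intro p
    rw [hc]
    exact Nat.find_min' hex ⟨p, rfl⟩
  refine ⟨c, ?_⟩
  by_contra hcon
  have md := min_defect S.toGH (linv S) x (p := c) hmin (by
    have : S.d c (x • c) = S.d c (x * c) := rfl
    omega)
  obtain ⟨μ, hμ⟩ : ∃ μ, μ = S.d c (x * c) := ⟨_, rfl⟩
  have hμ' : S.d c (x • c) = μ := hμ.symm
  have hβ : 2 * S.d c (x • c) ≤ S.d c (x ^ 2 • c) + 402 := by omega
  have hβ' : 402 + 2 * 200 + 1 ≤ S.d c (x • c) := by omega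
  have gr := orbit_grow S.toGH (linv S) x hβ hβ'
  have ad := orbit_add S.toGH (linv S) x hβ hβ'
  have low : ∀ i, 1 ≤ i → μ ≤ S.d c (x ^ i • c) := by
    intro i hi
    induction i, hi using Nat.le_induction with
    | base => rw [pow_one]; omega
    | succ i hi ih =>
      have := gr i
      omega
  have w1 := low k hk
  have lowN : ∀ N : ℕ, N * μ ≤ S.d c (x ^ (k * N) • c) + N * 802 := by
    intro N
    induction N with
    | zero => omega
    | succ N ih =>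
      have a := ad (k * N) k
      have e : k * N + k = k * (N + 1) := by ring
      rw [e] at a
      rw [add_mul, add_mul, one_mul, one_mul]
      omega
  have up : ∀ N : ℕ, S.d c (x ^ (k * N) • c) ≤ 2 * S.d c p0 + N * 10 ^ 6 := by
    intro N
    have a := disp_pow S.toGH (linv S) (x ^ k) p0 N
    rw [← pow_mul] at a
    have b : N * S.d p0 (x ^ k • p0) ≤ N * 10 ^ 6 := Nat.mul_le_mul_left _ hp
    have t1 := S.tri c p0 (x ^ (k * N) • c)
    have t2 := S.tri p0 (x ^ (k * N) • p0) (x ^ (k * N) • c)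
    have i1 := linv S (x ^ (k * N)) p0 c
    have s1 := S.symm p0 c
    omega
  have f1 := lowN (2 * S.d c p0 + 1)
  have f2 := up (2 * S.d c p0 + 1)
  have f3 : (2 * S.d c p0 + 1) * (10 ^ 6 + 803) ≤ (2 * S.d c p0 + 1) * μ :=
    Nat.mul_le_mul_left _ (by omega)
  have f5 := (f3.trans f1).trans (Nat.add_le_add_right f2 _)
  linarith

/-- coarse additivity along the orbit of the generator -/
theorem u_add (S : Stage G U n) {x y : G} (hx : x ∈ U) (hl : Lox S.d x)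
    (hy : S.d y (x * y) ≤ 10 ^ 43) (i j : ℕ) :
    S.d y (x ^ i * y) + S.d y (x ^ j * y) ≤ S.d y (x ^ (i + j) * y) + 10 ^ 119 := by
  obtain ⟨a, ha, hgrow⟩ : ∃ a, a < 250 ∧
      S.d y (x ^ 2 ^ a * y) + 401 ≤ S.d y (x ^ 2 ^ (a + 1) * y) := by
    by_contra hcon
    push Not at hcon
    have up : ∀ a, a ≤ 250 → S.d y (x ^ 2 ^ a * y) ≤ 10 ^ 43 + 401 * a := by
      intro a
      induction a with
      | zero =>
        intro _
        rw [pow_zero, pow_one]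
        exact hy.trans (Nat.le_add_right _ _)
      | succ a ih =>
        intro ha
        have h1 := ih (by omega)
        have h2 := hcon a (by omega)
        have h3 : 401 * (a + 1) = 401 * a + 401 := by ring
        rw [h3]
        generalize 401 * a = b at *
        generalize (10 : ℕ) ^ 43 = c at *
        omega
    have h1 := inj_low S hx hl y (2 ^ 250)
    have h2 := up 250 le_rfl
    have h3 : 10 ^ 32 * S.d y (x ^ 2 ^ 250 * y) ≤ 10 ^ 32 * (10 ^ 43 + 401 * 250) :=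
      Nat.mul_le_mul_left _ h2
    have h4 : (10 : ℕ) ^ 32 * (10 ^ 43 + 401 * 250) < 2 ^ 250 := by norm_num
    exact absurd (h1.trans h3) (not_le.2 h4)
  obtain ⟨K, hK⟩ : ∃ K, K = 2 ^ a := ⟨_, rfl⟩
  have hK1 : 1 ≤ K := by rw [hK]; exact Nat.one_le_two_pow
  have hK2 : K ≤ 10 ^ 75 := by
    have h1 : 2 ^ a ≤ 2 ^ 249 := Nat.pow_le_pow_right (by norm_num) (by omega)
    have h2 : (2 : ℕ) ^ 249 ≤ 10 ^ 75 := by norm_num
    rw [hK]
    exact h1.trans h2
  have h2K : 2 ^ (a + 1) = K * 2 := by rw [pow_succ, hK]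
  rw [← hK, h2K, pow_mul] at hgrow
  have small : ∀ r, r ≤ K → S.d y (x ^ r * y) ≤ 10 ^ 118 := by
    intro r hr
    have h1 := disp_pow S.toGH (linv S) x y r
    have h2 : r * S.d y (x • y) ≤ 10 ^ 75 * 10 ^ 43 := Nat.mul_le_mul (hr.trans hK2) hy
    have h3 : (10 : ℕ) ^ 75 * 10 ^ 43 = 10 ^ 118 := by norm_num
    rw [h3] at h2
    exact h1.trans h2
  have hKs := small K le_rfl
  obtain ⟨β, hβ⟩ : ∃ β, β = 2 * S.d y (x ^ K * y) - S.d y ((x ^ K) ^ 2 * y) := ⟨_, rfl⟩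
  have ad := orbit_add S.toGH (linv S) (x ^ K) (m := y) (β := β)
    (by
      have e1 : S.d y (x ^ K • y) = S.d y (x ^ K * y) := rfl
      have e2 : S.d y ((x ^ K) ^ 2 • y) = S.d y ((x ^ K) ^ 2 * y) := rfl
      omega)
    (by
      have e1 : S.d y (x ^ K • y) = S.d y (x ^ K * y) := rfl
      have e2 := disp_pow S.toGH (linv S) (x ^ K) y 2
      have e3 : S.d y ((x ^ K) ^ 2 • y) = S.d y ((x ^ K) ^ 2 * y) := rfl
      omega) (i / K) (j / K)
  rw [← pow_mul, ← pow_mul, ← pow_mul] at ad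
  have ad' : S.d y (x ^ (K * (i / K)) * y) + S.d y (x ^ (K * (j / K)) * y) ≤
    S.d y (x ^ (K * (i / K + j / K)) * y) + β + 2 * 200 := ad
  have hi : i = K * (i / K) + i % K := (Nat.div_add_mod i K).symm
  have hj : j = K * (j / K) + j % K := (Nat.div_add_mod j K).symm
  have hir : i % K ≤ K := (Nat.mod_lt _ (by omega)).le
  have hjr : j % K ≤ K := (Nat.mod_lt _ (by omega)).le
  have split : ∀ k l : ℕ, S.d y (x ^ (k + l) * y) ≤ S.d y (x ^ k * y) + S.d y (x ^ l * y) := by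
    intro k l
    have t := S.tri y (x ^ k * y) (x ^ (k + l) * y)
    have e : S.d (x ^ k * y) (x ^ (k + l) * y) = S.d y (x ^ l * y) := by
      rw [pow_add, mul_assoc, S.inv]
    omega
  have split' : ∀ k l : ℕ, S.d y (x ^ k * y) ≤ S.d y (x ^ (k + l) * y) + S.d y (x ^ l * y) := by
    intro k l
    have t := S.tri y (x ^ (k + l) * y) (x ^ k * y)
    have e : S.d (x ^ (k + l) * y) (x ^ k * y) = S.d y (x ^ l * y) := by
      rw [S.symm, pow_add, mul_assoc, S.inv]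
    omega
  have f1 := split (K * (i / K)) (i % K)
  have f2 := split (K * (j / K)) (j % K)
  rw [← hi] at f1
  rw [← hj] at f2
  have f3 := split' (K * (i / K + j / K)) (i % K + j % K)
  have e3 : K * (i / K + j / K) + (i % K + j % K) = i + j := by
    rw [mul_add]
    omega
  rw [e3] at f3
  have f4 := split (i % K) (j % K)
  have g1 := small _ hir
  have g2 := small _ hjr
  have hβ2 : β ≤ 2 * 10 ^ 118 := by omega
  generalize S.d y (x ^ (K * (i / K)) * y) = A1 at *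
  generalize S.d y (x ^ (K * (j / K)) * y) = A2 at *
  generalize S.d y (x ^ (K * (i / K + j / K)) * y) = A3 at *
  generalize S.d y (x ^ i * y) = A4 at *
  generalize S.d y (x ^ j * y) = A5 at *
  generalize S.d y (x ^ (i + j) * y) = A6 at *
  generalize S.d y (x ^ (i % K) * y) = A7 at *
  generalize S.d y (x ^ (j % K) * y) = A8 at *
  generalize S.d y (x ^ (i % K + j % K) * y) = A9 at *
  omega

end

/-- signed position -/
def sg (u : ℕ → ℕ) (k : ℤ) : ℤ := if 0 ≤ k then (u k.toNat : ℤ) else -(u (-k).toNat : ℤ)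

theorem sg_add (u : ℕ → ℕ) (E : ℕ) (h0 : u 0 = 0) (hsub : ∀ i j, u (i + j) ≤ u i + u j)
    (hadd : ∀ i j, u i + u j ≤ u (i + j) + E) (k : ℤ) (m : ℕ) :
    sg u (k + m) - sg u k ≤ u m + E ∧ (u m : ℤ) ≤ sg u (k + m) - sg u k + E := by
  unfold sg
  by_cases hk : 0 ≤ k
  · obtain ⟨a, rfl⟩ := Int.eq_ofNat_of_zero_le hk
    rw [if_pos hk, if_pos (by omega)]
    have e1 : ((a : ℤ) + m).toNat = a + m := by omega
    have e2 : (a : ℤ).toNat = a := by omega
    rw [e1, e2]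
    have h1 := hsub a m
    have h2 := hadd a m
    omega
  · obtain ⟨a, ha⟩ : ∃ a : ℕ, k = -(a : ℤ) := ⟨(-k).toNat, by omega⟩
    subst ha
    rw [if_neg hk]
    have e2 : (-(-(a : ℤ))).toNat = a := by omega
    rw [e2]
    rcases le_total a m with h | h
    · rw [if_pos (by omega)]
      have e1 : (-(a : ℤ) + m).toNat = m - a := by omega
      rw [e1]
      have h1 := hsub (m - a) a
      have h2 := hadd (m - a) a
      rw [Nat.sub_add_cancel h] at h1 h2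
      omega
    · by_cases hc : (0 : ℤ) ≤ -(a : ℤ) + m
      · have : a = m := by omega
        subst this
        rw [if_pos hc]
        have e1 : (-(a : ℤ) + a).toNat = 0 := by omega
        rw [e1, h0]
        omega
      · rw [if_neg hc]
        have e1 : (-(-(a : ℤ) + m)).toNat = a - m := by omega
        rw [e1]
        have h1 := hsub (a - m) m
        have h2 := hadd (a - m) m
        rw [Nat.sub_add_cancel h] at h1 h2
        omega

universe u

section fam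
variable {G : Type u} [Group G] {U : Subgroup G} {n : ℕ}

/-- conjugate subgroup -/
def cj (g : G) (E : Subgroup G) : Subgroup G := E.comap (MulAut.conj g⁻¹).toMonoidHom

theorem mem_cj (g : G) (E : Subgroup G) (h : G) : h ∈ cj g E ↔ g⁻¹ * h * g ∈ E := by
  unfold cj
  rw [Subgroup.mem_comap]
  simp

theorem mem_EE {z h : G} : h ∈ EE U z ↔ h ∈ U ∧ ∃ k : ℕ, 1 ≤ k ∧ h * z ^ k = z ^ k * h := Iff.rfl

theorem cj_EE [hU : U.Normal] (g z : G) : cj g (EE U z) = EE U (g * z * g⁻¹) := by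
  ext h
  rw [mem_cj, mem_EE, mem_EE]
  constructor
  · rintro ⟨h1, k, hk, h2⟩
    refine ⟨?_, k, hk, ?_⟩
    · have := hU.conj_mem _ h1 g
      have e : g * (g⁻¹ * h * g) * g⁻¹ = h := by group
      rwa [e] at this
    · rw [conj_pow]
      calc h * (g * z ^ k * g⁻¹) = g * ((g⁻¹ * h * g) * z ^ k) * g⁻¹ := by group
        _ = g * (z ^ k * (g⁻¹ * h * g)) * g⁻¹ := by rw [h2]
        _ = g * z ^ k * g⁻¹ * h := by group
  · rintro ⟨h1, k, hk, h2⟩
    refine ⟨?_, k, hk, ?_⟩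
    · have := hU.conj_mem _ h1 g⁻¹
      rwa [inv_inv] at this
    · rw [conj_pow] at h2
      calc g⁻¹ * h * g * z ^ k = g⁻¹ * (h * (g * z ^ k * g⁻¹)) * g := by group
        _ = g⁻¹ * (g * z ^ k * g⁻¹ * h) * g := by rw [h2]
        _ = z ^ k * (g⁻¹ * h * g) := by group

/-- the family of maximal cyclic groups -/
def Fam (S : Stage G U n) : Type u :=
  {E : Subgroup G // ∃ z ∈ U, Lox S.d z ∧ (∃ p, S.d p (z * p) ≤ 10 ^ 6) ∧ E = EE U z}

theorem lox_cj (S : Stage G U n) {g z : G} (h : Lox S.d z) : Lox S.d (g * z * g⁻¹) :=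
  (lox_conj S.toGH (linv S) z g).2 h

theorem disp_cj (S : Stage G U n) (g z p : G) : S.d (g * p) (g * z * g⁻¹ * (g * p)) = S.d p (z * p) := by
  have : g * z * g⁻¹ * (g * p) = g * (z * p) := by group
  rw [this, S.inv]

instance famAct (S : Stage G U n) [hU : U.Normal] : MulAction G (Fam S) where
  smul g ω := ⟨cj g ω.1, by
    obtain ⟨z, hz, hl, ⟨p, hp⟩, e⟩ := ω.2
    refine ⟨g * z * g⁻¹, hU.conj_mem z hz g, lox_cj S hl, ⟨g * p, ?_⟩, ?_⟩
    · rwa [disp_cj]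
    · rw [e, cj_EE]⟩
  one_smul ω := by
    apply Subtype.ext
    show cj 1 ω.1 = ω.1
    ext h
    rw [mem_cj]
    simp
  mul_smul g h ω := by
    apply Subtype.ext
    show cj (g * h) ω.1 = cj g (cj h ω.1)
    ext k
    rw [mem_cj, mem_cj, mem_cj]
    have : (g * h)⁻¹ * k * (g * h) = h⁻¹ * (g⁻¹ * k * g) * h := by group
    rw [this]

theorem smul_val (S : Stage G U n) [hU : U.Normal] (g : G) (ω : Fam S) : (g • ω).1 = cj g ω.1 := rfl

section
variable (S : Stage G U n) (hn : n.Prime) (hbig : 10 ^ 170 ≤ n)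
include hn hbig

theorem fam_lox (ω : Fam S) {z : G} (hz : z ∈ ω.1) (h1 : z ≠ 1) : Lox S.d z := by
  obtain ⟨z0, hz0, hl, ⟨p, hp⟩, e⟩ := ω.2
  rw [e] at hz
  exact ee_lox S hn hbig hz0 hl hz h1

theorem fam_U (ω : Fam S) {z : G} (hz : z ∈ ω.1) : z ∈ U := by
  obtain ⟨z0, hz0, hl, ⟨p, hp⟩, e⟩ := ω.2
  rw [e] at hz
  exact hz.1

theorem fam_eq (ω : Fam S) {z : G} (hz : z ∈ ω.1) (h1 : z ≠ 1) : EE U z = ω.1 := by
  obtain ⟨z0, hz0, hl, ⟨p, hp⟩, e⟩ := ω.2
  rw [e] at hz ⊢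
  exact ee_eq S hn hbig hz0 hl (hp.trans (by norm_num)) hz h1

theorem fam_inj (ω ω' : Fam S) {z : G} (hz : z ∈ ω.1) (hz' : z ∈ ω'.1) (h1 : z ≠ 1) : ω = ω' := by
  apply Subtype.ext
  rw [← fam_eq S hn hbig ω hz h1, ← fam_eq S hn hbig ω' hz' h1]

theorem fam_comm (ω : Fam S) {a b : G} (ha : a ∈ ω.1) (hb : b ∈ ω.1) : a * b = b * a := by
  obtain ⟨z0, hz0, hl, ⟨p, hp⟩, e⟩ := ω.2
  rw [e] at ha hb
  exact ee_mul_comm S hn hbig hz0 hl (hp.trans (by norm_num)) ha hb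

theorem fam_cob (ω : Fam S) {c c' z1 z2 : G}
    (h1 : z1 ∈ ω.1) (n1 : z1 ≠ 1) (h2 : z2 ∈ ω.1) (n2 : z2 ≠ 1)
    (hc : S.d c (z1 * c) ≤ 15 * 10 ^ 5) (hc' : S.d c' (z2 * c') ≤ 15 * 10 ^ 5) :
    ∃ w ∈ ω.1, S.d c (w * c') ≤ 10 ^ 42 := by
  obtain ⟨z0, hz0, hl, ⟨p, hp⟩, e⟩ := ω.2
  rw [e] at h1 h2 ⊢
  exact cob S hn hbig hz0 hl (hp.trans (by norm_num)) h1 n1 h2 n2 hc hc'

theorem fam_gen (ω : Fam S) : ∃ x c : G, ω.1 = Subgroup.zpowers x ∧ Lox S.d x ∧ x ∈ U ∧ x ≠ 1 ∧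
    S.d c (x * c) ≤ 15 * 10 ^ 5 := by
  obtain ⟨z0, hz0, hl, ⟨p, hp⟩, e⟩ := ω.2
  obtain ⟨x, hx⟩ := ee_cyc S hn hbig hz0 hl (hp.trans (by norm_num))
  have hzE : z0 ∈ EE U z0 := ⟨hz0, 1, le_rfl, by simp⟩
  have hz1 : z0 ≠ 1 := fun h => not_lox_one S hl (k := 1) le_rfl (by rw [h, one_pow])
  rw [hx] at hzE
  obtain ⟨k, hk⟩ := hzE
  have hk' : x ^ k = z0 := hk
  have key : ∀ x : G, EE U z0 = Subgroup.zpowers x → ∀ m : ℕ, x ^ m = z0 →
      ∃ x c : G, ω.1 = Subgroup.zpowers x ∧ Lox S.d x ∧ x ∈ U ∧ x ≠ 1 ∧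
        S.d c (x * c) ≤ 15 * 10 ^ 5 := by
    intro x hx m hm
    have hm1 : 1 ≤ m := by
      by_contra hc
      have : m = 0 := by omega
      rw [this, pow_zero] at hm
      exact hz1 hm.symm
    obtain ⟨c, hc⟩ := gen_pt (p0 := p) S (x := x) hm1 (by rw [hm]; exact hp)
    have hxE : x ∈ EE U z0 := by rw [hx]; exact Subgroup.mem_zpowers x
    have hx1 : x ≠ 1 := by
      rintro rfl
      rw [one_pow] at hm
      exact hz1 hm.symm
    exact ⟨x, c, by rw [e, hx], ee_lox S hn hbig hz0 hl hxE hx1, hxE.1, hx1, hc⟩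
  rcases le_total 0 k with h | h
  · obtain ⟨m, rfl⟩ := Int.eq_ofNat_of_zero_le h
    exact key x hx m (by rw [← hk']; simp)
  · obtain ⟨m, hm⟩ := Int.eq_ofNat_of_zero_le (show 0 ≤ -k by omega)
    refine key x⁻¹ (by rw [hx, Subgroup.zpowers_inv]) m ?_
    rw [← hk', inv_pow, ← zpow_natCast, ← zpow_neg]
    congr 1
    have : ((m : ℕ) : ℤ) = -k := hm.symm
    omega

end

/-- points moved little by the group of the line -/
def AP (S : Stage G U n) (ω : Fam S) : Set G := {p | ∃ z ∈ ω.1, z ≠ 1 ∧ S.d p (z * p) ≤ 10 ^ 6}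

/-- the tube -/
def YY (S : Stage G U n) (ω : Fam S) : Set G :=
  {m | ∃ a ∈ AP S ω, ∃ b ∈ AP S ω, S.d a m + S.d m b = S.d a b}

theorem AP_smul (S : Stage G U n) [hU : U.Normal] (g : G) (ω : Fam S) {p : G} (hp : p ∈ AP S ω) :
    g * p ∈ AP S (g • ω) := by
  obtain ⟨z, hz, h1, h2⟩ := hp
  refine ⟨g * z * g⁻¹, ?_, ?_, ?_⟩
  · rw [smul_val, mem_cj]
    have : g⁻¹ * (g * z * g⁻¹) * g = z := by group
    rwa [this]
  · intro h
    apply h1
    have : z = g⁻¹ * (g * z * g⁻¹) * g := by group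
    rw [this, h]
    group
  · rwa [disp_cj]

theorem AP_sub (S : Stage G U n) (ω : Fam S) {p : G} (hp : p ∈ AP S ω) : p ∈ YY S ω :=
  ⟨p, hp, p, hp, by rw [S.self]⟩

theorem YY_ne (S : Stage G U n) (ω : Fam S) : (YY S ω).Nonempty := by
  obtain ⟨z, hz, hl, ⟨p, hp⟩, e⟩ := ω.2
  refine ⟨p, AP_sub S ω ⟨z, ?_, ?_, hp⟩⟩
  · rw [e]
    exact ⟨hz, 1, le_rfl, by simp⟩
  · exact fun h => not_lox_one S hl (k := 1) le_rfl (by rw [h, one_pow])

theorem YY_smul (S : Stage G U n) [hU : U.Normal] (g : G) (ω : Fam S) {p : G} (hp : p ∈ YY S ω) :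
    g * p ∈ YY S (g • ω) := by
  obtain ⟨a, ha, b, hb, h⟩ := hp
  exact ⟨g * a, AP_smul S g ω ha, g * b, AP_smul S g ω hb, by rw [S.inv, S.inv, S.inv]; exact h⟩

theorem cj_self (S : Stage G U n) [hU : U.Normal] (ω : Fam S) {z : G} (hz : z ∈ ω.1) : z • ω = ω := by
  apply Subtype.ext
  rw [smul_val]
  ext h
  rw [mem_cj]
  constructor
  · intro h1
    have := mul_mem (mul_mem hz h1) (inv_mem hz)
    have e : z * (z⁻¹ * h * z) * z⁻¹ = h := by group
    rwa [e] at this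
  · intro h1
    exact mul_mem (mul_mem (inv_mem hz) h1) hz

theorem YY_inv (S : Stage G U n) [hU : U.Normal] (ω : Fam S) {z p : G} (hz : z ∈ ω.1)
    (hp : p ∈ YY S ω) : z * p ∈ YY S ω := by
  have := YY_smul S z ω hp
  rwa [cj_self S ω hz] at this

theorem YY_disp (S : Stage G U n) (hn : n.Prime) (hbig : 10 ^ 170 ≤ n) (ω : Fam S) {m : G}
    (hm : m ∈ YY S ω) : ∃ z ∈ ω.1, z ≠ 1 ∧ S.d m (z * m) ≤ 10 ^ 6 + 800 := by
  obtain ⟨a, ⟨z, hz, hz1, ha⟩, b, ⟨w, hw, hw1, hb⟩, h⟩ := hm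
  rcases tube S.toGH (linv S) z w (fam_comm S hn hbig ω hz hw) (T := 10 ^ 6) ha hb h with h | h
  · exact ⟨z, hz, hz1, h⟩
  · exact ⟨w, hw, hw1, h⟩

/-- quasi-convexity -/
theorem YY_qc (S : Stage G U n) (ω : Fam S) {a b m : G} (ha : a ∈ YY S ω) (hb : b ∈ YY S ω)
    (hm : S.d a m + S.d m b = S.d a b) : ∃ y ∈ YY S ω, S.d m y ≤ 800 := by
  obtain ⟨a1, ha1, a2, ha2, hA⟩ := ha
  obtain ⟨b1, hb1, b2, hb2, hB⟩ := hb
  obtain ⟨m1, h1, h1'⟩ := slim_tri S.toGH (z := b1) hm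
  rcases h1 with h1 | h1
  · obtain ⟨m2, h2, h2'⟩ := slim_tri S.toGH (z := a1) h1
    have t := S.tri m m1 m2
    rcases h2 with h2 | h2
    · refine ⟨m2, ⟨a1, ha1, a2, ha2, ?_⟩, by omega⟩
      have t1 := S.tri a1 m2 a2
      have t2 := S.tri m2 a a2
      have s1 := S.symm a a1
      have s2 := S.symm a m2
      have s3 := S.symm m2 a1
      omega
    · exact ⟨m2, ⟨a1, ha1, b1, hb1, h2⟩, by omega⟩
  · refine ⟨m1, ⟨b1, hb1, b2, hb2, ?_⟩, by omega⟩
    have t1 := S.tri b1 m1 b2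
    have t2 := S.tri m1 b b2
    omega

/-- two lines with long overlap coincide -/
theorem ov_eq (S : Stage G U n) (hn : n.Prime) (hbig : 10 ^ 170 ≤ n) (ω ω' : Fam S) {z w p q : G}
    (hz : z ∈ ω.1) (hz1 : z ≠ 1) (hw : w ∈ ω'.1) (hw1 : w ≠ 1) (hpq : 10 ^ 15 ≤ S.d p q)
    (h1 : S.d p (z * p) ≤ 2 * 10 ^ 6) (h2 : S.d q (z * q) ≤ 2 * 10 ^ 6)
    (h3 : S.d p (w * p) ≤ 2 * 10 ^ 6) (h4 : S.d q (w * q) ≤ 2 * 10 ^ 6) : ω = ω' := by
  obtain ⟨a, ha, e⟩ := S.ov z (fam_U S hn hbig ω hz) w (fam_U S hn hbig ω' hw)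
    (fam_lox S hn hbig ω hz hz1) (fam_lox S hn hbig ω' hw hw1) p q hpq h1 h2 h3 h4
  have hwE : w ∈ EE U z := ⟨fam_U S hn hbig ω' hw, a, ha, e.symm⟩
  rw [fam_eq S hn hbig ω hz hz1] at hwE
  exact fam_inj S hn hbig ω ω' hwE hw hw1

theorem near_disp (S : Stage G U n) (hn : n.Prime) (hbig : 10 ^ 170 ≤ n) (ω : Fam S) {p a : G}
    (ha : a ∈ YY S ω) (hpa : S.d p a ≤ 10 ^ 5) :
    ∃ z ∈ ω.1, z ≠ 1 ∧ S.d p (z * p) ≤ 12 * 10 ^ 5 + 800 := by
  obtain ⟨z, hz, hz1, h⟩ := YY_disp S hn hbig ω ha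
  refine ⟨z, hz, hz1, ?_⟩
  have t1 := S.tri p a (z * p)
  have t2 := S.tri a (z * a) (z * p)
  have i1 := S.inv z a p
  have s1 := S.symm a p
  omega

theorem YY_ovl (S : Stage G U n) (hn : n.Prime) (hbig : 10 ^ 170 ≤ n) (ω ω' : Fam S) (hne : ω ≠ ω')
    {p q a a' b b' : G} (ha : a ∈ YY S ω) (ha' : a' ∈ YY S ω') (hb : b ∈ YY S ω)
    (hb' : b' ∈ YY S ω') (h1 : S.d p a ≤ 10 ^ 5) (h2 : S.d p a' ≤ 10 ^ 5) (h3 : S.d q b ≤ 10 ^ 5)
    (h4 : S.d q b' ≤ 10 ^ 5) : S.d p q ≤ 4 * 10 ^ 16 := by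
  by_contra hcon
  obtain ⟨z1, hz1, nz1, dz1⟩ := near_disp S hn hbig ω ha h1
  obtain ⟨w1, hw1, nw1, dw1⟩ := near_disp S hn hbig ω hb h3
  obtain ⟨z2, hz2, nz2, dz2⟩ := near_disp S hn hbig ω' ha' h2
  obtain ⟨w2, hw2, nw2, dw2⟩ := near_disp S hn hbig ω' hb' h4
  -- the middle point and the quarter point
  obtain ⟨m, hm, hm'⟩ := S.geo p q (2 * 10 ^ 16) (by omega)
  obtain ⟨r, hr, hr'⟩ := S.geo p m (10 ^ 16) (by omega)
  have hmm : S.d p m + S.d m q = S.d p q := by omega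
  have hrr : S.d p r + S.d r m = S.d p m := by omega
  have t1 := tube S.toGH (linv S) z1 w1 (fam_comm S hn hbig ω hz1 hw1) (T := 12 * 10 ^ 5 + 800)
    dz1 dw1 hmm
  have t2 := tube S.toGH (linv S) z2 w2 (fam_comm S hn hbig ω' hz2 hw2) (T := 12 * 10 ^ 5 + 800)
    dz2 dw2 hmm
  have T1 : S.d m (z1 * m) ≤ 12 * 10 ^ 5 + 1600 ∨ S.d m (w1 * m) ≤ 12 * 10 ^ 5 + 1600 := by
    rcases t1 with h | h
    · left; exact h
    · right; exact h
  have T2 : S.d m (z2 * m) ≤ 12 * 10 ^ 5 + 1600 ∨ S.d m (w2 * m) ≤ 12 * 10 ^ 5 + 1600 := by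
    rcases t2 with h | h
    · left; exact h
    · right; exact h
  apply hne
  rcases T1 with T1 | T1
  · rcases T2 with T2 | T2
    · exact ov_eq S hn hbig ω ω' (p := p) (q := m) hz1 nz1 hz2 nz2 (by omega) (by omega) (by omega)
        (by omega) (by omega)
    · -- `z1` on `[p,m]`, `w2` on `[m,q]`
      have c1 := disp_conv S.toGH (linv S) z1 (T := 12 * 10 ^ 5 + 1600) (p := p) (q := m) (m := r)
        (by have : S.d p (z1 • p) = S.d p (z1 * p) := rfl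
            omega) T1 hrr
      have c1' : S.d r (z1 * r) ≤ 12 * 10 ^ 5 + 2400 := c1
      have t3 := tube S.toGH (linv S) z2 w2 (fam_comm S hn hbig ω' hz2 hw2)
        (T := 12 * 10 ^ 5 + 1600) (p := p) (q := m) (m := r)
        (by have : S.d p (z2 • p) = S.d p (z2 * p) := rfl
            omega) T2 hrr
      rcases t3 with t3 | t3
      · have t3' : S.d r (z2 * r) ≤ 12 * 10 ^ 5 + 2400 := t3
        exact ov_eq S hn hbig ω ω' (p := p) (q := r) hz1 nz1 hz2 nz2 (by omega) (by omega)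
          (by omega) (by omega) (by omega)
      · have t3' : S.d r (w2 * r) ≤ 12 * 10 ^ 5 + 2400 := t3
        exact ov_eq S hn hbig ω ω' (p := r) (q := m) hz1 nz1 hw2 nw2 (by omega) (by omega)
          (by omega) (by omega) (by omega)
  · rcases T2 with T2 | T2
    · -- `w1` on `[m,q]`, `z2` on `[p,m]`
      have c1 := disp_conv S.toGH (linv S) z2 (T := 12 * 10 ^ 5 + 1600) (p := p) (q := m) (m := r)
        (by have : S.d p (z2 • p) = S.d p (z2 * p) := rfl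
            omega) T2 hrr
      have c1' : S.d r (z2 * r) ≤ 12 * 10 ^ 5 + 2400 := c1
      have t3 := tube S.toGH (linv S) z1 w1 (fam_comm S hn hbig ω hz1 hw1)
        (T := 12 * 10 ^ 5 + 1600) (p := p) (q := m) (m := r)
        (by have : S.d p (z1 • p) = S.d p (z1 * p) := rfl
            omega) T1 hrr
      rcases t3 with t3 | t3
      · have t3' : S.d r (z1 * r) ≤ 12 * 10 ^ 5 + 2400 := t3
        exact ov_eq S hn hbig ω ω' (p := p) (q := r) hz1 nz1 hz2 nz2 (by omega) (by omega)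
          (by omega) (by omega) (by omega)
      · have t3' : S.d r (w1 * r) ≤ 12 * 10 ^ 5 + 2400 := t3
        exact ov_eq S hn hbig ω ω' (p := r) (q := m) hw1 nw1 hz2 nz2 (by omega) (by omega)
          (by omega) (by omega) (by omega)
    · exact ov_eq S hn hbig ω ω' (p := m) (q := q) hw1 nw1 hw2 nw2 (by omega) (by omega) (by omega)
        (by omega) (by omega)

/-- the subgroup of `n`-th powers -/
def rotS (n : ℕ) (E : Subgroup G) : Subgroup G := Subgroup.closure {g | ∃ h ∈ E, g = h ^ n}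

theorem rotS_zpowers (n : ℕ) (x : G) : rotS n (Subgroup.zpowers x) = Subgroup.zpowers (x ^ n) := by
  apply le_antisymm
  · unfold rotS
    rw [Subgroup.closure_le]
    rintro g ⟨h, ⟨k, rfl⟩, rfl⟩
    refine ⟨k, ?_⟩
    show (x ^ n) ^ k = (x ^ k) ^ n
    rw [← zpow_natCast, ← zpow_natCast, ← zpow_mul, ← zpow_mul, mul_comm]
  · rw [Subgroup.zpowers_le]
    exact Subgroup.subset_closure ⟨x, Subgroup.mem_zpowers x, rfl⟩

theorem rotS_cj (n : ℕ) (g : G) (E : Subgroup G) {r : G} (hr : r ∈ rotS n E) :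
    g * r * g⁻¹ ∈ rotS n (cj g E) := by
  unfold rotS at hr
  induction hr using Subgroup.closure_induction with
  | mem x hx =>
    obtain ⟨h, hh, rfl⟩ := hx
    refine Subgroup.subset_closure ⟨g * h * g⁻¹, ?_, by rw [conj_pow]⟩
    rw [mem_cj]
    have : g⁻¹ * (g * h * g⁻¹) * g = h := by group
    rwa [this]
  | one =>
    rw [mul_one, mul_inv_cancel]
    exact one_mem _
  | mul x y _ _ ihx ihy =>
    have : g * (x * y) * g⁻¹ = (g * x * g⁻¹) * (g * y * g⁻¹) := by group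
    rw [this]
    exact mul_mem ihx ihy
  | inv x _ ih =>
    have : g * x⁻¹ * g⁻¹ = (g * x * g⁻¹)⁻¹ := by group
    rw [this]
    exact inv_mem ih

/-- minimal displacement of the rotations -/
noncomputable def lenF (S : Stage G U n) (ω : Fam S) : ℕ :=
  sInf {k | ∃ y ∈ YY S ω, ∃ r ∈ rotS n ω.1, r ≠ 1 ∧ k = S.d y (r * y)}

theorem len_mem (S : Stage G U n) (hn : n.Prime) (hbig : 10 ^ 170 ≤ n) (ω : Fam S) :
    ∃ y ∈ YY S ω, ∃ r ∈ rotS n ω.1, r ≠ 1 ∧ lenF S ω = S.d y (r * y) := by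
  obtain ⟨x, c, hx, hl, hxU, hx1, hc⟩ := fam_gen S hn hbig ω
  obtain ⟨y, hy⟩ := YY_ne S ω
  have hne : {k | ∃ y ∈ YY S ω, ∃ r ∈ rotS n ω.1, r ≠ 1 ∧ k = S.d y (r * y)}.Nonempty := by
    refine ⟨_, y, hy, x ^ n, ?_, not_lox_one S hl (by omega), rfl⟩
    rw [hx, rotS_zpowers]
    exact Subgroup.mem_zpowers _
  exact Nat.sInf_mem hne

theorem len_le (S : Stage G U n) (ω : Fam S) {y r : G} (hy : y ∈ YY S ω) (hr : r ∈ rotS n ω.1)
    (h1 : r ≠ 1) : lenF S ω ≤ S.d y (r * y) := Nat.sInf_le ⟨y, hy, r, hr, h1, rfl⟩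

theorem len_smul_le (S : Stage G U n) [hU : U.Normal] (hn : n.Prime) (hbig : 10 ^ 170 ≤ n) (g : G)
    (ω : Fam S) : lenF S (g • ω) ≤ lenF S ω := by
  obtain ⟨y, hy, r, hr, h1, e⟩ := len_mem S hn hbig ω
  rw [e, ← disp_cj S g r y]
  apply len_le S (g • ω) (YY_smul S g ω hy)
  · rw [smul_val]
    exact rotS_cj n g _ hr
  · intro h
    apply h1
    have : r = g⁻¹ * (g * r * g⁻¹) * g := by group
    rw [this, h]
    group

theorem len_smulF (S : Stage G U n) [hU : U.Normal] (hn : n.Prime) (hbig : 10 ^ 170 ≤ n) (g : G)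
    (ω : Fam S) : lenF S (g • ω) = lenF S ω := by
  apply le_antisymm (len_smul_le S hn hbig g ω)
  have := len_smul_le S hn hbig g⁻¹ (g • ω)
  rwa [inv_smul_smul] at this

theorem rot_form (n : ℕ) {x r : G} (hr : r ∈ Subgroup.zpowers (x ^ n)) (h1 : r ≠ 1) :
    ∃ a : ℕ, 1 ≤ a ∧ (r = x ^ (n * a) ∨ r = (x ^ (n * a))⁻¹) := by
  obtain ⟨k, hk⟩ := hr
  have hk' : (x ^ n) ^ k = r := hk
  refine ⟨k.natAbs, ?_, ?_⟩
  · by_contra hc
    have : k = 0 := by omega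
    rw [this, zpow_zero] at hk'
    exact h1 hk'.symm
  · rw [pow_mul]
    rcases Int.natAbs_eq k with e | e
    · left
      rw [← zpow_natCast (x ^ n) k.natAbs, ← e, hk']
    · right
      rw [← zpow_natCast (x ^ n) k.natAbs, ← zpow_neg, ← hk']
      congr 1

theorem len_bigF (S : Stage G U n) (hn : n.Prime) (hbig : 10 ^ 170 ≤ n) (ω : Fam S) :
    10 ^ 130 ≤ lenF S ω := by
  obtain ⟨x, c, hx, hl, hxU, hx1, hc⟩ := fam_gen S hn hbig ω
  obtain ⟨y, hy, r, hr, h1, e⟩ := len_mem S hn hbig ω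
  rw [hx, rotS_zpowers] at hr
  obtain ⟨a, ha, hra⟩ := rot_form n hr h1
  have hd : S.d y (r * y) = S.d y (x ^ (n * a) * y) := by
    rcases hra with rfl | rfl
    · rfl
    · rw [zinv_disp]
  have l := inj_low S hxU hl y (n * a)
  rw [e, hd]
  by_contra hc
  have h2 : 10 ^ 32 * S.d y (x ^ (n * a) * y) ≤ 10 ^ 32 * 10 ^ 130 :=
    Nat.mul_le_mul_left _ (by omega)
  have h3 : 10 ^ 170 * 1 ≤ n * a := Nat.mul_le_mul hbig ha
  have h4 : (10 : ℕ) ^ 32 * 10 ^ 130 < 10 ^ 170 * 1 := by norm_num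
  exact absurd ((h3.trans l).trans h2) (not_le.2 h4)

/-- the coarse coordinate -/
theorem fam_line (S : Stage G U n) [hU : U.Normal] (hn : n.Prime) (hbig : 10 ^ 170 ≤ n)
    (ω : Fam S) : ∃ (t : G → ℤ) (ρ : G), ρ ∈ rotS n ω.1 ∧
    (∀ a ∈ YY S ω, ∀ b ∈ YY S ω, (S.d a b : ℤ) ≤ |t a - t b| + 10 ^ 120 ∧
      |t a - t b| ≤ S.d a b + 10 ^ 120) ∧
    (∀ a ∈ YY S ω, |t (ρ * a) - t a - lenF S ω| ≤ 10 ^ 120) := by
  obtain ⟨x, c, hx, hl, hxU, hx1, hc⟩ := fam_gen S hn hbig ω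
  have hxω : x ∈ ω.1 := by rw [hx]; exact Subgroup.mem_zpowers x
  have hcobY : ∀ y ∈ YY S ω, ∀ c', (∃ z ∈ ω.1, z ≠ 1 ∧ S.d c' (z * c') ≤ 15 * 10 ^ 5) →
      ∃ k : ℤ, S.d y (x ^ k * c') ≤ 10 ^ 42 := by
    intro y hy c' hc'
    obtain ⟨z, hz, hz1, h⟩ := YY_disp S hn hbig ω hy
    obtain ⟨z', hz', hz1', h'⟩ := hc'
    obtain ⟨w, hw, hw'⟩ := fam_cob S hn hbig ω (c := y) (c' := c') hz hz1 hz' hz1' (by omega) h'
    rw [hx] at hw
    obtain ⟨k, hk⟩ := hw
    have hk' : x ^ k = w := hk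
    exact ⟨k, by rw [hk']; exact hw'⟩
  have hdx : ∀ y ∈ YY S ω, S.d y (x * y) ≤ 10 ^ 43 := by
    intro y hy
    obtain ⟨k, hk⟩ := hcobY y hy c ⟨x, hxω, hx1, hc⟩
    have t1 := S.tri y (x ^ k * c) (x * y)
    have t2 := S.tri (x ^ k * c) (x * (x ^ k * c)) (x * y)
    have i1 := S.inv x (x ^ k * c) y
    have s1 := S.symm y (x ^ k * c)
    have dc := disp_comm S (g := x) (w := x ^ k) (Commute.self_zpow x k).eq c
    omega
  obtain ⟨y0, hy0⟩ := YY_ne S ω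
  obtain ⟨z0, hz0, hz01, hz0d⟩ := YY_disp S hn hbig ω hy0
  have hk : ∀ a, ∃ k : ℤ, a ∈ YY S ω → S.d a (x ^ k * y0) ≤ 10 ^ 42 := by
    intro a
    by_cases ha : a ∈ YY S ω
    · obtain ⟨k, hk⟩ := hcobY a ha y0 ⟨z0, hz0, hz01, by omega⟩
      exact ⟨k, fun _ => hk⟩
    · exact ⟨0, fun h => absurd h ha⟩
  choose kf hkf using hk
  obtain ⟨u, hu⟩ : ∃ u : ℕ → ℕ, u = fun k => S.d y0 (x ^ k * y0) := ⟨_, rfl⟩
  have hu' : ∀ k, u k = S.d y0 (x ^ k * y0) := fun k => by rw [hu]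
  have u0 : u 0 = 0 := by rw [hu', pow_zero, one_mul, S.self]
  have usub : ∀ i j, u (i + j) ≤ u i + u j := by
    intro i j
    rw [hu', hu', hu']
    have t := S.tri y0 (x ^ i * y0) (x ^ (i + j) * y0)
    have e : S.d (x ^ i * y0) (x ^ (i + j) * y0) = S.d y0 (x ^ j * y0) := by
      rw [pow_add, mul_assoc, S.inv]
    omega
  have uadd : ∀ i j, u i + u j ≤ u (i + j) + 10 ^ 119 := by
    intro i j
    rw [hu', hu', hu']
    exact u_add S hxU hl (hdx y0 hy0) i j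
  have hdist : ∀ (k : ℤ) (m : ℕ), S.d (x ^ k * y0) (x ^ (k + m) * y0) = u m := by
    intro k m
    rw [hu', zpow_add, mul_assoc, S.inv, zpow_natCast]
  have hsg := sg_add u (10 ^ 119) u0 usub uadd
  -- difference of positions
  have hdiff : ∀ k l : ℤ, (S.d (x ^ k * y0) (x ^ l * y0) : ℤ) ≤ |sg u k - sg u l| + 10 ^ 119 ∧
      |sg u k - sg u l| ≤ S.d (x ^ k * y0) (x ^ l * y0) + 10 ^ 119 := by
    have key : ∀ k l : ℤ, k ≤ l → (S.d (x ^ k * y0) (x ^ l * y0) : ℤ) ≤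
        |sg u k - sg u l| + 10 ^ 119 ∧
        |sg u k - sg u l| ≤ S.d (x ^ k * y0) (x ^ l * y0) + 10 ^ 119 := by
      intro k l hkl
      obtain ⟨m, hm⟩ := Int.eq_ofNat_of_zero_le (show 0 ≤ l - k by omega)
      have hl' : l = k + m := by omega
      rw [hl', hdist]
      have h := hsg k m
      rw [abs_sub_comm]
      push_cast at h
      constructor
      · have := le_abs_self (sg u (k + m) - sg u k)
        omega
      · rw [abs_le]
        constructor <;> omega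
    intro k l
    rcases le_total k l with h | h
    · exact key k l h
    · rw [S.symm, abs_sub_comm]
      exact key l k h
  have hxn : x ^ n ∈ rotS n ω.1 := by
    rw [hx, rotS_zpowers]
    exact Subgroup.mem_zpowers _
  have hxn1 : x ^ n ≠ 1 := not_lox_one S hl hn.one_le
  -- `len` against `u n`
  have hlen1 : lenF S ω ≤ u n := by
    rw [hu']
    exact len_le S ω hy0 hxn hxn1
  have hlen2 : u n ≤ lenF S ω + 10 ^ 119 + 2 * 10 ^ 42 := by
    obtain ⟨y, hy, r, hr, h1, e⟩ := len_mem S hn hbig ω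
    rw [hx, rotS_zpowers] at hr
    obtain ⟨a, ha, hra⟩ := rot_form n hr h1
    have hd : S.d y (r * y) = S.d y (x ^ (n * a) * y) := by
      rcases hra with rfl | rfl
      · rfl
      · rw [zinv_disp]
    rw [hd] at e
    have h2 := hkf y hy
    have h3 := uadd n (n * a - n)
    have h4 : n ≤ n * a := Nat.le_mul_of_pos_right _ (by omega)
    rw [Nat.add_sub_cancel' h4] at h3
    have dc := disp_comm S (g := x ^ (n * a)) (w := x ^ (kf y))
      (((Commute.self_zpow x (kf y)).pow_left (n * a)).eq) y0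
    rw [← hu'] at dc
    have t1 := S.tri (x ^ (kf y) * y0) y (x ^ (n * a) * (x ^ (kf y) * y0))
    have t2 := S.tri y (x ^ (n * a) * y) (x ^ (n * a) * (x ^ (kf y) * y0))
    have i1 := S.inv (x ^ (n * a)) y (x ^ (kf y) * y0)
    have s1 := S.symm y (x ^ (kf y) * y0)
    omega
  refine ⟨fun a => sg u (kf a), x ^ n, hxn, ?_, ?_⟩
  · intro a ha b hb
    have h1 := hkf a ha
    have h2 := hkf b hb
    have h3 := hdiff (kf a) (kf b)
    have t1 := S.tri a (x ^ (kf a) * y0) b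
    have t2 := S.tri (x ^ (kf a) * y0) (x ^ (kf b) * y0) b
    have t3 := S.tri (x ^ (kf a) * y0) a (x ^ (kf b) * y0)
    have t4 := S.tri a b (x ^ (kf b) * y0)
    have s1 := S.symm (x ^ (kf b) * y0) b
    have s2 := S.symm (x ^ (kf a) * y0) a
    show (S.d a b : ℤ) ≤ |sg u (kf a) - sg u (kf b)| + 10 ^ 120 ∧
      |sg u (kf a) - sg u (kf b)| ≤ S.d a b + 10 ^ 120
    generalize |sg u (kf a) - sg u (kf b)| = A at *
    constructor <;> omega
  · intro a ha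
    show |sg u (kf (x ^ n * a)) - sg u (kf a) - lenF S ω| ≤ 10 ^ 120
    have ha' : x ^ n * a ∈ YY S ω := YY_inv S ω (Subgroup.pow_mem _ hxω n) ha
    have h1 := hkf a ha
    have h2 := hkf _ ha'
    have h3 := (hdiff (kf (x ^ n * a)) (kf a + n)).2
    have h4 := hsg (kf a) n
    push_cast at h4
    have t1 := S.tri (x ^ (kf (x ^ n * a)) * y0) (x ^ n * a) (x ^ (kf a + n) * y0)
    have e1 : S.d (x ^ n * a) (x ^ (kf a + n) * y0) = S.d a (x ^ (kf a) * y0) := by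
      have : x ^ (kf a + n) * y0 = x ^ n * (x ^ (kf a) * y0) := by
        rw [add_comm, zpow_add, zpow_natCast, mul_assoc]
      rw [this, S.inv]
    have s1 := S.symm (x ^ (kf (x ^ n * a)) * y0) (x ^ n * a)
    have h5 : |sg u (kf (x ^ n * a)) - sg u (kf a + n)| ≤ 2 * 10 ^ 42 + 10 ^ 119 := by
      generalize |sg u (kf (x ^ n * a)) - sg u (kf a + n)| = A at *
      omega
    rw [abs_le] at h5 ⊢
    generalize sg u (kf (x ^ n * a)) = A1 at *
    generalize sg u (kf a + n) = A2 at *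
    generalize sg u (kf a) = A3 at *
    generalize lenF S ω = A4 at *
    generalize u n = A5 at *
    constructor <;> omega

end fam

/-- Piece `line`. -/
theorem exists_bsys {G : Type u} [Group G] {U : Subgroup G} [hU : U.Normal] {n : ℕ} (hn : n.Prime)
    (hbig : 10 ^ 170 ≤ n) (S : Stage G U n) :
    ∃ (L : Type u) (_ : MulAction G L) (B : BSys G U n L), B.toGH = S.toGH := by
  refine ⟨Fam S, famAct S, {
    toGH := S.toGH
    inv := S.inv
    Y := YY S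
    Y_ne := YY_ne S
    Y_smul := fun g ω p hp => YY_smul S g ω hp
    qc := fun ω a b m ha hb hm => YY_qc S ω ha hb hm
    ovl := fun ω ω' hne p q a a' b b' ha ha' hb hb' h1 h2 h3 h4 =>
      YY_ovl S hn hbig ω ω' hne ha ha' hb hb' h1 h2 h3 h4
    grp := fun ω => ω.1
    grp_le := fun ω z hz => fam_U S hn hbig ω hz
    grp_smul := fun g ω z hz => by
      rw [smul_val, mem_cj]
      have : g⁻¹ * (g * z * g⁻¹) * g = z := by group
      rwa [this]
    grp_fix := fun ω z hz => cj_self S ω hz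
    rot := fun ω => rotS n ω.1
    rot_le := fun ω => by
      obtain ⟨x, c, hx, -⟩ := fam_gen S hn hbig ω
      rw [hx, rotS_zpowers, Subgroup.zpowers_le]
      exact pow_mem (Subgroup.mem_zpowers x) n
    rot_smul := fun g ω z hz => by
      rw [smul_val]
      exact rotS_cj n g _ hz
    pow_mem := fun ω z hz => Subgroup.subset_closure ⟨z, hz, rfl⟩
    len := lenF S
    len_big := len_bigF S hn hbig
    len_smul := fun g ω => len_smulF S hn hbig g ω
    rot_low := fun ω r hr h1 y hy => len_le S ω hy hr h1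
    line := fun ω => fam_line S hn hbig ω
    cyc := fun ω => by
      obtain ⟨x, c, hx, -⟩ := fam_gen S hn hbig ω
      exact ⟨x, hx, by rw [hx, rotS_zpowers]⟩
    grp_inj := fun ω ω' z hz hz' h1 => fam_inj S hn hbig ω ω' hz hz' h1
    stab := fun ω g hg hgω => by
      obtain ⟨z0, hz0, hl, ⟨p, hp⟩, e⟩ := ω.2
      rw [e]
      refine ee_norm S hn hbig hz0 hl (hp.trans (by norm_num)) hg ?_
      intro w hw
      have h1 : (g • ω).1 = ω.1 := by rw [hgω]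
      rw [smul_val] at h1
      rw [← e] at hw ⊢
      rw [← h1, mem_cj]
      have : g⁻¹ * (g * w * g⁻¹) * g = w := by group
      rwa [this]
    small := fun ω z p hz h1 h => AP_sub S ω ⟨z, hz, h1, h⟩
    lox_small := fun z hz hl p hp => ⟨⟨EE U z, z, hz, hl, ⟨p, hp⟩, rfl⟩, ⟨hz, 1, le_rfl, by simp⟩⟩
    lox_grp := fun ω z hz h1 => fam_lox S hn hbig ω hz h1
    ell := S.ell
    triv := fun z hz hl p q hp hq hpq =>
      small_triv S hn hbig hz hl (hp.trans (by norm_num)) (hq.trans (by norm_num)) hpq }, rfl⟩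

end Run7.h253
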