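import Pool.Agent.Run7.h253.Final

/-!
# MP_3ab0ed_al: disproof (helper253; homology part by helper141).  Overview of the proof

QUESTION (negated form proved here): there is a proper non-abelian variety all of whose free groups have
torsion-free integral homology in all dimensions.

VARIETY.  `n` a large prime (`n ≥ 10^170`), laws `[z^n, y] = 1` for `z` a product of commutators, i.e.
`(G')^n` is central.  It contains all groups of class 2, and is proper.  Its free groups are
`G = F/[N,F]`, `N = (F')^n` = subgroup generated by the `n`-th powers of elements of `F'`, `F` free.

STEP 1 (geometry; pieces guess, iso, cyc, line, wind, proj, cone, quot, qell, lemq, big, small, qac, base,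
tower).  A Burnside type theorem with `U = F'` in the role of the whole group: there are
`1 = N 0 ≤ N 1 ≤ …`, `⋃ N k = (F')^n`, such that `N (k+1)/N k` is FREE on `n`-th powers of generators of a
family of maximal cyclic subgroups of `U/N k` (the lines), elements of `U` fixing a line are in its group.
Every stage `F/N k` carries an `ℕ`-valued left invariant geodesic metric with the four point
condition with the SAME constant `δ = 200`; every element of `U/N k` is loxodromic or of exponent `n`.
Induction step `d ⇒ q`:
 (1) kill the `n`-th powers of all maximal cyclic subgroups `ω` of `U` having a nontrivial element of
     displacement `≤ T` somewhere; tube `Y ω` = hull of the points moved `≤ T` by some `z ∈ ω ∖ 1`;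
     distinct tubes have bounded overlap (`ov`), each tube is a coarse line.
 (2) new metric `d'` on the same group: graph with `x ~ y` iff `d x y ≤ r` or `x, y` in one tube: it is
     `δ`-hyperbolic with the universal `δ = 200` (guessing geodesics), whatever `r ≥ r₀`.
 (3) the killed subgroup `N` satisfies the windmill; the quotient metric `q` of `d'`:
     reduced pairs (projection distances `≤ 15/16 len`) satisfy `q = d'` (`PL`), and points can be lifted
     one after the other to reduced pairs (`addPt`): so the four point condition passes to `q` with the same `δ`.
 (4) `ell` (piece qell), `ov` and `cnt` (pieces lemq, big, small, qac) for `q` with the SAME constants.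
     Order of the constants: `δ → R₀ = 64δ → T → Δ (linear in T) → r ≥ Δ → Θ, B (linear in r) → M → W → n`.
     The point: `ov` for the quotient never uses the count `M`: on a segment with a big tube in the
     middle the commutators `[z^i, w]`, `i ≤ 2R₀+12`, permute at most `2R₀+12` big tubes, so two of them
     coincide; on a segment without big tube everything lifts to `(G, d)` and the commutator has
     displacement `≤ 64δ ≤ T` on a long segment, so it is trivial or killed with a big tube.

STEP 2 (algebra; piece perm).  Hence `N^ab` is a permutation module `ℤΩ`, `Ω` an `F`-set with stabilizers
`⟨A⟩N`, `A ∈ F'`, `A^n ∈ N`, basis element `[A^n]` (stabilizers in all of `F` by the retraction trick).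

STEP 3 (algebra; piece hom).  Homology of `F/[N,F]` is torsion free (see `Hom.lean`).

Related published work: Ol'shanskii (torsion-free relatively free groups with aspherical presentations,
book Geometry of defining relations in groups, §31), Ashmanov and Ol'shanskii (central extensions of
aspherical groups).
-/
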