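import Mathlib

/-!
# Piece `retr`: non-periodicity of the action on `U / U^n`

`F` free on `X`, `U` normal in `F`, `F/U` torsion free.  Think of `U` as the fundamental group of the Cayley graph
of `Q = F/U`.  For every labelling `l` of the edges by a group `B` the product of labels along a path is a crossed
homomorphism `E l : F → (Q → B)`.  It depends only on the labels of the edges of the path, which are moved away from
themselves by a large power of `g`.
-/

set_option autoImplicit false

namespace Run7.h253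

namespace Re

variable {X : Type*} (U : Subgroup (FreeGroup X)) [U.Normal] {B : Type*} [Group B]

/-- translation action on functions -/
def trAut (Q B : Type*) [Group Q] [Group B] : Q →* MulAut (Q → B) where
  toFun p :=
    { toFun := fun f q => f (q * p)
      invFun := fun f q => f (q * p⁻¹)
      left_inv := fun f => by
        funext q
        simp
      right_inv := fun f => by
        funext q
        simp
      map_mul' := fun f g => rfl }
  map_one' := by
    refine MulEquiv.ext fun f => ?_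
    funext q
    show f (q * 1) = f q
    rw [mul_one]
  map_mul' p p' := by
    refine MulEquiv.ext fun f => ?_
    funext q
    show f (q * (p * p')) = f (q * p * p')
    rw [mul_assoc]

/-- the hom to the semidirect product -/
noncomputable def Ψ (l : (FreeGroup X ⧸ U) → X → B) :
    FreeGroup X →* ((FreeGroup X ⧸ U) → B) ⋊[trAut (FreeGroup X ⧸ U) B] (FreeGroup X ⧸ U) :=
  FreeGroup.lift fun x => ⟨fun q => l q x, (FreeGroup.of x : FreeGroup X)⟩

/-- product of labels along the path `w` from `q` -/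
noncomputable def E (l : (FreeGroup X ⧸ U) → X → B) (w : FreeGroup X) (q : FreeGroup X ⧸ U) : B :=
  (Ψ U l w).left q

theorem Ψ_right (l : (FreeGroup X ⧸ U) → X → B) (w : FreeGroup X) :
    (Ψ U l w).right = (w : FreeGroup X ⧸ U) := by
  have : (SemidirectProduct.rightHom).comp (Ψ U l) = QuotientGroup.mk' U := by
    ext x
    simp [Ψ]
  exact congrArg (fun f : FreeGroup X →* FreeGroup X ⧸ U => f w) this

theorem E_of (l : (FreeGroup X ⧸ U) → X → B) (x : X) (q : FreeGroup X ⧸ U) :
    E U l (FreeGroup.of x) q = l q x := by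
  simp [E, Ψ]

theorem E_mul (l : (FreeGroup X ⧸ U) → X → B) (w w' : FreeGroup X) (q : FreeGroup X ⧸ U) :
    E U l (w * w') q = E U l w q * E U l w' (q * (w : FreeGroup X ⧸ U)) := by
  unfold E
  rw [map_mul, SemidirectProduct.mul_left, Ψ_right]
  rfl

theorem E_one (l : (FreeGroup X ⧸ U) → X → B) (q : FreeGroup X ⧸ U) : E U l 1 q = 1 := by
  unfold E
  rw [map_one]
  rfl

theorem E_inv (l : (FreeGroup X ⧸ U) → X → B) (w : FreeGroup X) (q : FreeGroup X ⧸ U) :
    E U l w⁻¹ q = (E U l w (q * ((w⁻¹ : FreeGroup X) : FreeGroup X ⧸ U)))⁻¹ := by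
  have h := E_mul U l w⁻¹ w q
  rw [inv_mul_cancel, E_one] at h
  exact eq_inv_of_mul_eq_one_left h.symm

/-- dependence on finitely many labels -/
theorem E_supp (w : FreeGroup X) : ∃ S : Set ((FreeGroup X ⧸ U) × X), S.Finite ∧
    ∀ (l m : (FreeGroup X ⧸ U) → X → B) (q q' : FreeGroup X ⧸ U),
      (∀ p ∈ S, l (q * p.1) p.2 = m (q' * p.1) p.2) → E U l w q = E U m w q' := by
  induction w using FreeGroup.induction_on with
  | C1 => exact ⟨∅, Set.finite_empty, fun l m q q' _ => by rw [E_one, E_one]⟩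
  | of x =>
    refine ⟨{(1, x)}, Set.finite_singleton _, fun l m q q' h => ?_⟩
    have := h (1, x) rfl
    simp only [mul_one] at this
    rw [E_of, E_of, this]
  | inv_of x _ =>
    refine ⟨{((((FreeGroup.of x)⁻¹ : FreeGroup X) : FreeGroup X ⧸ U), x)}, Set.finite_singleton _,
      fun l m q q' h => ?_⟩
    have := h _ rfl
    rw [E_inv, E_inv, E_of, E_of]
    exact congrArg _ this
  | mul x y hx hy =>
    obtain ⟨S, hS, h1⟩ := hx
    obtain ⟨S', hS', h2⟩ := hy
    refine ⟨S ∪ (fun p : (FreeGroup X ⧸ U) × X => ((x : FreeGroup X ⧸ U) * p.1, p.2)) '' S',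
      hS.union (hS'.image _), fun l m q q' h => ?_⟩
    rw [E_mul, E_mul, h1 l m q q' (fun p hp => h p (Or.inl hp))]
    congr 1
    apply h2
    intro p hp
    have := h _ (Or.inr ⟨p, hp, rfl⟩)
    simp only [← mul_assoc] at this
    exact this

/-- on `U` we get a homomorphism -/
theorem E_U (l : (FreeGroup X ⧸ U) → X → B) {u w : FreeGroup X} (hu : u ∈ U) (q : FreeGroup X ⧸ U) :
    E U l (u * w) q = E U l u q * E U l w q := by
  rw [E_mul, (QuotientGroup.eq_one_iff u).2 hu, mul_one]

theorem E_U_pow (l : (FreeGroup X ⧸ U) → X → B) {u : FreeGroup X} (hu : u ∈ U) (q : FreeGroup X ⧸ U)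
    (k : ℕ) : E U l (u ^ k) q = E U l u q ^ k := by
  induction k with
  | zero => rw [pow_zero, pow_zero, E_one]
  | succ k ih => rw [pow_succ', pow_succ', E_U U l hu, ih]

theorem E_U_inv (l : (FreeGroup X ⧸ U) → X → B) {u : FreeGroup X} (hu : u ∈ U) (q : FreeGroup X ⧸ U) :
    E U l u⁻¹ q = (E U l u q)⁻¹ := by
  rw [E_inv, (QuotientGroup.eq_one_iff u⁻¹).2 (inv_mem hu), mul_one]

end Re

/-- the verbal subgroup `U^n` -/
def VN {F : Type*} [Group F] (U : Subgroup F) (n : ℕ) : Subgroup F :=
  Subgroup.closure {x | ∃ u ∈ U, x = u ^ n}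

theorem VN_le {F : Type*} [Group F] (U : Subgroup F) (n : ℕ) : VN U n ≤ U := by
  unfold VN
  rw [Subgroup.closure_le]
  rintro x ⟨u, hu, rfl⟩
  exact pow_mem hu n

theorem VN_normal {F : Type*} [Group F] (U : Subgroup F) [hU : U.Normal] (n : ℕ) : (VN U n).Normal := by
  constructor
  intro h hh g
  unfold VN at hh ⊢
  induction hh using Subgroup.closure_induction with
  | mem x hx =>
    obtain ⟨u, hu, rfl⟩ := hx
    exact Subgroup.subset_closure ⟨g * u * g⁻¹, hU.conj_mem u hu g, by rw [conj_pow]⟩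
  | one =>
    rw [mul_one, mul_inv_cancel]
    exact one_mem _
  | mul x y _ _ ihx ihy =>
    have : g * (x * y) * g⁻¹ = (g * x * g⁻¹) * (g * y * g⁻¹) := by group
    rw [this]
    exact mul_mem ihx ihy
  | inv x _ ih =>
    have : g * x⁻¹ * g⁻¹ = (g * x * g⁻¹)⁻¹ := by group
    rw [this]
    exact inv_mem ih

open Re in
theorem retr_gen {X : Type*} (U : Subgroup (FreeGroup X)) [hU : U.Normal]
    (htf : ∀ (g : FreeGroup X) (k : ℕ), 1 ≤ k → g ^ k ∈ U → g ∈ U) (n : ℕ) {A g : FreeGroup X}
    (hA : A ∈ U) (hg : g ∉ U)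
    (h : g * A * g⁻¹ * A⁻¹ ∈ VN U n ∨ g * A * g⁻¹ * A ∈ VN U n) : A ∈ VN U n := by
  classical
  have hN : (VN U n).Normal := VN_normal U n
  let B := (U.map (QuotientGroup.mk' (VN U n)))
  have hBexp : ∀ b : B, b ^ n = 1 := by
    rintro ⟨_, u, hu, rfl⟩
    apply Subtype.ext
    show ((u : FreeGroup X) : FreeGroup X ⧸ VN U n) ^ n = 1
    rw [← QuotientGroup.mk_pow, QuotientGroup.eq_one_iff]
    exact Subgroup.subset_closure ⟨u, hu, rfl⟩
  -- labellings with values in `B` kill `VN U n`
  have hkill : ∀ (l : (FreeGroup X ⧸ U) → X → B) (q : FreeGroup X ⧸ U) (x : FreeGroup X),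
      x ∈ VN U n → E U l x q = 1 := by
    intro l q x hx
    have hx' := hx
    unfold VN at hx
    induction hx using Subgroup.closure_induction with
    | mem x hx =>
      obtain ⟨u, hu, rfl⟩ := hx
      rw [E_U_pow U l hu, hBexp]
    | one => exact E_one U l q
    | mul x y hx hy ihx ihy =>
      rw [E_U U l (VN_le U n hx), ihx hx, ihy hy, one_mul]
    | inv x hx ih =>
      rw [E_U_inv U l (VN_le U n hx), ih hx, inv_one]
  -- the universal labelling
  let s : FreeGroup X ⧸ U → FreeGroup X := Quotient.out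
  have hs : ∀ q : FreeGroup X ⧸ U, ((s q : FreeGroup X) : FreeGroup X ⧸ U) = q := Quotient.out_eq'
  have hmem : ∀ (w : FreeGroup X) (q : FreeGroup X ⧸ U),
      s q * w * (s (q * (w : FreeGroup X ⧸ U)))⁻¹ ∈ U := by
    intro w q
    rw [← QuotientGroup.eq_one_iff, QuotientGroup.mk_mul, QuotientGroup.mk_mul,
      QuotientGroup.mk_inv, hs, hs, mul_inv_cancel]
  let l0 : (FreeGroup X ⧸ U) → X → B := fun q x => ⟨_, _, hmem (FreeGroup.of x) q, rfl⟩
  have hl0 : ∀ (w : FreeGroup X) (q : FreeGroup X ⧸ U),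
      (E U l0 w q).1 = QuotientGroup.mk' (VN U n) (s q * w * (s (q * (w : FreeGroup X ⧸ U)))⁻¹) := by
    intro w
    induction w using FreeGroup.induction_on with
    | C1 =>
      intro q
      rw [E_one, QuotientGroup.mk_one, mul_one, mul_one, mul_inv_cancel, map_one]
      rfl
    | of x =>
      intro q
      rw [E_of]
    | inv_of x ih =>
      intro q
      rw [E_inv, Subgroup.coe_inv, ih, ← map_inv]
      congr 1
      rw [mul_assoc q, ← QuotientGroup.mk_mul, inv_mul_cancel, QuotientGroup.mk_one, mul_one]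
      group
    | mul x y hx hy =>
      intro q
      rw [E_mul, Subgroup.coe_mul, hx, hy, ← map_mul, QuotientGroup.mk_mul]
      congr 1
      rw [← mul_assoc q]
      group
  -- powers
  have hpow : ∀ k : ℕ, g ^ k * A * (g ^ k)⁻¹ * A⁻¹ ∈ VN U n ∨ g ^ k * A * (g ^ k)⁻¹ * A ∈ VN U n := by
    intro k
    induction k with
    | zero =>
      left
      have : g ^ 0 * A * (g ^ 0)⁻¹ * A⁻¹ = 1 := by group
      rw [this]
      exact one_mem _
    | succ k ih =>
      -- `g^(k+1) A g^-(k+1) = g (g^k A g^-k) g⁻¹`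
      rcases ih with ih | ih
      · have c := hN.conj_mem _ ih g
        rcases h with h | h
        · left
          have : g ^ (k + 1) * A * (g ^ (k + 1))⁻¹ * A⁻¹ =
              (g * (g ^ k * A * (g ^ k)⁻¹ * A⁻¹) * g⁻¹) * (g * A * g⁻¹ * A⁻¹) := by
            rw [pow_succ']
            group
          rw [this]
          exact mul_mem c h
        · right
          have : g ^ (k + 1) * A * (g ^ (k + 1))⁻¹ * A =
              (g * (g ^ k * A * (g ^ k)⁻¹ * A⁻¹) * g⁻¹) * (g * A * g⁻¹ * A) := by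
            rw [pow_succ']
            group
          rw [this]
          exact mul_mem c h
      · have c := hN.conj_mem _ ih g
        rcases h with h | h
        · right
          -- `g^(k+1) A g^-(k+1) = [g (g^k A g^-k A) g⁻¹] (g A g⁻¹)⁻¹`, and `(g A g⁻¹)⁻¹ A ∈ N`
          have c2 := hN.conj_mem _ (inv_mem h) A⁻¹
          have : g ^ (k + 1) * A * (g ^ (k + 1))⁻¹ * A =
              (g * (g ^ k * A * (g ^ k)⁻¹ * A) * g⁻¹) * (A⁻¹ * (g * A * g⁻¹ * A⁻¹)⁻¹ * A⁻¹⁻¹) := by
            rw [pow_succ']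
            group
          rw [this]
          exact mul_mem c c2
        · left
          have c2 := hN.conj_mem _ (inv_mem h) A
          have : g ^ (k + 1) * A * (g ^ (k + 1))⁻¹ * A⁻¹ =
              (g * (g ^ k * A * (g ^ k)⁻¹ * A) * g⁻¹) * (A * (g * A * g⁻¹ * A)⁻¹ * A⁻¹) := by
            rw [pow_succ']
            group
          rw [this]
          exact mul_mem c c2
  obtain ⟨S, hS, hSE⟩ := E_supp (B := B) U A
  -- a power moving the support off itself
  obtain ⟨k, hk⟩ : ∃ k : ℕ, ∀ p ∈ S, ∀ p' ∈ S, ((g ^ k : FreeGroup X) : FreeGroup X ⧸ U) * p.1 ≠ p'.1 := by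
    by_contra hcon
    push Not at hcon
    choose f hf f' hf' hff using hcon
    have hfin : (S ×ˢ S).Finite := hS.prod hS
    obtain ⟨i, -, j, -, hij, he⟩ := Set.infinite_univ.exists_ne_map_eq_of_mapsTo
      (f := fun k : ℕ => (f k, f' k)) (t := S ×ˢ S) (fun k _ => ⟨hf k, hf' k⟩) hfin
    have main : ∀ i j : ℕ, i < j → f i = f j → f' i = f' j → False := by
      intro i j hij e1 e2
      have h1 := hff i
      rw [e1, e2, ← hff j] at h1
      have h2 := mul_right_cancel h1
      have h3 : g ^ (j - i) ∈ U := by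
        rw [← QuotientGroup.eq_one_iff]
        have e : g ^ j = g ^ (j - i) * g ^ i := by rw [← pow_add, Nat.sub_add_cancel hij.le]
        rw [e, QuotientGroup.mk_mul] at h2
        exact (mul_eq_right.1 h2.symm)
      exact hg (htf g (j - i) (by omega) h3)
    have e1 : f i = f j := congrArg Prod.fst he
    have e2 : f' i = f' j := congrArg Prod.snd he
    rcases Nat.lt_or_gt_of_ne hij with h | h
    · exact main i j h e1 e2
    · exact main j i h e1.symm e2.symm
  set γ : FreeGroup X ⧸ U := ((g ^ k : FreeGroup X) : FreeGroup X ⧸ U) with hγ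
  let μ : (FreeGroup X ⧸ U) → X → B := fun q x => if (γ⁻¹ * q, x) ∈ S then l0 (γ⁻¹ * q) x else 1
  have m1 : E U μ A γ = E U l0 A 1 := by
    apply hSE
    intro p hp
    show (if (γ⁻¹ * (γ * p.1), p.2) ∈ S then l0 (γ⁻¹ * (γ * p.1)) p.2 else 1) = l0 (1 * p.1) p.2
    rw [inv_mul_cancel_left, one_mul, if_pos hp]
  have m2 : E U μ A 1 = 1 := by
    have e1 : E U μ A 1 = E U (fun _ _ => (1 : B)) A 1 := by
      apply hSE
      intro p hp
      show (if (γ⁻¹ * (1 * p.1), p.2) ∈ S then l0 (γ⁻¹ * (1 * p.1)) p.2 else 1) = 1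
      apply if_neg
      intro hc
      apply hk _ hc p hp
      show γ * (γ⁻¹ * (1 * p.1)) = p.1
      rw [mul_inv_cancel_left, one_mul]
    rw [e1]
    have e2 : ∀ w q, E U (fun _ _ => (1 : B)) w q = 1 := by
      intro w
      induction w using FreeGroup.induction_on with
      | C1 => intro q; rw [E_one]
      | of x => intro q; rw [E_of]
      | inv_of x ih => intro q; rw [E_inv, ih, inv_one]
      | mul x y hx hy => intro q; rw [E_mul, hx, hy, one_mul]
    exact e2 _ _
  have hgA : g ^ k * A * (g ^ k)⁻¹ ∈ U := hU.conj_mem A hA (g ^ k)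
  have m3 : E U μ (g ^ k * A * (g ^ k)⁻¹) 1 =
      E U μ (g ^ k) 1 * E U μ A γ * (E U μ (g ^ k) 1)⁻¹ := by
    rw [E_mul, E_mul, one_mul, one_mul, QuotientGroup.mk_mul, (QuotientGroup.eq_one_iff A).2 hA,
      mul_one, E_inv, ← QuotientGroup.mk_mul, mul_inv_cancel, QuotientGroup.mk_one]
  have m4 : E U μ (g ^ k * A * (g ^ k)⁻¹) 1 = 1 := by
    rcases hpow k with h1 | h1
    · have h2 := hkill μ 1 _ h1
      rw [E_U U μ hgA, E_U_inv U μ hA, m2, inv_one, mul_one] at h2
      exact h2
    · have h2 := hkill μ 1 _ h1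
      rw [E_U U μ hgA, m2, mul_one] at h2
      exact h2
  rw [m3, mul_inv_eq_one, mul_eq_left, m1] at m4
  have m5 := hl0 A 1
  rw [m4, (QuotientGroup.eq_one_iff A).2 hA, mul_one] at m5
  have m6 : s 1 * A * (s 1)⁻¹ ∈ VN U n := by
    rw [← QuotientGroup.eq_one_iff]
    exact m5.symm
  have m7 := hN.conj_mem _ m6 (s 1)⁻¹
  have e : (s 1)⁻¹ * (s 1 * A * (s 1)⁻¹) * (s 1)⁻¹⁻¹ = A := by group
  rwa [e] at m7

/-- `F / F'` is torsion free -/
theorem free_comm_tf {X : Type*} (g : FreeGroup X) (k : ℕ) (hk : 1 ≤ k)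
    (h : g ^ k ∈ commutator (FreeGroup X)) : g ∈ commutator (FreeGroup X) := by
  have h1 : (Abelianization.of g) ^ k = 1 := by
    rw [← map_pow]
    exact (QuotientGroup.eq_one_iff (N := commutator (FreeGroup X)) (g ^ k)).2 h
  let a : FreeAbelianGroup X := Additive.ofMul (Abelianization.of g)
  have h2 : k • a = 0 := h1
  have h3 : k • (FreeAbelianGroup.equivFinsupp X a) = 0 := by
    rw [← map_nsmul, h2, map_zero]
  have h4 : FreeAbelianGroup.equivFinsupp X a = 0 := by
    rcases smul_eq_zero.1 h3 with h | h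
    · omega
    · exact h
  have h5 : a = 0 := by
    rw [← map_zero (FreeAbelianGroup.equivFinsupp X)] at h4
    exact (FreeAbelianGroup.equivFinsupp X).injective h4
  have h6 : Abelianization.of g = 1 := h5
  exact (QuotientGroup.eq_one_iff (N := commutator (FreeGroup X)) g).1 h6

/-- if `A ∈ F'`, `g ∉ F'` and `g A g⁻¹ ∈ A^{±1} N` for the verbal subgroup `N = (F')^n`, then `A ∈ N` -/
theorem retr (X : Type*) (n : ℕ) {A g : FreeGroup X} (hA : A ∈ commutator (FreeGroup X))
    (hg : g ∉ commutator (FreeGroup X))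
    (h : g * A * g⁻¹ * A⁻¹ ∈ VN (commutator (FreeGroup X)) n ∨
      g * A * g⁻¹ * A ∈ VN (commutator (FreeGroup X)) n) :
    A ∈ VN (commutator (FreeGroup X)) n :=
  retr_gen (commutator (FreeGroup X)) free_comm_tf n hA hg h

end Run7.h253
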