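import Pool.Agent.Run7.h253.Tower
import Pool.Agent.Run7.h253.Retr

/-!
# Piece `perm`: the relation module of the tower is a permutation module

`F = FreeGroup X`, `U = F'`, `N = ⋃ N k = (F')^n` (generated by all `u^n`, `u ∈ F'`).

* `stabL`: the stabilizer in `F` of a line of stage `k` is `⟨gen⟩ N k` (uses `retr`).
* `exists_a`: `F`-equivariant choice of elements `a ℓ ≡ gen ℓ ^ ±1` modulo `N k`.
* `exists_th`, `IsTh.uniq`: the homomorphism `N j → ℤ Ω`, `a ℓ ^ n ↦ [ℓ]`.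
-/

set_option autoImplicit false
set_option linter.unusedSectionVars false

namespace Run7.h253

universe u

/-- class of `x` in the abelianization of the normal subgroup `N` -/
def cls {F : Type u} [Group F] (N : Subgroup F) (x : F) (hx : x ∈ N) : Additive (Abelianization N) :=
  Additive.ofMul (Abelianization.of ⟨x, hx⟩)

/-- permutation basis of the relation module `N^ab` -/
structure PermBasis (F : Type u) [Group F] (N : Subgroup F) (U : Subgroup F) (n : ℕ) where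
  normal : N.Normal
  Ω : Type u
  [act : MulAction F Ω]
  A : Ω → F
  A_mem : ∀ ω, A ω ∈ U
  pow_mem : ∀ ω, A ω ^ n ∈ N
  order : ∀ ω (a : ℤ), A ω ^ a ∈ N ↔ (n : ℤ) ∣ a
  stab : ∀ (ω : Ω) (g : F), g • ω = ω ↔ ∃ (a : ℤ), ∃ h ∈ N, g = A ω ^ a * h
  b : Module.Basis Ω ℤ (Additive (Abelianization N))
  b_eq : ∀ ω, b ω = cls N (A ω ^ n) (pow_mem ω)
  b_smul : ∀ (ω : Ω) (g : F), b (g • ω) = cls N (g * A ω ^ n * g⁻¹) (normal.conj_mem _ (pow_mem ω) g)

namespace Pm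

variable {F : Type u} [Group F] {U : Subgroup F} {n : ℕ}

instance actL (T : Tower F U n) (k : ℕ) : MulAction F (T.L k) := T.act k

/-- equality in the quotient -/
theorem qeq {N : Subgroup F} [N.Normal] {x y : F} : (x : F ⧸ N) = (y : F ⧸ N) ↔ x * y⁻¹ ∈ N := by
  rw [QuotientGroup.eq_iff_div_mem, div_eq_mul_inv]

theorem pow_mem_of {N : Subgroup F} [N.Normal] {x y : F} (h : x * y⁻¹ ∈ N) {m : ℕ} (hy : y ^ m ∈ N) :
    x ^ m ∈ N := by
  have h1 := qeq.2 h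
  rw [← QuotientGroup.eq_one_iff, QuotientGroup.mk_pow] at hy ⊢
  rw [h1, hy]

variable (T : Tower F U n)

theorem mono' {i j : ℕ} (h : i ≤ j) : T.N i ≤ T.N j := monotone_nat_of_le_succ T.mono h

/-- the free group on `R k` mapped to `F` -/
def lf (k : ℕ) : FreeGroup (T.R k) →* F := FreeGroup.lift (fun ρ : T.R k => T.gen k ρ.1 ^ n)

theorem lf_of (k : ℕ) (ρ : T.R k) : lf T k (FreeGroup.of ρ) = T.gen k ρ.1 ^ n :=
  FreeGroup.lift_apply_of

theorem le_VN (k : ℕ) : T.N k ≤ VN U n := by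
  induction k with
  | zero => rw [T.zero]; exact bot_le
  | succ k ih =>
    rw [T.basis_gen, sup_le_iff]
    refine ⟨ih, ?_⟩
    rintro _ ⟨w, rfl⟩
    induction w using FreeGroup.induction_on with
    | C1 => rw [map_one]; exact one_mem _
    | of ρ =>
      rw [FreeGroup.lift_apply_of]
      exact Subgroup.subset_closure ⟨_, T.gen_mem k _, rfl⟩
    | inv_of ρ ih => rw [map_inv]; exact inv_mem ih
    | mul x y hx hy => rw [map_mul]; exact mul_mem hx hy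

theorem mem_VN {x : F} : x ∈ VN U n ↔ ∃ k, x ∈ T.N k := by
  constructor
  · intro hx
    unfold VN at hx
    induction hx using Subgroup.closure_induction with
    | mem x hx =>
      obtain ⟨u, hu, rfl⟩ := hx
      exact T.exhaust u hu
    | one => exact ⟨0, one_mem _⟩
    | mul x y _ _ hx hy =>
      obtain ⟨i, hi⟩ := hx
      obtain ⟨j, hj⟩ := hy
      exact ⟨max i j, mul_mem (mono' T (le_max_left i j) hi) (mono' T (le_max_right i j) hj)⟩
    | inv x _ hx =>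
      obtain ⟨i, hi⟩ := hx
      exact ⟨i, inv_mem hi⟩
  · rintro ⟨k, hk⟩
    exact le_VN T k hk

theorem decomp (k : ℕ) {x : F} (hx : x ∈ T.N (k + 1)) : ∃ w, x * (lf T k w)⁻¹ ∈ T.N k := by
  have hN := T.normal k
  rw [T.basis_gen] at hx
  have h1 : x ∈ ((T.N k ⊔ (lf T k).range : Subgroup F) : Set F) := hx
  rw [Subgroup.normal_mul] at h1
  obtain ⟨h, hh, y, ⟨w, rfl⟩, rfl⟩ := h1
  exact ⟨w, by
    show h * lf T k w * (lf T k w)⁻¹ ∈ T.N k
    rw [mul_inv_cancel_right]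
    exact hh⟩

theorem lf_inj (k : ℕ) {w : FreeGroup (T.R k)} (h : lf T k w ∈ T.N k) : w = 1 := T.basis_inj k w h

/-- `N (k+1) / N k` is torsion free -/
theorem tf (k m : ℕ) (hm : 1 ≤ m) {x : F} (hx : x ∈ T.N (k + 1)) (h : x ^ m ∈ T.N k) : x ∈ T.N k := by
  have hN := T.normal k
  obtain ⟨w, hw⟩ := decomp T k hx
  have h1 := qeq.2 hw
  have h2 : lf T k (w ^ m) ∈ T.N k := by
    rw [← QuotientGroup.eq_one_iff, map_pow, QuotientGroup.mk_pow, ← h1, ← QuotientGroup.mk_pow,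
      QuotientGroup.eq_one_iff]
    exact h
  have h3 := lf_inj T k h2
  have h4 : w = 1 := by
    have : (fun x : FreeGroup (T.R k) => x ^ m) w = (fun x => x ^ m) 1 := by
      show w ^ m = 1 ^ m
      rw [h3, one_pow]
    exact IsMulTorsionFree.pow_left_injective (by omega) this
  rw [h4, map_one, inv_one, mul_one] at hw
  exact hw

/-- conjugates of generators -/
theorem gen_conj (k : ℕ) (ℓ : T.L k) (g : F) : ∃ ε : Bool, g * T.gen k ℓ * g⁻¹ *
    (bif ε then T.gen k (g • ℓ) else (T.gen k (g • ℓ))⁻¹)⁻¹ ∈ T.N k := by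
  have hN := T.normal k
  rcases T.gen_smul k ℓ g with ⟨h, hh, e⟩ | ⟨h, hh, e⟩
  · refine ⟨true, ?_⟩
    show g * T.gen k ℓ * g⁻¹ * (T.gen k (g • ℓ))⁻¹ ∈ T.N k
    rw [e]
    exact hN.conj_mem _ hh _
  · refine ⟨false, ?_⟩
    show g * T.gen k ℓ * g⁻¹ * ((T.gen k (g • ℓ))⁻¹)⁻¹ ∈ T.N k
    rw [e]
    exact hN.conj_mem _ hh _

theorem gen_pow_mem (k : ℕ) (ℓ : T.L k) : T.gen k ℓ ^ n ∈ T.N (k + 1) := by
  have hN := T.normal (k + 1)
  obtain ⟨ρ, hρ, h, hh, rfl⟩ := T.R_cover k ℓ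
  have h0 : T.gen k ρ ^ n ∈ T.N (k + 1) := by
    rw [T.basis_gen]
    exact Subgroup.mem_sup_right ⟨FreeGroup.of ⟨ρ, hρ⟩, FreeGroup.lift_apply_of⟩
  have h1 : (h * T.gen k ρ * h⁻¹) ^ n ∈ T.N (k + 1) := by
    rw [conj_pow]
    exact hN.conj_mem _ h0 _
  obtain ⟨ε, hε⟩ := gen_conj T k ρ h
  have h2 := T.mono k hε
  cases ε with
  | true =>
    have h2' : (h * T.gen k ρ * h⁻¹ * (T.gen k (h • ρ))⁻¹) ∈ T.N (k + 1) := h2
    have h3 := inv_mem h2'
    rw [mul_inv_rev, inv_inv] at h3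
    exact pow_mem_of h3 h1
  | false =>
    have h2' : (h * T.gen k ρ * h⁻¹ * ((T.gen k (h • ρ))⁻¹)⁻¹) ∈ T.N (k + 1) := h2
    have h3 := inv_mem h2'
    rw [mul_inv_rev, inv_inv] at h3
    have h4 := pow_mem_of h3 h1
    rw [inv_pow] at h4
    exact inv_mem_iff.1 h4

theorem gen_not_mem (hn : 2 ≤ n) (k : ℕ) (ℓ : T.L k) : T.gen k ℓ ∉ T.N (k + 1) := by
  intro hmem
  have hN := T.normal k
  have hN1 := T.normal (k + 1)
  obtain ⟨ρ, hρ, h, hh, rfl⟩ := T.R_cover k ℓ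
  obtain ⟨ε, hε⟩ := gen_conj T k ρ h
  have h2 := T.mono k hε
  have h3 : h * T.gen k ρ * h⁻¹ ∈ T.N (k + 1) := by
    have h5 : (bif ε then T.gen k (h • ρ) else (T.gen k (h • ρ))⁻¹) ∈ T.N (k + 1) := by
      cases ε with
      | true => exact hmem
      | false => exact inv_mem hmem
    have := mul_mem h2 h5
    rwa [inv_mul_cancel_right] at this
  have h4 : T.gen k ρ ∈ T.N (k + 1) := by
    have := hN1.conj_mem _ h3 h⁻¹
    rw [inv_inv] at this
    have e : h⁻¹ * (h * T.gen k ρ * h⁻¹) * h = T.gen k ρ := by group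
    rwa [e] at this
  obtain ⟨w, hw⟩ := decomp T k h4
  have h5 := qeq.2 hw
  have h6 : lf T k (FreeGroup.of ⟨ρ, hρ⟩ * (w ^ n)⁻¹) ∈ T.N k := by
    rw [map_mul, map_inv, lf_of, map_pow]
    rw [← qeq, QuotientGroup.mk_pow, QuotientGroup.mk_pow, h5]
  have h7 := lf_inj T k h6
  have h8 : FreeGroup.of (⟨ρ, hρ⟩ : T.R k) = w ^ n := mul_inv_eq_one.1 h7
  let φ : FreeGroup (T.R k) →* Multiplicative ℤ := FreeGroup.lift fun _ => Multiplicative.ofAdd 1
  have h9 := congrArg φ h8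
  rw [map_pow] at h9
  have h10 : Multiplicative.toAdd (φ (FreeGroup.of (⟨ρ, hρ⟩ : T.R k))) = 1 := by
    show Multiplicative.toAdd (FreeGroup.lift _ (FreeGroup.of (⟨ρ, hρ⟩ : T.R k))) = 1
    rw [FreeGroup.lift_apply_of]
    rfl
  rw [h9, toAdd_pow] at h10
  have h11 : (n : ℤ) ∣ 1 := ⟨Multiplicative.toAdd (φ w), by
    rw [← h10, nsmul_eq_mul]⟩
  have h12 := Int.eq_one_of_dvd_one (by omega) h11
  omega

theorem gen_not_VN (hn : 2 ≤ n) (k : ℕ) (ℓ : T.L k) : T.gen k ℓ ∉ VN U n := by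
  rw [mem_VN T]
  rintro ⟨j, hj⟩
  have key : ∀ m : ℕ, T.gen k ℓ ∉ T.N (k + 1 + m) := by
    intro m
    induction m with
    | zero => exact gen_not_mem T hn k ℓ
    | succ m ih =>
      intro h
      exact ih (tf T (k + 1 + m) n (by omega) h (mono' T (by omega) (gen_pow_mem T k ℓ)))
  exact key j (mono' T (by omega) hj)

/-- the hypothesis on the action of `F` on `U / U^n` -/
def HR (U : Subgroup F) (n : ℕ) : Prop := ∀ A ∈ U, ∀ g, g ∉ U →
  (g * A * g⁻¹ * A⁻¹ ∈ VN U n ∨ g * A * g⁻¹ * A ∈ VN U n) → A ∈ VN U n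

theorem stabL (hn : 2 ≤ n) (hr : HR U n) (k : ℕ) (ℓ : T.L k) (g : F) (hg : g • ℓ = ℓ) :
    ∃ (a : ℤ), ∃ h ∈ T.N k, g = T.gen k ℓ ^ a * h := by
  have hN := T.normal k
  by_cases hgU : g ∈ U
  · exact T.stab k ℓ g hgU hg
  · exfalso
    apply gen_not_VN T hn k ℓ
    apply hr _ (T.gen_mem k ℓ) g hgU
    obtain ⟨ε, hε⟩ := gen_conj T k ℓ g
    rw [hg] at hε
    have h2 := le_VN T k hε
    cases ε with
    | true => left; exact h2
    | false =>
      right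
      have h2' : g * T.gen k ℓ * g⁻¹ * ((T.gen k ℓ)⁻¹)⁻¹ ∈ VN U n := h2
      rwa [inv_inv] at h2'

/-- strongly equivariant choice of elements -/
theorem exists_a (hn : 2 ≤ n) (hr : HR U n) (k : ℕ) : ∃ a : T.L k → F,
    (∀ ℓ, ∃ g ℓ', g • ℓ' = ℓ ∧ a ℓ = g * T.gen k ℓ' * g⁻¹) ∧
    ∀ ℓ (g : F), ∃ h ∈ T.N k, a (g • ℓ) = g * h * a ℓ * h⁻¹ * g⁻¹ := by
  have hN := T.normal k
  let rep : T.L k → T.L k := fun ℓ => (Quotient.mk (MulAction.orbitRel F (T.L k)) ℓ).out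
  have hrep : ∀ ℓ, ∃ g : F, g • rep ℓ = ℓ := by
    intro ℓ
    have h1 : (MulAction.orbitRel F (T.L k)) (rep ℓ) ℓ := Quotient.mk_out (s := MulAction.orbitRel F (T.L k)) ℓ
    rw [MulAction.orbitRel_apply] at h1
    obtain ⟨g, hg⟩ := h1
    refine ⟨g⁻¹, ?_⟩
    have hg' : g • ℓ = rep ℓ := hg
    rw [← hg', inv_smul_smul]
  have hrep2 : ∀ (g : F) ℓ, rep (g • ℓ) = rep ℓ := by
    intro g ℓ
    have : Quotient.mk (MulAction.orbitRel F (T.L k)) (g • ℓ) = Quotient.mk (MulAction.orbitRel F (T.L k)) ℓ := by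
      apply Quotient.sound
      show (MulAction.orbitRel F (T.L k)) (g • ℓ) ℓ
      rw [MulAction.orbitRel_apply]
      exact ⟨g, rfl⟩
    show (Quotient.mk (MulAction.orbitRel F (T.L k)) (g • ℓ)).out = _
    rw [this]
  choose γ hγ using hrep
  refine ⟨fun ℓ => γ ℓ * T.gen k (rep ℓ) * (γ ℓ)⁻¹, fun ℓ => ⟨γ ℓ, rep ℓ, hγ ℓ, rfl⟩, ?_⟩
  intro ℓ g
  have hfix : ((g * γ ℓ)⁻¹ * γ (g • ℓ)) • rep ℓ = rep ℓ := by
    have h1 := hγ (g • ℓ)
    rw [hrep2] at h1
    rw [mul_smul, h1, mul_inv_rev, mul_smul, inv_smul_smul]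
    rw [inv_smul_eq_iff, hγ]
  obtain ⟨m, h, hh, e⟩ := stabL T hn hr k (rep ℓ) _ hfix
  have e2 : γ (g • ℓ) = g * γ ℓ * (T.gen k (rep ℓ) ^ m * h) := by
    rw [← e]; group
  refine ⟨γ ℓ * T.gen k (rep ℓ) ^ m * h * (γ ℓ * T.gen k (rep ℓ) ^ m)⁻¹, hN.conj_mem _ hh _, ?_⟩
  show γ (g • ℓ) * T.gen k (rep (g • ℓ)) * (γ (g • ℓ))⁻¹ =
    g * (γ ℓ * T.gen k (rep ℓ) ^ m * h * (γ ℓ * T.gen k (rep ℓ) ^ m)⁻¹) *
      (γ ℓ * T.gen k (rep ℓ) * (γ ℓ)⁻¹) *
      (γ ℓ * T.gen k (rep ℓ) ^ m * h * (γ ℓ * T.gen k (rep ℓ) ^ m)⁻¹)⁻¹ * g⁻¹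
  rw [hrep2, e2]
  generalize T.gen k (rep ℓ) = c
  generalize γ ℓ = x
  have hc : c ^ m * c = c * c ^ m := (Commute.refl c).zpow_left m
  have hc' : (c ^ m)⁻¹ * c * c ^ m = c := by
    rw [mul_assoc, ← hc, inv_mul_cancel_left]
  calc g * x * (c ^ m * h) * c * (g * x * (c ^ m * h))⁻¹
      = g * x * c ^ m * h * (c) * h⁻¹ * (c ^ m)⁻¹ * x⁻¹ * g⁻¹ := by group
    _ = g * x * c ^ m * h * ((c ^ m)⁻¹ * c * c ^ m) * h⁻¹ * (c ^ m)⁻¹ * x⁻¹ * g⁻¹ := by rw [hc']
    _ = _ := by group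


section Omega

variable [hU : U.Normal]

/-- the equivalence relation on the lines of stage `k` -/
def rel (k : ℕ) : Setoid (T.L k) where
  r ℓ ℓ' := ∃ h ∈ VN U n, h • ℓ = ℓ'
  iseqv := {
    refl := fun ℓ => ⟨1, one_mem _, one_smul _ _⟩
    symm := by
      rintro ℓ ℓ' ⟨h, hh, e⟩
      exact ⟨h⁻¹, inv_mem hh, by rw [← e, inv_smul_smul]⟩
    trans := by
      rintro ℓ ℓ' ℓ'' ⟨h, hh, e⟩ ⟨h', hh', e'⟩
      exact ⟨h' * h, mul_mem hh' hh, by rw [mul_smul, e, e']⟩ }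

/-- orbits of `N` on the lines -/
def Om : Type u := Σ k, Quotient (rel T k)

/-- the orbit of a line -/
def om (k : ℕ) (ℓ : T.L k) : Om T := ⟨k, Quotient.mk (rel T k) ℓ⟩

theorem om_eq {k : ℕ} {ℓ ℓ' : T.L k} : om T k ℓ = om T k ℓ' ↔ ∃ h ∈ VN U n, h • ℓ = ℓ' := by
  constructor
  · intro h
    have h1 : Quotient.mk (rel T k) ℓ = Quotient.mk (rel T k) ℓ' := eq_of_heq (Sigma.mk.inj h).2
    exact Quotient.exact h1
  · intro h
    have h1 : Quotient.mk (rel T k) ℓ = Quotient.mk (rel T k) ℓ' := Quotient.sound h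
    show (⟨k, Quotient.mk (rel T k) ℓ⟩ : Σ k, Quotient (rel T k)) = ⟨k, Quotient.mk (rel T k) ℓ'⟩
    rw [h1]

@[elab_as_elim]
theorem om_ind {p : Om T → Prop} (h : ∀ k ℓ, p (om T k ℓ)) (ω : Om T) : p ω := by
  obtain ⟨k, q⟩ := ω
  induction q using Quotient.inductionOn with
  | h ℓ => exact h k ℓ

instance actOm : MulAction F (Om T) where
  smul g ω := ⟨ω.1, Quotient.map (fun ℓ => g • ℓ) (by
    rintro ℓ ℓ' ⟨h, hh, e⟩
    exact ⟨g * h * g⁻¹, (VN_normal U n).conj_mem _ hh g, by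
      rw [mul_smul, mul_smul, inv_smul_smul, e]⟩) ω.2⟩
  one_smul ω := by
    induction ω using om_ind T with
    | h k ℓ =>
      show om T k ((1 : F) • ℓ) = om T k ℓ
      rw [one_smul]
  mul_smul g g' ω := by
    induction ω using om_ind T with
    | h k ℓ =>
      show om T k ((g * g') • ℓ) = om T k (g • g' • ℓ)
      rw [mul_smul]

theorem smul_om (g : F) (k : ℕ) (ℓ : T.L k) : g • om T k ℓ = om T k (g • ℓ) := rfl

theorem VN_smul {h : F} (hh : h ∈ VN U n) (ω : Om T) : h • ω = ω := by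
  induction ω using om_ind T with
  | h k ℓ =>
    rw [smul_om]
    exact ((om_eq T).2 ⟨h, hh, rfl⟩).symm

/-- action on `ℤ Ω` -/
noncomputable def sm (g : F) : (Om T →₀ ℤ) →+ (Om T →₀ ℤ) :=
  Finsupp.mapDomain.addMonoidHom (fun ω => g • ω)

theorem sm_single (g : F) (ω : Om T) (c : ℤ) : sm T g (Finsupp.single ω c) = Finsupp.single (g • ω) c :=
  Finsupp.mapDomain_single

theorem sm_sm (g g' : F) (v : Om T →₀ ℤ) : sm T g (sm T g' v) = sm T (g * g') v := by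
  show Finsupp.mapDomain _ (Finsupp.mapDomain _ v) = Finsupp.mapDomain _ v
  rw [← Finsupp.mapDomain_comp]
  congr 1
  funext ω
  exact (mul_smul g g' ω).symm

theorem sm_VN {h : F} (hh : h ∈ VN U n) (v : Om T →₀ ℤ) : sm T h v = v := by
  show Finsupp.mapDomain _ v = v
  have : (fun ω : Om T => h • ω) = id := by
    funext ω
    exact VN_smul T hh ω
  rw [this, Finsupp.mapDomain_id]

/-- the choices -/
structure GoodA (a : ∀ k, T.L k → F) : Prop where
  conj : ∀ k ℓ, ∃ (g : F) (ℓ' : T.L k), g • ℓ' = ℓ ∧ a k ℓ = g * T.gen k ℓ' * g⁻¹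
  eq : ∀ k ℓ (g : F), ∃ h ∈ T.N k, a k (g • ℓ) = g * h * a k ℓ * h⁻¹ * g⁻¹

variable {a : ∀ k, T.L k → F} (ha : GoodA T a)

include ha

theorem a_mem (k : ℕ) (ℓ : T.L k) : a k ℓ ∈ U := by
  obtain ⟨g, ℓ', -, e⟩ := ha.conj k ℓ
  rw [e]
  exact hU.conj_mem _ (T.gen_mem k ℓ') g

theorem a_pow_mem (k : ℕ) (ℓ : T.L k) : a k ℓ ^ n ∈ T.N (k + 1) := by
  obtain ⟨g, ℓ', -, e⟩ := ha.conj k ℓ
  rw [e, conj_pow]
  exact (T.normal (k + 1)).conj_mem _ (gen_pow_mem T k ℓ') g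

theorem a_pm (k : ℕ) (ℓ : T.L k) : ∃ ε : Bool,
    a k ℓ * (bif ε then T.gen k ℓ else (T.gen k ℓ)⁻¹)⁻¹ ∈ T.N k := by
  obtain ⟨g, ℓ', e1, e⟩ := ha.conj k ℓ
  obtain ⟨ε, h⟩ := gen_conj T k ℓ' g
  rw [e1] at h
  rw [e]
  exact ⟨ε, h⟩

omit ha in
/-- the free group on `R k` mapped to `F` -/
def la (a : ∀ k, T.L k → F) (k : ℕ) : FreeGroup (T.R k) →* F :=
  FreeGroup.lift (fun ρ : T.R k => a k ρ.1 ^ n)

omit ha in
theorem la_of (a : ∀ k, T.L k → F) (k : ℕ) (ρ : T.R k) : la T a k (FreeGroup.of ρ) = a k ρ.1 ^ n :=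
  FreeGroup.lift_apply_of

theorem la_lf (k : ℕ) : ∃ E : FreeGroup (T.R k) →* FreeGroup (T.R k), (∀ w, E (E w) = w) ∧
    ∀ w, la T a k w * (lf T k (E w))⁻¹ ∈ T.N k := by
  have hN := T.normal k
  choose ε hε using fun ρ : T.R k => a_pm T ha k ρ.1
  let E : FreeGroup (T.R k) →* FreeGroup (T.R k) :=
    FreeGroup.lift fun ρ => bif ε ρ then FreeGroup.of ρ else (FreeGroup.of ρ)⁻¹
  have hEof : ∀ ρ, E (FreeGroup.of ρ) = bif ε ρ then FreeGroup.of ρ else (FreeGroup.of ρ)⁻¹ :=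
    fun ρ => FreeGroup.lift_apply_of
  refine ⟨E, ?_, ?_⟩
  · intro w
    have : E.comp E = MonoidHom.id _ := by
      ext ρ
      show E (E (FreeGroup.of ρ)) = FreeGroup.of ρ
      rw [hEof]
      cases h : ε ρ with
      | true =>
        show E (FreeGroup.of ρ) = _
        rw [hEof, h]
        rfl
      | false =>
        show E (FreeGroup.of ρ)⁻¹ = _
        rw [map_inv, hEof, h]
        show ((FreeGroup.of ρ)⁻¹)⁻¹ = _
        rw [inv_inv]
    exact congrArg (fun f : FreeGroup (T.R k) →* FreeGroup (T.R k) => f w) this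
  · intro w
    rw [← qeq]
    have : (QuotientGroup.mk' (T.N k)).comp (la T a k) =
        (QuotientGroup.mk' (T.N k)).comp ((lf T k).comp E) := by
      ext ρ
      show ((la T a k (FreeGroup.of ρ) : F) : F ⧸ T.N k) = ((lf T k (E (FreeGroup.of ρ)) : F) : F ⧸ T.N k)
      rw [la_of, hEof, QuotientGroup.mk_pow, qeq.2 (hε ρ)]
      cases h : ε ρ with
      | true =>
        show ((T.gen k ρ.1 : F) : F ⧸ T.N k) ^ n = ((lf T k (FreeGroup.of ρ) : F) : F ⧸ T.N k)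
        rw [lf_of, QuotientGroup.mk_pow]
      | false =>
        show (((T.gen k ρ.1)⁻¹ : F) : F ⧸ T.N k) ^ n = ((lf T k (FreeGroup.of ρ)⁻¹ : F) : F ⧸ T.N k)
        rw [map_inv, lf_of, QuotientGroup.mk_inv, QuotientGroup.mk_inv, QuotientGroup.mk_pow, inv_pow]
    exact congrArg (fun f : FreeGroup (T.R k) →* F ⧸ T.N k => f w) this

theorem la_inj (k : ℕ) {w : FreeGroup (T.R k)} (h : la T a k w ∈ T.N k) : w = 1 := by
  have hN := T.normal k
  obtain ⟨E, hE, hl⟩ := la_lf T ha k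
  have h1 : lf T k (E w) ∈ T.N k := by
    rw [← QuotientGroup.eq_one_iff] at h ⊢
    rw [← qeq.2 (hl w), h]
  have h2 := lf_inj T k h1
  rw [← hE w, h2, map_one]

theorem decomp_a (k : ℕ) {x : F} (hx : x ∈ T.N (k + 1)) : ∃ w, x * (la T a k w)⁻¹ ∈ T.N k := by
  have hN := T.normal k
  obtain ⟨E, hE, hl⟩ := la_lf T ha k
  obtain ⟨w, hw⟩ := decomp T k hx
  refine ⟨E w, ?_⟩
  rw [← qeq] at hw ⊢
  rw [hw, qeq.2 (hl (E w)), hE]

/-- generation of `N j` -/
theorem N_le_of (K : Subgroup F) : ∀ (j : ℕ) (_ : ∀ i < j, ∀ ρ : T.R i, a i ρ.1 ^ n ∈ K), T.N j ≤ K := by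
  intro j
  induction j with
  | zero => intro _; rw [T.zero]; exact bot_le
  | succ j ih =>
    intro hK x hx
    have h1 := ih (fun i hi => hK i (by omega))
    obtain ⟨w, hw⟩ := decomp_a T ha j hx
    have h2 : la T a j w ∈ K := by
      clear hw
      induction w using FreeGroup.induction_on with
      | C1 => rw [map_one]; exact one_mem _
      | of ρ => rw [la_of]; exact hK j (by omega) ρ
      | inv_of ρ ih => rw [map_inv]; exact inv_mem ih
      | mul x y hx hy => rw [map_mul]; exact mul_mem hx hy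
    have h3 := mul_mem (h1 hw) h2
    rwa [inv_mul_cancel_right] at h3

omit ha in
/-- partial homomorphisms to `ℤ Ω` -/
structure IsTh (a : ∀ k, T.L k → F) (j : ℕ) (Θ : F → (Om T →₀ ℤ)) : Prop where
  mul : ∀ x ∈ T.N j, ∀ y ∈ T.N j, Θ (x * y) = Θ x + Θ y
  val : ∀ i < j, ∀ ℓ : T.L i, Θ (a i ℓ ^ n) = Finsupp.single (om T i ℓ) 1

omit ha in
theorem IsTh.one {j : ℕ} {Θ : F → (Om T →₀ ℤ)} (h : IsTh T a j Θ) : Θ 1 = 0 := by
  have h1 := h.mul 1 (one_mem _) 1 (one_mem _)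
  rw [mul_one] at h1
  exact (add_eq_left.1 h1.symm)

omit ha in
theorem IsTh.inv {j : ℕ} {Θ : F → (Om T →₀ ℤ)} (h : IsTh T a j Θ) {x : F} (hx : x ∈ T.N j) :
    Θ x⁻¹ = - Θ x := by
  have h1 := h.mul x hx x⁻¹ (inv_mem hx)
  rw [mul_inv_cancel, h.one] at h1
  exact (neg_eq_of_add_eq_zero_right h1.symm).symm

omit ha in
theorem IsTh.conj {j : ℕ} {Θ : F → (Om T →₀ ℤ)} (h : IsTh T a j Θ) {x y : F} (hx : x ∈ T.N j)
    (hy : y ∈ T.N j) : Θ (x * y * x⁻¹) = Θ y := by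
  rw [h.mul _ (mul_mem hx hy) _ (inv_mem hx), h.mul _ hx _ hy, h.inv T hx]
  abel

omit ha in
theorem IsTh.restrict {i j : ℕ} (hij : i ≤ j) {Θ : F → (Om T →₀ ℤ)} (h : IsTh T a j Θ) : IsTh T a i Θ :=
  ⟨fun x hx y hy => h.mul x (mono' T hij hx) y (mono' T hij hy), fun k hk ℓ => h.val k (by omega) ℓ⟩

theorem IsTh.uniq {j : ℕ} {Θ Θ' : F → (Om T →₀ ℤ)} (h : IsTh T a j Θ) (h' : IsTh T a j Θ') :
    ∀ x ∈ T.N j, Θ x = Θ' x := by
  let K : Subgroup F := {
    carrier := {x | x ∈ T.N j ∧ Θ x = Θ' x}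
    one_mem' := ⟨one_mem _, by rw [h.one, h'.one]⟩
    mul_mem' := by
      rintro x y ⟨hx, ex⟩ ⟨hy, ey⟩
      exact ⟨mul_mem hx hy, by rw [h.mul x hx y hy, h'.mul x hx y hy, ex, ey]⟩
    inv_mem' := by
      rintro x ⟨hx, ex⟩
      exact ⟨inv_mem hx, by rw [h.inv T hx, h'.inv T hx, ex]⟩ }
  have hK : T.N j ≤ K := by
    apply N_le_of T ha
    intro i hi ρ
    exact ⟨mono' T (by omega) (a_pow_mem T ha i ρ.1), by rw [h.val i hi, h'.val i hi]⟩
  intro x hx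
  exact (hK hx).2

theorem IsTh.equiv {j : ℕ} {Θ : F → (Om T →₀ ℤ)} (h : IsTh T a j Θ) (g : F) :
    ∀ x ∈ T.N j, Θ (g * x * g⁻¹) = sm T g (Θ x) := by
  have hN := T.normal j
  have h1 : IsTh T a j (fun x => sm T g⁻¹ (Θ (g * x * g⁻¹))) := by
    constructor
    · intro x hx y hy
      have e : g * (x * y) * g⁻¹ = (g * x * g⁻¹) * (g * y * g⁻¹) := by group
      show sm T g⁻¹ (Θ (g * (x * y) * g⁻¹)) = _
      rw [e, h.mul _ (hN.conj_mem _ hx g) _ (hN.conj_mem _ hy g), map_add]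
    · intro i hi ℓ
      show sm T g⁻¹ (Θ (g * (a i ℓ ^ n) * g⁻¹)) = _
      obtain ⟨k, hk, e⟩ := ha.eq i ℓ g
      have hk' : k ∈ T.N j := mono' T (by omega) hk
      have e2 : g * (a i ℓ ^ n) * g⁻¹ = (g * k⁻¹ * g⁻¹) * (a i (g • ℓ) ^ n) * (g * k⁻¹ * g⁻¹)⁻¹ := by
        rw [e]
        have : g * k * a i ℓ * k⁻¹ * g⁻¹ = (g * k) * a i ℓ * (g * k)⁻¹ := by group
        rw [this, conj_pow]
        group
      rw [e2, h.conj T (hN.conj_mem _ (inv_mem hk') g) (mono' T (by omega) (a_pow_mem T ha i _)),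
        h.val i hi, sm_single, smul_om, inv_smul_smul]
  intro x hx
  have h2 := h1.uniq T ha h x hx
  rw [← h2, sm_sm, mul_inv_cancel]
  show _ = Finsupp.mapDomain _ _
  have : (fun ω : Om T => (1 : F) • ω) = id := by
    funext ω
    exact one_smul F ω
  rw [this, Finsupp.mapDomain_id]

theorem exists_th (j : ℕ) : ∃ Θ : F → (Om T →₀ ℤ), IsTh T a j Θ := by
  induction j with
  | zero => exact ⟨fun _ => 0, ⟨fun _ _ _ _ => (add_zero 0).symm, fun i hi => absurd hi (by omega)⟩⟩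
  | succ j ih =>
    obtain ⟨Θ, hΘ⟩ := ih
    have hN := T.normal j
    have hN1 := T.normal (j + 1)
    have hex : ∀ x, ∃ w, x ∈ T.N (j + 1) → x * (la T a j w)⁻¹ ∈ T.N j := by
      intro x
      by_cases hx : x ∈ T.N (j + 1)
      · obtain ⟨w, hw⟩ := decomp_a T ha j hx
        exact ⟨w, fun _ => hw⟩
      · exact ⟨1, fun h => absurd h hx⟩
    choose w hw using hex
    have hwu : ∀ x v, x * (la T a j v)⁻¹ ∈ T.N j → w x = v := by
      intro x v hv
      have hx : x ∈ T.N (j + 1) := by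
        have h1 : la T a j v ∈ T.N (j + 1) := by
          clear hv
          induction v using FreeGroup.induction_on with
          | C1 => rw [map_one]; exact one_mem _
          | of ρ => rw [la_of]; exact a_pow_mem T ha j _
          | inv_of ρ ih => rw [map_inv]; exact inv_mem ih
          | mul x y hx hy => rw [map_mul]; exact mul_mem hx hy
        have h2 := mul_mem (T.mono j hv) h1
        rwa [inv_mul_cancel_right] at h2
      have h1 := hw x hx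
      rw [← qeq] at h1 hv
      have h2 : la T a j (w x * v⁻¹) ∈ T.N j := by
        rw [map_mul, map_inv, ← qeq, ← h1, hv]
      exact mul_inv_eq_one.1 (la_inj T ha j h2)
    let θ : FreeGroup (T.R j) →* Multiplicative (Om T →₀ ℤ) :=
      FreeGroup.lift fun ρ => Multiplicative.ofAdd (Finsupp.single (om T j ρ.1) 1)
    have hθof : ∀ ρ, Multiplicative.toAdd (θ (FreeGroup.of ρ)) = Finsupp.single (om T j ρ.1) 1 := by
      intro ρ
      show Multiplicative.toAdd (FreeGroup.lift _ (FreeGroup.of ρ)) = _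
      rw [FreeGroup.lift_apply_of]
      rfl
    let Θ' : F → (Om T →₀ ℤ) := fun x => Θ (x * (la T a j (w x))⁻¹) + Multiplicative.toAdd (θ (w x))
    have hΘ' : ∀ x v, x * (la T a j v)⁻¹ ∈ T.N j →
        Θ' x = Θ (x * (la T a j v)⁻¹) + Multiplicative.toAdd (θ v) := by
      intro x v hv
      have := hwu x v hv
      show Θ (x * (la T a j (w x))⁻¹) + Multiplicative.toAdd (θ (w x)) = _
      rw [this]
    have hmul : ∀ x ∈ T.N (j + 1), ∀ y ∈ T.N (j + 1), Θ' (x * y) = Θ' x + Θ' y := by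
      intro x hx y hy
      obtain ⟨v, hv⟩ : ∃ v, v = w x := ⟨_, rfl⟩
      obtain ⟨v', hv'⟩ : ∃ v', v' = w y := ⟨_, rfl⟩
      have h1 : x * (la T a j v)⁻¹ ∈ T.N j := by rw [hv]; exact hw x hx
      have h2 : y * (la T a j v')⁻¹ ∈ T.N j := by rw [hv']; exact hw y hy
      have h3 : x * y * (la T a j (v * v'))⁻¹ =
          (x * (la T a j v)⁻¹) * (la T a j v * (y * (la T a j v')⁻¹) * (la T a j v)⁻¹) := by
        rw [map_mul]
        group
      have h4 := hN.conj_mem _ h2 (la T a j v)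
      have h5 : la T a j v ∈ VN U n := by
        apply le_VN T (j + 1)
        have := mul_mem (inv_mem (T.mono j h1)) hx
        have e : (x * (la T a j v)⁻¹)⁻¹ * x = la T a j v := by group
        rwa [e] at this
      rw [hΘ' (x * y) (v * v') (by rw [h3]; exact mul_mem h1 h4), hΘ' x v h1, hΘ' y v' h2, h3,
        hΘ.mul _ h1 _ h4, hΘ.equiv T ha _ _ h2, sm_VN T h5, map_mul, toAdd_mul]
      abel
    refine ⟨Θ', hmul, ?_⟩
    have hconj : ∀ x ∈ T.N (j + 1), ∀ y ∈ T.N (j + 1), Θ' (x * y * x⁻¹) = Θ' y := by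
      intro x hx y hy
      have h1 := hmul _ (mul_mem hx hy) _ (inv_mem hx)
      have h2 := hmul x hx y hy
      have h3 := hmul x hx _ (inv_mem hx)
      have h4 : Θ' 1 = 0 := by
        have := hmul 1 (one_mem _) 1 (one_mem _)
        rw [mul_one] at this
        exact (add_eq_left.1 this.symm)
      rw [mul_inv_cancel, h4] at h3
      rw [h1, h2, add_right_comm, ← h3, zero_add]
    intro i hi ℓ
    by_cases hij : i < j
    · have h1 : a i ℓ ^ n * (la T a j 1)⁻¹ = a i ℓ ^ n := by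
        rw [map_one, inv_one, mul_one]
      have h2 : a i ℓ ^ n ∈ T.N j := mono' T (by omega) (a_pow_mem T ha i ℓ)
      rw [hΘ' _ 1 (by rw [h1]; exact h2), h1, map_one, toAdd_one, add_zero]
      exact hΘ.val i hij ℓ
    · have hij2 : i = j := by omega
      subst hij2
      obtain ⟨ρ, hρ, h, hh, rfl⟩ := T.R_cover i ℓ
      obtain ⟨k, hk, e⟩ := ha.eq i ρ h
      have e2 : a i (h • ρ) = (h * k) * a i ρ * (h * k)⁻¹ := by rw [e]; group
      rw [e2, conj_pow, hconj _ (mul_mem hh (T.mono i hk)) _ (a_pow_mem T ha i ρ)]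
      have h1 : a i ρ ^ n * (la T a i (FreeGroup.of ⟨ρ, hρ⟩))⁻¹ = 1 := by
        rw [la_of, mul_inv_cancel]
      rw [hΘ' _ (FreeGroup.of ⟨ρ, hρ⟩) (by rw [h1]; exact one_mem _), h1, hΘ.one T, zero_add, hθof]
      congr 1
      exact (om_eq T).2 ⟨h, le_VN T (i + 1) hh, rfl⟩

/-- the homomorphism on `N` -/
theorem exists_Th : ∃ Θ : F → (Om T →₀ ℤ), ∀ j, IsTh T a j Θ := by
  classical
  choose Θs hΘs using fun j => exists_th T ha j
  have hidx : ∀ x : F, ∃ k, x ∈ VN U n → x ∈ T.N k := by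
    intro x
    by_cases hx : x ∈ VN U n
    · obtain ⟨k, hk⟩ := (mem_VN T).1 hx
      exact ⟨k, fun _ => hk⟩
    · exact ⟨0, fun h => absurd h hx⟩
  choose idx hidx using hidx
  have key : ∀ j, ∀ x ∈ T.N j, Θs (idx x) x = Θs j x := by
    intro j x hx
    have h1 : x ∈ T.N (idx x) := hidx x (le_VN T j hx)
    rcases le_total j (idx x) with h | h
    · exact ((hΘs (idx x)).restrict T h).uniq T ha (hΘs j) x hx
    · exact (hΘs (idx x)).uniq T ha ((hΘs j).restrict T h) x h1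
  refine ⟨fun x => Θs (idx x) x, fun j => ⟨?_, ?_⟩⟩
  · intro x hx y hy
    show Θs (idx (x * y)) (x * y) = Θs (idx x) x + Θs (idx y) y
    rw [key j _ (mul_mem hx hy), key j x hx, key j y hy, (hΘs j).mul x hx y hy]
  · intro i hi ℓ
    show Θs (idx (a i ℓ ^ n)) (a i ℓ ^ n) = _
    rw [key j _ (mono' T (by omega) (a_pow_mem T ha i ℓ)), (hΘs j).val i hi]

end Omega

end Pm


theorem cls_mul {F : Type u} [Group F] (N : Subgroup F) {x y : F} (hx : x ∈ N) (hy : y ∈ N) :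
    cls N (x * y) (mul_mem hx hy) = cls N x hx + cls N y hy := by
  unfold cls
  have : (⟨x * y, mul_mem hx hy⟩ : N) = ⟨x, hx⟩ * ⟨y, hy⟩ := rfl
  rw [this, map_mul, ofMul_mul]

theorem cls_congr {F : Type u} [Group F] (N : Subgroup F) {x y : F} (hx : x ∈ N) (h : x = y) :
    cls N x hx = cls N y (h ▸ hx) := by
  subst h
  rfl

theorem cls_one {F : Type u} [Group F] (N : Subgroup F) : cls N 1 (one_mem _) = 0 := by
  unfold cls
  have : (⟨1, one_mem _⟩ : N) = 1 := rfl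
  rw [this, map_one, ofMul_one]

theorem cls_inv {F : Type u} [Group F] (N : Subgroup F) {x : F} (hx : x ∈ N) :
    cls N x⁻¹ (inv_mem hx) = - cls N x hx := by
  unfold cls
  have : (⟨x⁻¹, inv_mem hx⟩ : N) = ⟨x, hx⟩⁻¹ := rfl
  rw [this, map_inv, ofMul_inv]

theorem cls_conj {F : Type u} [Group F] (N : Subgroup F) {x h : F} (hx : x ∈ N) (hh : h ∈ N) :
    cls N (h * x * h⁻¹) (mul_mem (mul_mem hh hx) (inv_mem hh)) = cls N x hx := by
  rw [cls_mul N (mul_mem hh hx) (inv_mem hh), cls_mul N hh hx, cls_inv N hh]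
  abel

theorem exists_perm_gen {F : Type u} [Group F] {U : Subgroup F} [hU : U.Normal] {n : ℕ}
    (hn : n.Prime) (hr : Pm.HR U n) (T : Tower F U n) : Nonempty (PermBasis F (VN U n) U n) := by
  classical
  have hN : (VN U n).Normal := VN_normal U n
  choose a ha1 ha2 using fun k => Pm.exists_a T hn.two_le hr k
  have ha : Pm.GoodA T a := ⟨ha1, ha2⟩
  obtain ⟨Θ, hΘ⟩ := Pm.exists_Th T ha
  have hmul : ∀ x ∈ VN U n, ∀ y ∈ VN U n, Θ (x * y) = Θ x + Θ y := by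
    intro x hx y hy
    obtain ⟨i, hi⟩ := (Pm.mem_VN T).1 hx
    obtain ⟨j, hj⟩ := (Pm.mem_VN T).1 hy
    exact (hΘ (max i j)).mul x (Pm.mono' T (le_max_left _ _) hi) y (Pm.mono' T (le_max_right _ _) hj)
  have hln : ∀ ω : Pm.Om T, ∃ ℓ : T.L ω.1, Pm.om T ω.1 ℓ = ω := by
    intro ω
    induction ω using Pm.om_ind T with
    | h k ℓ => exact ⟨ℓ, rfl⟩
  choose ln hln using hln
  let A : Pm.Om T → F := fun ω => a ω.1 (ln ω)
  have hpow : ∀ k (ℓ : T.L k), a k ℓ ^ n ∈ VN U n := fun k ℓ =>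
    Pm.le_VN T (k + 1) (Pm.a_pow_mem T ha k ℓ)
  have hnot : ∀ k (ℓ : T.L k), a k ℓ ∉ VN U n := by
    intro k ℓ h
    obtain ⟨g, ℓ', -, e⟩ := ha.conj k ℓ
    rw [e] at h
    have h2 := hN.conj_mem _ h g⁻¹
    have e2 : g⁻¹ * (g * T.gen k ℓ' * g⁻¹) * g⁻¹⁻¹ = T.gen k ℓ' := by group
    rw [e2] at h2
    exact Pm.gen_not_VN T hn.two_le k ℓ' h2
  have hfix : ∀ k (ℓ : T.L k), a k ℓ • ℓ = ℓ := by
    intro k ℓ
    obtain ⟨g, ℓ', e1, e⟩ := ha.conj k ℓ
    rw [e, mul_smul, ← e1, inv_smul_smul, mul_smul, T.gen_fix]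
  have hcls : ∀ k (ℓ ℓ' : T.L k) (g : F), Pm.om T k ℓ' = Pm.om T k (g • ℓ) →
      cls (VN U n) (a k ℓ' ^ n) (hpow k ℓ') =
        cls (VN U n) (g * a k ℓ ^ n * g⁻¹) (hN.conj_mem _ (hpow k ℓ) g) := by
    intro k ℓ ℓ' g e
    obtain ⟨h, hh, e2⟩ := (Pm.om_eq T).1 e.symm
    obtain ⟨h', hh', e3⟩ := ha.eq k ℓ (h * g)
    rw [mul_smul, e2] at e3
    have hc : h * (g * h' * g⁻¹) ∈ VN U n :=
      mul_mem hh (hN.conj_mem _ (Pm.le_VN T k hh') g)
    have e4 : a k ℓ' ^ n = (h * (g * h' * g⁻¹)) * (g * a k ℓ ^ n * g⁻¹) * (h * (g * h' * g⁻¹))⁻¹ := by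
      have e5 : a k ℓ' = (h * (g * h' * g⁻¹) * g) * a k ℓ * (h * (g * h' * g⁻¹) * g)⁻¹ := by
        rw [e3]; group
      rw [e5, conj_pow]
      group
    rw [cls_congr _ _ e4]
    exact cls_conj _ (hN.conj_mem _ (hpow k ℓ) g) hc
  let φ : VN U n →* Multiplicative (Pm.Om T →₀ ℤ) :=
    MonoidHom.mk' (fun x => Multiplicative.ofAdd (Θ x)) (by
      intro x y
      show Multiplicative.ofAdd (Θ (x.1 * y.1)) = _
      rw [hmul _ x.2 _ y.2, ofAdd_add])
  let Θb : Additive (Abelianization (VN U n)) →+ (Pm.Om T →₀ ℤ) :=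
    { toFun := fun x => Multiplicative.toAdd (Abelianization.lift φ (Additive.toMul x))
      map_zero' := by
        rw [toMul_zero, map_one, toAdd_one]
      map_add' := fun x y => by
        rw [toMul_add, map_mul, toAdd_mul] }
  have hΘb : ∀ x (hx : x ∈ VN U n), Θb (cls (VN U n) x hx) = Θ x := by
    intro x hx
    show Multiplicative.toAdd (Abelianization.lift φ (Abelianization.of ⟨x, hx⟩)) = Θ x
    rw [Abelianization.lift_apply_of]
    rfl
  let v : Pm.Om T → Additive (Abelianization (VN U n)) := fun ω => cls (VN U n) (A ω ^ n) (hpow _ _)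
  have hv : ∀ ω, Θb (v ω) = Finsupp.single ω 1 := by
    intro ω
    show Θb (cls (VN U n) (A ω ^ n) _) = _
    rw [hΘb, (hΘ (ω.1 + 1)).val ω.1 (by omega), hln]
  have li : LinearIndependent ℤ v := by
    apply LinearIndependent.of_comp Θb.toIntLinearMap
    have : (⇑Θb.toIntLinearMap ∘ v) = fun ω : Pm.Om T => Finsupp.single ω (1 : ℤ) := by
      funext ω
      exact hv ω
    rw [this]
    exact Finsupp.linearIndependent_single_one ℤ (Pm.Om T)
  have sp : ⊤ ≤ Submodule.span ℤ (Set.range v) := by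
    let K : Subgroup F := {
      carrier := {x | ∃ hx : x ∈ VN U n, cls (VN U n) x hx ∈ Submodule.span ℤ (Set.range v)}
      one_mem' := ⟨one_mem _, by rw [cls_one]; exact zero_mem _⟩
      mul_mem' := by
        rintro x y ⟨hx, ex⟩ ⟨hy, ey⟩
        exact ⟨mul_mem hx hy, by rw [cls_mul _ hx hy]; exact add_mem ex ey⟩
      inv_mem' := by
        rintro x ⟨hx, ex⟩
        exact ⟨inv_mem hx, by rw [cls_inv _ hx]; exact neg_mem ex⟩ }
    have hK : VN U n ≤ K := by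
      intro x hx
      obtain ⟨j, hj⟩ := (Pm.mem_VN T).1 hx
      refine Pm.N_le_of T ha K j ?_ hj
      intro i _ ρ
      refine ⟨hpow i ρ.1, ?_⟩
      have h1 := hcls i ρ.1 (ln (Pm.om T i ρ.1)) 1 (by
        rw [one_smul]
        exact hln (Pm.om T i ρ.1))
      have h2 : cls (VN U n) (1 * a i ρ.1 ^ n * 1⁻¹) (hN.conj_mem _ (hpow i ρ.1) 1) =
          cls (VN U n) (a i ρ.1 ^ n) (hpow i ρ.1) :=
        cls_congr _ _ (by group)
      rw [h2] at h1
      rw [← h1]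
      exact Submodule.subset_span ⟨Pm.om T i ρ.1, rfl⟩
    rintro y -
    obtain ⟨x, hx⟩ : ∃ x, Abelianization.of x = Additive.toMul y :=
      QuotientGroup.mk_surjective (Additive.toMul y)
    obtain ⟨hx1, hx2⟩ := hK x.2
    have : cls (VN U n) x.1 hx1 = y := by
      show Additive.ofMul (Abelianization.of x) = y
      rw [hx]
      rfl
    rw [← this]
    exact hx2
  refine ⟨{
    normal := hN
    Ω := Pm.Om T
    act := Pm.actOm T
    A := A
    A_mem := fun ω => Pm.a_mem T ha _ _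
    pow_mem := fun ω => hpow _ _
    order := ?_
    stab := ?_
    b := Module.Basis.mk li sp
    b_eq := fun ω => Module.Basis.mk_apply li sp ω
    b_smul := ?_ }⟩
  · intro ω m
    constructor
    · intro h
      by_contra hnd
      have hcop : IsCoprime (n : ℤ) m := (Nat.prime_iff_prime_int.1 hn).coprime_iff_not_dvd.2 hnd
      obtain ⟨u, v, huv⟩ := hcop
      apply hnot ω.1 (ln ω)
      have h1 : a ω.1 (ln ω) = ((a ω.1 (ln ω)) ^ n) ^ u * (a ω.1 (ln ω) ^ m) ^ v := by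
        rw [← zpow_natCast, ← zpow_mul, ← zpow_mul, ← zpow_add, mul_comm (n : ℤ) u, mul_comm m v, huv,
          zpow_one]
      rw [h1]
      exact mul_mem (zpow_mem (hpow _ _) u) (zpow_mem h v)
    · rintro ⟨c, rfl⟩
      rw [zpow_mul, zpow_natCast]
      exact zpow_mem (hpow _ _) c
  · intro ω g
    constructor
    · intro hg
      have h1 : Pm.om T ω.1 (g • ln ω) = Pm.om T ω.1 (ln ω) := by
        rw [← Pm.smul_om, hln]
        exact hg
      obtain ⟨h, hh, e⟩ := (Pm.om_eq T).1 h1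
      obtain ⟨γ, ℓ', e1, e2⟩ := ha.conj ω.1 (ln ω)
      have h2 : (γ⁻¹ * h * g * γ) • ℓ' = ℓ' := by
        rw [mul_smul, mul_smul, mul_smul, e1, e, ← e1, inv_smul_smul]
      obtain ⟨m, h', hh', e3⟩ := Pm.stabL T hn.two_le hr ω.1 ℓ' _ h2
      have hA : A ω = γ * T.gen ω.1 ℓ' * γ⁻¹ := e2
      refine ⟨m, (A ω ^ m)⁻¹ * h⁻¹ * A ω ^ m * (γ * h' * γ⁻¹),
        mul_mem ?_ (hN.conj_mem _ (Pm.le_VN T _ hh') γ), ?_⟩
      · have := hN.conj_mem _ (inv_mem hh) (A ω ^ m)⁻¹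
        rwa [inv_inv] at this
      · have e4 : g = h⁻¹ * (γ * (γ⁻¹ * h * g * γ) * γ⁻¹) := by group
        rw [e4, e3]
        have e5 : A ω ^ m = γ * T.gen ω.1 ℓ' ^ m * γ⁻¹ := by rw [hA, conj_zpow]
        have e6 : γ * (T.gen ω.1 ℓ' ^ m * h') * γ⁻¹ = A ω ^ m * (γ * h' * γ⁻¹) := by
          rw [e5]; group
        rw [e6]
        group
    · rintro ⟨m, h, hh, rfl⟩
      show (A ω ^ m * h) • ω = ω
      rw [mul_smul, Pm.VN_smul T hh]
      have h1 : A ω ∈ MulAction.stabilizer F ω := by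
        rw [MulAction.mem_stabilizer_iff]
        show a ω.1 (ln ω) • ω = ω
        have : a ω.1 (ln ω) • Pm.om T ω.1 (ln ω) = Pm.om T ω.1 (ln ω) := by
          rw [Pm.smul_om, hfix]
        rwa [hln] at this
      exact zpow_mem h1 m
  · intro ω g
    show (Module.Basis.mk li sp) (g • ω) = _
    rw [Module.Basis.mk_apply]
    refine hcls ω.1 (ln ω) (ln (g • ω)) g ?_
    rw [← Pm.smul_om, hln ω]
    exact hln (g • ω)

theorem exists_perm (X : Type) {n : ℕ} (hn : n.Prime)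
    (T : Tower (FreeGroup X) (commutator (FreeGroup X)) n) :
    Nonempty (PermBasis (FreeGroup X)
      (Subgroup.closure {x | ∃ u ∈ commutator (FreeGroup X), x = u ^ n})
      (commutator (FreeGroup X)) n) :=
  exists_perm_gen hn (fun _ hA _ hg h => retr X n hA hg h) T

end Run7.h253
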