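import Pool.Agent.Run7.h253.Quot
import Pool.Agent.Run7.h253.Iso

/-!
# Piece `qell`: elements of `U / N` are loxodromic or of exponent `n`

`f ∈ U`.  Choose `h ∈ N` and `p` minimizing `d p (h f p)`; put `F = h f`, `ℓ₀ = d p (F p)`.
* `F` not loxodromic: `F^n = 1` (`ell`).  `F ∈ grp ℓ` for some `ℓ`: `F^n ∈ rot ℓ ≤ N` (`pow_mem`).
* otherwise `ℓ₀ > 10^6` (`lox_small`), so `min_defect` and `orbit_add` apply:
  `P_i = F^i p` satisfies `d P_i P_k ≥ d P_i P_j + d P_j P_k - 4δ - …` for `i ≤ j ≤ k`.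
  Claim: for all `ℓ`, `k`: `V := D ℓ P_0 P_k ≤ len ℓ / 2 + 10^121` and `V ≤ ℓ₀ + 10^18`.
  `y₀, y_k` nearest points of `P_0, P_k` on `Y ℓ`; there are `j` and `u ∈ [P_j, P_{j+1}]` with `d u y₀ ≤ 10^5`;
  `d u (F u) = ℓ₀` by minimality.  If `V > ℓ₀ + 10^18` then `F u … y_k` is a long part of the axis which is
  near `Y ℓ` and near `F Y ℓ = Y (F ℓ)`, so `F ℓ = ℓ` by `ovl` and `F ∈ grp ℓ` by `stab`, excluded.
  If `V > len ℓ / 2 + 10^121` take `y'` on `Y ℓ` (near the axis) at distance `V' = min V ℓ₀` from `y₀`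
  (`= y_k` or near `F u`); by `line` there is `r ∈ rot ℓ` (a generator `ρ^{±1}`) with
  `d y₀ (r y') ≤ |len ℓ - V'| + 2*10^120`, so `d u (r F u) ≤ d u y₀ + d y₀ (r y') + d y' (F u) < ℓ₀`:
  contradiction with the minimality over all lifts `h f`.
* So `Rdc 15 p (F^k p)` and `q p (F^k p) = d' p (F^k p) ≥ d p (F^k p) / (ℓ₀ + 10^22)` by `Q3`: linear growth.
-/

set_option autoImplicit false

namespace Run7.h253

variable {G : Type*} [Group G] {U : Subgroup G} {n : ℕ} {L : Type*} [MulAction G L]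
  {S : BSys G U n L}

theorem pow_mem_N {N : Subgroup G} (hN : N.Normal) {h f : G} (hh : h ∈ N) (k : ℕ) :
    (h * f) ^ k * (f ^ k)⁻¹ ∈ N := by
  rw [← QuotientGroup.eq_one_iff (N := N)]
  have : ((h : G) : G ⧸ N) = 1 := (QuotientGroup.eq_one_iff h).2 hh
  simp [this]

/-- the bracket of a point on the orbit of `P` -/
theorem exists_bracket (a : ℕ → ℕ) (v k : ℕ) (h0 : a 0 ≤ v) (hk : v < a k) :
    ∃ j, j < k ∧ a j ≤ v ∧ v < a (j + 1) := by
  induction k with
  | zero => omega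
  | succ k ih =>
    rcases Nat.lt_or_ge v (a k) with h | h
    · obtain ⟨j, hj, h1⟩ := ih h
      exact ⟨j, by omega, h1⟩
    · exact ⟨k, by omega, h, hk⟩

/-- rotation estimate -/
theorem rot_move (S : BSys G U n L) {ℓ : L} {a b : G} (ha : a ∈ S.Y ℓ) (hb : b ∈ S.Y ℓ) :
    ∃ r ∈ S.rot ℓ, (S.d a (r * b) ≤ (S.len ℓ - S.d a b) + (S.d a b - S.len ℓ) + 3 * 10 ^ 120) := by
  obtain ⟨t, ρ, hρ, h1, h2, h3⟩ := line' S ℓ
  have hbig := S.len_big ℓ
  have g1 := h1 a ha b hb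
  rcases le_total (t a) (t b) with hle | hle
  · have hr : ρ⁻¹ ∈ S.rot ℓ := (S.rot ℓ).inv_mem hρ
    have k2 := h3 b hb
    have k3 := h1 a ha _ (rot_Y S hr hb)
    exact ⟨ρ⁻¹, hr, by omega⟩
  · have k2 := h2 b hb
    have k3 := h1 a ha _ (rot_Y S hρ hb)
    exact ⟨ρ, hρ, by omega⟩

/-- the main estimate: overlap of the axis of a non-killed element with a tube -/
theorem axis_overlap {F p : G} (hF : F ∈ U) (hno : ∀ ℓ, F ∉ S.grp ℓ)
    (hmin : ∀ r ∈ S.N, ∀ x, S.d p (F * p) ≤ S.d x (r * F * x)) (hbig : 10 ^ 6 < S.d p (F * p))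
    (k : ℕ) (ℓ : L) : S.D ℓ p (F ^ k * p) ≤ S.d p (F * p) + 10 ^ 19 ∧
      16 * S.D ℓ p (F ^ k * p) ≤ 15 * S.len ℓ := by
  have hlen := S.len_big ℓ
  by_cases hV : S.D ℓ p (F ^ k * p) ≤ 10 ^ 19
  · constructor <;> omega
  push Not at hV
  set ℓ₀ := S.d p (F * p) with hℓ₀
  have hmin1 : ∀ x, ℓ₀ ≤ S.d x (F * x) := fun x => by simpa using hmin 1 S.N.one_mem x
  have hdef := min_defect S.toGH S.inv F (p := p) hmin1 (by simp only [smul_eq_mul]; omega)
  simp only [smul_eq_mul] at hdef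
  set a : ℕ → ℕ := fun i => S.d p (F ^ i * p) with ha
  have hadd : ∀ i j, a i + a j ≤ a (i + j) + 802 := by
    intro i j
    have := orbit_add S.toGH S.inv F (m := p) (β := 402) (by simp only [smul_eq_mul]; omega)
      (by simp only [smul_eq_mul]; omega) i j
    simp only [smul_eq_mul] at this
    simp only [ha]
    omega
  have hP : ∀ i j, S.d (F ^ i * p) (F ^ (i + j) * p) = a j := by
    intro i j
    rw [pow_add, mul_assoc, S.inv]
  have hsub : ∀ i j, a (i + j) ≤ a i + a j := by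
    intro i j
    have := S.tri p (F ^ i * p) (F ^ (i + j) * p)
    rw [hP] at this
    exact this
  have ha0 : a 0 = 0 := by simp [ha, S.self]
  have ha1 : a 1 = ℓ₀ := by simp [ha, hℓ₀]
  obtain ⟨y₀, hy₀⟩ := prj_nonempty S ℓ p
  obtain ⟨yk, hyk⟩ := prj_nonempty S ℓ (F ^ k * p)
  have hfar := D_far' S ℓ hy₀ hyk (by omega)
  have hprj := D_prj S ℓ hy₀ hyk
  set W := S.d y₀ yk with hW
  have hak : S.d p (F ^ k * p) = a k := rfl
  rw [hak] at hfar
  obtain ⟨j, hj, hj1, hj2⟩ := exists_bracket a (S.d p y₀) k (by rw [ha0]; omega) (by omega)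
  have s1 := hsub j 1
  have s2 := hadd j 1
  rw [ha1] at s1 s2
  -- the point `u`
  obtain ⟨u, hu1, hu2⟩ := S.geo (F ^ j * p) (F ^ (j + 1) * p) (S.d p y₀ - a j) (by
    rw [hP, ha1]; omega)
  rw [hP, ha1] at hu2
  -- frame `P 0`, `P K`, `K = k + 2`
  have k1 := hadd (j + 1) (k - j - 1 + 2)
  rw [show j + 1 + (k - j - 1 + 2) = k + 2 by omega] at k1
  have k2 := hadd k 2
  have k3 := hadd k 1
  have k4 := hadd (j + 2) (k - j - 1 + 1)
  rw [show j + 2 + (k - j - 1 + 1) = k + 2 by omega] at k4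
  have k5 := hadd (j + 1) 1
  rw [show j + 1 + 1 = j + 2 by omega] at k5
  have k6 := hadd (k + 1) 1
  rw [show k + 1 + 1 = k + 2 by omega] at k6
  have k7 := hsub (j + 1) 1
  rw [show j + 1 + 1 = j + 2 by omega] at k7
  rw [ha1] at k3 k5 k6 k7
  have pu : S.d p u ≤ S.d p y₀ := by
    have := S.tri p (F ^ j * p) u
    simp only [ha] at hj1 hu1
    omega
  have uK : S.d u (F ^ (k + 2) * p) ≤ S.d u (F ^ (j + 1) * p) + a (k - j - 1 + 2) := by
    have := S.tri u (F ^ (j + 1) * p) (F ^ (k + 2) * p)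
    have e := hP (j + 1) (k - j - 1 + 2)
    rw [show j + 1 + (k - j - 1 + 2) = k + 2 by omega] at e
    omega
  have hK : S.d p (F ^ (k + 2) * p) = a (k + 2) := rfl
  have y0K : S.d y₀ (F ^ (k + 2) * p) ≤ W + S.d yk (F ^ k * p) + a 2 := by
    have e1 := S.tri y₀ yk (F ^ (k + 2) * p)
    have e2 := S.tri yk (F ^ k * p) (F ^ (k + 2) * p)
    have e3 := hP k 2
    omega
  have ykK : S.d yk (F ^ (k + 2) * p) ≤ S.d yk (F ^ k * p) + a 2 := by
    have e2 := S.tri yk (F ^ k * p) (F ^ (k + 2) * p)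
    have e3 := hP k 2
    omega
  have t1 := S.tri p u (F ^ (k + 2) * p)
  have t2 := S.tri p y₀ yk
  have t3 := S.tri p yk (F ^ (k + 2) * p)
  have huy : S.d u y₀ ≤ 15000 := by
    have := close_of_pos S.toGH (p := p) (q := F ^ (k + 2) * p) (a := u) (b := y₀) (e := 1604)
      (e' := 5402) (k := 5000) (by omega) (by omega) (by omega) (by omega)
    omega
  -- `F u`
  have uFu : S.d u (F * u) ≤ ℓ₀ := by
    have e1 := S.tri u (F ^ (j + 1) * p) (F * u)
    have e2 : S.d (F ^ (j + 1) * p) (F * u) = S.d (F ^ j * p) u := by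
      rw [pow_succ', mul_assoc, S.inv]
    omega
  have Fu1 : S.d (F ^ (j + 1) * p) (F * u) = S.d p y₀ - a j := by
    rw [pow_succ', mul_assoc, S.inv]; exact hu1
  have Fu2 : S.d (F * u) (F ^ (j + 2) * p) = S.d u (F ^ (j + 1) * p) := by
    rw [show F ^ (j + 2) * p = F * (F ^ (j + 1) * p) by rw [← mul_assoc, ← pow_succ'], S.inv]
  have pFu : S.d p (F * u) ≤ a (j + 1) + (S.d p y₀ - a j) := by
    have := S.tri p (F ^ (j + 1) * p) (F * u)
    have e : S.d p (F ^ (j + 1) * p) = a (j + 1) := rfl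
    omega
  have FuK : S.d (F * u) (F ^ (k + 2) * p) ≤ S.d u (F ^ (j + 1) * p) + a (k - j - 1 + 1) := by
    have e1 := S.tri (F * u) (F ^ (j + 2) * p) (F ^ (k + 2) * p)
    have e2 := hP (j + 2) (k - j - 1 + 1)
    rw [show j + 2 + (k - j - 1 + 1) = k + 2 by omega] at e2
    omega
  have t4 := S.tri p (F * u) (F ^ (k + 2) * p)
  -- final rotation argument
  have final : ∀ y' ∈ S.Y ℓ, S.d y' (F * u) + S.d y₀ y' ≤ ℓ₀ + 50000 →
      2 * S.d y₀ y' ≤ S.len ℓ + 4 * 10 ^ 120 := by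
    intro y' hy' h1
    obtain ⟨r, hr, h2⟩ := rot_move S hy₀.1 hy'
    have e1 := hmin r (rot_N S hr) u
    rw [mul_assoc] at e1
    have e2 := S.tri u y₀ (r * (F * u))
    have e3 := S.tri y₀ (r * y') (r * (F * u))
    have e4 := S.inv r y' (F * u)
    omega
  rcases Nat.lt_or_ge ℓ₀ W with hlt | hge
  · -- overlap longer than a period
    obtain ⟨v, hv1, hv2⟩ := S.geo y₀ yk ℓ₀ (by omega)
    obtain ⟨v', hv', hvv⟩ := S.qc ℓ y₀ yk v hy₀.1 hyk.1 (by omega)
    have pv := S.tri p y₀ v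
    have vK := S.tri v yk (F ^ (k + 2) * p)
    have t5 := S.tri p v (F ^ (k + 2) * p)
    have hvFu : S.d v (F * u) ≤ 30000 := by
      have := close_of_pos S.toGH (p := p) (q := F ^ (k + 2) * p) (a := v) (b := F * u) (e := 5402)
        (e' := 1604) (k := 15000) (by omega) (by omega) (by omega) (by omega)
      omega
    have hWle : W ≤ ℓ₀ + 10 ^ 17 := by
      by_contra hcon
      push Not at hcon
      obtain ⟨w, hw1, hw2⟩ := S.geo y₀ yk (W - ℓ₀) (by omega)
      obtain ⟨w', hw', hww⟩ := S.qc ℓ y₀ yk w hy₀.1 hyk.1 (by omega)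
      -- position of `F w`
      have pFw : S.d p (F * w) ≤ ℓ₀ + S.d p w := by
        have e1 := S.tri p (F * p) (F * w)
        rw [S.inv] at e1
        exact e1
      have pw := S.tri p y₀ w
      have FwK : S.d (F * w) (F ^ (k + 2) * p) ≤ S.d w (F ^ k * p) + a 1 := by
        have e1 := S.tri (F * w) (F ^ (k + 1) * p) (F ^ (k + 2) * p)
        have e2 : S.d (F * w) (F ^ (k + 1) * p) = S.d w (F ^ k * p) := by
          rw [pow_succ', mul_assoc, S.inv]
        have e3 := hP (k + 1) 1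
        rw [show k + 1 + 1 = k + 2 by omega] at e3
        omega
      have wk := S.tri w yk (F ^ k * p)
      have t6 := S.tri p (F * w) (F ^ (k + 2) * p)
      rw [ha1] at FwK
      have hFwyk : S.d (F * w) yk ≤ 60000 := by
        have := close_of_pos S.toGH (p := p) (q := F ^ (k + 2) * p) (a := F * w) (b := yk)
          (e := 10000) (e' := 5402) (k := 20000) (by omega) (by omega) (by omega) (by omega)
        omega
      have hFℓ : F • ℓ = ℓ := by
        by_contra hne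
        have h1 : F * y₀ ∈ S.Y (F • ℓ) := S.Y_smul _ _ _ hy₀.1
        have h2 : F * w' ∈ S.Y (F • ℓ) := S.Y_smul _ _ _ hw'
        have e1 := S.tri (F * y₀) (F * u) v'
        have e2 := S.tri (F * u) v v'
        have e3 := S.inv F y₀ u
        have e4 := S.symm y₀ u
        have e5 := S.symm (F * u) v
        have e6 := S.tri yk (F * w) (F * w')
        have e7 := S.inv F w w'
        have e8 := S.symm yk (F * w)
        have h3 := S.ovl (F • ℓ) ℓ hne (F * y₀) yk (F * y₀) v' (F * w') yk h1 hv' h2 hyk.1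
          (by rw [S.self]; omega) (by omega) (by omega) (by rw [S.self]; omega)
        have e9 := S.tri v v' yk
        have e10 := S.tri v' (F * y₀) yk
        have e11 := S.symm v' (F * y₀)
        omega
      exact hno ℓ (S.stab ℓ F hF hFℓ)
    have e1 := S.tri v' v (F * u)
    have e2 := S.symm v' v
    have e3 := S.tri y₀ v v'
    have e4 := S.tri y₀ v' v
    have h1 := final v' hv' (by omega)
    constructor <;> omega
  · have hykFu : S.d yk (F * u) ≤ ℓ₀ - W + 40000 := by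
      have := close_of_pos S.toGH (p := p) (q := F ^ (k + 2) * p) (a := yk) (b := F * u)
        (e := 10000) (e' := 1604) (k := ℓ₀ - W + 20000) (by omega) (by omega) (by omega) (by omega)
      omega
    have h1 := final yk hyk.1 (by omega)
    constructor <;> omega

theorem q_ell (c : Cone S) {f : G} (hf : f ∈ U) :
    (∃ (p : G) (C : ℕ), ∀ k : ℕ, k ≤ C * (c.q p (f ^ k * p) + 1)) ∨ f ^ n ∈ S.N := by
  have hN := N_normal S
  have hne : {m | ∃ h ∈ S.N, ∃ p : G, m = S.d p (h * f * p)}.Nonempty :=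
    ⟨_, 1, S.N.one_mem, 1, rfl⟩
  obtain ⟨h, hh, p, hm⟩ := Nat.sInf_mem hne
  have hmin : ∀ r ∈ S.N, ∀ x, S.d p (h * f * p) ≤ S.d x (r * (h * f) * x) := by
    intro r hr x
    rw [← hm]
    exact Nat.sInf_le ⟨r * h, S.N.mul_mem hr hh, x, by rw [mul_assoc r h f]⟩
  clear hm hne
  have hFU : h * f ∈ U := U.mul_mem (N_le S hh) hf
  have hpow : (h * f) ^ n ∈ S.N → f ^ n ∈ S.N := by
    intro h1
    have h2 := pow_mem_N hN hh (f := f) n
    have : f ^ n = ((h * f) ^ n * (f ^ n)⁻¹)⁻¹ * (h * f) ^ n := by group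
    rw [this]
    exact S.N.mul_mem (S.N.inv_mem h2) h1
  by_cases hl : Lox S.d (h * f)
  swap
  · right
    apply hpow
    rw [(S.ell _ hFU).resolve_left hl]
    exact S.N.one_mem
  by_cases hg : ∃ ℓ, h * f ∈ S.grp ℓ
  · obtain ⟨ℓ, hℓ⟩ := hg
    right
    exact hpow (rot_N S (S.pow_mem ℓ _ hℓ))
  left
  push Not at hg
  have hbig : 10 ^ 6 < S.d p (h * f * p) := by
    by_contra hcon
    push Not at hcon
    obtain ⟨ℓ, hℓ⟩ := S.lox_small _ hFU hl p hcon
    exact hg ℓ hℓ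
  set F := h * f with hF
  set ℓ₀ := S.d p (F * p) with hℓ₀
  have hmin1 : ∀ x, ℓ₀ ≤ S.d x (F * x) := fun x => by simpa using hmin 1 S.N.one_mem x
  have hdef := min_defect S.toGH S.inv F (p := p) hmin1 (by simp only [smul_eq_mul]; omega)
  simp only [smul_eq_mul] at hdef
  have hgrow : ∀ k : ℕ, k ≤ S.d p (F ^ k * p) := by
    intro k
    induction k with
    | zero => exact Nat.zero_le _
    | succ k ih =>
      have := orbit_grow S.toGH S.inv F (m := p) (β := 402) (by simp only [smul_eq_mul]; omega)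
        (by simp only [smul_eq_mul]; omega) k
      simp only [smul_eq_mul] at this
      omega
  refine ⟨p, ℓ₀ + 10 ^ 19 + 10 ^ 21, fun k => ?_⟩
  have hov := axis_overlap hFU hg hmin hbig k
  have e1 := c.Q3 p (F ^ k * p) (ℓ₀ + 10 ^ 19) (fun ℓ => (hov ℓ).1)
  have e2 := q_eq c (fun ℓ => (hov ℓ).2 : S.Rdc 15 p (F ^ k * p))
  have e3 : c.q p (F ^ k * p) = c.q p (f ^ k * p) := by
    have h1 := pow_mem_N hN hh (f := f) k
    have h2 : F ^ k * p = (F ^ k * (f ^ k)⁻¹) * (f ^ k * p) := by group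
    rw [h2]
    simpa using q_N c p (f ^ k * p) S.N.one_mem h1
  rw [← e3, e2]
  calc k ≤ S.d p (F ^ k * p) := hgrow k
    _ ≤ (ℓ₀ + 10 ^ 19 + 10 ^ 21) * c.g.d p (F ^ k * p) := e1
    _ ≤ (ℓ₀ + 10 ^ 19 + 10 ^ 21) * (c.g.d p (F ^ k * p) + 1) := Nat.mul_le_mul_left _ (by omega)

end Run7.h253
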