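import Pool.Agent.Run7.h253.Quot
import Pool.Agent.Run7.h253.Iso

/-!
# Piece `small`: segments without big tubes

`x, y` with `D ℓ x y ≤ 2*10^21` for all `ℓ` (so `Rdc 1`).

`small_lift`: `f ∈ U` with `q x (f x), q y (f y) ≤ R` has a lift `F = h f`, `h ∈ N`, with
`d' x (F x), d' y (F y) ≤ R`.  (`addPt` twice: `y₁ = h₁ f y` with `Rdc 13` to `x, y`, then `x₁ = h₂ f x` with `Rdc 15`
to `x, y₁`; `F = h₂ f`, `F y = h y₁`.  If `h ≠ 1`: `Rd x₁ h` gives `ℓ` with `D ℓ x₁ (h x₁) ≥ len ℓ - 10^19`, but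
`D ℓ x₁ (h y₁) = D ℓ (F x) (F y) ≤ 2*10^21` and `D ℓ (h y₁) (h x₁) ≤ 15/16 len ℓ`.)

`small_disp`: if `d' x (F x), d' y (F y) ≤ R ≤ 3*10^6` and `m ∈ [x,y]` (w.r.t. `d`) has
`d' x m, d' m y ≥ R + 100` then `d m (F m) ≤ 10^28`:
`m` is `4δ`-near `F v`, `v ∈ [x,y]` (`slim_quad`; the other sides are `d'`-near `x` resp. `y`);
`d' v m ≤ R + 200` since `[x,y]` is an unparametrized `d'`-quasigeodesic (`near`); by `Q3` and `D_mono`
`d v m ≤ (2*10^21 + 10^6 + 10^21) * (R + 200)`.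

`small_comm`: `z, w ∈ U` with `d'`-displacement `≤ 3*10^6` at `x, y`, `d' x y ≥ 10^12` ⇒ `z w = w z`:
choose `p, q ∈ [x,y]` with `d' x p`, `d' q y` about `3*10^6 + 200`; then `d p q ≥ 10^18 (d' p q - 1) ≥ 10^29.5`,
`z, w` move `p, q` by `≤ 10^28`; by `comm_small` the commutator moves far apart middle points `m₁, m₂`,
`d m₁ m₂ ≥ 10^22`, by `≤ 64δ ≤ 10^6`.  If it is not loxodromic it is `1` by `triv`; if it is, `lox_small`
and `small` give `ℓ` with `m₁, m₂ ∈ Y ℓ`, so `D ℓ x y ≥ 10^22 - 10^6` (`D_on`, `D_mono`), contradiction.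

`small_pig`: more than `10^32` elements of `U` with `d'`-displacement `≤ 3*10^6` at `x, y`: two are equal
(pigeonhole on `d p (f_i m₁) ∈ [.. ± 10^28]` in classes of length `δ = 200`, then `diff_small`, then as before).
-/

set_option autoImplicit false
namespace Run7.h253

variable {G : Type*} [Group G] {U : Subgroup G} {n : ℕ} {L : Type*} [MulAction G L]
  {S : BSys G U n L}

theorem small_lift (c : Cone S) {x y : G} (hxy : ∀ ℓ, S.D ℓ x y ≤ 2 * 10 ^ 21)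
    {f : G} {R : ℕ} (hfx : c.q x (f * x) ≤ R) (hfy : c.q y (f * y) ≤ R) :
    ∃ h ∈ S.N, c.g.d x (h * f * x) ≤ R ∧ c.g.d y (h * f * y) ≤ R := by
  have h9 : S.Rdc 9 x y := fun ℓ => by
    have := hxy ℓ
    have := S.len_big ℓ
    omega
  obtain ⟨h₁, hh₁, h₂, hh₂, a1, a2, a3, a4⟩ := lift_ends c le_rfl h9 f
  -- `F = h₂ f`, `h = h₂ h₁⁻¹`
  have hh : h₂ * h₁⁻¹ ∈ S.N := S.N.mul_mem hh₂ (S.N.inv_mem hh₁)
  have key : h₂ * h₁⁻¹ = 1 := by
    rcases rd_ne (rd_all S hh (h₂ * (f * x))) with h | ⟨ℓ, hℓ⟩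
    · exact h
    · exfalso
      have b1 : S.D ℓ (h₂ * (f * x)) (h₂ * h₁⁻¹ * (h₁ * (f * y))) = S.D ((h₂ * f)⁻¹ • ℓ) x y := by
        rw [← D_inv]; congr 1 <;> group
      have b2 := hxy ((h₂ * f)⁻¹ • ℓ)
      have b3 : S.D ℓ (h₂ * h₁⁻¹ * (h₁ * (f * y))) (h₂ * h₁⁻¹ * (h₂ * (f * x))) =
          S.D ((h₂ * h₁⁻¹)⁻¹ • ℓ) (h₁ * (f * y)) (h₂ * (f * x)) := D_inv S _ _ _ _
      have b4 := a4 ((h₂ * h₁⁻¹)⁻¹ • ℓ)
      rw [← b3, len_inv] at b4
      have b5 := D_tri S ℓ (h₂ * (f * x)) (h₂ * h₁⁻¹ * (h₁ * (f * y))) (h₂ * h₁⁻¹ * (h₂ * (f * x)))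
      have b6 := S.len_big ℓ
      omega
  have key2 : h₂ = h₁ := by rwa [mul_inv_eq_one] at key
  subst key2
  refine ⟨h₂, hh₂, ?_, ?_⟩
  · have e := q_eq c a3
    have e2 : c.q x (h₂ * (f * x)) = c.q x (f * x) := by simpa using q_N c x (f * x) S.N.one_mem hh₂
    rw [mul_assoc]; omega
  · have e := q_eq c (rdc_mono (by omega) a2 : S.Rdc 15 _ _)
    have e2 : c.q y (h₂ * (f * y)) = c.q y (f * y) := by simpa using q_N c y (f * y) S.N.one_mem hh₂
    rw [mul_assoc]; omega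

/-- two points of a `d`-geodesic are `d'`-close if they have the same `d'`-position -/
theorem cone_pos (c : Cone S) {x y m v : G} (hm : S.d x m + S.d m y = S.d x y)
    (hv : S.d x v + S.d v y = S.d x y) {k : ℕ} (h1 : c.g.d x m ≤ c.g.d x v + k)
    (h2 : c.g.d x v ≤ c.g.d x m + k) : c.g.d v m ≤ k + 40 := by
  obtain ⟨σ, hσ⟩ := exists_geod c.g x y
  obtain ⟨t, ht, e1⟩ := c.near x y m σ hσ hm
  obtain ⟨s, hs, e2⟩ := c.near x y v σ hσ hv
  have f1 := hσ.2.2 0 t (Nat.zero_le _) ht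
  have f2 := hσ.2.2 0 s (Nat.zero_le _) hs
  rw [hσ.1] at f1 f2
  have f3 : c.g.d (σ s) (σ t) ≤ (t - s) + (s - t) := by
    rcases le_total s t with h | h
    · rw [hσ.2.2 s t h ht]; omega
    · rw [c.g.symm, hσ.2.2 t s h hs]; omega
  have g1 := c.g.tri x (σ t) m
  have g2 := c.g.tri x (σ s) v
  have g3 := c.g.tri x m (σ t)
  have g4 := c.g.tri x v (σ s)
  have g5 := c.g.tri v (σ s) m
  have g6 := c.g.tri (σ s) (σ t) m
  have g7 := c.g.symm m (σ t)
  have g8 := c.g.symm v (σ s)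
  omega

theorem small_disp (c : Cone S) {x y : G} (hxy : ∀ ℓ, S.D ℓ x y ≤ 2 * 10 ^ 21)
    {F : G} {R : ℕ} (hR : R ≤ 3 * 10 ^ 6) (hfx : c.g.d x (F * x) ≤ R) (hfy : c.g.d y (F * y) ≤ R)
    {m : G} (hm : S.d x m + S.d m y = S.d x y) (h1 : R + 100 ≤ c.g.d x m)
    (h2 : R + 100 ≤ c.g.d m y) : S.d m (F * m) ≤ 10 ^ 28 := by
  obtain ⟨m', h3, h4⟩ := slim_quad S.toGH (z := F * x) (w := F * y) hm
  have h5 : c.g.d m m' ≤ 1 := c.of_le _ _ (by omega)
  rcases h3 with h3 | h3 | h3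
  · exfalso
    have e1 := cone_near_seg c h3
    have e2 := c.g.tri x m' m
    have e3 := c.g.symm m m'
    omega
  · have hv : S.d x (F⁻¹ * m') + S.d (F⁻¹ * m') y = S.d x y := by
      rw [← S.inv F x, ← S.inv F _ y, mul_inv_cancel_left, h3, S.inv]
    have e1 : c.g.d x (F⁻¹ * m') = c.g.d (F * x) m' := by
      rw [← c.inv F, mul_inv_cancel_left]
    have e2 := c.g.tri x (F * x) m'
    have e3 := c.g.tri (F * x) x m'
    have e4 := c.g.tri x m m'
    have e5 := c.g.tri x m' m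
    have e6 := c.g.symm m m'
    have e7 := c.g.symm x (F * x)
    have e8 := cone_pos c (k := R + 1) hm hv (by omega) (by omega)
    have e9 := c.Q3 (F⁻¹ * m') m (2 * 10 ^ 21 + 10 ^ 6) (fun ℓ => by
      have := D_mono S ℓ hv hm
      have := hxy ℓ
      omega)
    have e10 := S.tri m m' (F * m)
    have e11 : S.d m' (F * m) = S.d (F⁻¹ * m') m := by
      rw [← S.inv F (F⁻¹ * m') m, mul_inv_cancel_left]
    omega
  · exfalso
    have e1 := cone_near_seg c h3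
    have e2 := c.g.tri m m' y
    have e3 := c.g.symm m m'
    have e4 := c.g.symm y (F * y)
    omega

/-- discrete intermediate value theorem -/
theorem exists_value (φ : ℕ → ℕ) (a N : ℕ) (h0 : φ 0 ≤ a) (hN : a ≤ φ N)
    (hstep : ∀ t, t < N → φ (t + 1) ≤ φ t + 1) : ∃ t, t ≤ N ∧ φ t = a := by
  induction N with
  | zero => exact ⟨0, le_rfl, by omega⟩
  | succ N ih =>
    rcases Nat.lt_or_ge (φ N) a with h | h
    · exact ⟨N + 1, le_rfl, by have := hstep N (by omega); omega⟩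
    · obtain ⟨t, ht, h1⟩ := ih h (fun t ht => hstep t (by omega))
      exact ⟨t, by omega, h1⟩

/-- good points near the two ends of a segment without big tubes -/
theorem small_window (c : Cone S) {x y : G} (hbig : 10 ^ 12 ≤ c.g.d x y) :
    ∃ p q : G, S.d x p + S.d p q + S.d q y = S.d x y ∧ 3 * 10 ^ 6 + 100 ≤ c.g.d x p ∧
      3 * 10 ^ 6 + 100 ≤ c.g.d p y ∧ 3 * 10 ^ 6 + 100 ≤ c.g.d x q ∧
      3 * 10 ^ 6 + 100 ≤ c.g.d q y ∧ 8 * 10 ^ 29 ≤ S.d p q := by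
  obtain ⟨σ, hσ⟩ := exists_geod S.toGH x y
  set N := S.d x y with hN
  have hstep : ∀ t, t < N → c.g.d x (σ (t + 1)) ≤ c.g.d x (σ t) + 1 := by
    intro t ht
    have h1 := hσ.2.2 t (t + 1) (by omega) (by omega)
    have h2 := c.of_le (σ t) (σ (t + 1)) (by omega)
    have h3 := c.g.tri x (σ t) (σ (t + 1))
    omega
  have h0 : c.g.d x (σ 0) = 0 := by rw [hσ.1, c.g.self]
  have h1 : c.g.d x (σ N) = c.g.d x y := by rw [hσ.2.1]
  obtain ⟨t₁, ht₁, e1⟩ := exists_value (fun t => c.g.d x (σ t)) (3 * 10 ^ 6 + 100) N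
    (by simp only [h0]; omega) (by simp only [h1]; omega) hstep
  obtain ⟨t₂, ht₂, e2⟩ := exists_value (fun t => c.g.d x (σ t)) (c.g.d x y - (3 * 10 ^ 6 + 200)) N
    (by simp only [h0]; omega) (by simp only [h1]; omega) hstep
  have hbet : ∀ s t, s ≤ t → t ≤ N → S.d x (σ s) + S.d (σ s) (σ t) + S.d (σ t) y = S.d x y := by
    intro s t hst ht
    have a1 := hσ.2.2 0 s (by omega) (by omega)
    have a2 := hσ.2.2 s t hst ht
    have a3 := hσ.2.2 t _ ht le_rfl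
    rw [hσ.1] at a1
    rw [hσ.2.1] at a3
    omega
  have hlt : t₁ ≤ t₂ := by
    by_contra hcon
    push Not at hcon
    have b1 := hbet t₂ t₁ hcon.le ht₁
    have b2 : S.d x (σ t₂) + S.d (σ t₂) (σ t₁) = S.d x (σ t₁) := by
      have a1 := hσ.2.2 0 t₂ (by omega) (by omega)
      have a2 := hσ.2.2 t₂ t₁ hcon.le ht₁
      have a3 := hσ.2.2 0 t₁ (by omega) ht₁
      rw [hσ.1] at a1 a3
      omega
    have b3 := cone_near_seg c b2
    omega
  have g1 := c.g.tri x (σ t₁) y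
  have g2 := c.g.tri x (σ t₂) y
  have g3 := c.g.tri x (σ t₁) (σ t₂)
  have g4 := c.le_div (σ t₁) (σ t₂)
  exact ⟨σ t₁, σ t₂, hbet t₁ t₂ hlt ht₂, by omega, by omega, by omega, by omega, by omega⟩

/-- an element of `U` with tiny displacement at two far apart points of a segment without big
tubes is trivial -/
theorem small_one (c : Cone S) {x y : G} (hxy : ∀ ℓ, S.D ℓ x y ≤ 2 * 10 ^ 21) {g : G} (hg : g ∈ U)
    {m₁ m₂ : G} (h1 : S.d x m₁ + S.d m₁ y = S.d x y) (h2 : S.d x m₂ + S.d m₂ y = S.d x y)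
    (h3 : 10 ^ 22 ≤ S.d m₁ m₂) (h4 : S.d m₁ (g * m₁) ≤ 10 ^ 6) (h5 : S.d m₂ (g * m₂) ≤ 10 ^ 6) :
    g = 1 := by
  by_contra hne
  by_cases hl : Lox S.d g
  · obtain ⟨ℓ, hℓ⟩ := S.lox_small g hg hl m₁ h4
    have y1 := S.small ℓ g m₁ hℓ hne h4
    have y2 := S.small ℓ g m₂ hℓ hne h5
    have e1 := D_on S ℓ y1 y2
    have e2 := D_mono S ℓ h1 h2
    have e3 := hxy ℓ
    omega
  · exact hne (S.triv g hg hl m₁ m₂ h4 h5 (by omega))

theorem small_comm (c : Cone S) {x y : G} (hxy : ∀ ℓ, S.D ℓ x y ≤ 2 * 10 ^ 21)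
    (hbig : 10 ^ 12 ≤ c.g.d x y) {z w : G} (hz : z ∈ U) (hw : w ∈ U)
    (hzx : c.g.d x (z * x) ≤ 3 * 10 ^ 6) (hzy : c.g.d y (z * y) ≤ 3 * 10 ^ 6)
    (hwx : c.g.d x (w * x) ≤ 3 * 10 ^ 6) (hwy : c.g.d y (w * y) ≤ 3 * 10 ^ 6) :
    z * w = w * z := by
  obtain ⟨p, q, h1, h2, h3, h4, h5, h6⟩ := small_window c hbig
  have tp := S.tri x p y
  have tq := S.tri x q y
  have tpq := S.tri p q y
  have txq := S.tri x p q
  have hp : S.d x p + S.d p y = S.d x y := by omega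
  have hq : S.d x q + S.d q y = S.d x y := by omega
  have zp := small_disp c hxy le_rfl hzx hzy hp h2 h3
  have zq := small_disp c hxy le_rfl hzx hzy hq h4 h5
  have wp := small_disp c hxy le_rfl hwx hwy hp h2 h3
  have wq := small_disp c hxy le_rfl hwx hwy hq h4 h5
  obtain ⟨m₁, a1, a2⟩ := S.geo p q (21 * 10 ^ 28) (by omega)
  obtain ⟨m₂, b1, b2⟩ := S.geo p q (22 * 10 ^ 28) (by omega)
  have c1 := comm_small S.toGH S.inv z w zp zq wp wq (m := m₁) (by omega) (by omega) (by omega)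
  have c2 := comm_small S.toGH S.inv z w zp zq wp wq (m := m₂) (by omega) (by omega) (by omega)
  simp only [smul_eq_mul] at c1 c2
  have t1 := S.tri x p m₁
  have t2 := S.tri m₁ q y
  have t3 := S.tri x m₁ y
  have t4 := S.tri x p m₂
  have t5 := S.tri m₂ q y
  have t6 := S.tri x m₂ y
  have t7 := S.tri p m₁ m₂
  have key := small_one c hxy (g := z * w * z⁻¹ * w⁻¹)
    (U.mul_mem (U.mul_mem (U.mul_mem hz hw) (U.inv_mem hz)) (U.inv_mem hw)) (m₁ := m₁) (m₂ := m₂)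
    (by omega) (by omega) (by omega) (by omega) (by omega)
  have : z * w = (z * w * z⁻¹ * w⁻¹) * (w * z) := by group
  rw [this, key, one_mul]

theorem small_pig (c : Cone S) {x y : G} (hxy : ∀ ℓ, S.D ℓ x y ≤ 2 * 10 ^ 21)
    (hbig : 10 ^ 12 ≤ c.g.d x y) (f : ℕ → G)
    (hf : ∀ i, i ≤ 10 ^ 32 → f i ∈ U ∧ c.g.d x (f i * x) ≤ 3 * 10 ^ 6 ∧
      c.g.d y (f i * y) ≤ 3 * 10 ^ 6) :
    ∃ i j, i < j ∧ j ≤ 10 ^ 32 ∧ f i = f j := by
  obtain ⟨p, q, h1, h2, h3, h4, h5, h6⟩ := small_window c hbig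
  have tp := S.tri x p y
  have tq := S.tri x q y
  have tpq := S.tri p q y
  have txq := S.tri x p q
  have hp : S.d x p + S.d p y = S.d x y := by omega
  have hq : S.d x q + S.d q y = S.d x y := by omega
  have fp : ∀ i, i ≤ 10 ^ 32 → S.d p (f i * p) ≤ 10 ^ 28 := fun i hi =>
    small_disp c hxy le_rfl (hf i hi).2.1 (hf i hi).2.2 hp h2 h3
  have fq : ∀ i, i ≤ 10 ^ 32 → S.d q (f i * q) ≤ 10 ^ 28 := fun i hi =>
    small_disp c hxy le_rfl (hf i hi).2.1 (hf i hi).2.2 hq h4 h5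
  obtain ⟨m₁, a1, a2⟩ := S.geo p q (10 ^ 29) (by omega)
  obtain ⟨m₂, b1, b2⟩ := S.geo p q (2 * 10 ^ 29) (by omega)
  have hval : ∀ i, i ≤ 10 ^ 32 → S.d p (f i * m₁) ≤ 10 ^ 29 + 10 ^ 28 := by
    intro i hi
    have e1 := S.tri p (f i * p) (f i * m₁)
    have e2 := S.inv (f i) p m₁
    have e3 := fp i hi
    omega
  have hmaps : ∀ i ∈ Finset.range (10 ^ 32 + 1),
      (fun i => S.d p (f i * m₁) / 200) i ∈ Finset.range (10 ^ 30) := by
    intro i hi
    rw [Finset.mem_range] at hi ⊢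
    have := hval i (by omega)
    simp only
    omega
  obtain ⟨i, hi, j, hj, hij, hv⟩ := Finset.exists_ne_map_eq_of_card_lt_of_maps_to
    (by rw [Finset.card_range, Finset.card_range]; norm_num) hmaps
  rw [Finset.mem_range] at hi hj
  have main : ∀ i j, i ≤ 10 ^ 32 → j ≤ 10 ^ 32 → S.d p (f i * m₁) / 200 = S.d p (f j * m₁) / 200 →
      f i = f j := by
    intro i j hi hj hv
    have c1 := diff_small S.toGH S.inv (f i) (f j) (fp i hi) (fq i hi) (fp j hj) (fq j hj)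
      (m := m₁) (m' := m₂) (by omega) (by omega) (by omega) (by omega) (by omega)
      (by simp only [smul_eq_mul]; omega) (by simp only [smul_eq_mul]; omega)
    simp only [smul_eq_mul] at c1
    have t1 := S.tri x p m₁
    have t2 := S.tri m₁ q y
    have t3 := S.tri x m₁ y
    have t4 := S.tri x p m₂
    have t5 := S.tri m₂ q y
    have t6 := S.tri x m₂ y
    have t7 := S.tri p m₁ m₂
    have key := small_one c hxy (g := (f i)⁻¹ * f j)
      (U.mul_mem (U.inv_mem (hf i hi).1) (hf j hj).1) (m₁ := m₁) (m₂ := m₂)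
      (by omega) (by omega) (by omega) (by omega) (by omega)
    exact inv_mul_eq_one.1 key
  rcases Nat.lt_or_gt_of_ne hij with h | h
  · exact ⟨i, j, h, by omega, main i j (by omega) (by omega) hv⟩
  · exact ⟨j, i, h, by omega, main j i (by omega) (by omega) hv.symm⟩

end Run7.h253
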