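import Pool.Agent.Run7.h253.Big
import Pool.Agent.Run7.h253.Small
import Pool.Agent.Run7.h253.QEll
import Pool.Agent.Run7.h253.Cone

/-!
# Piece `qac`: the quotient is a stage again

Write `Q` for the quotient metric on `G ⧸ N` (`exists_quot`).

`cnt`: `x̄, ȳ` at distance `ℓ ≥ 10^15`; lifts with `Rdc 9 x y` (`addPt`, `k = 0`); `σ` a `d'`-geodesic.
If some tube with `D ≥ 10^21` has a step of index in `[4*10^6+40, ℓ-4*10^6-40]`: `big_case` with `R = 2*10^6`.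
Otherwise put `x' = σ (5*10^6)`, `y' = σ (ℓ - 5*10^6)`: all `D ℓ x' y' ≤ 10^21 + 2*10^20` (if
`D ℓ x' y' ≥ 10^20` there is an `ℓ`-step with index in the window by `Q1`, so `D ℓ x y < 10^21`, and
`D ℓ x' y' ≤ D ℓ x y + D ℓ x x' + D ℓ y' y` where the last two are `≤ 10^20` by `Q1`, uniqueness of the step).
All `f i` have displacement `≤ 2*10^6 + 800` at `x̄', ȳ'` (`disp_conv` in `Q`); lifts by `small_lift`;
`small_pig`.

`ov`: `z, w ∈ U/N` loxodromic, displacement `≤ 2*10^6` at `x̄, ȳ`.  `c_i = [z^i, w]`, `1 ≤ i ≤ m = 3*10^4`.  At points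
of `[x̄,ȳ]` at distance `≥ 10^13` from the ends every `c_i` has displacement `≤ 64δ = 12800 = R`
(`comm_small` in `Q` with `R = 6*10^10`).  `x₁ = σ (10^13)`, `y₁ = σ (ℓ - 10^13)` (`Rdc 10`… choose new lifts with `Rdc 9`).
If there is a big tube with step index in the window: `big_case` gives `c_i = c_j`, `i < j`, so
`z^(j-i)` commutes with `w`.  Otherwise as before `small_lift` for `z, w` and `small_comm`: `z w = w z`.

`ell`: `q_ell`.
-/

set_option autoImplicit false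

namespace Run7.h253

variable {G : Type*} [Group G] {U : Subgroup G} {n : ℕ} {L : Type*} [MulAction G L]

/-- sub-segments of a `d'`-geodesic -/
theorem D_sub {S : BSys G U n L} (c : Cone S) {x y : G} {σ : ℕ → G} {m : ℕ}
    (hσ : IsGeod c.g.d σ m x y) {i j : ℕ} (hij : i ≤ j) (hj : j ≤ m) (ℓ : L) :
    S.D ℓ (σ i) (σ j) ≤ 10 ^ 20 ∨ (S.D ℓ (σ i) (σ j) ≤ S.D ℓ x y + 4 * 10 ^ 20 ∧
      ∃ t, i ≤ t ∧ t < j ∧ σ t ∈ S.Y ℓ ∧ σ (t + 1) ∈ S.Y ℓ) := by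
  by_cases h : S.D ℓ (σ i) (σ j) ≤ 10 ^ 20
  · exact Or.inl h
  right
  have hg := geod_sub c.g hσ hij hj
  have hlen := hσ.2.2 i j hij hj
  have hg' := hg
  rw [← hlen] at hg
  obtain ⟨t, ht, h1, h2⟩ := c.Q1 ℓ _ _ _ hg (by omega)
  have h3 := step_len c hσ (by omega : i + t < m) h1 h2
  have h4 := step_len c hg' (by omega : t < j - i) h1 h2
  rw [show i + (t + 1) = i + t + 1 by omega] at h4
  exact ⟨by omega, i + t, by omega, by omega, h1, h2⟩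

/-- dichotomy: a big tube in the middle, or a long subsegment without big tubes -/
theorem dich {S : BSys G U n L} (c : Cone S) {x y : G} (hxy : S.Rdc 9 x y) {σ : ℕ → G}
    (hσ : IsGeod c.g.d σ (c.g.d x y) x y) {R : ℕ} (hR : R ≤ 2 * 10 ^ 6) (hm : 10 ^ 12 ≤ c.g.d x y)
    (f : ℕ → G) (hf : ∀ k, k ≤ 2 * R + 12 → f k ∈ U ∧ c.q x (f k * x) ≤ R ∧ c.q y (f k * y) ≤ R) :
    (∃ k l, k < l ∧ l ≤ 2 * R + 12 ∧ (f k)⁻¹ * f l ∈ S.N) ∨
    (∀ ℓ, S.D ℓ (σ (5 * 10 ^ 6)) (σ (c.g.d x y - 5 * 10 ^ 6)) ≤ 2 * 10 ^ 21) := by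
  by_cases hb : ∃ (ℓ : L) (i : ℕ), σ i ∈ S.Y ℓ ∧ σ (i + 1) ∈ S.Y ℓ ∧ 2 * R + 40 ≤ i ∧
      i + 2 * R + 40 ≤ c.g.d x y ∧ 10 ^ 21 ≤ S.D ℓ x y
  · left
    obtain ⟨ℓ, i, h1, h2, h3, h4, h5⟩ := hb
    exact big_case c hxy hσ h1 h2 h3 h4 h5 f hf
  · right
    intro ℓ
    rcases D_sub c hσ (i := 5 * 10 ^ 6) (j := c.g.d x y - 5 * 10 ^ 6) (by omega) (by omega) ℓ with
      h | ⟨h, t, h1, h2, h3, h4⟩
    · omega
    · by_contra hcon
      exact hb ⟨ℓ, t, h3, h4, by omega, by omega, by omega⟩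

/-- the quotient of a stage by the killed subgroup is a stage, and lengths are divided by `10^18` -/
theorem exists_stage (S : BSys G U n L) [hN : S.N.Normal] :
    ∃ S' : Stage (G ⧸ S.N) (U.map (QuotientGroup.mk' S.N)) n,
      ∀ g : G, 10 ^ 18 * S'.d 1 (g : G ⧸ S.N) ≤ S.d 1 g + 10 ^ 18 := by
  obtain ⟨c⟩ := exists_cone S
  obtain ⟨Q, hQ⟩ := exists_quot c hN
  have hinv : ∀ g x y : G ⧸ S.N, Q.d (g * x) (g * y) = Q.d x y := by
    intro g x y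
    obtain ⟨g, rfl⟩ := QuotientGroup.mk_surjective g
    obtain ⟨x, rfl⟩ := QuotientGroup.mk_surjective x
    obtain ⟨y, rfl⟩ := QuotientGroup.mk_surjective y
    rw [← QuotientGroup.mk_mul, ← QuotientGroup.mk_mul, hQ, hQ]
    exact q_inv c g x y
  have hinv' : ∀ (g : G ⧸ S.N) (x y : G ⧸ S.N), Q.d (g • x) (g • y) = Q.d x y := hinv
  have hlift : ∀ z ∈ U.map (QuotientGroup.mk' S.N), ∃ z₀ ∈ U, (z₀ : G ⧸ S.N) = z := by
    intro z hz
    obtain ⟨z₀, hz₀, rfl⟩ := hz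
    exact ⟨z₀, hz₀, rfl⟩
  have hmem : ∀ a b : G, a⁻¹ * b ∈ S.N → (a : G ⧸ S.N) = b := fun a b h => QuotientGroup.eq.2 h
  have hone : ∀ h ∈ S.N, (h : G ⧸ S.N) = 1 := fun h hh => (QuotientGroup.eq_one_iff h).2 hh
  -- reduced lifts of a pair of points, with a geodesic
  have hpair : ∀ p q : G ⧸ S.N, ∃ x y : G, (x : G ⧸ S.N) = p ∧ (y : G ⧸ S.N) = q ∧
      (∀ ℓ, 32 * S.D ℓ x y ≤ 17 * S.len ℓ) := by
    intro p q
    obtain ⟨x, rfl⟩ := QuotientGroup.mk_surjective p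
    obtain ⟨y, rfl⟩ := QuotientGroup.mk_surjective q
    obtain ⟨g, hg, h1⟩ := lift2 c x y
    refine ⟨x, g * y, rfl, ?_, h1⟩
    rw [QuotientGroup.mk_mul, hone g hg, one_mul]
  refine ⟨⟨Q, hinv, ?_, ?_, ?_⟩, ?_⟩
  · -- ell
    intro g hg
    obtain ⟨f, hf, rfl⟩ := hlift g hg
    rcases q_ell c hf with ⟨p, C, h⟩ | h
    · left
      refine ⟨(p : G ⧸ S.N), C, fun k => ?_⟩
      have h1 := h k
      rw [← hQ] at h1
      simpa using h1
    · right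
      have := hone _ h
      simpa using this
  · -- ov
    intro z hz w hw _ _ p q hpq hzp hzq hwp hwq
    obtain ⟨z₀, hz₀, rfl⟩ := hlift z hz
    obtain ⟨w₀, hw₀, rfl⟩ := hlift w hw
    obtain ⟨x, y, rfl, rfl, hxy32⟩ := hpair p q
    have hxy9 : S.Rdc 9 x y := fun ℓ => by
      have := hxy32 ℓ
      have := S.len_big ℓ
      omega
    have hxy15 : S.Rdc 15 x y := rdc_mono (by omega) hxy9
    obtain ⟨σ, hσ⟩ := exists_geod c.g x y
    set m := c.g.d x y with hm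
    have hqm : c.q x y = m := q_eq c hxy15
    rw [hQ] at hpq
    -- displacement of powers of `z`
    have hpow : ∀ r : G ⧸ S.N, Q.d r ((z₀ : G ⧸ S.N) * r) ≤ 2 * 10 ^ 6 → ∀ k : ℕ,
        Q.d r ((z₀ : G ⧸ S.N) ^ k • r) ≤ k * (2 * 10 ^ 6) := by
      intro r hr k
      simp only [smul_eq_mul]
      induction k with
      | zero => simp [Q.self]
      | succ k ih =>
        have e1 := Q.tri r ((z₀ : G ⧸ S.N) ^ k * r) ((z₀ : G ⧸ S.N) ^ (k + 1) * r)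
        have e2 : Q.d ((z₀ : G ⧸ S.N) ^ k * r) ((z₀ : G ⧸ S.N) ^ (k + 1) * r) =
            Q.d r ((z₀ : G ⧸ S.N) * r) := by
          rw [pow_succ, mul_assoc, hinv]
        have e3 : (k + 1) * (2 * 10 ^ 6) = k * (2 * 10 ^ 6) + 2 * 10 ^ 6 := by ring
        omega
    have hwp' : Q.d (x : G ⧸ S.N) ((w₀ : G ⧸ S.N) • (x : G ⧸ S.N)) ≤ 2 * 10 ^ 6 := hwp
    have hwq' : Q.d (y : G ⧸ S.N) ((w₀ : G ⧸ S.N) • (y : G ⧸ S.N)) ≤ 2 * 10 ^ 6 := hwq
    -- positions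
    have hpos : ∀ i, i ≤ m → Q.d (x : G ⧸ S.N) (σ i : G ⧸ S.N) = i ∧
        Q.d (σ i : G ⧸ S.N) (y : G ⧸ S.N) = m - i := by
      intro i hi
      rw [hQ, hQ]
      exact q_pos c hxy15 hσ hi
    have hQxy : Q.d (x : G ⧸ S.N) (y : G ⧸ S.N) = m := by rw [hQ, hqm]
    -- commutators
    have hcomm : ∀ k, k ≤ 3 * 10 ^ 4 → ∀ i, 10 ^ 13 ≤ i → i + 10 ^ 13 ≤ m →
        c.q (σ i) (z₀ ^ k * w₀ * (z₀ ^ k)⁻¹ * w₀⁻¹ * σ i) ≤ 12800 := by
      intro k hk i h1 h2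
      have hk' : k * (2 * 10 ^ 6) ≤ 6 * 10 ^ 10 := by omega
      have hp := hpos i (by omega)
      have := comm_small Q hinv' ((z₀ : G ⧸ S.N) ^ k) (w₀ : G ⧸ S.N) (p := (x : G ⧸ S.N))
        (q := (y : G ⧸ S.N)) (m := (σ i : G ⧸ S.N)) (R := 6 * 10 ^ 10)
        ((hpow _ hzp k).trans hk') ((hpow _ hzq k).trans hk') (by omega) (by omega)
        (by omega) (by omega) (by omega)
      rw [← hQ]
      simpa using this
    -- the window
    have hsub := geod_sub c.g hσ (i := 10 ^ 13) (j := m - 10 ^ 13) (by omega) (by omega)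
    have hlen := hσ.2.2 (10 ^ 13) (m - 10 ^ 13) (by omega) (by omega)
    rw [← hlen] at hsub
    have hred : S.Rdc 9 (σ (10 ^ 13)) (σ (m - 10 ^ 13)) := by
      intro ℓ
      have e1 := hxy32 ℓ
      have e2 := S.len_big ℓ
      rcases D_sub c hσ (i := 10 ^ 13) (j := m - 10 ^ 13) (by omega) (by omega) ℓ with h | ⟨h, _⟩
      · omega
      · omega
    have hfam : ∀ k, k ≤ 2 * 12800 + 12 →
        (fun k => z₀ ^ (k + 1) * w₀ * (z₀ ^ (k + 1))⁻¹ * w₀⁻¹) k ∈ U ∧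
        c.q (σ (10 ^ 13)) ((fun k => z₀ ^ (k + 1) * w₀ * (z₀ ^ (k + 1))⁻¹ * w₀⁻¹) k * σ (10 ^ 13)) ≤ 12800 ∧
        c.q (σ (m - 10 ^ 13)) ((fun k => z₀ ^ (k + 1) * w₀ * (z₀ ^ (k + 1))⁻¹ * w₀⁻¹) k *
          σ (m - 10 ^ 13)) ≤ 12800 := by
      intro k hk
      refine ⟨?_, hcomm (k + 1) (by omega) _ (by omega) (by omega),
        hcomm (k + 1) (by omega) _ (by omega) (by omega)⟩
      exact U.mul_mem (U.mul_mem (U.mul_mem (U.pow_mem hz₀ _) hw₀) (U.inv_mem (U.pow_mem hz₀ _)))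
        (U.inv_mem hw₀)
    rcases dich c hred hsub (R := 12800) (by omega) (by rw [hlen]; omega) _ hfam with
      ⟨k, l, hkl, hl, hN'⟩ | hsm
    · -- two commutators coincide
      refine ⟨l - k, by omega, ?_⟩
      have e1 := hmem _ _ hN'
      simp only [QuotientGroup.mk_mul, QuotientGroup.mk_pow, QuotientGroup.mk_inv] at e1
      generalize (z₀ : G ⧸ S.N) = z at *
      generalize (w₀ : G ⧸ S.N) = w at *
      have e2 : z ^ (k + 1) * w * (z ^ (k + 1))⁻¹ = z ^ (l + 1) * w * (z ^ (l + 1))⁻¹ :=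
        mul_right_cancel e1
      have e3 : z ^ (l + 1) = z ^ (k + 1) * z ^ (l - k) := by rw [← pow_add]; congr 1; omega
      rw [e3] at e2
      have e4 : w = z ^ (l - k) * w * (z ^ (l - k))⁻¹ := by
        have := congrArg (fun t => (z ^ (k + 1))⁻¹ * t * z ^ (k + 1)) e2
        have h1 : (z ^ (k + 1))⁻¹ * (z ^ (k + 1) * w * (z ^ (k + 1))⁻¹) * z ^ (k + 1) = w := by group
        have h2 : (z ^ (k + 1))⁻¹ * (z ^ (k + 1) * z ^ (l - k) * w * (z ^ (k + 1) * z ^ (l - k))⁻¹) *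
            z ^ (k + 1) = z ^ (l - k) * w * (z ^ (l - k))⁻¹ := by
          rw [mul_inv_rev]
          simp only [mul_assoc]
          rw [inv_mul_cancel_left, inv_mul_cancel, mul_one]
        rw [h1, h2] at this
        exact this
      calc z ^ (l - k) * w = z ^ (l - k) * w * (z ^ (l - k))⁻¹ * z ^ (l - k) := by
            rw [inv_mul_cancel_right]
        _ = w * z ^ (l - k) := by rw [← e4]
    · -- everything lifts
      rw [hlen] at hsm
      refine ⟨1, le_rfl, ?_⟩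
      rw [pow_one]
      have hdisp : ∀ v : G, c.q x (v * x) ≤ 2 * 10 ^ 6 → c.q y (v * y) ≤ 2 * 10 ^ 6 →
          ∀ i, i ≤ m → c.q (σ i) (v * σ i) ≤ 3 * 10 ^ 6 := by
        intro v h1 h2 i hi
        have hp := hpos i hi
        have := disp_conv Q hinv' (v : G ⧸ S.N) (p := (x : G ⧸ S.N)) (q := (y : G ⧸ S.N))
          (m := (σ i : G ⧸ S.N)) (T := 2 * 10 ^ 6)
          (by rw [smul_eq_mul, ← QuotientGroup.mk_mul, hQ]; exact h1)
          (by rw [smul_eq_mul, ← QuotientGroup.mk_mul, hQ]; exact h2) (by omega)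
        rw [smul_eq_mul, ← QuotientGroup.mk_mul, hQ] at this
        omega
      rw [← QuotientGroup.mk_mul, hQ] at hzp hzq hwp hwq
      obtain ⟨h₁, hh₁, a1, a2⟩ := small_lift c hsm (R := 3 * 10 ^ 6) (f := z₀)
        (hdisp z₀ hzp hzq _ (by omega)) (hdisp z₀ hzp hzq _ (by omega))
      obtain ⟨h₂, hh₂, b1, b2⟩ := small_lift c hsm (R := 3 * 10 ^ 6) (f := w₀)
        (hdisp w₀ hwp hwq _ (by omega)) (hdisp w₀ hwp hwq _ (by omega))
      have hdd : 10 ^ 12 ≤ c.g.d (σ (10 ^ 13 + 5 * 10 ^ 6))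
          (σ (10 ^ 13 + (m - 10 ^ 13 - 10 ^ 13 - 5 * 10 ^ 6))) := by
        rw [hσ.2.2 _ _ (by omega) (by omega)]
        omega
      have key := small_comm c hsm hdd (U.mul_mem (N_le S hh₁) hz₀) (U.mul_mem (N_le S hh₂) hw₀)
        a1 a2 b1 b2
      have := congrArg (fun t : G => (t : G ⧸ S.N)) key
      simpa [hone _ hh₁, hone _ hh₂] using this
  · -- cnt
    intro p q hpq f hf
    obtain ⟨x, y, rfl, rfl, hxy32⟩ := hpair p q
    have hxy9 : S.Rdc 9 x y := fun ℓ => by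
      have := hxy32 ℓ
      have := S.len_big ℓ
      omega
    have hxy15 : S.Rdc 15 x y := rdc_mono (by omega) hxy9
    obtain ⟨σ, hσ⟩ := exists_geod c.g x y
    set m := c.g.d x y with hm
    have hqm : c.q x y = m := q_eq c hxy15
    rw [hQ] at hpq
    have hQxy : Q.d (x : G ⧸ S.N) (y : G ⧸ S.N) = m := by rw [hQ, hqm]
    have hch : ∀ i : ℕ, ∃ g : G, i ≤ 10 ^ 32 → (g ∈ U ∧ (g : G ⧸ S.N) = f i) := by
      intro i
      by_cases hi : i ≤ 10 ^ 32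
      · obtain ⟨g, hg, h1⟩ := hlift (f i) (hf i hi).1
        exact ⟨g, fun _ => ⟨hg, h1⟩⟩
      · exact ⟨1, fun h => absurd h hi⟩
    choose g hg using hch
    have hgx : ∀ i, i ≤ 10 ^ 32 → c.q x (g i * x) ≤ 2 * 10 ^ 6 ∧ c.q y (g i * y) ≤ 2 * 10 ^ 6 := by
      intro i hi
      have h1 := (hf i hi).2
      rw [← (hg i hi).2, ← QuotientGroup.mk_mul, ← QuotientGroup.mk_mul, hQ, hQ] at h1
      exact h1
    rcases dich c hxy9 hσ (R := 2 * 10 ^ 6) le_rfl (by omega) g (fun k hk =>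
        ⟨(hg k (by omega)).1, hgx k (by omega)⟩) with ⟨k, l, hkl, hl, hN'⟩ | hsm
    · refine ⟨k, l, hkl, by omega, ?_⟩
      rw [← (hg k (by omega)).2, ← (hg l (by omega)).2]
      exact hmem _ _ hN'
    · have hdisp : ∀ v : G, c.q x (v * x) ≤ 2 * 10 ^ 6 → c.q y (v * y) ≤ 2 * 10 ^ 6 →
          ∀ i, i ≤ m → c.q (σ i) (v * σ i) ≤ 3 * 10 ^ 6 := by
        intro v h1 h2 i hi
        have hp := q_pos c hxy15 hσ hi
        have := disp_conv Q hinv' (v : G ⧸ S.N) (p := (x : G ⧸ S.N)) (q := (y : G ⧸ S.N))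
          (m := (σ i : G ⧸ S.N)) (T := 2 * 10 ^ 6)
          (by rw [smul_eq_mul, ← QuotientGroup.mk_mul, hQ]; exact h1)
          (by rw [smul_eq_mul, ← QuotientGroup.mk_mul, hQ]; exact h2)
          (by rw [hQ, hQ, hQ]; omega)
        rw [smul_eq_mul, ← QuotientGroup.mk_mul, hQ] at this
        omega
      have hl2 : ∀ i : ℕ, ∃ h : G, i ≤ 10 ^ 32 → (h ∈ S.N ∧
          c.g.d (σ (5 * 10 ^ 6)) (h * g i * σ (5 * 10 ^ 6)) ≤ 3 * 10 ^ 6 ∧
          c.g.d (σ (m - 5 * 10 ^ 6)) (h * g i * σ (m - 5 * 10 ^ 6)) ≤ 3 * 10 ^ 6) := by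
        intro i
        by_cases hi : i ≤ 10 ^ 32
        · obtain ⟨h, hh, a1, a2⟩ := small_lift c hsm (R := 3 * 10 ^ 6) (f := g i)
            (hdisp _ (hgx i hi).1 (hgx i hi).2 _ (by omega))
            (hdisp _ (hgx i hi).1 (hgx i hi).2 _ (by omega))
          exact ⟨h, fun _ => ⟨hh, a1, a2⟩⟩
        · exact ⟨1, fun h => absurd h hi⟩
      choose h hh using hl2
      have hdd : 10 ^ 12 ≤ c.g.d (σ (5 * 10 ^ 6)) (σ (m - 5 * 10 ^ 6)) := by
        rw [hσ.2.2 _ _ (by omega) (by omega)]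
        omega
      obtain ⟨i, j, hij, hj, he⟩ := small_pig c hsm hdd (fun i => h i * g i) (fun i hi =>
        ⟨U.mul_mem (N_le S (hh i hi).1) (hg i hi).1, (hh i hi).2⟩)
      refine ⟨i, j, hij, hj, ?_⟩
      rw [← (hg i (by omega)).2, ← (hg j (by omega)).2]
      have := congrArg (fun t : G => (t : G ⧸ S.N)) he
      simpa [hone _ (hh i (by omega)).1, hone _ (hh j (by omega)).1] using this
  · intro g
    have h1 : Q.d 1 (g : G ⧸ S.N) = c.q 1 g := by rw [← hQ]; rfl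
    change 10 ^ 18 * Q.d 1 (g : G ⧸ S.N) ≤ _
    rw [h1]
    have h2 := q_le c 1 g
    have h3 := c.le_div 1 g
    omega

end Run7.h253
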