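import Pool.Agent.Run7.h253.Proj
import Pool.Agent.Run7.h253.Guess

/-!
# Piece `quot`: path lifting, adding a point, the quotient metric

`PL` (path lifting): `x, y` with `16 D ℓ x y ≤ 15 len ℓ` for all `ℓ`: `d' x y ≤ d' x (h y)` for `h ∈ N`.
Induction on `Rd x h`: `h = r h'`, `r ∈ rot ℓ ∖ 1`, `len ℓ ≤ D ℓ x (h x) + 10^19`.  As
`D ℓ (h x) (h y) = D (h⁻¹ ℓ) x y ≤ 15/16 len ℓ`, we get `D ℓ x (h y) ≥ len ℓ / 16 - 10^19 ≥ 10^20`, so by `Q1` a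
`d'`-geodesic `σ` from `x` to `h y` has a step `σ i, σ (i+1) ∈ Y ℓ`; `r⁻¹ σ (i+1) ∈ Y ℓ` too, so
`d' x (h' y) ≤ i + 1 + (m - i - 1) = d' x (h y)`.

`addPt`: choose `h ∈ N` minimizing `d x (h z) + d y (h z)`, put `z := h z`.  Let `a, b, c` be nearest points
of `x, y, z` on `Y ℓ`.  If e.g. `d a c` is larger than claimed then (coordinate `t` of `line`) a rotation
`ρ^{±1}` moves `c` to `c'` with `d a c' + d b c' < d a c + d b c - 20000`
(with `V = |t a - t c|`, `s = |t a - t b| ≤ k/16 len`, `V > (1/2 + k/32) len + …`), and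
`d x z ≥ d x a + d a c + d c z - 4600` (`D_far`), `d x (ρ z) ≤ d x a + d a c' + d c z`.  Contradiction.
-/

set_option autoImplicit false

namespace Run7.h253

variable {G : Type*} [Group G] {U : Subgroup G} {n : ℕ} {L : Type*} [MulAction G L]
  {S : BSys G U n L}

theorem len_inv (S : BSys G U n L) (g : G) (ℓ : L) : S.len (g⁻¹ • ℓ) = S.len ℓ := S.len_smul g⁻¹ ℓ

theorem rot_fixS (S : BSys G U n L) {ℓ : L} {r : G} (hr : r ∈ S.rot ℓ) : r • ℓ = ℓ :=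
  S.grp_fix ℓ r (S.rot_le ℓ hr)

theorem D_inv (S : BSys G U n L) (g : G) (ℓ : L) (x y : G) :
    S.D ℓ (g * x) (g * y) = S.D (g⁻¹ • ℓ) x y := by
  have := D_smul S g (g⁻¹ • ℓ) x y
  rwa [smul_inv_smul] at this

theorem rot_Y (S : BSys G U n L) {ℓ : L} {r p : G} (hr : r ∈ S.rot ℓ) (hp : p ∈ S.Y ℓ) :
    r * p ∈ S.Y ℓ := by
  have := S.Y_smul r ℓ p hp
  rwa [rot_fixS S hr] at this

theorem PL_aux (c : Cone S) {x y : G} (h : S.Rdc 15 x y) {g : G} (hg : S.Rd x g) :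
    c.g.d x y ≤ c.g.d x (g * y) := by
  induction hg with
  | one => simp
  | @step ℓ r h' hr hr1 hred hlen ih =>
    refine ih.trans ?_
    have h1 : S.D ℓ (r * h' * x) (r * h' * y) = S.D ((r * h')⁻¹ • ℓ) x y := D_inv S _ _ _ _
    have h2 := h ((r * h')⁻¹ • ℓ)
    rw [← h1, len_inv] at h2
    have h3 := D_tri S ℓ x (r * h' * y) (r * h' * x)
    rw [D_comm S ℓ (r * h' * y) (r * h' * x)] at h3
    have h4 := S.len_big ℓ
    have h5 : 10 ^ 20 ≤ S.D ℓ x (r * h' * y) := by omega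
    obtain ⟨σ, hσ⟩ := exists_geod c.g x (r * h' * y)
    obtain ⟨i, hi, hi1, hi2⟩ := c.Q1 ℓ _ _ σ hσ h5
    have hr' : r⁻¹ ∈ S.rot ℓ := (S.rot ℓ).inv_mem hr
    have h6 : r⁻¹ * σ (i + 1) ∈ S.Y ℓ := rot_Y S hr' hi2
    have h7 := c.of_Y ℓ _ _ hi1 h6
    have h8 := c.g.tri x (σ i) (r⁻¹ * σ (i + 1))
    have h9 := c.g.tri x (r⁻¹ * σ (i + 1)) (h' * y)
    have h10 : c.g.d (r⁻¹ * σ (i + 1)) (h' * y) = c.g.d (σ (i + 1)) (r * h' * y) := by
      rw [← c.inv r, mul_inv_cancel_left, mul_assoc]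
    have h11 := hσ.2.2 0 i (Nat.zero_le _) hi.le
    have h12 := hσ.2.2 (i + 1) _ hi le_rfl
    rw [hσ.1] at h11
    rw [hσ.2.1] at h12
    omega

theorem PL (c : Cone S) {x y : G} (h : S.Rdc 15 x y) {g : G} (hg : g ∈ S.N) :
    c.g.d x y ≤ c.g.d x (g * y) := PL_aux c h (rd_all S hg x)

theorem q_le_of (c : Cone S) (x y : G) {g : G} (hg : g ∈ S.N) : c.q x y ≤ c.g.d x (g * y) :=
  Nat.sInf_le ⟨g, hg, rfl⟩

theorem q_le (c : Cone S) (x y : G) : c.q x y ≤ c.g.d x y := by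
  simpa using q_le_of c x y S.N.one_mem

theorem q_ex (c : Cone S) (x y : G) : ∃ g ∈ S.N, c.q x y = c.g.d x (g * y) := by
  have h : {k | ∃ h ∈ S.N, k = c.g.d x (h * y)}.Nonempty := ⟨_, 1, S.N.one_mem, rfl⟩
  obtain ⟨g, hg, h1⟩ := Nat.sInf_mem h
  exact ⟨g, hg, h1⟩

theorem q_eq (c : Cone S) {x y : G} (h : S.Rdc 15 x y) : c.q x y = c.g.d x y := by
  refine le_antisymm (q_le c x y) ?_
  obtain ⟨g, hg, h1⟩ := q_ex c x y
  rw [h1]
  exact PL c h hg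

/-- `q` is invariant under `N` in both arguments -/
theorem q_N_le (c : Cone S) (x y : G) {g g' : G} (hg : g ∈ S.N) (hg' : g' ∈ S.N) :
    c.q x y ≤ c.q (g * x) (g' * y) := by
  obtain ⟨h, hh, h1⟩ := q_ex c (g * x) (g' * y)
  rw [h1, show c.g.d (g * x) (h * (g' * y)) = c.g.d x (g⁻¹ * h * g' * y) by
    rw [← c.inv g⁻¹]; congr 1 <;> group]
  exact q_le_of c x y (S.N.mul_mem (S.N.mul_mem (S.N.inv_mem hg) hh) hg')

theorem q_N (c : Cone S) (x y : G) {g g' : G} (hg : g ∈ S.N) (hg' : g' ∈ S.N) :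
    c.q (g * x) (g' * y) = c.q x y := by
  refine le_antisymm ?_ (q_N_le c x y hg hg')
  have := q_N_le c (g * x) (g' * y) (S.N.inv_mem hg) (S.N.inv_mem hg')
  rwa [inv_mul_cancel_left, inv_mul_cancel_left] at this

theorem q_inv_le (c : Cone S) (a x y : G) : c.q (a * x) (a * y) ≤ c.q x y := by
  obtain ⟨h, hh, h1⟩ := q_ex c x y
  rw [h1, ← c.inv a, show a * (h * y) = (a * h * a⁻¹) * (a * y) by group]
  exact q_le_of c _ _ ((N_normal S).conj_mem h hh a)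

theorem q_inv (c : Cone S) (a x y : G) : c.q (a * x) (a * y) = c.q x y := by
  refine le_antisymm (q_inv_le c a x y) ?_
  have := q_inv_le c a⁻¹ (a * x) (a * y)
  rwa [inv_mul_cancel_left, inv_mul_cancel_left] at this

theorem q_symm (c : Cone S) (x y : G) : c.q x y = c.q y x := by
  have key : ∀ x y, c.q y x ≤ c.q x y := by
    intro x y
    obtain ⟨h, hh, h1⟩ := q_ex c x y
    rw [h1, c.g.symm, ← c.inv h⁻¹, inv_mul_cancel_left]
    exact q_le_of c y x (S.N.inv_mem hh)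
  exact le_antisymm (key y x) (key x y)

theorem q_tri (c : Cone S) (x y z : G) : c.q x z ≤ c.q x y + c.q y z := by
  obtain ⟨g, hg, h1⟩ := q_ex c x y
  obtain ⟨h, hh, h2⟩ := q_ex c y z
  rw [h1, h2, ← c.inv g y (h * z), ← mul_assoc]
  exact (q_le_of c x z (S.N.mul_mem hg hh)).trans (c.g.tri _ _ _)

/-- usable form of `line` -/
theorem line' (S : BSys G U n L) (ℓ : L) : ∃ (t : G → ℤ) (ρ : G), ρ ∈ S.rot ℓ ∧
    (∀ a ∈ S.Y ℓ, ∀ b ∈ S.Y ℓ, t a - t b ≤ S.d a b + 10 ^ 120 ∧ t b - t a ≤ S.d a b + 10 ^ 120 ∧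
      ((S.d a b : ℤ) ≤ t a - t b + 10 ^ 120 ∨ (S.d a b : ℤ) ≤ t b - t a + 10 ^ 120)) ∧
    (∀ a ∈ S.Y ℓ, t (ρ * a) ≤ t a + S.len ℓ + 10 ^ 120 ∧ t a + S.len ℓ ≤ t (ρ * a) + 10 ^ 120) ∧
    (∀ a ∈ S.Y ℓ, t (ρ⁻¹ * a) ≤ t a - S.len ℓ + 10 ^ 120 ∧ t a - S.len ℓ ≤ t (ρ⁻¹ * a) + 10 ^ 120) := by
  obtain ⟨t, ρ, hρ, h1, h2⟩ := S.line ℓ
  refine ⟨t, ρ, hρ, ?_, ?_, ?_⟩
  · intro a ha b hb
    obtain ⟨h3, h4⟩ := h1 a ha b hb
    have h6 := abs_le.1 h4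
    refine ⟨by omega, by omega, ?_⟩
    rcases abs_cases (t a - t b) with ⟨h5, _⟩ | ⟨h5, _⟩ <;> omega
  · intro a ha
    have := abs_le.1 (h2 a ha)
    omega
  · intro a ha
    have hr : ρ⁻¹ ∈ S.rot ℓ := (S.rot ℓ).inv_mem hρ
    have := abs_le.1 (h2 _ (rot_Y S hr ha))
    rw [mul_inv_cancel_left] at this
    omega

theorem addPt_aux {x y z : G} {k : ℕ} (hk : k ≤ 14) (ℓ : L) (h : 16 * S.D ℓ x y ≤ k * S.len ℓ)
    (hmin : ∀ r ∈ S.rot ℓ, S.d x z + S.d y z ≤ S.d x (r * z) + S.d y (r * z)) :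
    32 * S.D ℓ x z ≤ (17 + k) * S.len ℓ := by
  by_contra hcon
  push Not at hcon
  have hK : (17 + k) * S.len ℓ = 17 * S.len ℓ + k * S.len ℓ := by ring
  have hK2 : k * S.len ℓ ≤ 14 * S.len ℓ := Nat.mul_le_mul_right _ hk
  rw [hK] at hcon
  generalize k * S.len ℓ = K at *
  have hbig := S.len_big ℓ
  obtain ⟨a, ha⟩ := prj_nonempty S ℓ x
  obtain ⟨b, hb⟩ := prj_nonempty S ℓ y
  obtain ⟨c, hc⟩ := prj_nonempty S ℓ z
  have hac := D_prj S ℓ ha hc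
  have hab := D_prj S ℓ ha hb
  have htri := S.tri a b c
  have f1 := D_far S ℓ ha hc (by omega)
  have f2 := D_far S ℓ hb hc (by omega)
  obtain ⟨t, ρ, hρ, h1, h2, h3⟩ := line' S ℓ
  have g1 := h1 a ha.1 c hc.1
  have g2 := h1 b hb.1 c hc.1
  have g3 := h1 a ha.1 b hb.1
  have key : ∀ r ∈ S.rot ℓ, S.d a c + S.d b c ≤ S.d a (r * c) + S.d b (r * c) + 9200 := by
    intro r hr
    have e1 := S.tri x a (r * c)
    have e2 := S.tri x (r * c) (r * z)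
    have e3 := S.tri y b (r * c)
    have e4 := S.tri y (r * c) (r * z)
    have e5 := S.inv r c z
    have e6 := hmin r hr
    omega
  rcases le_total (t a) (t c) with hle | hle
  · have hr : ρ⁻¹ ∈ S.rot ℓ := (S.rot ℓ).inv_mem hρ
    have k1 := key _ hr
    have k2 := h3 c hc.1
    have k3 := h1 a ha.1 _ (rot_Y S hr hc.1)
    have k4 := h1 b hb.1 _ (rot_Y S hr hc.1)
    omega
  · have k1 := key _ hρ
    have k2 := h2 c hc.1
    have k3 := h1 a ha.1 _ (rot_Y S hρ hc.1)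
    have k4 := h1 b hb.1 _ (rot_Y S hρ hc.1)
    omega

theorem rot_N (S : BSys G U n L) {ℓ : L} {r : G} (hr : r ∈ S.rot ℓ) : r ∈ S.N :=
  Subgroup.subset_closure ⟨ℓ, hr⟩

theorem addPt (c : Cone S) {k : ℕ} (hk : k ≤ 14) {x y : G} (h : S.Rdc k x y) (z : G) :
    ∃ g ∈ S.N, ∀ ℓ, 32 * S.D ℓ x (g * z) ≤ (17 + k) * S.len ℓ ∧
      32 * S.D ℓ y (g * z) ≤ (17 + k) * S.len ℓ := by
  have hne : {m | ∃ g ∈ S.N, m = S.d x (g * z) + S.d y (g * z)}.Nonempty := ⟨_, 1, S.N.one_mem, rfl⟩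
  obtain ⟨g, hg, h1⟩ := Nat.sInf_mem hne
  have hmin : ∀ r ∈ S.N, S.d x (g * z) + S.d y (g * z) ≤ S.d x (r * (g * z)) + S.d y (r * (g * z)) := by
    intro r hr
    rw [← h1]
    exact Nat.sInf_le ⟨r * g, S.N.mul_mem hr hg, by rw [mul_assoc]⟩
  refine ⟨g, hg, fun ℓ => ⟨addPt_aux hk ℓ (h ℓ) fun r hr => hmin r (rot_N S hr),
    addPt_aux hk ℓ (by rw [D_comm]; exact h ℓ) fun r hr => ?_⟩⟩
  have := hmin r (rot_N S hr)
  omega

theorem addPt' (c : Cone S) {k k' : ℕ} (hk : k ≤ 14) (hk' : 17 + k ≤ 2 * k') {x y : G}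
    (h : S.Rdc k x y) (z : G) : ∃ g ∈ S.N, S.Rdc k' x (g * z) ∧ S.Rdc k' y (g * z) := by
  obtain ⟨g, hg, h1⟩ := addPt c hk h z
  refine ⟨g, hg, fun ℓ => ?_, fun ℓ => ?_⟩
  · have h2 := (h1 ℓ).1
    have h3 : (17 + k) * S.len ℓ ≤ (2 * k') * S.len ℓ := Nat.mul_le_mul_right _ hk'
    have h4 : 2 * k' * S.len ℓ = 2 * (k' * S.len ℓ) := by ring
    omega
  · have h2 := (h1 ℓ).2
    have h3 : (17 + k) * S.len ℓ ≤ (2 * k') * S.len ℓ := Nat.mul_le_mul_right _ hk'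
    have h4 : 2 * k' * S.len ℓ = 2 * (k' * S.len ℓ) := by ring
    omega

theorem rdc_self (S : BSys G U n L) (k : ℕ) (x : G) : S.Rdc k x x := fun ℓ => by
  rw [D_self]; omega

theorem rdc_symm {k : ℕ} {x y : G} (h : S.Rdc k x y) : S.Rdc k y x := fun ℓ => by
  rw [D_comm]; exact h ℓ

theorem rdc_mono {k k' : ℕ} (hk : k ≤ k') {x y : G} (h : S.Rdc k x y) : S.Rdc k' x y :=
  fun ℓ => (h ℓ).trans (Nat.mul_le_mul_right _ hk)

/-- lift of a pair -/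
theorem lift2 (c : Cone S) (x y : G) : ∃ g ∈ S.N, ∀ ℓ, 32 * S.D ℓ x (g * y) ≤ 17 * S.len ℓ := by
  obtain ⟨g, hg, h1⟩ := addPt c (k := 0) (by omega) (rdc_self S 0 x) y
  exact ⟨g, hg, fun ℓ => by simpa using (h1 ℓ).1⟩

theorem lift2' (c : Cone S) (x y : G) : ∃ g ∈ S.N, S.Rdc 9 x (g * y) := by
  obtain ⟨g, hg, h1⟩ := lift2 c x y
  exact ⟨g, hg, fun ℓ => by have := h1 ℓ; omega⟩

theorem q_hyp (c : Cone S) (x y z w : G) :
    c.q x z + c.q y w ≤ c.q x y + c.q z w + 200 ∨ c.q x z + c.q y w ≤ c.q x w + c.q y z + 200 := by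
  obtain ⟨g1, hg1, h1⟩ := lift2' c x z
  obtain ⟨g2, hg2, h2, h3⟩ := addPt' c (k' := 13) (by omega) (by omega) h1 y
  obtain ⟨g3, hg3, h4, h5⟩ := addPt' c (k' := 13) (by omega) (by omega) h1 w
  have e1 : c.q x (g1 * z) = c.q x z := by simpa using q_N c x z S.N.one_mem hg1
  have e2 : c.q x (g2 * y) = c.q x y := by simpa using q_N c x y S.N.one_mem hg2
  have e3 : c.q x (g3 * w) = c.q x w := by simpa using q_N c x w S.N.one_mem hg3
  have e4 := q_N c z y hg1 hg2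
  have e5 := q_N c z w hg1 hg3
  have e6 := q_N c y w hg2 hg3
  have f1 := q_eq c (rdc_mono (by omega) h1 : S.Rdc 15 _ _)
  have f2 := q_eq c (rdc_mono (by omega) h2 : S.Rdc 15 _ _)
  have f3 := q_eq c (rdc_mono (by omega) h3 : S.Rdc 15 _ _)
  have f4 := q_eq c (rdc_mono (by omega) h4 : S.Rdc 15 _ _)
  have f5 := q_eq c (rdc_mono (by omega) h5 : S.Rdc 15 _ _)
  have f6 := q_le c (g2 * y) (g3 * w)
  have s1 := q_symm c y z
  have s2 := c.g.symm (g2 * y) (g1 * z)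
  rcases c.g.hyp x (g2 * y) (g1 * z) (g3 * w) with h | h
  · left; omega
  · right; omega

/-- the quotient metric is a geodesic hyperbolic metric on `G ⧸ N` with the SAME constant. -/
theorem exists_quot (c : Cone S) (hN : S.N.Normal) :
    ∃ Q : GH (G ⧸ S.N) 200, ∀ x y : G, Q.d (x : G ⧸ S.N) (y : G ⧸ S.N) = c.q x y := by
  have hwd : ∀ a b a' b' : G, a⁻¹ * a' ∈ S.N → b⁻¹ * b' ∈ S.N → c.q a b = c.q a' b' := by
    intro a b a' b' h1 h2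
    have h3 : a' = (a * (a⁻¹ * a') * a⁻¹) * a := by group
    have h4 : b' = (b * (b⁻¹ * b') * b⁻¹) * b := by group
    rw [h3, h4]
    exact (q_N c a b (hN.conj_mem _ h1 a) (hN.conj_mem _ h2 b)).symm
  let D : G ⧸ S.N → G ⧸ S.N → ℕ := fun X Y => Quotient.liftOn₂' X Y c.q (by
    intro a b a' b' h1 h2
    rw [QuotientGroup.leftRel_apply] at h1 h2
    exact hwd _ _ _ _ h1 h2)
  have hD : ∀ x y : G, D (x : G ⧸ S.N) (y : G ⧸ S.N) = c.q x y := fun x y => rfl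
  refine ⟨⟨D, ?_, ?_, ?_, ?_, ?_, ?_⟩, hD⟩
  · intro X
    obtain ⟨x, rfl⟩ := QuotientGroup.mk_surjective X
    rw [hD]
    have := q_le c x x
    rw [c.g.self] at this
    omega
  · intro X Y h
    obtain ⟨x, rfl⟩ := QuotientGroup.mk_surjective X
    obtain ⟨y, rfl⟩ := QuotientGroup.mk_surjective Y
    rw [hD] at h
    obtain ⟨g, hg, h1⟩ := q_ex c x y
    have h2 := c.g.eq_of x (g * y) (by omega)
    rw [QuotientGroup.eq, h2]
    have := hN.conj_mem _ (S.N.inv_mem hg) y⁻¹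
    rw [inv_inv] at this
    convert this using 1
    group
  · intro X Y
    obtain ⟨x, rfl⟩ := QuotientGroup.mk_surjective X
    obtain ⟨y, rfl⟩ := QuotientGroup.mk_surjective Y
    rw [hD, hD]
    exact q_symm c x y
  · intro X Y Z
    obtain ⟨x, rfl⟩ := QuotientGroup.mk_surjective X
    obtain ⟨y, rfl⟩ := QuotientGroup.mk_surjective Y
    obtain ⟨z, rfl⟩ := QuotientGroup.mk_surjective Z
    rw [hD, hD, hD]
    exact q_tri c x y z
  · intro X Y t ht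
    obtain ⟨x, rfl⟩ := QuotientGroup.mk_surjective X
    obtain ⟨y, rfl⟩ := QuotientGroup.mk_surjective Y
    rw [hD] at ht ⊢
    obtain ⟨g, hg, h1⟩ := q_ex c x y
    obtain ⟨m, hm1, hm2⟩ := c.g.geo x (g * y) t (by omega)
    have h2 := q_le c x m
    have h3 := q_le c m (g * y)
    have h4 : c.q m (g * y) = c.q m y := by simpa using q_N c m y S.N.one_mem hg
    have h5 := q_tri c x m y
    exact ⟨(m : G ⧸ S.N), by rw [hD]; omega, by rw [hD]; omega⟩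
  · intro X Y Z W
    obtain ⟨x, rfl⟩ := QuotientGroup.mk_surjective X
    obtain ⟨y, rfl⟩ := QuotientGroup.mk_surjective Y
    obtain ⟨z, rfl⟩ := QuotientGroup.mk_surjective Z
    obtain ⟨w, rfl⟩ := QuotientGroup.mk_surjective W
    simp only [hD]
    exact q_hyp c x y z w

/-- `d`-geodesics between points at `d'`-distance `≤ R` stay `d'`-close -/
theorem cone_near_seg (c : Cone S) {x y m : G} (hm : S.d x m + S.d m y = S.d x y) :
    c.g.d x m + c.g.d m y ≤ c.g.d x y + 20 := by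
  obtain ⟨σ, hσ⟩ := exists_geod c.g x y
  obtain ⟨t, ht, h1⟩ := c.near x y m σ hσ hm
  have h2 := hσ.2.2 0 t (Nat.zero_le _) ht
  have h3 := hσ.2.2 t _ ht le_rfl
  rw [hσ.1] at h2
  rw [hσ.2.1] at h3
  have h4 := c.g.tri x (σ t) m
  have h5 := c.g.tri m (σ t) y
  have h6 := c.g.symm m (σ t)
  omega

/-- lifting the images of the two ends -/
theorem lift_ends (c : Cone S) {k : ℕ} (hk : k ≤ 9) {x y : G} (hxy : S.Rdc k x y) (f : G) :
    ∃ h₁ ∈ S.N, ∃ h₂ ∈ S.N, S.Rdc 13 x (h₁ * (f * y)) ∧ S.Rdc 13 y (h₁ * (f * y)) ∧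
      S.Rdc 15 x (h₂ * (f * x)) ∧ S.Rdc 15 (h₁ * (f * y)) (h₂ * (f * x)) := by
  obtain ⟨h₁, hh₁, a1, a2⟩ := addPt' c (k' := 13) (by omega) (by omega) (rdc_mono hk hxy) (f * y)
  obtain ⟨h₂, hh₂, a3, a4⟩ := addPt' c (k' := 15) (by omega) (by omega) a1 (f * x)
  exact ⟨h₁, hh₁, h₂, hh₂, a1, a2, a3, a4⟩

theorem rd_ne {x h : G} (hrd : S.Rd x h) : h = 1 ∨ ∃ ℓ, S.len ℓ ≤ S.D ℓ x (h * x) + 10 ^ 19 := by
  cases hrd with
  | one => exact Or.inl rfl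
  | @step ℓ r h' hr hr1 hred hlen => exact Or.inr ⟨ℓ, hlen⟩


end Run7.h253
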