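import Pool.Agent.Run7.h253.Line
import Pool.Agent.Run7.h253.QAc
import Pool.Agent.Run7.h253.Base

/-!
# Piece `tower`: iteration

From a stage on `F ⧸ N k` : `exists_bsys`, `exists_stage`, `N (k+1)` = preimage of the killed subgroup
(transport of a `Stage` along `(F ⧸ N k) ⧸ _ ≃* F ⧸ N (k+1)`).
`exhaust`: for `u ∈ U` the numbers `d 1 u` shrink (`10^18 d_{k+1} ≤ d_k + 10^18`) until `≤ 1 ≤ 10^6`; then `u`
is loxodromic and `u ∈ grp ℓ`, `u^n ∈ rot ℓ`, or `u^n = 1`.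
The basis of `N (k+1) / N k` comes from `free_basis` (piece `wind`), `N_inter` and `cyc`.
-/

set_option autoImplicit false

namespace Run7.h253

universe u

/-- a generator of each line and a free basis of the killed subgroup -/
theorem bsys_basis {G : Type u} [Group G] {U : Subgroup G} {n : ℕ} {L : Type u} [MulAction G L]
    (S : BSys G U n L) (hn : 1 ≤ n) :
    ∃ (x : L → G) (R : Set L), (∀ ℓ (k : ℤ), x ℓ ^ k = 1 → k = 0) ∧
      (∀ ℓ, S.grp ℓ = Subgroup.zpowers (x ℓ)) ∧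
      (∀ ℓ, S.rot ℓ = Subgroup.zpowers (x ℓ ^ n)) ∧
      (∀ ℓ, ∃ ρ ∈ R, ∃ h ∈ S.N, ℓ = h • ρ) ∧
      (∀ ρ ∈ R, ∀ ρ' ∈ R, ∀ h ∈ S.N, h • ρ = ρ' → ρ = ρ') ∧
      Function.Injective (FreeGroup.lift (fun ρ : R => x ρ.1 ^ n)) ∧
      (FreeGroup.lift (fun ρ : R => x ρ.1 ^ n)).range = S.N := by
  choose x hx hxr using S.cyc
  have hx1 : ∀ ℓ, x ℓ ^ n ≠ 1 := by
    intro ℓ h
    obtain ⟨t, ρ, hρ, -, h2⟩ := S.line ℓ
    rw [hxr, h, Subgroup.zpowers_one_eq_bot] at hρ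
    have hρ1 : ρ = 1 := Subgroup.mem_bot.1 hρ
    obtain ⟨a, ha⟩ := S.Y_ne ℓ
    have h3 := h2 a ha
    rw [hρ1, one_mul, sub_self, zero_sub, abs_neg, Nat.abs_cast] at h3
    have h4 := S.len_big ℓ
    omega
  have hlx : ∀ ℓ, Lox S.d (x ℓ) := by
    intro ℓ
    apply S.lox_grp ℓ
    · rw [hx]; exact Subgroup.mem_zpowers _
    · intro h
      exact hx1 ℓ (by rw [h, one_pow])
  have hinf : ∀ ℓ (k : ℤ), (x ℓ ^ n) ^ k = 1 → k = 0 := by
    intro ℓ k hk
    by_contra hk0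
    have h1 : x ℓ ^ (n * k.natAbs) = 1 := by
      rw [pow_mul]
      rcases Int.natAbs_eq k with e | e
      · rw [e, zpow_natCast] at hk
        exact hk
      · rw [e, zpow_neg, inv_eq_one, zpow_natCast] at hk
        exact hk
    exact not_lox_of_pow S.toGH S.inv (x ℓ) (Nat.mul_pos hn (Int.natAbs_pos.2 hk0)) h1 (hlx ℓ)
  obtain ⟨R, r1, r2, r3, r4⟩ := free_basis (sys S) (1 : G) (fun ℓ => x ℓ ^ n) hxr hinf
    (fun ℓ h hh hfix h1 => by
      have hU : h ∈ U := N_le S hh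
      have hg := S.stab ℓ h hU hfix
      have hr := N_inter S ℓ hh hg
      exact ⟨1, by rw [pow_one]; exact hr, by rw [pow_one]; exact h1⟩)
  refine ⟨x, R, ?_, hx, hxr, r1, r2, r3, r4⟩
  intro ℓ k hk
  apply hinf ℓ
  rw [← zpow_natCast, ← zpow_mul, mul_comm, zpow_mul, hk, one_zpow]

/-- output of the geometric construction -/
structure Tower (F : Type u) [Group F] (U : Subgroup F) (n : ℕ) where
  N : ℕ → Subgroup F
  zero : N 0 = ⊥
  normal : ∀ k, (N k).Normal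
  mono : ∀ k, N k ≤ N (k + 1)
  le : ∀ k, N k ≤ U
  /-- the lines of stage `k`: an `F`-set -/
  L : ℕ → Type u
  [act : ∀ k, MulAction F (L k)]
  /-- lift to `F` of a generator of the group of a line -/
  gen : ∀ k, L k → F
  gen_mem : ∀ k (ℓ : L k), gen k ℓ ∈ U
  gen_smul : ∀ k (ℓ : L k) (g : F), (∃ h ∈ N k, g * gen k ℓ * g⁻¹ = gen k (g • ℓ) * h) ∨
    (∃ h ∈ N k, g * gen k ℓ * g⁻¹ = (gen k (g • ℓ))⁻¹ * h)
  triv : ∀ k (ℓ : L k), ∀ h ∈ N k, h • ℓ = ℓ
  gen_fix : ∀ k (ℓ : L k), gen k ℓ • ℓ = ℓ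
  stab : ∀ k (ℓ : L k), ∀ g ∈ U, g • ℓ = ℓ → ∃ (a : ℤ), ∃ h ∈ N k, g = gen k ℓ ^ a * h
  R : ∀ k, Set (L k)
  R_cover : ∀ k (ℓ : L k), ∃ ρ ∈ R k, ∃ h ∈ N (k + 1), ℓ = h • ρ
  R_inj : ∀ k, ∀ ρ ∈ R k, ∀ ρ' ∈ R k, ∀ h ∈ N (k + 1), h • ρ = ρ' → ρ = ρ'
  /-- `N (k+1) / N k` is free on the `n`-th powers of the generators of the lines of `R k` -/
  basis_inj : ∀ k (w : FreeGroup (R k)),
    FreeGroup.lift (fun ρ : R k => gen k ρ.1 ^ n) w ∈ N k → w = 1
  basis_gen : ∀ k, N (k + 1) = N k ⊔ (FreeGroup.lift (fun ρ : R k => gen k ρ.1 ^ n)).range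
  exhaust : ∀ u ∈ U, ∃ k, u ^ n ∈ N k

/-- a state of the construction -/
structure St (F : Type u) [Group F] (U : Subgroup F) (n : ℕ) where
  G : Type u
  [grp : Group G]
  π : F →* G
  surj : Function.Surjective π
  le : π.ker ≤ U
  S : Stage G (U.map π) n

attribute [instance] St.grp

/-- the data between two states -/
structure Lvl {F : Type u} [Group F] (U : Subgroup F) (n : ℕ) (N N' : Subgroup F) where
  L : Type u
  [act : MulAction F L]
  gen : L → F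
  gen_mem : ∀ (ℓ : L), gen ℓ ∈ U
  gen_smul : ∀ (ℓ : L) (g : F), (∃ h ∈ N, g * gen ℓ * g⁻¹ = gen (g • ℓ) * h) ∨
    (∃ h ∈ N, g * gen ℓ * g⁻¹ = (gen (g • ℓ))⁻¹ * h)
  triv : ∀ (ℓ : L), ∀ h ∈ N, h • ℓ = ℓ
  gen_fix : ∀ (ℓ : L), gen ℓ • ℓ = ℓ
  stab : ∀ (ℓ : L), ∀ g ∈ U, g • ℓ = ℓ → ∃ (a : ℤ), ∃ h ∈ N, g = gen ℓ ^ a * h
  R : Set L
  R_cover : ∀ (ℓ : L), ∃ ρ ∈ R, ∃ h ∈ N', ℓ = h • ρ
  R_inj : ∀ ρ ∈ R, ∀ ρ' ∈ R, ∀ h ∈ N', h • ρ = ρ' → ρ = ρ'
  basis_inj : ∀ (w : FreeGroup R), FreeGroup.lift (fun ρ : R => gen ρ.1 ^ n) w ∈ N → w = 1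
  basis_gen : N' = N ⊔ (FreeGroup.lift (fun ρ : R => gen ρ.1 ^ n)).range

/-- two generators of an infinite cyclic group -/
theorem gen_pm {G : Type*} [Group G] {x y : G} (hinf : ∀ k : ℤ, x ^ k = 1 → k = 0)
    (h1 : y ∈ Subgroup.zpowers x) (h2 : x ∈ Subgroup.zpowers y) : y = x ∨ y = x⁻¹ := by
  obtain ⟨a, rfl⟩ := h1
  obtain ⟨b, hb⟩ := h2
  have hb' : (x ^ a) ^ b = x := hb
  have h3 : x ^ (a * b - 1) = 1 := by
    rw [zpow_sub, zpow_mul, hb', zpow_one, mul_inv_cancel]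
  have h4 := hinf _ h3
  have h5 : a * b = 1 := by omega
  rcases Int.eq_one_or_neg_one_of_mul_eq_one h5 with h | h
  · left
    show x ^ a = x
    rw [h, zpow_one]
  · right
    show x ^ a = x⁻¹
    rw [h, zpow_neg, zpow_one]

theorem exists_step {F : Type u} [Group F] (U : Subgroup F) [hU : U.Normal] {n : ℕ} (hn : n.Prime)
    (hbig : 10 ^ 170 ≤ n) (s : St F U n) : ∃ s' : St F U n,
      Nonempty (Lvl U n s.π.ker s'.π.ker) ∧
      (∀ u : F, 10 ^ 18 * s'.S.d 1 (s'.π u) ≤ s.S.d 1 (s.π u) + 10 ^ 18) ∧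
      (∀ u ∈ U, s.S.d 1 (s.π u) ≤ 10 ^ 6 → u ^ n ∈ s'.π.ker) := by
  have hUn : (U.map s.π).Normal := hU.map s.π s.surj
  obtain ⟨L, act, B, hB⟩ := exists_bsys hn hbig s.S
  have hBd : B.d = s.S.d := by rw [hB]
  have hN : B.N.Normal := N_normal B
  obtain ⟨S0, hS0⟩ := exists_stage B
  have hker : ((QuotientGroup.mk' B.N).comp s.π).ker = B.N.comap s.π := by
    rw [← MonoidHom.comap_ker, QuotientGroup.ker_mk']
  have hle : s.π.ker ≤ B.N.comap s.π := by
    intro x hx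
    rw [Subgroup.mem_comap, MonoidHom.mem_ker.1 hx]
    exact one_mem _
  have hmapeq : U.map ((QuotientGroup.mk' B.N).comp s.π) =
      (U.map s.π).map (QuotientGroup.mk' B.N) := by
    rw [Subgroup.map_map]
  obtain ⟨S', hS'⟩ : ∃ S' : Stage (s.G ⧸ B.N) (U.map ((QuotientGroup.mk' B.N).comp s.π)) n,
      ∀ g : s.G, 10 ^ 18 * S'.d 1 (g : s.G ⧸ B.N) ≤ B.d 1 g + 10 ^ 18 := by
    rw [hmapeq]
    exact ⟨S0, hS0⟩
  let s' : St F U n := {
    G := s.G ⧸ B.N
    π := (QuotientGroup.mk' B.N).comp s.π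
    surj := (QuotientGroup.mk'_surjective B.N).comp s.surj
    le := by
      rw [hker]
      intro x hx
      have h1 : s.π x ∈ U.map s.π := N_le B hx
      obtain ⟨y, hy, e⟩ := h1
      have h2 : y⁻¹ * x ∈ s.π.ker := by
        rw [MonoidHom.mem_ker, map_mul, map_inv, e, inv_mul_cancel]
      have h3 : x = y * (y⁻¹ * x) := by group
      rw [h3]
      exact mul_mem hy (s.le h2)
    S := S' }
  have hmem : ∀ x : F, x ∈ s'.π.ker ↔ s.π x ∈ B.N := by
    intro x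
    show x ∈ ((QuotientGroup.mk' B.N).comp s.π).ker ↔ _
    rw [hker, Subgroup.mem_comap]
  refine ⟨s', ?_, ?_, ?_⟩
  · obtain ⟨x, R, hinf, hx, hxr, r1, r2, r3, r4⟩ := bsys_basis B hn.one_le
    have hlift : ∀ ℓ, ∃ y ∈ U, s.π y = x ℓ := by
      intro ℓ
      have : x ℓ ∈ U.map s.π := B.grp_le ℓ (by rw [hx]; exact Subgroup.mem_zpowers _)
      obtain ⟨y, hy, e⟩ := this
      exact ⟨y, hy, e⟩
    choose gen hgenU hgen using hlift
    let actF : MulAction F L := MulAction.compHom L s.π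
    have hsm : ∀ (g : F) (ℓ : L), g • ℓ = s.π g • ℓ := fun _ _ => rfl
    have hφ : ∀ w : FreeGroup R, s.π (FreeGroup.lift (fun ρ : R => gen ρ.1 ^ n) w) =
        FreeGroup.lift (fun ρ : R => x ρ.1 ^ n) w := by
      intro w
      have : (s.π.comp (FreeGroup.lift (fun ρ : R => gen ρ.1 ^ n))) =
          FreeGroup.lift (fun ρ : R => x ρ.1 ^ n) := by
        ext ρ
        simp [hgen]
      rw [← this]
      rfl
    refine ⟨{
      L := L
      act := actF
      gen := gen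
      gen_mem := hgenU
      gen_smul := ?_
      triv := ?_
      gen_fix := ?_
      stab := ?_
      R := R
      R_cover := ?_
      R_inj := ?_
      basis_inj := ?_
      basis_gen := ?_ }⟩
    · intro ℓ g
      have h1 : s.π g * x ℓ * (s.π g)⁻¹ ∈ Subgroup.zpowers (x (s.π g • ℓ)) := by
        rw [← hx]
        exact B.grp_smul _ _ _ (by rw [hx]; exact Subgroup.mem_zpowers _)
      have h2 : x (s.π g • ℓ) ∈ Subgroup.zpowers (s.π g * x ℓ * (s.π g)⁻¹) := by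
        have := B.grp_smul (s.π g)⁻¹ (s.π g • ℓ) (x (s.π g • ℓ))
          (by rw [hx]; exact Subgroup.mem_zpowers _)
        rw [inv_smul_smul, inv_inv, hx] at this
        obtain ⟨k, hk⟩ := this
        have hk' : x ℓ ^ k = (s.π g)⁻¹ * x (s.π g • ℓ) * s.π g := hk
        refine ⟨k, ?_⟩
        show (s.π g * x ℓ * (s.π g)⁻¹) ^ k = _
        rw [conj_zpow, hk']
        group
      rcases gen_pm (hinf (s.π g • ℓ)) h1 h2 with h3 | h3
      · left
        refine ⟨(gen (g • ℓ))⁻¹ * (g * gen ℓ * g⁻¹), ?_, by group⟩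
        rw [MonoidHom.mem_ker, map_mul, map_mul, map_mul, map_inv, map_inv, hgen, hgen, h3, hsm,
          inv_mul_cancel]
      · right
        refine ⟨gen (g • ℓ) * (g * gen ℓ * g⁻¹), ?_, by group⟩
        rw [MonoidHom.mem_ker, map_mul, map_mul, map_mul, map_inv, hgen, hgen, h3, hsm,
          mul_inv_cancel]
    · intro ℓ h hh
      rw [hsm, MonoidHom.mem_ker.1 hh, one_smul]
    · intro ℓ
      rw [hsm, hgen]
      exact B.grp_fix ℓ _ (by rw [hx]; exact Subgroup.mem_zpowers _)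
    · intro ℓ g hg hfix
      have h1 := B.stab ℓ (s.π g) ⟨g, hg, rfl⟩ hfix
      rw [hx] at h1
      obtain ⟨a, ha⟩ := h1
      have ha' : x ℓ ^ a = s.π g := ha
      refine ⟨a, (gen ℓ ^ a)⁻¹ * g, ?_, by group⟩
      rw [MonoidHom.mem_ker, map_mul, map_inv, map_zpow, hgen, ha', inv_mul_cancel]
    · intro ℓ
      obtain ⟨ρ, hρ, h, hh, e⟩ := r1 ℓ
      obtain ⟨h', rfl⟩ := s.surj h
      exact ⟨ρ, hρ, h', (hmem h').2 hh, e⟩
    · intro ρ hρ ρ' hρ' h hh e
      exact r2 ρ hρ ρ' hρ' (s.π h) ((hmem h).1 hh) e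
    · intro w hw
      apply r3
      rw [map_one, ← hφ]
      exact hw
    · apply le_antisymm
      · intro y hy
        have h1 := (hmem y).1 hy
        rw [← r4] at h1
        obtain ⟨w, hw⟩ := h1
        have h2 : y = (y * (FreeGroup.lift (fun ρ : R => gen ρ.1 ^ n) w)⁻¹) *
            FreeGroup.lift (fun ρ : R => gen ρ.1 ^ n) w := by group
        rw [h2]
        apply Subgroup.mul_mem_sup
        · rw [MonoidHom.mem_ker, map_mul, map_inv, hφ, hw, mul_inv_cancel]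
        · exact ⟨w, rfl⟩
      · rw [sup_le_iff]
        constructor
        · intro y hy
          rw [hmem]
          exact hle hy
        · rintro _ ⟨w, rfl⟩
          rw [hmem, hφ, ← r4]
          exact ⟨w, rfl⟩
  · intro u
    have h1 := hS' (s.π u)
    rw [hBd] at h1
    exact h1
  · intro u hu hd
    rw [hmem, map_pow]
    have hpu : s.π u ∈ U.map s.π := ⟨u, hu, rfl⟩
    rcases B.ell (s.π u) hpu with hl | hl
    · obtain ⟨ℓ, hℓ⟩ := B.lox_small (s.π u) hpu hl 1 (by rw [hBd, mul_one]; exact hd)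
      exact Subgroup.subset_closure ⟨ℓ, B.pow_mem ℓ _ hℓ⟩
    · rw [hl]
      exact one_mem _

theorem exists_tower (X : Type) (U : Subgroup (FreeGroup X)) [U.Normal] {n : ℕ} (hn : n.Prime)
    (hbig : 10 ^ 170 ≤ n) : Nonempty (Tower (FreeGroup X) U n) := by
  obtain ⟨S0⟩ := base_stage X U n
  obtain ⟨S1⟩ : Nonempty (Stage (FreeGroup X) (U.map (MonoidHom.id (FreeGroup X))) n) := by
    rw [Subgroup.map_id]
    exact ⟨S0⟩
  let s0 : St (FreeGroup X) U n := {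
    G := FreeGroup X
    π := MonoidHom.id _
    surj := Function.surjective_id
    le := by
      have : (MonoidHom.id (FreeGroup X)).ker = ⊥ := by
        ext x
        simp [MonoidHom.mem_ker]
      rw [this]
      exact bot_le
    S := S1 }
  choose f hl hd he using fun s : St (FreeGroup X) U n => exists_step U hn hbig s
  obtain ⟨σ, hσ0, hσ⟩ : ∃ σ : ℕ → St (FreeGroup X) U n, σ 0 = s0 ∧ ∀ k, σ (k + 1) = f (σ k) :=
    ⟨fun k => Nat.rec s0 (fun _ s => f s) k, rfl, fun _ => rfl⟩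
  have hlv : ∀ k : ℕ, Nonempty (Lvl U n (σ k).π.ker (σ (k + 1)).π.ker) := by
    intro k
    rw [hσ]
    exact hl (σ k)
  let lv : ∀ k : ℕ, Lvl U n (σ k).π.ker (σ (k + 1)).π.ker := fun k => (hlv k).some
  have hnorm : ∀ k, (σ k).π.ker.Normal := fun k => by
    let s : St (FreeGroup X) U n := σ k
    exact (inferInstance : s.π.ker.Normal)
  refine ⟨{
    N := fun k => (σ k).π.ker
    zero := ?_
    normal := hnorm
    mono := ?_
    le := fun k => (σ k).le
    L := fun k => (lv k).L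
    act := fun k => (lv k).act
    gen := fun k => (lv k).gen
    gen_mem := fun k => (lv k).gen_mem
    gen_smul := fun k => (lv k).gen_smul
    triv := fun k => (lv k).triv
    gen_fix := fun k => (lv k).gen_fix
    stab := fun k => (lv k).stab
    R := fun k => (lv k).R
    R_cover := fun k => (lv k).R_cover
    R_inj := fun k => (lv k).R_inj
    basis_inj := fun k => (lv k).basis_inj
    basis_gen := fun k => (lv k).basis_gen
    exhaust := ?_ }⟩
  · show (σ 0).π.ker = ⊥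
    rw [hσ0]
    show (MonoidHom.id (FreeGroup X)).ker = ⊥
    ext x
    simp [MonoidHom.mem_ker]
  · intro k
    show (σ k).π.ker ≤ (σ (k + 1)).π.ker
    rw [(lv k).basis_gen]
    exact le_sup_left
  · intro u hu
    have key : ∀ m k : ℕ, (σ k).S.d 1 ((σ k).π u) ≤ m → ∃ k, (σ k).S.d 1 ((σ k).π u) ≤ 10 ^ 6 := by
      intro m
      induction m with
      | zero => exact fun k h => ⟨k, by omega⟩
      | succ m ih =>
        intro k h
        by_cases h2 : (σ k).S.d 1 ((σ k).π u) ≤ 10 ^ 6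
        · exact ⟨k, h2⟩
        · apply ih (k + 1)
          have h3 : 10 ^ 18 * (σ (k + 1)).S.d 1 ((σ (k + 1)).π u) ≤
            (σ k).S.d 1 ((σ k).π u) + 10 ^ 18 := by
            rw [hσ]
            exact hd (σ k) u
          omega
    obtain ⟨k, hk⟩ := key _ 0 le_rfl
    refine ⟨k + 1, ?_⟩
    show u ^ n ∈ (σ (k + 1)).π.ker
    rw [hσ]
    exact he (σ k) u hu hk

end Run7.h253
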